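import Pool.Agent.Lib.MP_4e5fcd_ag.LF.Defs

/-!
# Weighted homogeneous ideals: definitions of the statement

`f : Fin r → MvPolynomial (Fin N) ℂ` are weighted homogeneous polynomials of degrees
`d : Fin r → ℕ` for the weights `w : Fin N → ℕ`.
-/

open MvPolynomial

namespace MotMono
namespace WH

variable {N r : ℕ}

/-- the gradient of `g` at `c` -/
noncomputable def grad (g : MvPolynomial (Fin N) ℂ) (c : Fin N → ℂ) : Fin N → ℂ :=
  fun i => eval c (pderiv i g)

/-- Near `c` the ideal `J` is generated by finitely many elements with linearly independent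
gradients at `c` (the scheme `V(J)` is smooth at `c`, if `c` is in `V(J)`). -/
def SmoothAt (J : Ideal (MvPolynomial (Fin N) ℂ)) (c : Fin N → ℂ) : Prop :=
  ∃ (m : ℕ) (g : Fin m → MvPolynomial (Fin N) ℂ) (h : MvPolynomial (Fin N) ℂ), (∀ k, g k ∈ J) ∧
    LinearIndependent ℂ (fun k => grad (g k) c) ∧ eval c h ≠ 0 ∧
    ∀ q ∈ J, h * q ∈ Ideal.span (Set.range g)

/-- the truncation: the ideal generated by the `f j` of degree at most `e` -/
noncomputable def trn (d : Fin r → ℕ) (f : Fin r → MvPolynomial (Fin N) ℂ) (e : ℕ) :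
    Ideal (MvPolynomial (Fin N) ℂ) :=
  Ideal.span {g | ∃ j, d j ≤ e ∧ g = f j}

/-- the rank at `c` of the gradients of the `f j` of degree at most `e` -/
noncomputable def rk (d : Fin r → ℕ) (f : Fin r → MvPolynomial (Fin N) ℂ) (c : Fin N → ℂ)
    (e : ℕ) : ℕ :=
  Module.finrank ℂ (Submodule.span ℂ {v | ∃ j, d j ≤ e ∧ v = grad (f j) c})

/-- `e` is a jump at `c`: all `f j` of degree less than `e` vanish at `c`, and either some `f j` of
degree `e` does not vanish at `c`, or the rank increases at `e`. -/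
def Jump (d : Fin r → ℕ) (f : Fin r → MvPolynomial (Fin N) ℂ) (c : Fin N → ℂ) (e : ℕ) : Prop :=
  (∀ j, d j < e → eval c (f j) = 0) ∧
    ((∃ j, d j = e ∧ eval c (f j) ≠ 0) ∨ rk d f c (e - 1) < rk d f c e)

/-- the sum of the weights minus the sum of the jumps `i < e` of the rank, counted with
multiplicity -/
noncomputable def pn (w : Fin N → ℕ) (d : Fin r → ℕ) (f : Fin r → MvPolynomial (Fin N) ℂ)
    (c : Fin N → ℂ) (e : ℕ) : ℤ :=
  ∑ i, (w i : ℤ) - ∑ i ∈ Finset.range e, (i : ℤ) * ((rk d f c i : ℤ) - rk d f c (i - 1))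

/-- The fixed points of the `m`-th power of the monodromy `x ↦ (exp (2πi w_i / e) x_i)` on the
fibre `{f j = 0 (d j < e), f j = y j (d j = e)}`. -/
def fibre (w : Fin N → ℕ) (d : Fin r → ℕ) (f : Fin r → MvPolynomial (Fin N) ℂ) (e : ℕ)
    (y : Fin r → ℂ) (m : ℕ) : Set (Fin N → ℂ) :=
  {x | (∀ j, d j < e → eval x (f j) = 0) ∧ (∀ j, d j = e → eval x (f j) = y j) ∧
    ∀ i, ¬ e ∣ m * w i → x i = 0}

/-- `lam` is a zero or pole of the zeta function of the monodromy of one of the fibres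
`{f j = 0 (d j < e), f j = y j (d j = e)}`, where `y j ≠ 0` for some `j` with `d j = e`. -/
def Eig (χ : K0 →+* ℤ) (w : Fin N → ℕ) (d : Fin r → ℕ) (f : Fin r → MvPolynomial (Fin N) ℂ)
    (lam : ℂ) : Prop :=
  ∃ (e : ℕ) (y : Fin r → ℂ), (∃ j, d j = e ∧ y j ≠ 0) ∧
    ∃ Z, IsZeta (fun m => χ (cls (fibre w d f e y m))) Z ∧ ZeroOrPole Z lam

end WH
end MotMono
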