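import Pool.Agent.Lib.MP_4e5fcd_ag.CN.Base
import Pool.Agent.Lib.MP_4e5fcd_ag.WH.Defs

/-!
# WH-Base: notation for the proof

`M` is a common multiple of the weights (`M = ∏ w i` in the end).
-/

open MvPolynomial

namespace MotMono
namespace WH

variable {N r : ℕ}

/-- the assumptions on weights and degrees -/
structure Wt (w : Fin N → ℕ) (d : Fin r → ℕ) (f : Fin r → MvPolynomial (Fin N) ℂ) : Prop where
  w_pos : ∀ i, 0 < w i
  d_pos : ∀ j, 0 < d j
  hom : ∀ j, IsWeightedHomogeneous w (f j) (d j)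

/-- `n`-jets at the origin along which all `f j` vanish to order `K` -/
def AS (f : Fin r → MvPolynomial (Fin N) ℂ) (n K : ℕ) : Set (Fin N × Fin (n + 1) → ℂ) :=
  {γ | (∀ i, γ (i, 0) = 0) ∧ ∀ j, ∀ l < K, (along (f j) γ).coeff l = 0}

/-- the measure of the set of arcs at the origin along which all `f j` vanish to order `K` -/
noncomputable def mu (f : Fin r → MvPolynomial (Fin N) ℂ) (K : ℕ) : MC :=
  algebraMap K0 MC (cls (AS f K K)) * ((Lu ^ (-(N * (K + 1) : ℤ)) : MCˣ) : MC)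

/-- the jets of weighted order at least `h / M` -/
def Low (w : Fin N → ℕ) (M h : ℕ) {n : ℕ} (γ : Fin N × Fin (n + 1) → ℂ) : Prop :=
  ∀ i (l : Fin (n + 1)), (l : ℕ) * M < h * w i → γ (i, l) = 0

/-- the coefficients of weighted order exactly `h / M` -/
noncomputable def lead (w : Fin N → ℕ) (M h : ℕ) {n : ℕ} (γ : Fin N × Fin (n + 1) → ℂ) :
    Fin N → ℂ :=
  fun i => if hq : M ∣ h * w i ∧ h * w i / M < n + 1 then γ (i, ⟨h * w i / M, hq.2⟩) else 0

/-- the possible values of `lead` -/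
def FixH (w : Fin N → ℕ) (M h : ℕ) : Set (Fin N → ℂ) :=
  {c | ∀ i, ¬ M ∣ h * w i → c i = 0}

/-- a bound for the degrees -/
def dmax (d : Fin r → ℕ) : ℕ := ∑ j, d j

/-- `E` is the least degree of an `f j` which does not vanish at `c` (`E = dmax d + 1` if all vanish)
and the gradients at `c` of the `f b`, `b ∈ B`, are a basis of the span of the gradients of the
`f j` of degree `< E`, compatible with the degrees. -/
structure Adm (d : Fin r → ℕ) (f : Fin r → MvPolynomial (Fin N) ℂ) (c : Fin N → ℂ)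
    (E : ℕ) (B : Finset (Fin r)) : Prop where
  le : E ≤ dmax d + 1
  van : ∀ j, d j < E → eval c (f j) = 0
  top : E ≤ dmax d → ∃ j, d j = E ∧ eval c (f j) ≠ 0
  lt : ∀ b ∈ B, d b < E
  ind : LinearIndependent ℂ (fun b : B => grad (f b) c)
  mem : ∀ j, d j < E → grad (f j) c ∈ Submodule.span ℂ {v | ∃ b ∈ B, d b ≤ d j ∧ v = grad (f b) c}

/-- near `c` every `f j` of degree `< E` is in the ideal generated by the `f b`, `b ∈ B`,
`d b ≤ d j` -/
def Gen (d : Fin r → ℕ) (f : Fin r → MvPolynomial (Fin N) ℂ) (c : Fin N → ℂ)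
    (E : ℕ) (B : Finset (Fin r)) : Prop :=
  ∀ j, d j < E → ∃ h, eval c h ≠ 0 ∧ h * f j ∈ Ideal.span {g | ∃ b ∈ B, d b ≤ d j ∧ g = f b}

/-- the jets of weighted order `h / M` with leading coefficients in `S` along which the `f b`,
`b ∈ B`, vanish to order `K` -/
def Sec (w : Fin N → ℕ) (M : ℕ) (f : Fin r → MvPolynomial (Fin N) ℂ) (B : Finset (Fin r))
    (S : Set (Fin N → ℂ)) (h K n : ℕ) : Set (Fin N × Fin (n + 1) → ℂ) :=
  {γ | Low w M h γ ∧ lead w M h γ ∈ S ∧ ∀ b ∈ B, ∀ l < K, (along (f b) γ).coeff l = 0}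

/-- the jets of weighted order at least `K / dm` -/
def Ball (w : Fin N → ℕ) (dm K n : ℕ) : Set (Fin N × Fin (n + 1) → ℂ) :=
  {γ | Low w dm K γ}

/-- `τ`-jets (`τ ^ M = t`) with base point in `S` which come from jets of weighted order `h / M`,
along which the `f b`, `b ∈ B`, vanish to order `K M - h d b` -/
def TS (w : Fin N → ℕ) (d : Fin r → ℕ) (M : ℕ) (f : Fin r → MvPolynomial (Fin N) ℂ)
    (B : Finset (Fin r)) (S : Set (Fin N → ℂ)) (h K : ℕ) : Set (Fin N × Fin (K * M + 1) → ℂ) :=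
  {z | (fun i => z (i, 0)) ∈ S ∧ (∀ i (v : Fin (K * M + 1)), ¬ M ∣ (v : ℕ) + h * w i → z (i, v) = 0) ∧
    ∀ b ∈ B, ∀ v, v + h * d b < K * M → (along (f b) z).coeff v = 0}

open Classical in
/-- the polynomials `f b`, `b ∈ B`, at the places `φ b`, and the coordinates at the other places -/
noncomputable def uu (f : Fin r → MvPolynomial (Fin N) ℂ) (B : Finset (Fin r)) (φ : Fin r → Fin N) :
    Fin N → MvPolynomial (Fin N) ℂ :=
  fun i => if h : ∃ b ∈ B, φ b = i then f h.choose else X i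

/-- contact jets: all `f j` vanish to order `m`, the coefficient `m` of `f j` is `y j` for `d j = e`
and `0` for `d j ≠ e` -/
def CAF (d : Fin r → ℕ) (f : Fin r → MvPolynomial (Fin N) ℂ) (e : ℕ) (y : Fin r → ℂ) (m : ℕ) :
    Set (Fin N × Fin (m + 1) → ℂ) :=
  {γ | (∀ i, γ (i, 0) = 0) ∧ ∀ j, (∀ l < m, (along (f j) γ).coeff l = 0) ∧
    (along (f j) γ).coeff m = if d j = e then y j else 0}

/-- the points with support `A` -/
def TA (A : Finset (Fin N)) : Set (Fin N → ℂ) := {x | ∀ i, x i ≠ 0 ↔ i ∈ A}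

/-- a monomial with integral exponents -/
noncomputable def mon (A : Finset (Fin N)) (u : Fin N → ℤ) (x : Fin N → ℂ) : ℂ :=
  ∏ i ∈ A, x i ^ u i

/-- the slice of the fibre -/
def QA (d : Fin r → ℕ) (f : Fin r → MvPolynomial (Fin N) ℂ) (A : Finset (Fin N)) (u : Fin N → ℤ)
    (e : ℕ) (y : Fin r → ℂ) (j₀ : Fin r) : Set (Fin N → ℂ) :=
  {x | x ∈ TA A ∧ mon A u x = 1 ∧ (∀ j, d j < e → eval x (f j) = 0) ∧
    (∀ j, d j = e → eval x (f j) = y j * eval x (f j₀)) ∧ eval x (f j₀) ≠ 0}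

/-- the condition on `h`: the sector `h` contributes to order `K` -/
def Rng (d : Fin r → ℕ) (M dm E h K : ℕ) : Prop :=
  1 ≤ h ∧ h * dm < K * M ∧ (E ≤ dmax d → K * M ≤ h * E)

/-- the exponent of the sector `h` -/
def expn (w : Fin N → ℕ) (d : Fin r → ℕ) (M : ℕ) (B : Finset (Fin r)) (h K : ℕ) : ℤ :=
  N + ∑ i, ((h * w i / M : ℕ) : ℤ) + ∑ b ∈ B, ((K - 1 - h * d b / M : ℕ) : ℤ)

/-- `κ(e) = |w| + ∑_{b ∈ B, d b < e} (e - d b)` -/
def kap (w : Fin N → ℕ) (d : Fin r → ℕ) (B : Finset (Fin r)) (e : ℕ) : ℤ :=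
  ∑ i, (w i : ℤ) + ∑ b ∈ B with d b < e, ((e : ℤ) - d b)

end WH
end MotMono
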