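import Pool.Agent.Lib.MP_4e5fcd_ag.CN.E1
import Pool.Agent.Lib.MP_4e5fcd_ag.WH.Base

/-!
# WH-B1: weighted order

For `Low w M h γ` put `yy i = ∑_l γ (i, l) τ^(l M - h w_i)` (over the `l` with `h w_i ≤ l M`). Then
`arc γ i (τ^M) = τ^(h w_i) yy i`, so for `g` weighted homogeneous of degree `e`:
`g (γ (τ^M)) = τ^(h e) g (yy)` (`expand_along`; for weighted homogeneous `g`,
`aeval (fun i => X^(h w_i) * v i) g = X^(h e) * aeval v g`: sum over monomials, compare `v4_scale` in
CN-V4). `low_coeff`, `eq_coeff`, `not_dvd_lead`: compare coefficients (`Polynomial.coeff_expand`);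
`coeff 0` of `yy i` is `lead w M h γ i` if all `h w_i < (n + 1) M`.
`low_coeff` does not need this, nor `w_i ∣ M`. `yy_dvd`: also from `expand_along`.
-/

open MvPolynomial

namespace MotMono
namespace WH

variable {N r : ℕ}

/-- the `τ`-expansion -/
noncomputable def yy (w : Fin N → ℕ) (M h : ℕ) {n : ℕ} (γ : Fin N × Fin (n + 1) → ℂ) :
    Fin N → Polynomial ℂ :=
  fun i => ∑ l : Fin (n + 1), if h * w i ≤ (l : ℕ) * M then
    Polynomial.C (γ (i, l)) * Polynomial.X ^ ((l : ℕ) * M - h * w i) else 0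

theorem aeval_weighted {w : Fin N → ℕ} {g : MvPolynomial (Fin N) ℂ} {e : ℕ}
    (hg : IsWeightedHomogeneous w g e) (h : ℕ) (v : Fin N → Polynomial ℂ) :
    aeval (fun i => Polynomial.X ^ (h * w i) * v i) g = Polynomial.X ^ (h * e) * aeval v g := by
  have h1 : ∀ u : Fin N → Polynomial ℂ, aeval u g =
      ∑ m ∈ g.support, Polynomial.C (coeff m g) * ∏ i, u i ^ m i := by
    intro u
    rw [aeval_def, eval₂_eq']
    rfl
  rw [h1, h1, Finset.mul_sum]
  refine Finset.sum_congr rfl fun m hm => ?_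
  have hd : ∑ i, m i * w i = e := by
    have h2 := hg (mem_support_iff.1 hm)
    rw [← h2, Finsupp.weight_apply, Finsupp.sum_fintype _ _ (by simp)]
    simp
  have h3 : ∏ i, ((Polynomial.X : Polynomial ℂ) ^ (h * w i) * v i) ^ m i =
      Polynomial.X ^ (h * e) * ∏ i, v i ^ m i := by
    simp only [mul_pow]
    rw [Finset.prod_mul_distrib]
    congr 1
    rw [← hd, Finset.mul_sum, ← Finset.prod_pow_eq_pow_sum]
    refine Finset.prod_congr rfl fun i _ => ?_
    rw [← pow_mul]
    congr 1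
    ring
  rw [h3]
  ring

theorem expand_along {w : Fin N → ℕ} {g : MvPolynomial (Fin N) ℂ} {e : ℕ}
    (hg : IsWeightedHomogeneous w g e) {M h n : ℕ} (hM : 0 < M) (γ : Fin N × Fin (n + 1) → ℂ)
    (hL : Low w M h γ) :
    Polynomial.expand ℂ M (along g γ) = Polynomial.X ^ (h * e) * aeval (yy w M h γ) g := by
  have h1 : Polynomial.expand ℂ M (along g γ) =
      aeval (fun i => Polynomial.expand ℂ M (arc γ i)) g := by
    unfold along
    rw [← AlgHom.comp_apply, comp_aeval]
  have h2 : ∀ i, Polynomial.expand ℂ M (arc γ i) = Polynomial.X ^ (h * w i) * yy w M h γ i := by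
    intro i
    unfold arc yy
    rw [map_sum, Finset.mul_sum]
    refine Finset.sum_congr rfl fun l _ => ?_
    rw [map_mul, Polynomial.expand_C, map_pow, Polynomial.expand_X]
    split_ifs with h3
    · rw [← pow_mul]
      have h4 : M * (l : ℕ) = h * w i + ((l : ℕ) * M - h * w i) := by
        rw [Nat.add_sub_cancel' h3, mul_comm]
      rw [h4, pow_add]
      ring
    · rw [hL i l (not_le.1 h3), Polynomial.C_0, zero_mul, mul_zero]
  rw [h1, ← aeval_weighted hg h (yy w M h γ)]
  congr 2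
  funext i
  exact h2 i

theorem low_coeff {w : Fin N → ℕ} {g : MvPolynomial (Fin N) ℂ} {e : ℕ}
    (hg : IsWeightedHomogeneous w g e) {M h n : ℕ} (hM : 0 < M) (γ : Fin N × Fin (n + 1) → ℂ)
    (hL : Low w M h γ) (l : ℕ) (hl : l * M < h * e) : (along g γ).coeff l = 0 := by
  rw [← Polynomial.coeff_expand_mul hM (along g γ) l, expand_along hg hM γ hL,
    Polynomial.coeff_X_pow_mul', if_neg (not_le.2 hl)]

theorem yy_coeff_zero (w : Fin N → ℕ) {M h n : ℕ} (hM : 0 < M)
    (hn : ∀ i, h * w i < (n + 1) * M) (γ : Fin N × Fin (n + 1) → ℂ) (i : Fin N) :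
    (yy w M h γ i).coeff 0 = lead w M h γ i := by
  have h0 : ∀ l : Fin (n + 1), (if h * w i ≤ (l : ℕ) * M then
      Polynomial.C (γ (i, l)) * Polynomial.X ^ ((l : ℕ) * M - h * w i) else
        (0 : Polynomial ℂ)).coeff 0 = if (l : ℕ) * M = h * w i then γ (i, l) else 0 := by
    intro l
    by_cases h1 : h * w i ≤ (l : ℕ) * M
    · rw [if_pos h1, Polynomial.coeff_C_mul, Polynomial.coeff_X_pow]
      by_cases h2 : (l : ℕ) * M = h * w i
      · rw [if_pos h2, if_pos (by omega), mul_one]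
      · rw [if_neg h2, if_neg (by omega), mul_zero]
    · rw [if_neg h1, if_neg (fun h2 => h1 h2.ge), Polynomial.coeff_zero]
  have h1 : (yy w M h γ i).coeff 0 =
      ∑ l : Fin (n + 1), if (l : ℕ) * M = h * w i then γ (i, l) else 0 := by
    unfold yy
    rw [Polynomial.finsetSum_coeff]
    exact Finset.sum_congr rfl fun l _ => h0 l
  have hlt : h * w i / M < n + 1 := (Nat.div_lt_iff_lt_mul hM).2 (hn i)
  rw [h1]
  unfold lead
  by_cases hd : M ∣ h * w i
  · rw [dif_pos ⟨hd, hlt⟩, Finset.sum_eq_single (⟨h * w i / M, hlt⟩ : Fin (n + 1))]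
    · exact if_pos (Nat.div_mul_cancel hd)
    · intro l _ hne
      refine if_neg fun h2 => hne (Fin.ext ?_)
      show (l : ℕ) = h * w i / M
      rw [← h2, Nat.mul_div_cancel _ hM]
    · intro h2
      exact absurd (Finset.mem_univ _) h2
  · rw [dif_neg fun h2 => hd h2.1]
    refine Finset.sum_eq_zero fun l _ => if_neg fun h2 => hd ⟨(l : ℕ), ?_⟩
    rw [← h2, mul_comm]

theorem coeff_zero_aeval (v : Fin N → Polynomial ℂ) (g : MvPolynomial (Fin N) ℂ) :
    (aeval v g).coeff 0 = eval (fun i => (v i).coeff 0) g := by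
  induction g using MvPolynomial.induction_on with
  | C c =>
    rw [aeval_C, eval_C]
    exact Polynomial.coeff_C_zero
  | add p q hp hq => rw [map_add, map_add, Polynomial.coeff_add, hp, hq]
  | mul_X p i hp => rw [map_mul, map_mul, aeval_X, eval_X, Polynomial.mul_coeff_zero, hp]

theorem eq_coeff {w : Fin N → ℕ} {g : MvPolynomial (Fin N) ℂ} {e : ℕ}
    (hg : IsWeightedHomogeneous w g e) {M h n : ℕ} (hM : 0 < M) (hn : ∀ i, h * w i < (n + 1) * M)
    (γ : Fin N × Fin (n + 1) → ℂ) (hL : Low w M h γ) (l : ℕ) (hl : l * M = h * e) :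
    (along g γ).coeff l = eval (lead w M h γ) g := by
  rw [← Polynomial.coeff_expand_mul hM (along g γ) l, expand_along hg hM γ hL,
    Polynomial.coeff_X_pow_mul', if_pos hl.ge, hl, Nat.sub_self, coeff_zero_aeval]
  congr 2
  funext i
  exact yy_coeff_zero w hM hn γ i

theorem not_dvd_lead {w : Fin N → ℕ} {g : MvPolynomial (Fin N) ℂ} {e : ℕ}
    (hg : IsWeightedHomogeneous w g e) {M h : ℕ} (hM : 0 < M) (c : Fin N → ℂ)
    (hc : c ∈ FixH w M h) (he : ¬ M ∣ h * e) : eval c g = 0 := by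
  rw [eval_eq']
  refine Finset.sum_eq_zero fun m hm => ?_
  have hd : ∑ i, m i * w i = e := by
    have h2 := hg (mem_support_iff.1 hm)
    rw [← h2, Finsupp.weight_apply, Finsupp.sum_fintype _ _ (by simp)]
    simp
  have h3 : ∃ i, m i ≠ 0 ∧ c i = 0 := by
    by_contra h4
    push Not at h4
    refine he ?_
    rw [← hd, Finset.mul_sum]
    refine Finset.dvd_sum fun i _ => ?_
    by_cases h5 : m i = 0
    · rw [h5, zero_mul, mul_zero]
      exact dvd_zero _
    · have h6 : M ∣ h * w i := by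
        by_contra h7
        exact h4 i h5 (hc i h7)
      have h8 : h * (m i * w i) = h * w i * m i := by ring
      rw [h8]
      exact h6.mul_right _
  obtain ⟨i, hi, hci⟩ := h3
  rw [Finset.prod_eq_zero (Finset.mem_univ i) (by rw [hci, zero_pow hi]), mul_zero]

theorem lead_mem (w : Fin N → ℕ) (M h : ℕ) {n : ℕ} (γ : Fin N × Fin (n + 1) → ℂ) :
    lead w M h γ ∈ FixH w M h := by
  intro i hi
  unfold lead
  exact dif_neg fun h1 => hi h1.1

end WH
end MotMono
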