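import Pool.Agent.Lib.MP_4e5fcd_ag.K1
import Pool.Agent.Lib.MP_4e5fcd_ag.CN.E1
import Pool.Agent.Lib.MP_4e5fcd_ag.CN.P1
import Pool.Agent.Lib.MP_4e5fcd_ag.WH.B1

/-!
# WH-C2a: from `t`-jets to `τ`-jets

`γ ↦ (z, free)`: `z (i, v) = γ (i, (v + h w_i) / M)` if `M ∣ v + h w_i`, `0` otherwise
(`v ≤ K M`, index `≤ n` by `hn`), and the free coordinates `(i, l)` with `h w_i + K M < l M`
(number: `n - h w_i / M - K` for each `i`). `z` is the part of `yy w M h γ` of degree `≤ K M`
(`arc z i` and `yy w M h γ i` have the same coefficients `≤ K M`), so for `v ≤ K M` the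
coefficients `v` of `along (f b) z` and of `aeval (yy w M h γ) (f b)` agree (`e1_key` in CN-E1), and
by `expand_along` the latter is the coefficient `l` of `along (f b) γ` if `v + h d_b = l M` and `0` if
`M ∤ v + h d_b`. Coefficients `l` with `l M < h d_b` vanish (`low_coeff`). `z (i, 0)` is
`lead w M h γ i`. `cls_iso`, `cls_prodSet`, `cls_univ`.
-/

open MvPolynomial

namespace MotMono
namespace WH

variable {N r : ℕ}

private theorem c2a_key {σ : Type} (a b : σ → Polynomial ℂ) (n : ℕ)
    (h : ∀ i, (Polynomial.X : Polynomial ℂ) ^ n ∣ a i - b i) (f : MvPolynomial σ ℂ) :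
    (Polynomial.X : Polynomial ℂ) ^ n ∣ aeval a f - aeval b f := by
  induction f using MvPolynomial.induction_on with
  | C c => simp
  | add p q hp hq =>
    rw [map_add, map_add]
    have := dvd_add hp hq
    refine this.trans (dvd_of_eq ?_)
    ring
  | mul_X p i hp =>
    rw [map_mul, map_mul, aeval_X, aeval_X]
    have : aeval a p * a i - aeval b p * b i =
        (aeval a p - aeval b p) * a i + aeval b p * (a i - b i) := by ring
    rw [this]
    exact dvd_add (hp.mul_right _) ((h i).mul_left _)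

private theorem c2a_coeff {p q : Polynomial ℂ} {n : ℕ}
    (h : (Polynomial.X : Polynomial ℂ) ^ n ∣ p - q) {l : ℕ} (hl : l < n) :
    p.coeff l = q.coeff l := by
  have := Polynomial.X_pow_dvd_iff.1 h l hl
  rw [Polynomial.coeff_sub] at this
  exact sub_eq_zero.1 this

private theorem c2a_dvd {p q : Polynomial ℂ} {n : ℕ} (h : ∀ l < n, p.coeff l = q.coeff l) :
    (Polynomial.X : Polynomial ℂ) ^ n ∣ p - q := by
  refine Polynomial.X_pow_dvd_iff.2 fun l hl => ?_
  rw [Polynomial.coeff_sub, h l hl, sub_self]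

/-- vanishing conditions on coefficients define constructible sets -/
private theorem c2a_constr_coeff {n : ℕ} (f : Fin r → MvPolynomial (Fin N) ℂ)
    (P : Fin r → ℕ → Prop) :
    Constr {γ : Fin N × Fin n → ℂ | ∀ b v, P b v → (along (f b) γ).coeff v = 0} := by
  choose Q hQ using fun (b : Fin r) (l : ℕ) => CN.exists_alongPoly (n := n) (f b) l
  have h := CN.constr_zeroLocus {g | ∃ b v, P b v ∧ g = Q b v}
  have e : {x : Fin N × Fin n → ℂ | ∀ g ∈ {g | ∃ b v, P b v ∧ g = Q b v}, eval x g = 0} =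
      {γ : Fin N × Fin n → ℂ | ∀ b v, P b v → (along (f b) γ).coeff v = 0} := by
    ext γ
    simp only [Set.mem_ofPred_eq]
    constructor
    · intro h b v hv
      rw [← hQ]
      exact h _ ⟨b, v, hv, rfl⟩
    · rintro h _ ⟨b, v, hv, rfl⟩
      rw [hQ]
      exact h b v hv
  rwa [e] at h

/-- vanishing of coordinates is a constructible condition -/
private theorem c2a_constr_coord {σ : Type} [Finite σ] (P : σ → Prop) :
    Constr {x : σ → ℂ | ∀ q, P q → x q = 0} := by
  have h := CN.constr_zeroLocus {g : MvPolynomial σ ℂ | ∃ q, P q ∧ g = X q}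
  have e : {x : σ → ℂ | ∀ g ∈ {g : MvPolynomial σ ℂ | ∃ q, P q ∧ g = X q}, eval x g = 0} =
      {x : σ → ℂ | ∀ q, P q → x q = 0} := by
    ext x
    simp only [Set.mem_ofPred_eq]
    constructor
    · intro h q hq
      have := h _ ⟨q, hq, rfl⟩
      rwa [eval_X] at this
    · rintro h _ ⟨q, hq, rfl⟩
      rw [eval_X]
      exact h q hq
  rwa [e] at h

theorem constr_TS {w : Fin N → ℕ} {d : Fin r → ℕ} {f : Fin r → MvPolynomial (Fin N) ℂ}
    {M h K : ℕ} {B : Finset (Fin r)} {S : Set (Fin N → ℂ)} (hS : Constr S) :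
    Constr (TS w d M f B S h K) := by
  have h1 := hS.comp (σ := Fin N × Fin (K * M + 1)) (fun i => (i, 0))
  have h2 := c2a_constr_coord (σ := Fin N × Fin (K * M + 1))
    (fun q => ¬ M ∣ (q.2 : ℕ) + h * w q.1)
  have h3 := c2a_constr_coeff (n := K * M + 1) f (fun b v => b ∈ B ∧ v + h * d b < K * M)
  have h4 := (h1.inter h2).inter h3
  have e : ({x : Fin N × Fin (K * M + 1) → ℂ | (fun j => x (j, 0)) ∈ S} ∩
      {x : Fin N × Fin (K * M + 1) → ℂ | ∀ q, (¬ M ∣ (q.2 : ℕ) + h * w q.1) → x q = 0}) ∩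
      {γ : Fin N × Fin (K * M + 1) → ℂ | ∀ b v, (b ∈ B ∧ v + h * d b < K * M) →
        (along (f b) γ).coeff v = 0} = TS w d M f B S h K := by
    ext z
    simp only [Set.mem_inter_iff, Set.mem_ofPred_eq, TS]
    constructor
    · rintro ⟨⟨ha, hb⟩, hc⟩
      exact ⟨ha, fun i v hv => hb (i, v) hv, fun b hb v hv => hc b v ⟨hb, hv⟩⟩
    · rintro ⟨ha, hb, hc⟩
      exact ⟨⟨ha, fun q hq => hb q.1 q.2 hq⟩, fun b v hv => hc b hv.1 v hv.2⟩
  rwa [e] at h4

private theorem c2a_constr_Sec {w : Fin N → ℕ} {f : Fin r → MvPolynomial (Fin N) ℂ}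
    {M h K n : ℕ} {B : Finset (Fin r)} {S : Set (Fin N → ℂ)} (hS : Constr S) :
    Constr (Sec w M f B S h K n) := by
  have h1 := hS.preimage (σ := Fin N × Fin (n + 1)) (fun i =>
    if hq : M ∣ h * w i ∧ h * w i / M < n + 1 then X (i, ⟨h * w i / M, hq.2⟩) else 0)
  have h2 := c2a_constr_coord (σ := Fin N × Fin (n + 1))
    (fun q => (q.2 : ℕ) * M < h * w q.1)
  have h3 := c2a_constr_coeff (n := n + 1) f (fun b v => b ∈ B ∧ v < K)
  have h4 := (h1.inter h2).inter h3
  have e : ({x : Fin N × Fin (n + 1) → ℂ | (fun j => eval x (if hq : M ∣ h * w j ∧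
        h * w j / M < n + 1 then X (j, ⟨h * w j / M, hq.2⟩) else 0)) ∈ S} ∩
      {x : Fin N × Fin (n + 1) → ℂ | ∀ q, ((q.2 : ℕ) * M < h * w q.1) → x q = 0}) ∩
      {γ : Fin N × Fin (n + 1) → ℂ | ∀ b v, (b ∈ B ∧ v < K) →
        (along (f b) γ).coeff v = 0} = Sec w M f B S h K n := by
    ext γ
    have hl : (fun j => eval γ (if hq : M ∣ h * w j ∧
        h * w j / M < n + 1 then X (j, ⟨h * w j / M, hq.2⟩) else 0)) = lead w M h γ := by
      funext j
      unfold lead
      split_ifs with hq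
      · rw [eval_X]
      · rw [map_zero]
    simp only [Set.mem_inter_iff, Set.mem_ofPred_eq, Sec]
    rw [hl]
    constructor
    · rintro ⟨⟨ha, hb⟩, hc⟩
      exact ⟨fun i v hv => hb (i, v) hv, ha, fun b hb v hv => hc b v ⟨hb, hv⟩⟩
    · rintro ⟨ha, hb, hc⟩
      exact ⟨⟨hb, fun q hq => ha q.1 q.2 hq⟩, fun b v hv => hc b hv.1 v hv.2⟩
  rwa [e] at h4

/-- the `τ`-jet of a `t`-jet -/
private noncomputable def zz (w : Fin N → ℕ) (M h K : ℕ) {n : ℕ} (γ : Fin N × Fin (n + 1) → ℂ) :
    Fin N × Fin (K * M + 1) → ℂ :=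
  fun q => if hq : M ∣ (q.2 : ℕ) + h * w q.1 ∧ ((q.2 : ℕ) + h * w q.1) / M < n + 1 then
    γ (q.1, ⟨((q.2 : ℕ) + h * w q.1) / M, hq.2⟩) else 0

private theorem c2a_yy_coeff {w : Fin N → ℕ} {M h K n : ℕ} (hM : 0 < M)
    (γ : Fin N × Fin (n + 1) → ℂ) (i : Fin N) (v : ℕ)
    (hv : v < K * M + 1) : (arc (zz w M h K γ) i).coeff v = (yy w M h γ i).coeff v := by
  rw [a1_arc_coeff, dif_pos hv]
  unfold zz yy
  rw [Polynomial.finsetSum_coeff]
  have hterm : ∀ l : Fin (n + 1), (if h * w i ≤ (l : ℕ) * M then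
      Polynomial.C (γ (i, l)) * Polynomial.X ^ ((l : ℕ) * M - h * w i) else 0 : Polynomial ℂ).coeff v
      = if (l : ℕ) * M = v + h * w i then γ (i, l) else 0 := by
    intro l
    split_ifs with h1 h2 h2
    · rw [Polynomial.coeff_C_mul, Polynomial.coeff_X_pow, if_pos (by omega), mul_one]
    · rw [Polynomial.coeff_C_mul, Polynomial.coeff_X_pow, if_neg (by omega), mul_zero]
    · omega
    · rw [Polynomial.coeff_zero]
  rw [Finset.sum_congr rfl fun l _ => hterm l]
  dsimp only
  split_ifs with hq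
  · rw [Finset.sum_eq_single ⟨(v + h * w i) / M, hq.2⟩]
    · rw [if_pos (Nat.div_mul_cancel hq.1)]
    · intro l _ hl
      rw [if_neg]
      intro h1
      apply hl
      ext
      change (l : ℕ) = (v + h * w i) / M
      rw [← h1, Nat.mul_div_cancel _ hM]
    · intro h1
      exact absurd (Finset.mem_univ _) h1
  · rw [Finset.sum_eq_zero]
    intro l _
    rw [if_neg]
    intro h1
    apply hq
    refine ⟨⟨l, by rw [← h1, mul_comm]⟩, ?_⟩
    rw [← h1, Nat.mul_div_cancel _ hM]
    exact l.2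

/-- the coefficients of `f b` along the `τ`-jet -/
private theorem c2a_along {w : Fin N → ℕ} {g : MvPolynomial (Fin N) ℂ} {e : ℕ}
    (hg : IsWeightedHomogeneous w g e) {M h K n : ℕ} (hM : 0 < M) (γ : Fin N × Fin (n + 1) → ℂ) (hL : Low w M h γ)
    (v : ℕ) (hv : v < K * M + 1) :
    (along g (zz w M h K γ)).coeff v =
      if M ∣ v + h * e then (along g γ).coeff ((v + h * e) / M) else 0 := by
  have h1 : (along g (zz w M h K γ)).coeff v = (aeval (yy w M h γ) g).coeff v := by
    refine c2a_coeff (n := K * M + 1) ?_ hv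
    exact c2a_key _ _ _ (fun i => c2a_dvd fun l hl => c2a_yy_coeff hM γ i l hl) g
  have h2 := congrArg (fun p => Polynomial.coeff p (v + h * e)) (expand_along hg hM γ hL)
  simp only [Polynomial.coeff_expand hM, Polynomial.coeff_X_pow_mul] at h2
  rw [h1, ← h2]

private theorem c2a_cond {w : Fin N → ℕ} {g : MvPolynomial (Fin N) ℂ} {e : ℕ}
    (hg : IsWeightedHomogeneous w g e) {M h K n : ℕ} (hM : 0 < M) (γ : Fin N × Fin (n + 1) → ℂ) (hL : Low w M h γ) :
    (∀ l < K, (along g γ).coeff l = 0) ↔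
      ∀ v, v + h * e < K * M → (along g (zz w M h K γ)).coeff v = 0 := by
  constructor
  · intro h1 v hv
    rw [c2a_along hg hM γ hL v (by omega)]
    split_ifs with h2
    · exact h1 _ ((Nat.div_lt_iff_lt_mul hM).2 hv)
    · rfl
  · intro h1 l hl
    rcases Nat.lt_or_ge (l * M) (h * e) with h2 | h2
    · exact low_coeff hg hM γ hL l h2
    · have h3 : l * M < K * M := Nat.mul_lt_mul_of_pos_right hl hM
      have h4 := h1 (l * M - h * e) (by omega)
      rw [c2a_along hg hM γ hL _ (by omega)] at h4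
      have h5 : l * M - h * e + h * e = l * M := by omega
      rw [h5, if_pos (Dvd.intro_left l rfl), Nat.mul_div_cancel _ hM] at h4
      exact h4

/-- the free coordinates -/
private abbrev FF (w : Fin N → ℕ) (M h K n : ℕ) : Type :=
  {q : Fin N × Fin (n + 1) // h * w q.1 + K * M < (q.2 : ℕ) * M}

private theorem c2a_card (w : Fin N → ℕ) {M h K n : ℕ} (hM : 0 < M) :
    Fintype.card (FF w M h K n) = ∑ i, (n - h * w i / M - K) := by
  have e : FF w M h K n ≃ (Σ i : Fin N, Fin (n - h * w i / M - K)) :=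
    { toFun := fun q => ⟨q.1.1, ⟨n - (q.1.2 : ℕ), by
        obtain ⟨⟨i, l⟩, hq⟩ := q
        have hl := l.2
        simp only at hq ⊢
        have h1 : h * w i < ((l : ℕ) - K) * M := by
          rw [Nat.sub_mul]; omega
        have h2 := (Nat.div_lt_iff_lt_mul hM).2 h1
        generalize h * w i / M = a at *
        omega⟩⟩
      invFun := fun q => ⟨(q.1, ⟨n - (q.2 : ℕ), by omega⟩), by
        obtain ⟨i, l⟩ := q
        have hl := l.2
        simp only
        have h2 : h * w i / M < (n - (l : ℕ)) - K := by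
          generalize h * w i / M = a at *
          omega
        have h1 := (Nat.div_lt_iff_lt_mul hM).1 h2
        rw [Nat.sub_mul] at h1
        omega⟩
      left_inv := by
        rintro ⟨⟨i, l⟩, hq⟩
        apply Subtype.ext
        refine Prod.ext rfl ?_
        ext
        simp only
        omega
      right_inv := by
        rintro ⟨i, l⟩
        have hl : (l : ℕ) < n := lt_of_lt_of_le l.2 (le_trans (Nat.sub_le _ _) (Nat.sub_le _ _))
        refine Sigma.ext rfl ?_
        rw [heq_eq_eq]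
        ext
        simp only
        omega }
  rw [Fintype.card_congr e, Fintype.card_sigma]
  simp

theorem cls_Sec_TS {w : Fin N → ℕ} {d : Fin r → ℕ} {f : Fin r → MvPolynomial (Fin N) ℂ}
    (hW : Wt w d f) {M h K n : ℕ} (hM : 0 < M) (hn : ∀ i, h * w i + K * M ≤ n * M)
    (B : Finset (Fin r)) {S : Set (Fin N → ℂ)} (hS : Constr S) (hSF : S ⊆ FixH w M h) :
    cls (Sec w M f B S h K n) =
      cls (TS w d M f B S h K) * LL ^ (∑ i, (n - h * w i / M - K)) := by
  classical
  have hlt : ∀ i (v : Fin (K * M + 1)), ((v : ℕ) + h * w i) / M < n + 1 := by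
    intro i v
    rw [Nat.div_lt_iff_lt_mul hM]
    have h1 := hn i
    have h2 := v.2
    have h3 : (n + 1) * M = n * M + M := by ring
    omega
  have hdiv : ∀ i, h * w i / M < n + 1 := by
    intro i
    have := hlt i 0
    simpa using this
  rw [← c2a_card w (h := h) (K := K) (n := n) hM, ← cls_univ (σ := FF w M h K n),
    ← cls_prodSet (constr_TS hS) constr_univ]
  refine cls_iso (c2a_constr_Sec hS) ((constr_TS hS).prodSet constr_univ) ?_
  refine ⟨fun γ => Sum.elim (zz w M h K γ) (fun q : FF w M h K n => γ q.1),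
    fun z q => if h1 : h * w q.1 ≤ (q.2 : ℕ) * M ∧ (q.2 : ℕ) * M ≤ h * w q.1 + K * M then
      z (Sum.inl (q.1, ⟨(q.2 : ℕ) * M - h * w q.1, by omega⟩))
      else if h2 : h * w q.1 + K * M < (q.2 : ℕ) * M then z (Sum.inr ⟨q, h2⟩) else 0,
    ?_, ?_, ?_, ?_, ?_, ?_⟩
  · intro s
    rcases s with q | q
    · simp only [Sum.elim_inl]
      unfold zz
      split_ifs with h1
      · exact regFun_coord _ _
      · exact regFun_const _ 0
    · exact regFun_coord _ _
  · intro q
    dsimp only
    split_ifs with h1 h2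
    · exact regFun_coord _ _
    · exact regFun_coord _ _
    · exact regFun_const _ 0
  · intro γ hγ
    obtain ⟨hL, hS', hB⟩ := hγ
    refine ⟨⟨?_, ?_, ?_⟩, Set.mem_univ _⟩
    · have : (fun i => (fun i => Sum.elim (zz w M h K γ) (fun q : FF w M h K n => γ q.1)
          (Sum.inl i)) (i, 0)) = lead w M h γ := by
        funext i
        simp only [Sum.elim_inl]
        unfold zz lead
        simp only [Fin.val_zero, zero_add]
      rw [this]
      exact hS'
    · intro i v hv
      simp only [Sum.elim_inl]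
      unfold zz
      rw [dif_neg]
      rintro ⟨h1, _⟩
      exact hv h1
    · intro b hb
      have := (c2a_cond (hW.hom b) hM γ hL).1 (hB b hb)
      simpa only [Sum.elim_inl] using this
  · intro z hz
    obtain ⟨⟨hz1, hz2, hz3⟩, _⟩ := hz
    set γ : Fin N × Fin (n + 1) → ℂ := fun q =>
      if h1 : h * w q.1 ≤ (q.2 : ℕ) * M ∧ (q.2 : ℕ) * M ≤ h * w q.1 + K * M then
      z (Sum.inl (q.1, ⟨(q.2 : ℕ) * M - h * w q.1, by omega⟩))
      else if h2 : h * w q.1 + K * M < (q.2 : ℕ) * M then z (Sum.inr ⟨q, h2⟩) else 0 with hγ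
    have hzz : zz w M h K γ = fun q => z (Sum.inl q) := by
      funext q
      obtain ⟨i, v⟩ := q
      unfold zz
      have hv := v.2
      by_cases h1 : M ∣ (v : ℕ) + h * w i
      · rw [dif_pos ⟨h1, hlt i v⟩]
        have h2 : ((v : ℕ) + h * w i) / M * M = (v : ℕ) + h * w i := Nat.div_mul_cancel h1
        rw [hγ]
        simp only
        rw [dif_pos (by rw [h2]; omega)]
        congr 2
        refine Prod.ext rfl ?_
        ext
        simp only
        omega
      · rw [dif_neg (fun h2 => h1 h2.1)]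
        exact (hz2 i v h1).symm
    have hL : Low w M h γ := by
      intro i l hl
      rw [hγ]
      simp only
      rw [dif_neg (by omega), dif_neg (by omega)]
    refine ⟨hL, ?_, ?_⟩
    · have : lead w M h γ = fun i => z (Sum.inl (i, 0)) := by
        funext i
        have h3 := congrFun hzz (i, 0)
        rw [← h3]
        unfold zz lead
        simp only [Fin.val_zero, zero_add]
      rw [this]
      exact hz1
    · intro b hb
      refine (c2a_cond (hW.hom b) hM γ hL).2 ?_
      rw [hzz]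
      exact hz3 b hb
  · intro γ hγ
    obtain ⟨hL, -, -⟩ := hγ
    funext q
    obtain ⟨i, l⟩ := q
    dsimp only
    split_ifs with h1 h2
    · simp only [Sum.elim_inl]
      unfold zz
      have h3 : (l : ℕ) * M - h * w i + h * w i = (l : ℕ) * M := by omega
      have h4 : ((l : ℕ) * M) / M = l := Nat.mul_div_cancel _ hM
      simp only [h3, h4]
      rw [dif_pos ⟨Dvd.intro_left (l : ℕ) rfl, l.2⟩]
    · simp only [Sum.elim_inr]
    · exact (hL i l (by omega)).symm
  · intro z hz
    obtain ⟨⟨hz1, hz2, hz3⟩, _⟩ := hz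
    funext s
    rcases s with q | q
    · obtain ⟨i, v⟩ := q
      have hv := v.2
      simp only [Sum.elim_inl]
      unfold zz
      by_cases h1 : M ∣ (v : ℕ) + h * w i
      · rw [dif_pos ⟨h1, hlt i v⟩]
        have h2 : ((v : ℕ) + h * w i) / M * M = (v : ℕ) + h * w i := Nat.div_mul_cancel h1
        simp only
        rw [dif_pos (by rw [h2]; omega)]
        congr 2
        refine Prod.ext rfl ?_
        ext
        simp only
        omega
      · rw [dif_neg (fun h2 => h1 h2.1)]
        exact (hz2 i v h1).symm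
    · obtain ⟨q, hq⟩ := q
      simp only [Sum.elim_inr]
      rw [dif_neg (by omega), dif_pos hq]

end WH
end MotMono
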