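import Pool.Agent.Lib.MP_4e5fcd_ag.WH.Base

/-!
# WH-B3: smooth truncations are generated by the basis

Let `d j < E`, `e = d j`, `J = trn d f e`, `B' = {b ∈ B, d b ≤ e}`. All `f i`, `d i ≤ e`, vanish at
`c` (`van`), so `SmoothAt J c`: `g_1, …, g_m`, `h`. All elements of `J` vanish at `c`, and
`grad (∑ a_i f_i) c = ∑ a_i(c) grad f_i c`, so the gradients of elements of `J` lie in the span `W`
of the independent vectors `grad (f b) c`, `b ∈ B'` (`mem`). `h f_b = ∑_k C_bk g_k` for `b ∈ B'`, so
`h(c) grad (f b) c = ∑_k C_bk(c) grad (g k) c`: the independent vectors `grad (g k) c ∈ W` span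
`W`, hence `m = |B'|`; choose a bijection; the square matrix `C (c)` is invertible.
`adjugate C * (h f_B) = det C * g`, so `det C * g_k ∈ (f_b, b ∈ B')` and
`(det C * h) * f_j ∈ (f_b)`, `(det C * h)(c) ≠ 0`.
-/

open MvPolynomial

namespace MotMono
namespace WH

variable {N r : ℕ}

private theorem B3_grad_mul (a g : MvPolynomial (Fin N) ℂ) (c : Fin N → ℂ) :
    grad (a * g) c = eval c a • grad g c + eval c g • grad a c := by
  funext i
  simp only [grad, Derivation.leibniz, smul_eq_mul, map_add, map_mul, Pi.add_apply, Pi.smul_apply]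

private theorem B3_grad_add (a g : MvPolynomial (Fin N) ℂ) (c : Fin N → ℂ) :
    grad (a + g) c = grad a c + grad g c := by
  funext i
  simp only [grad, map_add, Pi.add_apply]

private theorem B3_grad_zero (c : Fin N → ℂ) : grad (0 : MvPolynomial (Fin N) ℂ) c = 0 := by
  funext i
  simp only [grad, map_zero, Pi.zero_apply]

private theorem B3_grad_sum {ι : Type*} (s : Finset ι) (F : ι → MvPolynomial (Fin N) ℂ)
    (c : Fin N → ℂ) : grad (∑ k ∈ s, F k) c = ∑ k ∈ s, grad (F k) c := by
  funext i
  simp only [grad, map_sum, Finset.sum_apply]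

private theorem B3_span {S : Set (MvPolynomial (Fin N) ℂ)} {c : Fin N → ℂ}
    {W : Submodule ℂ (Fin N → ℂ)} (hS : ∀ s ∈ S, eval c s = 0) (hW : ∀ s ∈ S, grad s c ∈ W)
    {q : MvPolynomial (Fin N) ℂ} (hq : q ∈ Ideal.span S) : eval c q = 0 ∧ grad q c ∈ W := by
  refine Submodule.span_induction (p := fun q _ => eval c q = 0 ∧ grad q c ∈ W) ?_ ?_ ?_ ?_ hq
  · intro x hx
    exact ⟨hS x hx, hW x hx⟩
  · refine ⟨map_zero _, ?_⟩
    rw [B3_grad_zero]
    exact W.zero_mem
  · rintro x y - - ⟨hx, hx'⟩ ⟨hy, hy'⟩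
    refine ⟨by rw [map_add, hx, hy, add_zero], ?_⟩
    rw [B3_grad_add]
    exact W.add_mem hx' hy'
  · rintro a x - ⟨hx, hx'⟩
    refine ⟨by rw [smul_eq_mul, map_mul, hx, mul_zero], ?_⟩
    rw [smul_eq_mul, B3_grad_mul, hx, zero_smul, add_zero]
    exact W.smul_mem _ hx'

theorem gen_of_smooth {d : Fin r → ℕ} {f : Fin r → MvPolynomial (Fin N) ℂ} {c : Fin N → ℂ}
    {E : ℕ} {B : Finset (Fin r)} (hA : Adm d f c E B)
    (hs : ∀ e, (∀ j, d j ≤ e → eval c (f j) = 0) → SmoothAt (trn d f e) c) :
    Gen d f c E B := by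
  classical
  intro j hj
  have hvan : ∀ i, d i ≤ d j → eval c (f i) = 0 := fun i hi => hA.van i (lt_of_le_of_lt hi hj)
  obtain ⟨m, g, h, hg, hind, hh, hspan⟩ := hs (d j) hvan
  set B' : Finset (Fin r) := B.filter fun b => d b ≤ d j with hB'
  -- independence of the gradients of `B'`
  have hindB : LinearIndependent ℂ (fun b : B' => grad (f b) c) := by
    have h1 : ∀ b : B', (b : Fin r) ∈ B := fun b => (Finset.mem_filter.mp b.2).1
    exact hA.ind.comp (fun b : B' => (⟨b, h1 b⟩ : B)) (by
      intro x y hxy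
      have := congrArg Subtype.val hxy
      exact Subtype.ext this)
  set W : Submodule ℂ (Fin N → ℂ) := Submodule.span ℂ (Set.range fun b : B' => grad (f b) c) with hW
  have hmemW : ∀ i, d i ≤ d j → grad (f i) c ∈ W := by
    intro i hi
    have h2 := hA.mem i (lt_of_le_of_lt hi hj)
    refine Submodule.span_mono ?_ h2
    rintro v ⟨b, hb, hbi, rfl⟩
    exact ⟨⟨b, Finset.mem_filter.mpr ⟨hb, hbi.trans hi⟩⟩, rfl⟩
  have hJ : ∀ q ∈ trn d f (d j), eval c q = 0 ∧ grad q c ∈ W := by
    intro q hq
    refine B3_span (S := {g | ∃ i, d i ≤ d j ∧ g = f i}) ?_ ?_ hq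
    · rintro s ⟨i, hi, rfl⟩
      exact hvan i hi
    · rintro s ⟨i, hi, rfl⟩
      exact hmemW i hi
  -- the matrix `C`
  have hfJ : ∀ i, d i ≤ d j → f i ∈ trn d f (d j) := fun i hi => Ideal.subset_span ⟨i, hi, rfl⟩
  have hC : ∀ b : B', ∃ a : Fin m → MvPolynomial (Fin N) ℂ, ∑ k, a k * g k = h * f b := by
    intro b
    have hb := (Finset.mem_filter.mp b.2).2
    exact Ideal.mem_span_range_iff_exists_fun.mp (hspan (f b) (hfJ b hb))
  choose C hC using hC
  have hgr : ∀ b : B', eval c h • grad (f b) c = ∑ k, eval c (C b k) • grad (g k) c := by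
    intro b
    have hb := (Finset.mem_filter.mp b.2).2
    have h3 : grad (∑ k, C b k * g k) c = grad (h * f b) c := by rw [hC b]
    rw [B3_grad_mul, hvan b hb, zero_smul, add_zero, B3_grad_sum] at h3
    rw [← h3]
    refine Finset.sum_congr rfl fun k _ => ?_
    rw [B3_grad_mul, (hJ (g k) (hg k)).1, zero_smul, add_zero]
  -- `m = card B'`
  have hcard : Fintype.card B' = m := by
    apply le_antisymm
    · set W' : Submodule ℂ (Fin N → ℂ) := Submodule.span ℂ (Set.range fun k => grad (g k) c)
      have hfin : Module.finrank ℂ W' = m := by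
        rw [finrank_span_eq_card hind, Fintype.card_fin]
      have hle : W ≤ W' := by
        rw [hW, Submodule.span_le]
        rintro v ⟨b, rfl⟩
        have h4 : grad (f b) c = (eval c h)⁻¹ • ∑ k, eval c (C b k) • grad (g k) c := by
          rw [← hgr b, smul_smul, inv_mul_cancel₀ hh, one_smul]
        show grad (f b) c ∈ W'
        rw [h4]
        refine W'.smul_mem _ (W'.sum_mem fun k _ => W'.smul_mem _ ?_)
        exact Submodule.subset_span ⟨k, rfl⟩
      have h5 := Submodule.finrank_mono hle
      rw [hfin, hW, finrank_span_eq_card hindB] at h5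
      exact h5
    · have hle : Submodule.span ℂ (Set.range fun k => grad (g k) c) ≤ W := by
        rw [Submodule.span_le]
        rintro v ⟨k, rfl⟩
        exact (hJ (g k) (hg k)).2
      have h5 := Submodule.finrank_mono hle
      rw [finrank_span_eq_card hind, Fintype.card_fin, hW, finrank_span_eq_card hindB] at h5
      exact h5
  have σ : Fin m ≃ B' := (Fintype.equivFinOfCardEq hcard).symm
  set D : Matrix (Fin m) (Fin m) (MvPolynomial (Fin N) ℂ) := Matrix.of fun i k => C (σ i) k with hD
  have hdet : eval c D.det ≠ 0 := by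
    have h6 : eval c D.det = (D.map (eval c)).det := by
      rw [RingHom.map_det]
      rfl
    rw [h6]
    have h7 : LinearIndependent ℂ (D.map (eval c)).row := by
      rw [Fintype.linearIndependent_iff]
      intro lam hlam i
      have h8 : ∀ k, ∑ i, lam i * eval c (C (σ i) k) = 0 := by
        intro k
        have := congrFun hlam k
        simpa [Finset.sum_apply, Matrix.row, hD] using this
      have h9 : ∑ b : B', (lam (σ.symm b) * eval c h) • grad (f b) c = 0 := by
        rw [← Equiv.sum_comp σ]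
        have h10 : ∀ i, (lam (σ.symm (σ i)) * eval c h) • grad (f (σ i)) c
            = ∑ k, (lam i * eval c (C (σ i) k)) • grad (g k) c := by
          intro i
          rw [Equiv.symm_apply_apply, mul_smul, hgr, Finset.smul_sum]
          refine Finset.sum_congr rfl fun k _ => ?_
          rw [smul_smul]
        rw [Finset.sum_congr rfl fun i _ => h10 i, Finset.sum_comm]
        refine Finset.sum_eq_zero fun k _ => ?_
        rw [← Finset.sum_smul, h8 k, zero_smul]
      have h11 := Fintype.linearIndependent_iff.mp hindB _ h9 (σ i)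
      rw [Equiv.symm_apply_apply] at h11
      exact (mul_eq_zero.mp h11).resolve_right hh
    have h12 := Matrix.linearIndependent_rows_iff_isUnit.mp h7
    rw [Matrix.isUnit_iff_isUnit_det] at h12
    exact h12.ne_zero
  -- the conclusion
  have hgk : ∀ k, D.det * g k ∈ Ideal.span {g | ∃ b ∈ B, d b ≤ d j ∧ g = f b} := by
    intro k
    have h13 : D.det * g k = ∑ i, D.adjugate k i * (h * f (σ i)) := by
      have h14 : D.adjugate.mulVec (D.mulVec g) = D.det • g := by
        rw [Matrix.mulVec_mulVec, Matrix.adjugate_mul, Matrix.smul_mulVec, Matrix.one_mulVec]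
      have h15 := congrFun h14 k
      rw [Pi.smul_apply, smul_eq_mul] at h15
      rw [← h15]
      simp only [Matrix.mulVec, dotProduct]
      refine Finset.sum_congr rfl fun i _ => ?_
      rw [← hC (σ i)]
      rfl
    rw [h13]
    refine Ideal.sum_mem _ fun i _ => ?_
    rw [← mul_assoc]
    refine Ideal.mul_mem_left _ _ (Ideal.subset_span ?_)
    have hb := Finset.mem_filter.mp (σ i).2
    exact ⟨σ i, hb.1, hb.2, rfl⟩
  refine ⟨D.det * h, ?_, ?_⟩
  · rw [map_mul]
    exact mul_ne_zero hdet hh
  · obtain ⟨a, ha⟩ := Ideal.mem_span_range_iff_exists_fun.mp (hspan (f j) (hfJ j le_rfl))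
    rw [mul_assoc, ← ha, Finset.mul_sum]
    refine Ideal.sum_mem _ fun k _ => ?_
    have : D.det * (a k * g k) = a k * (D.det * g k) := by ring
    rw [this]
    exact Ideal.mul_mem_left _ _ (hgk k)

end WH
end MotMono
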