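import Pool.Agent.Lib.MP_4e5fcd_ag.K1
import Pool.Agent.Lib.MP_4e5fcd_ag.CN.E2
import Pool.Agent.Lib.MP_4e5fcd_ag.CN.P1
import Pool.Agent.Lib.MP_4e5fcd_ag.WH.B1

/-!
# WH-C2b: the class of the set of `τ`-jets

`u = uu f B φ`, weights `δ_i = d b` if `i = φ b`, `b ∈ B`, and `δ_i = w_i` otherwise;
`u_i` is weighted homogeneous of degree `δ_i`. `CN.exists_lift u (K * M)` gives `Ψ`. `TS` is
isomorphic to the product of `S` and `ℂ^κ`, `κ` the set of the `(i, v')`, `v' < K M`, with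
`M ∣ v' + 1 + h δ_i` and not (`i = φ b`, `b ∈ B`, `v' + 1 + h d_b < K M`):
`z ↦ (z (·, 0), cj u z (i, v' + 1))`, inverse `(c, δ) ↦ Ψ (c, δ~)`, `δ~` = `δ` extended by zero.
(1) For `z ∈ TS` the coefficients `v` of `u_i (z)` with `M ∤ v + h δ_i` vanish (put
`z^ζ (i, v) = ζ^(v + h w_i) z (i, v)` with `ζ^M = 1` primitive; `cj u z^ζ (i, v) =
ζ^(v + h δ_i) cj u z (i, v)` for every `z`; here `z^ζ = z`). (2) For `z = Ψ (c, δ~)`, `c ∈ S`:
`z^ζ` has the same base point (`S ⊆ FixH`) and the same `cj u` (`δ~` lives on `M ∣ v + h δ_i`), so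
`z^ζ = z` by uniqueness in `exists_lift`, so `z (i, v) = 0` for `M ∤ v + h w_i`. The conditions
`coeff v (f b (z)) = 0`, `v + h d_b < K M`: `v = 0` is `f b (c) = 0`.
Cardinality of `κ`: for each `i` there are exactly `K` numbers `v ∈ [1, K M]` with
`M ∣ v + h δ_i`, and for `i = φ b` the excluded ones are the `v = l M - h d_b` with
`h d_b < l M < K M`: `K - 1 - h d_b / M` (natural subtraction).
-/

open MvPolynomial

namespace MotMono
namespace WH

variable {N r : ℕ}

/-! ### Arithmetic -/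

private theorem C2b_dvd_lev {M : ℕ} (hM : 0 < M) (c j : ℕ) :
    M ∣ (M - c % M + j * M) + c := by
  have h1 : c % M < M := Nat.mod_lt _ hM
  have h2 := Nat.div_add_mod c M
  refine ⟨1 + j + c / M, ?_⟩
  have h3 : M * (1 + j + c / M) = M + j * M + M * (c / M) := by ring
  rw [h3]
  omega

private theorem C2b_lev_div {M : ℕ} (hM : 0 < M) (c j : ℕ) :
    (M - c % M + j * M - 1) / M = j := by
  have h1 : c % M < M := Nat.mod_lt _ hM
  have h2 : M - c % M + j * M - 1 = (M - c % M - 1) + j * M := by omega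
  rw [h2, Nat.add_mul_div_right _ _ hM, Nat.div_eq_of_lt (by omega), zero_add]

private theorem C2b_lev_of_dvd {M : ℕ} (hM : 0 < M) {c l : ℕ} (hl : 1 ≤ l) (h : M ∣ l + c) :
    M - c % M + ((l - 1) / M) * M = l := by
  obtain ⟨m, hm⟩ := h
  have h1 : c % M < M := Nat.mod_lt _ hM
  have h2 := Nat.div_add_mod c M
  have h3 := Nat.div_add_mod (l - 1) M
  have h4 : (l - 1) % M < M := Nat.mod_lt _ hM
  obtain ⟨a, ha⟩ : ∃ a, a = c / M := ⟨_, rfl⟩
  obtain ⟨b, hb⟩ : ∃ b, b = (l - 1) / M := ⟨_, rfl⟩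
  rw [← ha] at h2
  rw [← hb] at h3 ⊢
  have h5 : (l - 1) % M + 1 + c % M = M := by
    have h6 : M * m = M * (a + b) + ((l - 1) % M + 1 + c % M) := by
      have : M * (a + b) = M * a + M * b := by ring
      rw [this]
      omega
    have h7 : a + b < m := by
      by_contra h8
      have h9 : M * m ≤ M * (a + b) := Nat.mul_le_mul_left _ (not_lt.1 h8)
      omega
    have h8 : m < a + b + 2 := by
      by_contra h8
      have h9 : M * (a + b + 2) ≤ M * m := Nat.mul_le_mul_left _ (not_lt.1 h8)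
      have h10 : M * (a + b + 2) = M * (a + b) + 2 * M := by ring
      omega
    have h9 : m = a + b + 1 := by omega
    rw [h9] at h6
    have h10 : M * (a + b + 1) = M * (a + b) + M := by ring
    omega
  have h6 : b * M = M * b := mul_comm _ _
  omega

private theorem C2b_small {M K c l : ℕ} (hM : 0 < M) (h : (l - 1) / M < K - 1 - c / M) :
    l + c < K * M := by
  have h1 : c % M < M := Nat.mod_lt _ hM
  have h2 := Nat.div_add_mod c M
  have h3 := Nat.div_add_mod (l - 1) M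
  have h4 : (l - 1) % M < M := Nat.mod_lt _ hM
  obtain ⟨a, ha⟩ : ∃ a, a = c / M := ⟨_, rfl⟩
  obtain ⟨b, hb⟩ : ∃ b, b = (l - 1) / M := ⟨_, rfl⟩
  rw [← ha] at h2 h
  rw [← hb] at h3 h
  have h5 : M * (a + b + 2) ≤ K * M := by
    rw [mul_comm]
    exact Nat.mul_le_mul_right _ (by omega)
  have h6 : M * (a + b + 2) = M * a + M * b + 2 * M := by ring
  omega

private theorem C2b_big {M K c l : ℕ} (hM : 0 < M) (hl : 1 ≤ l) (hd : M ∣ l + c)
    (h : K - 1 - c / M ≤ (l - 1) / M) : K * M ≤ l + c := by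
  obtain ⟨m, hm⟩ := hd
  have h1 : c % M < M := Nat.mod_lt _ hM
  have h2 := Nat.div_add_mod c M
  have h3 := Nat.div_add_mod (l - 1) M
  obtain ⟨a, ha⟩ : ∃ a, a = c / M := ⟨_, rfl⟩
  obtain ⟨b, hb⟩ : ∃ b, b = (l - 1) / M := ⟨_, rfl⟩
  rw [← ha] at h2 h
  rw [← hb] at h3 h
  by_contra hcon
  rw [hm, not_le, mul_comm] at hcon
  have h4 : m < K := Nat.lt_of_mul_lt_mul_right hcon
  have h5 : M * m ≤ M * (a + b) := Nat.mul_le_mul_left _ (by omega)
  have h6 : M * (a + b) = M * a + M * b := by ring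
  omega

/-! ### The weights -/

open Classical in
private noncomputable def C2bE (w : Fin N → ℕ) (d : Fin r → ℕ) (B : Finset (Fin r))
    (φ : Fin r → Fin N) (i : Fin N) : ℕ :=
  if h : ∃ b ∈ B, φ b = i then d h.choose else w i

private theorem C2bE_phi {w : Fin N → ℕ} {d : Fin r → ℕ} {B : Finset (Fin r)}
    {φ : Fin r → Fin N} (hφ : Set.InjOn φ B) {b : Fin r} (hb : b ∈ B) :
    C2bE w d B φ (φ b) = d b := by
  have h : ∃ b' ∈ B, φ b' = φ b := ⟨b, hb, rfl⟩
  unfold C2bE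
  rw [dif_pos h]
  congr 1
  exact hφ h.choose_spec.1 hb h.choose_spec.2

private theorem C2b_uu_phi {f : Fin r → MvPolynomial (Fin N) ℂ} {B : Finset (Fin r)}
    {φ : Fin r → Fin N} (hφ : Set.InjOn φ B) {b : Fin r} (hb : b ∈ B) :
    uu f B φ (φ b) = f b := by
  have h : ∃ b' ∈ B, φ b' = φ b := ⟨b, hb, rfl⟩
  unfold uu
  rw [dif_pos h]
  congr 1
  exact hφ h.choose_spec.1 hb h.choose_spec.2

private theorem C2b_hom {w : Fin N → ℕ} {d : Fin r → ℕ} {f : Fin r → MvPolynomial (Fin N) ℂ}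
    (hW : Wt w d f) (B : Finset (Fin r)) (φ : Fin r → Fin N) (i : Fin N) :
    IsWeightedHomogeneous w (uu f B φ i) (C2bE w d B φ i) := by
  unfold uu C2bE
  by_cases h : ∃ b ∈ B, φ b = i
  · rw [dif_pos h, dif_pos h]
    exact hW.hom _
  · rw [dif_neg h, dif_neg h]
    exact isWeightedHomogeneous_X ℂ w i

open Classical in
private noncomputable def C2bT (w : Fin N → ℕ) (d : Fin r → ℕ) (B : Finset (Fin r))
    (φ : Fin r → Fin N) (M h K : ℕ) (i : Fin N) : ℕ :=
  if ∃ b ∈ B, φ b = i then K - 1 - h * C2bE w d B φ i / M else 0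

private theorem C2bT_phi {w : Fin N → ℕ} {d : Fin r → ℕ} {B : Finset (Fin r)}
    {φ : Fin r → Fin N} (hφ : Set.InjOn φ B) (M h K : ℕ) {b : Fin r} (hb : b ∈ B) :
    C2bT w d B φ M h K (φ b) = K - 1 - h * d b / M := by
  unfold C2bT
  rw [if_pos ⟨b, hb, rfl⟩, C2bE_phi hφ hb]

private theorem C2bT_le (w : Fin N → ℕ) (d : Fin r → ℕ) (B : Finset (Fin r))
    (φ : Fin r → Fin N) (M h K : ℕ) (i : Fin N) : C2bT w d B φ M h K i ≤ K := by
  unfold C2bT
  split_ifs
  · exact (Nat.sub_le _ _).trans (Nat.sub_le _ _)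
  · exact Nat.zero_le _

private theorem C2bT_sum {w : Fin N → ℕ} {d : Fin r → ℕ} {B : Finset (Fin r)}
    {φ : Fin r → Fin N} (hφ : Set.InjOn φ B) (M h K : ℕ) :
    ∑ i, (K - C2bT w d B φ M h K i) = N * K - ∑ b ∈ B, (K - 1 - h * d b / M) := by
  classical
  have h1 : ∑ i, C2bT w d B φ M h K i = ∑ b ∈ B, (K - 1 - h * d b / M) := by
    have h2 : ∑ i ∈ B.image φ, C2bT w d B φ M h K i = ∑ i, C2bT w d B φ M h K i := by
      apply Finset.sum_subset (Finset.subset_univ _)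
      intro i _ hi
      unfold C2bT
      rw [if_neg]
      rintro ⟨b, hb, rfl⟩
      exact hi (Finset.mem_image_of_mem _ hb)
    rw [← h2, Finset.sum_image hφ]
    exact Finset.sum_congr rfl fun b hb => C2bT_phi hφ M h K hb
  rw [← h1]
  have h3 : ∑ i, (K - C2bT w d B φ M h K i) + ∑ i, C2bT w d B φ M h K i = N * K := by
    rw [← Finset.sum_add_distrib, Finset.sum_congr rfl fun i _ =>
      Nat.sub_add_cancel (C2bT_le w d B φ M h K i), Finset.sum_const, Finset.card_univ,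
      Fintype.card_fin, smul_eq_mul]
  omega

/-! ### The twist -/

private theorem C2b_aeval {A : Type*} [CommRing A] [Algebra ℂ A] {w : Fin N → ℕ}
    {g : MvPolynomial (Fin N) ℂ} {e : ℕ} (hg : IsWeightedHomogeneous w g e) (c : A)
    (v : Fin N → A) : aeval (fun i => c ^ w i * v i) g = c ^ e * aeval v g := by
  rw [aeval_def, aeval_def, eval₂_eq', eval₂_eq', Finset.mul_sum]
  refine Finset.sum_congr rfl fun s hs => ?_
  have h1 := hg (mem_support_iff.1 hs)
  have h2 : ∏ i, (c ^ w i * v i) ^ s i = c ^ e * ∏ i, v i ^ s i := by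
    simp only [mul_pow, Finset.prod_mul_distrib, ← pow_mul]
    congr 1
    rw [Finset.prod_pow_eq_pow_sum]
    congr 1
    rw [← h1, Finsupp.weight_apply,
      Finsupp.sum_fintype s (fun i c => c • w i) (fun i => zero_smul ℕ (w i))]
    exact Finset.sum_congr rfl fun i _ => by rw [smul_eq_mul, mul_comm]
  rw [h2]
  ring

/-- the twisted jet -/
private noncomputable def C2bZ (w : Fin N → ℕ) (h : ℕ) (ζ : ℂ) {n : ℕ}
    (z : Fin N × Fin (n + 1) → ℂ) : Fin N × Fin (n + 1) → ℂ :=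
  fun q => ζ ^ ((q.2 : ℕ) + h * w q.1) * z q

private theorem C2b_twist {w : Fin N → ℕ} {g : MvPolynomial (Fin N) ℂ} {e : ℕ}
    (hg : IsWeightedHomogeneous w g e) (h : ℕ) (ζ : ℂ) {n : ℕ}
    (z : Fin N × Fin (n + 1) → ℂ) (v : ℕ) :
    (along g (C2bZ w h ζ z)).coeff v = ζ ^ (v + h * e) * (along g z).coeff v := by
  obtain ⟨Φ, hΦ⟩ : ∃ Φ : Polynomial ℂ →ₐ[ℂ] Polynomial ℂ,
      Φ = Polynomial.aeval (Polynomial.C ζ * Polynomial.X) := ⟨_, rfl⟩
  have hcoeff : ∀ (p : Polynomial ℂ) (k : ℕ), (Φ p).coeff k = p.coeff k * ζ ^ k := by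
    intro p k
    have h1 : Φ p = p.comp (Polynomial.C ζ * Polynomial.X) := by
      rw [hΦ]
      rfl
    rw [h1, Polynomial.comp_C_mul_X_coeff]
  have harc : ∀ i, arc (C2bZ w h ζ z) i = (Polynomial.C (ζ ^ h)) ^ w i * Φ (arc z i) := by
    intro i
    ext k
    rw [← Polynomial.C_pow, Polynomial.coeff_C_mul, hcoeff, a1_arc_coeff, a1_arc_coeff]
    split_ifs with hk
    · unfold C2bZ
      simp only
      rw [pow_add, pow_mul]
      ring
    · ring
  unfold along
  have h1 : arc (C2bZ w h ζ z) = fun i => (Polynomial.C (ζ ^ h)) ^ w i * Φ (arc z i) :=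
    funext harc
  rw [h1, C2b_aeval hg]
  have h2 : aeval (fun i => Φ (arc z i)) g = Φ (aeval (arc z) g) := by
    rw [← AlgHom.comp_apply, comp_aeval]
  rw [h2, ← Polynomial.C_pow, Polynomial.coeff_C_mul, hcoeff, pow_add, pow_mul]
  ring

theorem cls_TS {w : Fin N → ℕ} {d : Fin r → ℕ} {f : Fin r → MvPolynomial (Fin N) ℂ}
    (hW : Wt w d f) {M h K : ℕ} (hM : 0 < M) {B : Finset (Fin r)} {φ : Fin r → Fin N}
    (hφ : Set.InjOn φ B) {S : Set (Fin N → ℂ)} (hS : Constr S) (hSF : S ⊆ FixH w M h)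
    (hSv : ∀ c ∈ S, ∀ b ∈ B, eval c (f b) = 0)
    (hSj : ∀ c ∈ S, eval c (jacDet (uu f B φ)) ≠ 0) :
    cls (TS w d M f B S h K) = cls S * LL ^ (N * K - ∑ b ∈ B, (K - 1 - h * d b / M)) := by
  classical
  obtain ⟨e, he⟩ : ∃ e, e = C2bE w d B φ := ⟨_, rfl⟩
  obtain ⟨t, ht⟩ : ∃ t, t = C2bT w d B φ M h K := ⟨_, rfl⟩
  obtain ⟨u, hu⟩ : ∃ u, u = uu f B φ := ⟨_, rfl⟩
  have hhom : ∀ i, IsWeightedHomogeneous w (u i) (e i) := fun i => by
    rw [hu, he]
    exact C2b_hom hW B φ i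
  have het : ∀ b ∈ B, e (φ b) = d b := fun b hb => by
    rw [he]
    exact C2bE_phi hφ hb
  have hut : ∀ b ∈ B, u (φ b) = f b := fun b hb => by
    rw [hu]
    exact C2b_uu_phi hφ hb
  have htt : ∀ b ∈ B, t (φ b) = K - 1 - h * d b / M := fun b hb => by
    rw [ht]
    exact C2bT_phi hφ M h K hb
  have ht0 : ∀ i, (¬ ∃ b ∈ B, φ b = i) → t i = 0 := fun i hi => by
    rw [ht]
    unfold C2bT
    rw [if_neg hi]
  have htK : ∀ i, t i ≤ K := fun i => by
    rw [ht]
    exact C2bT_le w d B φ M h K i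
  rw [← hu] at hSj
  obtain ⟨Ψ, hΨr, hΨ, hΨu⟩ := CN.exists_lift u (K * M)
  obtain ⟨ζ, hζ⟩ : ∃ ζ : ℂ, IsPrimitiveRoot ζ M :=
    ⟨_, Complex.isPrimitiveRoot_exp M hM.ne'⟩
  have hζ1 : ∀ k, M ∣ k → ζ ^ k = 1 := fun k hk => (hζ.pow_eq_one_iff_dvd k).2 hk
  have hζ2 : ∀ k, ¬ M ∣ k → ζ ^ k ≠ 1 := fun k hk h1 => hk ((hζ.pow_eq_one_iff_dvd k).1 h1)
  have htw : ∀ (z : Fin N × Fin (K * M + 1) → ℂ) (i : Fin N) (v : Fin (K * M + 1)),
      CN.cj u (C2bZ w h ζ z) (i, v) = ζ ^ ((v : ℕ) + h * e i) * CN.cj u z (i, v) :=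
    fun z i v => C2b_twist (hhom i) h ζ z v
  -- the levels
  have hlevlt : ∀ (i : Fin N) (a : Fin (K - t i)),
      M - (h * e i) % M + (t i + a) * M < K * M + 1 := by
    intro i a
    have h1 : t i + (a : ℕ) + 1 ≤ K := by
      have := a.2
      omega
    have h2 : (t i + (a : ℕ) + 1) * M ≤ K * M := Nat.mul_le_mul_right _ h1
    have h3 : (t i + (a : ℕ) + 1) * M = (t i + (a : ℕ)) * M + M := by ring
    omega
  obtain ⟨lev, hlev⟩ : ∃ lev : (Σ i : Fin N, Fin (K - t i)) → Fin (K * M + 1),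
      lev = fun q => ⟨M - (h * e q.1) % M + (t q.1 + q.2) * M, hlevlt q.1 q.2⟩ := ⟨_, rfl⟩
  have hlevv : ∀ q, ((lev q : Fin (K * M + 1)) : ℕ) =
      M - (h * e q.1) % M + (t q.1 + q.2) * M := fun q => by rw [hlev]
  have hlev0 : ∀ q, lev q ≠ 0 := by
    intro q h1
    have h2 := congrArg (fun x : Fin (K * M + 1) => (x : ℕ)) h1
    simp only [Fin.val_zero] at h2
    rw [hlevv] at h2
    have h3 : (h * e q.1) % M < M := Nat.mod_lt _ hM
    omega
  -- the extension by zero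
  have hjlt : ∀ (i : Fin N) (l : Fin (K * M + 1)),
      (M ∣ (l : ℕ) + h * e i ∧ l ≠ 0 ∧ t i ≤ ((l : ℕ) - 1) / M) →
      ((l : ℕ) - 1) / M - t i < K - t i := by
    intro i l hl
    have h1 : (l : ℕ) ≠ 0 := fun h0 => hl.2.1 (Fin.ext h0)
    have h2 : ((l : ℕ) - 1) / M < K := by
      rw [Nat.div_lt_iff_lt_mul hM]
      have := l.2
      omega
    have := hl.2.2
    omega
  obtain ⟨ext, hext⟩ : ∃ ext : ((Σ i : Fin N, Fin (K - t i)) → ℂ) →
      (Fin N × Fin (K * M + 1) → ℂ), ext = fun δ q =>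
        if hh : M ∣ (q.2 : ℕ) + h * e q.1 ∧ q.2 ≠ 0 ∧ t q.1 ≤ ((q.2 : ℕ) - 1) / M then
          δ ⟨q.1, ⟨((q.2 : ℕ) - 1) / M - t q.1, hjlt q.1 q.2 hh⟩⟩ else 0 := ⟨_, rfl⟩
  have hext0 : ∀ δ (i : Fin N) (l : Fin (K * M + 1)), ¬ M ∣ (l : ℕ) + h * e i →
      ext δ (i, l) = 0 := by
    intro δ i l h1
    rw [hext]
    simp only
    rw [dif_neg (fun h2 => h1 h2.1)]
  have hextlev : ∀ δ q, ext δ (q.1, lev q) = δ q := by
    intro δ q
    obtain ⟨i, a⟩ := q
    have h1 : M ∣ ((lev ⟨i, a⟩ : Fin (K * M + 1)) : ℕ) + h * e i := by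
      rw [hlevv]
      exact C2b_dvd_lev hM _ _
    have h2 : (((lev ⟨i, a⟩ : Fin (K * M + 1)) : ℕ) - 1) / M = t i + a := by
      rw [hlevv]
      exact C2b_lev_div hM _ _
    rw [hext]
    simp only
    rw [dif_pos ⟨h1, hlev0 _, by rw [h2]; exact Nat.le_add_right _ _⟩]
    congr 2
    apply Fin.ext
    simp only
    rw [h2, Nat.add_sub_cancel_left]
  have hlevdiv : ∀ (i : Fin N) (l : Fin (K * M + 1))
      (hh : M ∣ (l : ℕ) + h * e i ∧ l ≠ 0 ∧ t i ≤ ((l : ℕ) - 1) / M),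
      lev ⟨i, ⟨((l : ℕ) - 1) / M - t i, hjlt i l hh⟩⟩ = l := by
    intro i l hh
    apply Fin.ext
    rw [hlevv]
    simp only
    have h1 : (l : ℕ) ≠ 0 := fun h0 => hh.2.1 (Fin.ext h0)
    rw [Nat.add_sub_cancel' hh.2.2]
    exact C2b_lev_of_dvd hM (Nat.one_le_iff_ne_zero.2 h1) hh.1
  -- jets in `TS`
  have hfix : ∀ z ∈ TS w d M f B S h K, C2bZ w h ζ z = z := by
    intro z hz
    funext q
    unfold C2bZ
    by_cases h1 : M ∣ (q.2 : ℕ) + h * w q.1
    · rw [hζ1 _ h1, one_mul]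
    · have h2 := hz.2.1 q.1 q.2 h1
      have h3 : z q = 0 := h2
      rw [h3, mul_zero]
  have hcj0 : ∀ z ∈ TS w d M f B S h K, ∀ (i : Fin N) (l : Fin (K * M + 1)),
      ¬ M ∣ (l : ℕ) + h * e i → CN.cj u z (i, l) = 0 := by
    intro z hz i l h1
    have h2 := htw z i l
    rw [hfix z hz] at h2
    have h3 : (1 - ζ ^ ((l : ℕ) + h * e i)) * CN.cj u z (i, l) = 0 := by
      linear_combination h2
    rcases mul_eq_zero.1 h3 with h4 | h4
    · exact absurd (sub_eq_zero.1 h4).symm (hζ2 _ h1)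
    · exact h4
  have hcjext : ∀ z ∈ TS w d M f B S h K, ∀ (i : Fin N) (l : Fin (K * M + 1)), l ≠ 0 →
      CN.cj u z (i, l) = ext (fun q => CN.cj u z (q.1, lev q)) (i, l) := by
    intro z hz i l hl
    rw [hext]
    simp only
    by_cases hh : M ∣ (l : ℕ) + h * e i ∧ l ≠ 0 ∧ t i ≤ ((l : ℕ) - 1) / M
    · rw [dif_pos hh, hlevdiv i l hh]
    · rw [dif_neg hh]
      by_cases h1 : M ∣ (l : ℕ) + h * e i
      · have h2 : ((l : ℕ) - 1) / M < t i := by
          by_contra h3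
          exact hh ⟨h1, hl, not_lt.1 h3⟩
        have h3 : ∃ b ∈ B, φ b = i := by
          by_contra h4
          rw [ht0 i h4] at h2
          exact absurd h2 (Nat.not_lt_zero _)
        obtain ⟨b, hb, rfl⟩ := h3
        rw [htt b hb] at h2
        have h4 := hz.2.2 b hb l (C2b_small hM h2)
        unfold CN.cj
        simp only
        rw [hut b hb]
        exact h4
      · exact hcj0 z hz i l h1
  -- the isomorphism
  have hiso : RegIso (TS w d M f B S h K)
      (prodSet S (Set.univ : Set ((Σ i : Fin N, Fin (K - t i)) → ℂ))) := by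
    choose P hP using fun (g : MvPolynomial (Fin N) ℂ) (l : ℕ) =>
      CN.exists_alongPoly (n := K * M + 1) g l
    have hpair : ∀ y ∈ prodSet S (Set.univ : Set ((Σ i : Fin N, Fin (K - t i)) → ℂ)),
        eval (fun i => (Sum.elim (fun i => y (Sum.inl i)) (ext fun q => y (Sum.inr q)) :
          Fin N ⊕ (Fin N × Fin (K * M + 1)) → ℂ) (Sum.inl i)) (jacDet u) ≠ 0 :=
      fun y hy => hSj _ hy.1
    have hback : ∀ y ∈ prodSet S (Set.univ : Set ((Σ i : Fin N, Fin (K - t i)) → ℂ)),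
        Ψ (Sum.elim (fun i => y (Sum.inl i)) (ext fun q => y (Sum.inr q))) ∈
          TS w d M f B S h K := by
      intro y hy
      obtain ⟨z, hz⟩ : ∃ z, z = Ψ (Sum.elim (fun i => y (Sum.inl i))
        (ext fun q => y (Sum.inr q))) := ⟨_, rfl⟩
      obtain ⟨h1, h2⟩ := hΨ _ (hpair y hy)
      rw [← hz] at h1 h2 ⊢
      have hbase : ∀ i, z (i, 0) = y (Sum.inl i) := h1
      have hcj : ∀ i (l : Fin (K * M + 1)), l ≠ 0 → CN.cj u z (i, l) =
          ext (fun q => y (Sum.inr q)) (i, l) := h2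
      have htwist : C2bZ w h ζ z = z := by
        have h3 := hΨu _ (C2bZ w h ζ z) (hpair y hy) (fun i => by
          unfold C2bZ
          simp only [Sum.elim_inl, Fin.val_zero, zero_add]
          rw [hbase]
          by_cases h4 : M ∣ h * w i
          · rw [hζ1 _ h4, one_mul]
          · have h5 : y (Sum.inl i) = 0 := hSF hy.1 i h4
            rw [h5, mul_zero]) (fun i l hl => by
          rw [htw, hcj i l hl]
          simp only [Sum.elim_inr]
          by_cases h4 : M ∣ (l : ℕ) + h * e i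
          · rw [hζ1 _ h4, one_mul]
          · rw [hext0 _ i l h4, mul_zero])
        rw [← h3, ← hz]
      refine ⟨?_, ?_, ?_⟩
      · have h3 : (fun i => z (i, 0)) = fun i => y (Sum.inl i) := funext hbase
        rw [h3]
        exact hy.1
      · intro i v hv
        have h3 := congrFun htwist (i, v)
        unfold C2bZ at h3
        simp only at h3
        have h4 : (ζ ^ ((v : ℕ) + h * w i) - 1) * z (i, v) = 0 := by
          linear_combination h3
        rcases mul_eq_zero.1 h4 with h5 | h5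
        · exact absurd (sub_eq_zero.1 h5) (hζ2 _ hv)
        · exact h5
      · intro b hb v hv
        rcases Nat.eq_zero_or_pos v with h3 | h3
        · subst h3
          rw [LF.coeff_along_zero]
          have h4 : (fun j => z (j, 0)) = fun i => y (Sum.inl i) := funext hbase
          rw [h4]
          exact hSv _ hy.1 b hb
        · have h4 : v < K * M + 1 := by omega
          have h5 : (⟨v, h4⟩ : Fin (K * M + 1)) ≠ 0 := by
            intro h6
            have h7 := congrArg (fun x : Fin (K * M + 1) => (x : ℕ)) h6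
            simp only [Fin.val_zero] at h7
            omega
          have h6 := hcj (φ b) ⟨v, h4⟩ h5
          have h7 : CN.cj u z (φ b, ⟨v, h4⟩) = (along (f b) z).coeff v := by
            unfold CN.cj
            simp only
            rw [hut b hb]
          rw [← h7, h6, hext]
          simp only
          rw [dif_neg]
          rintro ⟨h8, -, h9⟩
          rw [het b hb] at h8
          rw [htt b hb] at h9
          exact absurd (C2b_big hM h3 h8 h9) (not_le.2 hv)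
    refine ⟨fun z => Sum.elim (fun i => z (i, 0)) (fun q => CN.cj u z (q.1, lev q)),
      fun y => Ψ (Sum.elim (fun i => y (Sum.inl i)) (ext fun q => y (Sum.inr q))),
      ?_, ?_, ?_, hback, ?_, ?_⟩
    · rintro (i | q)
      · exact regFun_coord _ _
      · refine (regFun_poly _ (P (u q.1) (lev q))).congr fun z _ => ?_
        rw [hP]
        rfl
    · intro q
      refine RegFun.comp (F := {z | eval (fun i => z (Sum.inl i)) (jacDet u) ≠ 0})
        (h := fun z => Ψ z q)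
        (f := fun y => Sum.elim (fun i => y (Sum.inl i)) (ext fun q => y (Sum.inr q)))
        ?_ (hΨr q) (fun y hy => hpair y hy)
      rintro (i | p)
      · exact regFun_coord _ _
      · by_cases hh : M ∣ (p.2 : ℕ) + h * e p.1 ∧ p.2 ≠ 0 ∧ t p.1 ≤ ((p.2 : ℕ) - 1) / M
        · refine (regFun_coord _ (Sum.inr ⟨p.1, ⟨((p.2 : ℕ) - 1) / M - t p.1,
            hjlt p.1 p.2 hh⟩⟩)).congr fun y _ => ?_
          rw [hext]
          simp only [Sum.elim_inr]
          rw [dif_pos hh]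
        · refine (regFun_const _ 0).congr fun y _ => ?_
          rw [hext]
          simp only [Sum.elim_inr]
          rw [dif_neg hh]
    · intro z hz
      exact ⟨hz.1, trivial⟩
    · intro z hz
      refine hΨu _ z ?_ (fun i => rfl) (fun i l hl => ?_)
      · exact hSj _ hz.1
      · exact hcjext z hz i l hl
    · intro y hy
      obtain ⟨h1, h2⟩ := hΨ _ (hpair y hy)
      funext q
      rcases q with i | q
      · exact h1 i
      · have h3 := h2 q.1 (lev q) (hlev0 q)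
        simp only [Sum.elim_inr] at h3 ⊢
        rw [h3, hextlev]
  have hTSc : Constr (TS w d M f B S h K) := by
    choose P hP using fun (g : MvPolynomial (Fin N) ℂ) (l : ℕ) =>
      CN.exists_alongPoly (n := K * M + 1) g l
    have h1 := hS.comp (σ := Fin N × Fin (K * M + 1)) (fun i => (i, 0))
    have h2 := CN.constr_zeroLocus {Q : MvPolynomial (Fin N × Fin (K * M + 1)) ℂ |
      ∃ i v, ¬ M ∣ ((v : Fin (K * M + 1)) : ℕ) + h * w i ∧ Q = X (i, v)}
    have h3 := CN.constr_zeroLocus {Q : MvPolynomial (Fin N × Fin (K * M + 1)) ℂ |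
      ∃ b ∈ B, ∃ v, v + h * d b < K * M ∧ Q = P (f b) v}
    have h4 : TS w d M f B S h K = {z | (fun i => z (i, 0)) ∈ S} ∩
        ({z | ∀ Q ∈ {Q : MvPolynomial (Fin N × Fin (K * M + 1)) ℂ |
          ∃ i v, ¬ M ∣ ((v : Fin (K * M + 1)) : ℕ) + h * w i ∧ Q = X (i, v)}, eval z Q = 0} ∩
        {z | ∀ Q ∈ {Q : MvPolynomial (Fin N × Fin (K * M + 1)) ℂ |
          ∃ b ∈ B, ∃ v, v + h * d b < K * M ∧ Q = P (f b) v}, eval z Q = 0}) := by
      ext z
      constructor
      · rintro ⟨a1, a2, a3⟩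
        refine ⟨a1, ?_, ?_⟩
        · rintro Q ⟨i, v, hv, rfl⟩
          rw [eval_X]
          exact a2 i v hv
        · rintro Q ⟨b, hb, v, hv, rfl⟩
          rw [hP]
          exact a3 b hb v hv
      · rintro ⟨a1, a2, a3⟩
        refine ⟨a1, fun i v hv => ?_, fun b hb v hv => ?_⟩
        · have := a2 _ ⟨i, v, hv, rfl⟩
          rwa [eval_X] at this
        · rw [← hP]
          exact a3 _ ⟨b, hb, v, hv, rfl⟩
    rw [h4]
    exact h1.inter (h2.inter h3)
  rw [cls_iso hTSc (hS.prodSet constr_univ) hiso, cls_prodSet hS constr_univ, cls_univ,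
    Fintype.card_sigma]
  congr 2
  rw [← C2bT_sum (w := w) hφ M h K, ← ht]
  exact Finset.sum_congr rfl fun i _ => Fintype.card_fin _

end WH
end MotMono
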