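import Pool.Agent.Lib.MP_4e5fcd_ag.WH.C1
import Pool.Agent.Lib.MP_4e5fcd_ag.WH.C2a
import Pool.Agent.Lib.MP_4e5fcd_ag.WH.C2b

/-!
# WH-C3: the class of a sector

Induction over a finite set of `φ : Fin r → Fin N` covering `S` (`exists_minor`): split off the part
of `S` where the minor of `φ` is not zero; `Sec … S` is additive in `S` (the condition is on
`lead`). On each piece `cls_Sec_TS` and `cls_TS`; exponents: `N K - ∑_b (K - 1 - h d_b / M) +
∑_i (n - h w_i / M - K) = ∑_i (n - h w_i / M) - ∑_b (K - 1 - h d_b / M)` because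
`K ≤ n - h w_i / M` and `∑_b (K - 1 - …) ≤ |B| K ≤ N K`. If `N = 0`: `B` is empty (independent
vectors in `ℂ^0`), directly.
-/

open MvPolynomial

namespace MotMono
namespace WH

variable {N r : ℕ}

theorem c3_constr_Sec (w : Fin N → ℕ) (M : ℕ) (f : Fin r → MvPolynomial (Fin N) ℂ)
    (B : Finset (Fin r)) {S : Set (Fin N → ℂ)} (hS : Constr S) (h K n : ℕ) :
    Constr (Sec w M f B S h K n) := by
  classical
  have hp : ∀ p : Prop, Constr {_γ : Fin N × Fin (n + 1) → ℂ | p} := by
    intro p
    by_cases h : p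
    · have : {_γ : Fin N × Fin (n + 1) → ℂ | p} = Set.univ := by ext; simp [h]
      rw [this]; exact constr_univ
    · have : {_γ : Fin N × Fin (n + 1) → ℂ | p} = ∅ := by ext; simp [h]
      rw [this]; exact constr_empty
  have hlead : Constr {γ : Fin N × Fin (n + 1) → ℂ | lead w M h γ ∈ S} := by
    have h1 := hS.preimage (σ := Fin N × Fin (n + 1)) (fun i =>
      if hq : M ∣ h * w i ∧ h * w i / M < n + 1 then X (i, ⟨h * w i / M, hq.2⟩) else 0)
    convert h1 using 2
    ext γ
    have : lead w M h γ = fun j => eval γ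
        (if hq : M ∣ h * w j ∧ h * w j / M < n + 1 then X (j, ⟨h * w j / M, hq.2⟩) else 0) := by
      funext j
      unfold lead
      split_ifs with hq
      · rw [eval_X]
      · rw [map_zero]
    rw [this]
  have hco : ∀ (b : Fin r) (l : ℕ), Constr {γ : Fin N × Fin (n + 1) → ℂ |
      (along (f b) γ).coeff l = 0} := by
    intro b l
    obtain ⟨P, hP⟩ := CN.exists_alongPoly (n := n + 1) (f b) l
    have h1 := Constr.zeroSet P
    convert h1 using 2
    ext γ
    rw [hP]
  have e : Sec w M f B S h K n =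
      (⋂ q : Fin N × Fin (n + 1), ({_γ | ¬ ((q.2 : ℕ) * M < h * w q.1)} ∪
        {γ | eval γ (X q : MvPolynomial (Fin N × Fin (n + 1)) ℂ) = 0})) ∩
      ({γ | lead w M h γ ∈ S} ∩
      ⋂ b ∈ B, ⋂ l : Fin K, {γ | (along (f b) γ).coeff (l : ℕ) = 0}) := by
    ext γ
    simp only [Sec, Set.mem_ofPred_eq, Set.mem_inter_iff, Set.mem_iInter, Set.mem_union, eval_X]
    constructor
    · rintro ⟨h1, h2, h3⟩
      refine ⟨?_, h2, ?_⟩
      · rintro ⟨i, l⟩
        by_cases hq : (l : ℕ) * M < h * w i
        · exact Or.inr (h1 i l hq)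
        · exact Or.inl hq
      · intro b hb l
        exact h3 b hb l l.2
    · rintro ⟨h1, h2, h3⟩
      refine ⟨?_, h2, ?_⟩
      · intro i l hq
        rcases h1 (i, l) with h4 | h4
        · exact absurd hq h4
        · exact h4
      · intro b hb l hl
        exact h3 b hb ⟨l, hl⟩
  rw [e]
  refine Constr.inter ?_ (Constr.inter hlead ?_)
  · exact constr_iInter fun q => (hp _).union (Constr.zeroSet _)
  · exact constr_biInter_finset _ fun b _ => constr_iInter fun l => hco b l

/-- the formula on the part of `S` where the minor of `φ` is not zero -/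
theorem c3_piece {w : Fin N → ℕ} {d : Fin r → ℕ} {f : Fin r → MvPolynomial (Fin N) ℂ}
    (hW : Wt w d f) {M h K n : ℕ} (hM : 0 < M) (hn : ∀ i, h * w i + K * M ≤ n * M)
    {B : Finset (Fin r)} {φ : Fin r → Fin N} (hφ : Set.InjOn φ B)
    {S : Set (Fin N → ℂ)} (hS : Constr S) (hSF : S ⊆ FixH w M h)
    (hSv : ∀ c ∈ S, ∀ b ∈ B, eval c (f b) = 0)
    (hSj : ∀ c ∈ S, eval c (jacDet (uu f B φ)) ≠ 0) :
    cls (Sec w M f B S h K n) =
      cls S * LL ^ (∑ i, (n - h * w i / M) - ∑ b ∈ B, (K - 1 - h * d b / M)) := by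
  rw [cls_Sec_TS hW hM hn B hS hSF, cls_TS hW hM hφ hS hSF hSv hSj, mul_assoc, ← pow_add]
  congr 2
  have hcard : B.card ≤ N := by
    have h1 := Finset.card_image_of_injOn hφ
    rw [← h1]
    exact (Finset.card_le_univ _).trans (by simp)
  have h2 : ∑ b ∈ B, (K - 1 - h * d b / M) ≤ N * K := by
    calc ∑ b ∈ B, (K - 1 - h * d b / M) ≤ ∑ b ∈ B, K := Finset.sum_le_sum fun b _ =>
        (Nat.sub_le _ _).trans (Nat.sub_le _ _)
      _ = B.card * K := by rw [Finset.sum_const, smul_eq_mul]
      _ ≤ N * K := Nat.mul_le_mul_right _ hcard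
  have h3 : ∀ i, K ≤ n - h * w i / M := by
    intro i
    have h4 : (h * w i + K * M) / M ≤ n := by
      apply Nat.div_le_of_le_mul
      rw [mul_comm M n]
      exact hn i
    rw [Nat.add_mul_div_right _ _ hM] at h4
    omega
  have h5 : ∑ i, (n - h * w i / M) = ∑ i, (n - h * w i / M - K) + N * K := by
    have : ∑ i, (n - h * w i / M) = ∑ i, ((n - h * w i / M - K) + K) :=
      Finset.sum_congr rfl fun i _ => by
        have := h3 i
        omega
    rw [this, Finset.sum_add_distrib]
    simp
  omega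

theorem c3_pos {w : Fin N → ℕ} {d : Fin r → ℕ} {f : Fin r → MvPolynomial (Fin N) ℂ}
    (hW : Wt w d f) {M h K n : ℕ} (hM : 0 < M) (hn : ∀ i, h * w i + K * M ≤ n * M)
    {B : Finset (Fin r)} (Φ : Finset (Fin r → Fin N)) :
    ∀ {S : Set (Fin N → ℂ)}, Constr S → S ⊆ FixH w M h →
    (∀ c ∈ S, ∀ b ∈ B, eval c (f b) = 0) →
    (∀ c ∈ S, ∃ φ ∈ Φ, Set.InjOn φ B ∧ eval c (jacDet (uu f B φ)) ≠ 0) →
    cls (Sec w M f B S h K n) =
      cls S * LL ^ (∑ i, (n - h * w i / M) - ∑ b ∈ B, (K - 1 - h * d b / M)) := by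
  classical
  induction Φ using Finset.induction_on with
  | empty =>
    intro S hS hSF hSv hc
    have h1 : S = ∅ := by
      ext c
      constructor
      · intro hcS
        obtain ⟨φ, hφ, _⟩ := hc c hcS
        exact absurd hφ (Finset.notMem_empty _)
      · intro hcS
        exact absurd hcS (Set.notMem_empty _)
    have h2 : Sec w M f B S h K n = ∅ := by
      ext γ
      constructor
      · intro hγ
        have := hγ.2.1
        rw [h1] at this
        exact absurd this (Set.notMem_empty _)
      · intro hγ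
        exact absurd hγ (Set.notMem_empty _)
    rw [h2, h1, cls_empty, cls_empty, zero_mul]
  | insert φ Φ _ ih =>
    intro S hS hSF hSv hc
    by_cases hφ : Set.InjOn φ B
    · have hS1 : Constr (S ∩ {c | eval c (jacDet (uu f B φ)) ≠ 0}) := hS.inter (constr_ne _)
      have hS2 : Constr (S ∩ {c | eval c (jacDet (uu f B φ)) = 0}) :=
        hS.inter (Constr.zeroSet _)
      have h1 := c3_piece hW hM hn hφ hS1 (fun c hc => hSF hc.1) (fun c hc => hSv c hc.1)
        (fun c hc => hc.2) (K := K) (h := h) (n := n)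
      have h2 := ih hS2 (fun c hc => hSF hc.1) (fun c hc => hSv c hc.1) (by
        intro c hcS
        obtain ⟨ψ, hψ, h3, h4⟩ := hc c hcS.1
        rcases Finset.mem_insert.1 hψ with rfl | h5
        · exact absurd hcS.2 h4
        · exact ⟨ψ, h5, h3, h4⟩)
      have hdisj : Disjoint (S ∩ {c | eval c (jacDet (uu f B φ)) ≠ 0})
          (S ∩ {c | eval c (jacDet (uu f B φ)) = 0}) := by
        rw [Set.disjoint_left]
        rintro c ⟨_, h3⟩ ⟨_, h4⟩
        exact h3 h4
      have hun : (S ∩ {c | eval c (jacDet (uu f B φ)) ≠ 0}) ∪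
          (S ∩ {c | eval c (jacDet (uu f B φ)) = 0}) = S := by
        ext c
        simp only [Set.mem_union, Set.mem_inter_iff, Set.mem_ofPred_eq]
        tauto
      have hun2 : Sec w M f B S h K n =
          Sec w M f B (S ∩ {c | eval c (jacDet (uu f B φ)) ≠ 0}) h K n ∪
          Sec w M f B (S ∩ {c | eval c (jacDet (uu f B φ)) = 0}) h K n := by
        ext γ
        simp only [Sec, Set.mem_union, Set.mem_inter_iff, Set.mem_ofPred_eq]
        tauto
      have hdisj2 : Disjoint (Sec w M f B (S ∩ {c | eval c (jacDet (uu f B φ)) ≠ 0}) h K n)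
          (Sec w M f B (S ∩ {c | eval c (jacDet (uu f B φ)) = 0}) h K n) := by
        rw [Set.disjoint_left]
        rintro γ h3 h4
        exact h3.2.1.2 h4.2.1.2
      have h6 : cls S = cls (S ∩ {c | eval c (jacDet (uu f B φ)) ≠ 0}) +
          cls (S ∩ {c | eval c (jacDet (uu f B φ)) = 0}) := by
        rw [← cls_union hS1 hS2 hdisj, hun]
      rw [hun2, cls_union (c3_constr_Sec w M f B hS1 h K n) (c3_constr_Sec w M f B hS2 h K n)
        hdisj2, h1, h2, h6, add_mul]
    · refine ih hS hSF hSv ?_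
      intro c hcS
      obtain ⟨ψ, hψ, h3, h4⟩ := hc c hcS
      rcases Finset.mem_insert.1 hψ with rfl | h5
      · exact absurd h3 hφ
      · exact ⟨ψ, h5, h3, h4⟩

theorem cls_Sec {w : Fin N → ℕ} {d : Fin r → ℕ} {f : Fin r → MvPolynomial (Fin N) ℂ}
    (hW : Wt w d f) {M h K n : ℕ} (hM : 0 < M) (hn : ∀ i, h * w i + K * M ≤ n * M)
    {B : Finset (Fin r)} {S : Set (Fin N → ℂ)} (hS : Constr S) (hSF : S ⊆ FixH w M h)
    (hSv : ∀ c ∈ S, ∀ b ∈ B, eval c (f b) = 0)
    (hSi : ∀ c ∈ S, LinearIndependent ℂ (fun b : B => grad (f b) c)) :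
    cls (Sec w M f B S h K n) =
      cls S * LL ^ (∑ i, (n - h * w i / M) - ∑ b ∈ B, (K - 1 - h * d b / M)) := by
  classical
  rcases Nat.eq_zero_or_pos N with rfl | hN
  · by_cases hne : S.Nonempty
    · obtain ⟨c, hc⟩ := hne
      have hB : B = ∅ := by
        by_contra hB
        obtain ⟨b, hb⟩ := Finset.nonempty_iff_ne_empty.2 hB
        have h1 := (hSi c hc).ne_zero ⟨b, hb⟩
        exact h1 (Subsingleton.elim _ _)
      subst hB
      have h1 : S = {c} := by
        ext x
        simp only [Set.mem_singleton_iff]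
        constructor
        · intro _
          exact Subsingleton.elim _ _
        · intro hx
          rw [hx]
          exact hc
      have h2 : Sec w M f ∅ S h K n = {0} := by
        ext γ
        simp only [Set.mem_singleton_iff]
        constructor
        · intro _
          funext q
          exact q.1.elim0
        · intro _
          refine ⟨fun i => i.elim0, ?_, fun b hb => absurd hb (Finset.notMem_empty _)⟩
          have : lead w M h γ = c := Subsingleton.elim _ _
          rw [this]
          exact hc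
      rw [h2, cls_singleton, h1, cls_singleton]
      simp
    · have h1 : S = ∅ := Set.not_nonempty_iff_eq_empty.1 hne
      have h2 : Sec w M f B S h K n = ∅ := by
        ext γ
        constructor
        · intro hγ
          have := hγ.2.1
          rw [h1] at this
          exact absurd this (Set.notMem_empty _)
        · intro hγ
          exact absurd hγ (Set.notMem_empty _)
      rw [h2, h1, cls_empty, cls_empty, zero_mul]
  · refine c3_pos hW hM hn Finset.univ hS hSF hSv ?_
    intro c hc
    obtain ⟨φ, h1, h2⟩ := exists_minor hN (hSi c hc)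
    exact ⟨φ, Finset.mem_univ _, h1, h2⟩

end WH
end MotMono
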