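import Pool.Agent.Lib.MP_4e5fcd_ag.WH.V5a

/-!
# WH-V5b: fibres and slices

`g = A.gcd w`. Let `F` be the set on the left. `Z₁ = {(s, x'), x' ∈ F, s^g = mon A u x'}`
(`s : Unit → ℂ`): the fibre over each `x' ∈ F` has `g` points (`mon ≠ 0`), so `χ (Z₁) = g χ (F)`.
`Z₂ = {(s, x), x ∈ QA …, s^e f j₀ (x) = 1}`: fibre over `x ∈ QA`: `e` points, `χ (Z₂) = e χ (QA)`.
`Z₁` and `Z₂` are isomorphic: `(s, x') ↦ (s, x)`, `x_i = s^(-w_i) x'_i` (`s ≠ 0`), inverse
`x'_i = s^(w_i) x_i`: `mon A u x = s^(-g) mon A u x'`, `f j (x) = s^(-d_j) f j (x')`. (The number of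
solutions of `s^g = a ≠ 0` is `g`; Euler characteristic of coverings: `fubini`, see
`chi_fib_const` in LF-X4, or `kummerCover` and `IsEulerChar.kummer`; `mon A u x'` is a quotient of
monomials, multiply by a `g`-th power if a polynomial is needed.)
-/

open MvPolynomial

namespace MotMono
namespace WH

variable {N r : ℕ}

/-- evaluation of a weighted homogeneous polynomial -/
private theorem v5b_hom {w : Fin N → ℕ} {e : ℕ} {f : MvPolynomial (Fin N) ℂ}
    (hf : IsWeightedHomogeneous w f e) (s : ℂ) (x : Fin N → ℂ) :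
    eval (fun i => s ^ w i * x i) f = s ^ e * eval x f := by
  rw [eval_eq', eval_eq', Finset.mul_sum]
  refine Finset.sum_congr rfl fun m hm => ?_
  have h1 : Finsupp.weight w m = e := hf (mem_support_iff.1 hm)
  have h2 : ∑ i, m i * w i = e := by
    rw [← h1, Finsupp.weight_apply]
    exact (Finsupp.sum_fintype m (fun i c => c • w i) (fun i => zero_smul ℕ (w i))).symm
  have h3 : ∏ i, (s ^ w i * x i) ^ m i = s ^ e * ∏ i, x i ^ m i := by
    rw [← h2, ← Finset.prod_pow_eq_pow_sum, ← Finset.prod_mul_distrib]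
    refine Finset.prod_congr rfl fun i _ => ?_
    rw [mul_pow, ← pow_mul, mul_comm (w i)]
  rw [h3]
  ring

private theorem v5b_hom_inv {w : Fin N → ℕ} {e : ℕ} {f : MvPolynomial (Fin N) ℂ}
    (hf : IsWeightedHomogeneous w f e) (s : ℂ) (x : Fin N → ℂ) :
    eval (fun i => (s ^ w i)⁻¹ * x i) f = (s ^ e)⁻¹ * eval x f := by
  have h := v5b_hom hf s⁻¹ x
  simpa only [inv_pow] using h

private theorem v5b_mon_scale {w : Fin N → ℕ} {A : Finset (Fin N)} {u : Fin N → ℤ}
    (hu : ∑ i ∈ A, u i * (w i : ℤ) = ((A.gcd w : ℕ) : ℤ)) {s : ℂ} (hs : s ≠ 0) (x : Fin N → ℂ) :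
    mon A u (fun i => s ^ w i * x i) = s ^ A.gcd w * mon A u x := by
  have key : ∀ B : Finset (Fin N), ∏ i ∈ B, (s ^ w i * x i) ^ u i =
      s ^ (∑ i ∈ B, u i * (w i : ℤ)) * ∏ i ∈ B, x i ^ u i := by
    classical
    intro B
    induction B using Finset.induction_on with
    | empty => simp
    | insert a B ha ih =>
      rw [Finset.prod_insert ha, Finset.sum_insert ha, Finset.prod_insert ha, ih,
        zpow_add₀ hs, mul_zpow]
      have h1 : (s ^ w a) ^ u a = s ^ (u a * (w a : ℤ)) := by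
        rw [← zpow_natCast, ← zpow_mul, mul_comm]
      rw [h1]
      ring
  unfold mon
  rw [key A, hu, zpow_natCast]

private theorem v5b_mon_ne {A : Finset (Fin N)} (u : Fin N → ℤ) {x : Fin N → ℂ} (hx : x ∈ TA A) :
    mon A u x ≠ 0 := by
  unfold mon
  exact Finset.prod_ne_zero_iff.2 fun i hi => zpow_ne_zero _ ((hx i).2 hi)

/-- `mon` as a quotient -/
private theorem v5b_mon_quot {A : Finset (Fin N)} (u : Fin N → ℤ) {x : Fin N → ℂ}
    (hx : x ∈ TA A) :
    mon A u x * ∏ i ∈ A, x i ^ (-(u i)).toNat = ∏ i ∈ A, x i ^ (u i).toNat := by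
  unfold mon
  rw [← Finset.prod_mul_distrib]
  refine Finset.prod_congr rfl fun i hi => ?_
  have h0 : x i ≠ 0 := (hx i).2 hi
  rw [← zpow_natCast, ← zpow_natCast, ← zpow_add₀ h0]
  congr 1
  omega

private theorem v5b_card {g : ℕ} (hg : 0 < g) {χ : K0 →+* ℤ} {c : ℂ} (hc : c ≠ 0)
    {S : Set (Unit → ℂ)} (hS : ∀ x, x ∈ S ↔ x () ^ g = c) : χ (cls S) = g := by
  classical
  have hmem : S = (((Polynomial.nthRoots g c).toFinset.image (fun u => fun _ : Unit => u) :
        Finset (Unit → ℂ)) : Set (Unit → ℂ)) := by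
    ext x
    rw [hS]
    simp only [Finset.coe_image, Set.mem_image, Finset.mem_coe, Multiset.mem_toFinset,
      Polynomial.mem_nthRoots hg]
    constructor
    · intro h2
      exact ⟨x (), h2, by funext u; cases u; rfl⟩
    · rintro ⟨u, hu, rfl⟩
      exact hu
  rw [hmem, LF.chi_finset]
  have hinj : Function.Injective (fun u : ℂ => fun _ : Unit => u) := by
    intro a b hab
    exact congrFun hab ()
  rw [Finset.card_image_of_injective _ hinj]
  have hprim := Complex.isPrimitiveRoot_exp g hg.ne'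
  rw [Multiset.toFinset_card_of_nodup (hprim.nthRoots_nodup hc), hprim.card_nthRoots, if_pos]
  exact IsAlgClosed.exists_pow_nat_eq c hg

private theorem v5b_constr_F (d : Fin r → ℕ)
    (f : Fin r → MvPolynomial (Fin N) ℂ) (A : Finset (Fin N)) (e : ℕ) (y : Fin r → ℂ) :
    Constr {x | x ∈ TA A ∧ (∀ j, d j < e → eval x (f j) = 0) ∧
      ∀ j, d j = e → eval x (f j) = y j} := by
  have h1 : Constr (⋂ j : Fin r, {x : Fin N → ℂ | d j < e → eval x (f j) = 0}) := by
    refine constr_iInter fun j => ?_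
    by_cases h : d j < e
    · have h2 := Constr.zeroSet (f j)
      simpa [h] using h2
    · have h2 := constr_univ (σ := Fin N)
      simpa [h] using h2
  have h2 : Constr (⋂ j : Fin r, {x : Fin N → ℂ | d j = e → eval x (f j) = y j}) := by
    refine constr_iInter fun j => ?_
    by_cases h : d j = e
    · have h2 := constr_eq (f j) (C (y j))
      simpa [h] using h2
    · have h2 := constr_univ (σ := Fin N)
      simpa [h] using h2
  have h3 := (constr_TA A).inter (h1.inter h2)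
  have e1 : TA A ∩ ((⋂ j : Fin r, {x : Fin N → ℂ | d j < e → eval x (f j) = 0}) ∩
      ⋂ j : Fin r, {x : Fin N → ℂ | d j = e → eval x (f j) = y j}) =
      {x | x ∈ TA A ∧ (∀ j, d j < e → eval x (f j) = 0) ∧
        ∀ j, d j = e → eval x (f j) = y j} := by
    ext x
    simp only [Set.mem_inter_iff, Set.mem_iInter, Set.mem_ofPred_eq]
  rwa [e1] at h3

theorem chi_fibre_TA {χ : K0 →+* ℤ} (hχ : IsEulerCharF χ) {w : Fin N → ℕ} {d : Fin r → ℕ}
    {f : Fin r → MvPolynomial (Fin N) ℂ} (hW : Wt w d f) {A : Finset (Fin N)} (hA : A.Nonempty)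
    {u : Fin N → ℤ} (hu : ∑ i ∈ A, u i * (w i : ℤ) = ((A.gcd w : ℕ) : ℤ)) (e : ℕ) (y : Fin r → ℂ) (j₀ : Fin r)
    (hj : d j₀ = e) (hy : y j₀ = 1) :
    ((A.gcd w : ℕ) : ℤ) * χ (cls {x | x ∈ TA A ∧ (∀ j, d j < e → eval x (f j) = 0) ∧
      ∀ j, d j = e → eval x (f j) = y j}) = e * χ (cls (QA d f A u e y j₀)) := by
  set F : Set (Fin N → ℂ) := {x | x ∈ TA A ∧ (∀ j, d j < e → eval x (f j) = 0) ∧
    ∀ j, d j = e → eval x (f j) = y j} with hF
  have hFc : Constr F := v5b_constr_F d f A e y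
  have hQc : Constr (QA d f A u e y j₀) := constr_QA d f A u e y j₀
  have he : 0 < e := hj ▸ hW.d_pos j₀
  have hg : 0 < A.gcd w := by
    obtain ⟨i, hi⟩ := hA
    exact Nat.pos_of_dvd_of_pos (Finset.gcd_dvd hi) (hW.w_pos i)
  -- the first covering
  set Z₁ : Set (Unit ⊕ Fin N → ℂ) := {z | (fun i => z (Sum.inr i)) ∈ F ∧
    z (Sum.inl ()) ^ A.gcd w = mon A u (fun i => z (Sum.inr i))} with hZ₁
  have hZ₁c : Constr Z₁ := by
    have h1 := hFc.comp (Sum.inr : Fin N → Unit ⊕ Fin N)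
    have h2 := constr_eq
      (X (Sum.inl ()) ^ A.gcd w * ∏ i ∈ A, X (Sum.inr i) ^ (-(u i)).toNat :
        MvPolynomial (Unit ⊕ Fin N) ℂ)
      (∏ i ∈ A, X (Sum.inr i) ^ (u i).toNat : MvPolynomial (Unit ⊕ Fin N) ℂ)
    have h3 := h1.inter h2
    have e1 : {x : Unit ⊕ Fin N → ℂ | (fun j => x (Sum.inr j)) ∈ F} ∩
        {x | eval x (X (Sum.inl ()) ^ A.gcd w * ∏ i ∈ A, X (Sum.inr i) ^ (-(u i)).toNat :
          MvPolynomial (Unit ⊕ Fin N) ℂ) =
        eval x (∏ i ∈ A, X (Sum.inr i) ^ (u i).toNat : MvPolynomial (Unit ⊕ Fin N) ℂ)} = Z₁ := by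
      ext z
      simp only [hZ₁, Set.mem_inter_iff, Set.mem_ofPred_eq, map_mul, map_pow, eval_X, map_prod]
      refine and_congr_right fun hz => ?_
      have hTA : (fun i => z (Sum.inr i)) ∈ TA A := hz.1
      have hq := v5b_mon_quot u hTA
      have hne : ∏ i ∈ A, z (Sum.inr i) ^ (-(u i)).toNat ≠ 0 :=
        Finset.prod_ne_zero_iff.2 fun i hi => pow_ne_zero _ ((hTA i).2 hi)
      constructor
      · intro h
        rw [← hq] at h
        exact mul_right_cancel₀ hne h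
      · intro h
        rw [h]
        exact hq
    rwa [e1] at h3
  have hχ₁ : χ (cls Z₁) = ((A.gcd w : ℕ) : ℤ) * χ (cls F) := by
    refine LF.chi_fib_const hχ hZ₁c hFc _ (fun x' hx' => ?_) (fun x' hx' s hs => hx' hs.1)
    refine v5b_card hg (v5b_mon_ne u hx'.1) fun s => ?_
    constructor
    · intro h
      exact h.2
    · intro h
      exact ⟨hx', h⟩
  -- the second covering
  set Z₂ : Set (Unit ⊕ Fin N → ℂ) := {z | (fun i => z (Sum.inr i)) ∈ QA d f A u e y j₀ ∧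
    z (Sum.inl ()) ^ e * eval (fun i => z (Sum.inr i)) (f j₀) = 1} with hZ₂
  have hZ₂c : Constr Z₂ := by
    have h1 := hQc.comp (Sum.inr : Fin N → Unit ⊕ Fin N)
    have h2 := constr_eq
      (X (Sum.inl ()) ^ e * rename Sum.inr (f j₀) : MvPolynomial (Unit ⊕ Fin N) ℂ)
      (C 1 : MvPolynomial (Unit ⊕ Fin N) ℂ)
    have h3 := h1.inter h2
    have e1 : {x : Unit ⊕ Fin N → ℂ | (fun j => x (Sum.inr j)) ∈ QA d f A u e y j₀} ∩
        {x | eval x (X (Sum.inl ()) ^ e * rename Sum.inr (f j₀) :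
          MvPolynomial (Unit ⊕ Fin N) ℂ) =
        eval x (C 1 : MvPolynomial (Unit ⊕ Fin N) ℂ)} = Z₂ := by
      ext z
      simp only [hZ₂, Set.mem_inter_iff, Set.mem_ofPred_eq, map_mul, map_pow, eval_X, eval_C,
        eval_rename]
      rfl
    rwa [e1] at h3
  have hχ₂ : χ (cls Z₂) = (e : ℤ) * χ (cls (QA d f A u e y j₀)) := by
    refine LF.chi_fib_const hχ hZ₂c hQc _ (fun x hx => ?_) (fun x hx s hs => hx hs.1)
    have hne : eval x (f j₀) ≠ 0 := hx.2.2.2.2
    refine v5b_card he (inv_ne_zero hne) fun s => ?_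
    constructor
    · intro h
      have h2 : s () ^ e * eval x (f j₀) = 1 := h.2
      exact eq_inv_of_mul_eq_one_left h2
    · intro h
      refine ⟨hx, ?_⟩
      show s () ^ e * eval x (f j₀) = 1
      rw [h, inv_mul_cancel₀ hne]
  rw [← hχ₁, ← hχ₂]
  have hs1 : ∀ z ∈ Z₁, z (Sum.inl ()) ≠ 0 := by
    intro z hz h0
    have h1 := hz.2
    rw [h0, zero_pow hg.ne'] at h1
    exact v5b_mon_ne u hz.1.1 h1.symm
  have hs2 : ∀ z ∈ Z₂, z (Sum.inl ()) ≠ 0 := by
    intro z hz h0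
    have h1 := hz.2
    rw [h0, zero_pow he.ne', zero_mul] at h1
    exact zero_ne_one h1
  congr 1
  refine cls_iso hZ₁c hZ₂c ?_
  refine ⟨fun z => Sum.elim (fun _ => z (Sum.inl ()))
      (fun i => (z (Sum.inl ()) ^ w i)⁻¹ * z (Sum.inr i)),
    fun z => Sum.elim (fun _ => z (Sum.inl ())) (fun i => z (Sum.inl ()) ^ w i * z (Sum.inr i)),
    ?_, ?_, ?_, ?_, ?_, ?_⟩
  · rintro (j | i)
    · exact regFun_coord Z₁ (Sum.inl ())
    · refine ⟨X (Sum.inr i), X (Sum.inl ()) ^ w i, fun z hz => ?_⟩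
      rw [map_pow, eval_X, eval_X]
      refine ⟨pow_ne_zero _ (hs1 z hz), ?_⟩
      show (z (Sum.inl ()) ^ w i)⁻¹ * z (Sum.inr i) = _
      rw [mul_comm, div_eq_mul_inv]
  · rintro (j | i)
    · exact regFun_coord Z₂ (Sum.inl ())
    · refine ⟨X (Sum.inl ()) ^ w i * X (Sum.inr i), 1, fun z _ => ?_⟩
      rw [map_one, map_mul, map_pow, eval_X, eval_X, div_one]
      exact ⟨one_ne_zero, rfl⟩
  · intro z hz
    have hs := hs1 z hz
    obtain ⟨⟨hTA, hlt, heq⟩, hm⟩ := hz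
    have hTA' : (fun i => (z (Sum.inl ()) ^ w i)⁻¹ * z (Sum.inr i)) ∈ TA A := by
      intro i
      rw [← hTA i]
      have : (z (Sum.inl ()) ^ w i)⁻¹ ≠ 0 := inv_ne_zero (pow_ne_zero _ hs)
      simp [this]
    have hm' : mon A u (fun i => (z (Sum.inl ()) ^ w i)⁻¹ * z (Sum.inr i)) = 1 := by
      have h1 := v5b_mon_scale hu hs (fun i => (z (Sum.inl ()) ^ w i)⁻¹ * z (Sum.inr i))
      have h2 : (fun i => z (Sum.inl ()) ^ w i * ((z (Sum.inl ()) ^ w i)⁻¹ * z (Sum.inr i))) =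
          fun i => z (Sum.inr i) := by
        funext i
        rw [← mul_assoc, mul_inv_cancel₀ (pow_ne_zero _ hs), one_mul]
      rw [h2, ← hm] at h1
      exact (mul_left_cancel₀ (pow_ne_zero _ hs) (by rw [mul_one]; exact h1)).symm
    have hev : ∀ j, eval (fun i => (z (Sum.inl ()) ^ w i)⁻¹ * z (Sum.inr i)) (f j) =
        (z (Sum.inl ()) ^ d j)⁻¹ * eval (fun i => z (Sum.inr i)) (f j) :=
      fun j => v5b_hom_inv (hW.hom j) _ _
    have h0 : eval (fun i => (z (Sum.inl ()) ^ w i)⁻¹ * z (Sum.inr i)) (f j₀) =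
        (z (Sum.inl ()) ^ e)⁻¹ := by
      rw [hev, hj, heq j₀ hj, hy, mul_one]
    refine ⟨⟨hTA', hm', ?_, ?_, ?_⟩, ?_⟩
    · intro j hlt'
      show eval (fun i => (z (Sum.inl ()) ^ w i)⁻¹ * z (Sum.inr i)) (f j) = 0
      rw [hev, hlt j hlt', mul_zero]
    · intro j hje
      show eval (fun i => (z (Sum.inl ()) ^ w i)⁻¹ * z (Sum.inr i)) (f j) =
        y j * eval (fun i => (z (Sum.inl ()) ^ w i)⁻¹ * z (Sum.inr i)) (f j₀)
      rw [h0, hev, hje, heq j hje, mul_comm]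
    · show eval (fun i => (z (Sum.inl ()) ^ w i)⁻¹ * z (Sum.inr i)) (f j₀) ≠ 0
      rw [h0]
      exact inv_ne_zero (pow_ne_zero _ hs)
    · show z (Sum.inl ()) ^ e *
        eval (fun i => (z (Sum.inl ()) ^ w i)⁻¹ * z (Sum.inr i)) (f j₀) = 1
      rw [h0, mul_inv_cancel₀ (pow_ne_zero _ hs)]
  · intro z hz
    have hs := hs2 z hz
    obtain ⟨⟨hTA, hm, hlt, heq, hne⟩, h1⟩ := hz
    have hTA' : (fun i => z (Sum.inl ()) ^ w i * z (Sum.inr i)) ∈ TA A := by
      intro i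
      rw [← hTA i]
      have : z (Sum.inl ()) ^ w i ≠ 0 := pow_ne_zero _ hs
      simp [this]
    have hev : ∀ j, eval (fun i => z (Sum.inl ()) ^ w i * z (Sum.inr i)) (f j) =
        z (Sum.inl ()) ^ d j * eval (fun i => z (Sum.inr i)) (f j) :=
      fun j => v5b_hom (hW.hom j) _ _
    refine ⟨⟨hTA', ?_, ?_⟩, ?_⟩
    · intro j hlt'
      show eval (fun i => z (Sum.inl ()) ^ w i * z (Sum.inr i)) (f j) = 0
      rw [hev, hlt j hlt', mul_zero]
    · intro j hje
      show eval (fun i => z (Sum.inl ()) ^ w i * z (Sum.inr i)) (f j) = y j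
      rw [hev, hje, heq j hje]
      calc z (Sum.inl ()) ^ e * (y j * eval (fun i => z (Sum.inr i)) (f j₀))
          = y j * (z (Sum.inl ()) ^ e * eval (fun i => z (Sum.inr i)) (f j₀)) := by ring
        _ = y j := by rw [h1, mul_one]
    · show z (Sum.inl ()) ^ A.gcd w = mon A u (fun i => z (Sum.inl ()) ^ w i * z (Sum.inr i))
      rw [v5b_mon_scale hu hs, hm, mul_one]
  · intro z hz
    have hs := hs1 z hz
    funext j
    rcases j with j | i
    · rfl
    · show z (Sum.inl ()) ^ w i * ((z (Sum.inl ()) ^ w i)⁻¹ * z (Sum.inr i)) = z (Sum.inr i)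
      rw [← mul_assoc, mul_inv_cancel₀ (pow_ne_zero _ hs), one_mul]
  · intro z hz
    have hs := hs2 z hz
    funext j
    rcases j with j | i
    · rfl
    · show (z (Sum.inl ()) ^ w i)⁻¹ * (z (Sum.inl ()) ^ w i * z (Sum.inr i)) = z (Sum.inr i)
      rw [← mul_assoc, inv_mul_cancel₀ (pow_ne_zero _ hs), one_mul]

end WH
end MotMono
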