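import Pool.Agent.Lib.MP_4e5fcd_ag.CN.P1
import Pool.Agent.Lib.MP_4e5fcd_ag.WH.Base

/-!
# WH-D2: admissible bases: constructibility

`grad (f j) c` has polynomial coordinates in `c`. A finite family of vectors `v_b (c)` is linearly
independent iff some maximal minor is not zero: constructible. If the `v_b (c)`, `b ∈ B'`, are
independent, then `v_j (c)` is in their span iff `j ∈ B'` or the family extended by `j` is not
independent.
-/

open MvPolynomial

namespace MotMono
namespace WH

variable {N r : ℕ}

/-- a finite family of vectors is independent iff a maximal minor is not zero -/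
theorem d2_li_iff {ι κ : Type} [Fintype ι] [DecidableEq ι] [Fintype κ] (v : ι → κ → ℂ) :
    LinearIndependent ℂ v ↔ ∃ φ : ι → κ, Matrix.det (fun b b' => v b (φ b')) ≠ 0 := by
  classical
  constructor
  · intro h
    set M : Matrix ι κ ℂ := v with hM
    have h1 : M.rank = Fintype.card ι := LinearIndependent.rank_matrix h
    have h2 : Module.finrank ℂ (Submodule.span ℂ (Set.range M.col)) = Fintype.card ι := by
      rw [← Matrix.rank_eq_finrank_span_cols, h1]
    obtain ⟨τ, a, ha, hsp, hli⟩ := exists_linearIndependent' ℂ M.col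
    have hfin : Finite τ := Finite.of_injective a ha
    have := Fintype.ofFinite τ
    have h3 : Fintype.card τ = Fintype.card ι := by
      rw [← h2, ← hsp, finrank_span_eq_card hli]
    obtain ⟨e⟩ : Nonempty (ι ≃ τ) := ⟨Fintype.equivOfCardEq h3.symm⟩
    refine ⟨fun b => a (e b), fun h0 => ?_⟩
    have h4 : LinearIndependent ℂ (fun b : ι => (M.col ∘ a) (e b)) := hli.comp e e.injective
    have h5 : IsUnit (Matrix.of fun b b' => v b' (a (e b)) : Matrix ι ι ℂ) :=
      Matrix.linearIndependent_rows_iff_isUnit.1 h4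
    have h6 := (Matrix.isUnit_iff_isUnit_det _).1 h5
    apply h6.ne_zero
    rw [← Matrix.det_transpose]
    exact h0
  · rintro ⟨φ, h⟩
    have h1 : IsUnit (Matrix.of fun b b' => v b (φ b') : Matrix ι ι ℂ) :=
      (Matrix.isUnit_iff_isUnit_det _).2 (isUnit_iff_ne_zero.2 h)
    have h2 : LinearIndependent ℂ (fun b : ι => (fun b' => v b (φ b') : ι → ℂ)) :=
      Matrix.linearIndependent_rows_iff_isUnit.2 h1
    have h3 : (fun b : ι => (fun b' => v b (φ b') : ι → ℂ)) =
        (LinearMap.funLeft ℂ ℂ φ) ∘ v := rfl
    rw [h3] at h2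
    exact h2.of_comp _

theorem d2_constr_li (f : Fin r → MvPolynomial (Fin N) ℂ) (A : Finset (Fin r)) :
    Constr {c | LinearIndepOn ℂ (fun j => grad (f j) c) (A : Set (Fin r))} := by
  classical
  have e : {c : Fin N → ℂ | LinearIndepOn ℂ (fun j => grad (f j) c) (A : Set (Fin r))} =
      ⋃ φ : A → Fin N, {c | eval c (Matrix.det (fun b b' : A => pderiv (φ b') (f b))) ≠ 0} := by
    ext c
    rw [Set.mem_iUnion]
    have h1 : LinearIndepOn ℂ (fun j => grad (f j) c) (A : Set (Fin r)) ↔
        LinearIndependent ℂ (fun b : A => grad (f b) c) := Iff.rfl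
    rw [Set.mem_ofPred_eq, h1, d2_li_iff]
    refine exists_congr fun φ => ?_
    have h2 : eval c (Matrix.det (fun b b' : A => pderiv (φ b') (f b))) =
        Matrix.det (fun b b' : A => grad (f b) c (φ b')) := by
      exact RingHom.map_det (eval c) (Matrix.of fun b b' : A => pderiv (φ b') (f b))
    rw [Set.mem_ofPred_eq, h2]
  rw [e]
  exact constr_iUnion fun φ => constr_ne _

theorem constr_adm (d : Fin r → ℕ) (f : Fin r → MvPolynomial (Fin N) ℂ) (E : ℕ)
    (B : Finset (Fin r)) : Constr {c | Adm d f c E B} := by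
  classical
  have hp : ∀ p : Prop, Constr {_c : Fin N → ℂ | p} := by
    intro p
    by_cases h : p
    · have : {_c : Fin N → ℂ | p} = Set.univ := by ext; simp [h]
      rw [this]; exact constr_univ
    · have : {_c : Fin N → ℂ | p} = ∅ := by ext; simp [h]
      rw [this]; exact constr_empty
  have e : {c : Fin N → ℂ | Adm d f c E B} =
      ({_c : Fin N → ℂ | E ≤ dmax d + 1 ∧ ∀ b ∈ B, d b < E} ∩
      {c | LinearIndepOn ℂ (fun j => grad (f j) c) (B : Set (Fin r))}) ∩
      ((⋂ j : Fin r, ({_c : Fin N → ℂ | ¬ d j < E} ∪ {c | eval c (f j) = 0})) ∩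
      ({_c : Fin N → ℂ | ¬ E ≤ dmax d} ∪
        ⋃ j : Fin r, ({_c : Fin N → ℂ | d j = E} ∩ {c | eval c (f j) ≠ 0})) ∩
      ⋂ j : Fin r, ({_c : Fin N → ℂ | ¬ d j < E ∨ j ∈ B} ∪
        {c | LinearIndepOn ℂ (fun j => grad (f j) c)
          ((insert j (B.filter fun b => d b ≤ d j) : Finset (Fin r)) : Set (Fin r))}ᶜ)) := by
    ext c
    have key : ∀ j, LinearIndepOn ℂ (fun j => grad (f j) c) (B : Set (Fin r)) →
        (grad (f j) c ∈ Submodule.span ℂ {v | ∃ b ∈ B, d b ≤ d j ∧ v = grad (f b) c} ↔
          (j ∈ B ∨ ¬ LinearIndepOn ℂ (fun j => grad (f j) c)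
          ((insert j (B.filter fun b => d b ≤ d j) : Finset (Fin r)) : Set (Fin r)))) := by
      intro j hB
      by_cases hj : j ∈ B
      · simp only [hj, true_or, iff_true]
        exact Submodule.subset_span ⟨j, hj, le_rfl, rfl⟩
      · have hset : {v | ∃ b ∈ B, d b ≤ d j ∧ v = grad (f b) c} =
            (fun j => grad (f j) c) '' ((B.filter fun b => d b ≤ d j : Finset (Fin r)) :
              Set (Fin r)) := by
          ext v
          simp only [Set.mem_ofPred_eq, Set.mem_image, Finset.mem_coe, Finset.mem_filter]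
          constructor
          · rintro ⟨b, h1, h2, h3⟩
            exact ⟨b, ⟨h1, h2⟩, h3.symm⟩
          · rintro ⟨b, ⟨h1, h2⟩, h3⟩
            exact ⟨b, h1, h2, h3.symm⟩
        have hsub : ((B.filter fun b => d b ≤ d j : Finset (Fin r)) : Set (Fin r)) ⊆ B := by
          intro b hb
          exact (Finset.mem_filter.1 hb).1
        have hB' := hB.mono hsub
        have hnot : j ∉ ((B.filter fun b => d b ≤ d j : Finset (Fin r)) : Set (Fin r)) := by
          intro h
          exact hj (hsub h)
        rw [hset, Finset.coe_insert, linearIndepOn_insert hnot]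
        simp only [hj, false_or, hB', true_and, not_not]
    simp only [Set.mem_inter_iff, Set.mem_union, Set.mem_iInter, Set.mem_iUnion,
      Set.mem_ofPred_eq, Set.mem_compl_iff]
    constructor
    · intro h
      have hB : LinearIndepOn ℂ (fun j => grad (f j) c) (B : Set (Fin r)) := h.ind
      refine ⟨⟨⟨h.le, h.lt⟩, hB⟩, ⟨?_, ?_⟩, ?_⟩
      · intro j
        by_cases hj : d j < E
        · exact Or.inr (h.van j hj)
        · exact Or.inl hj
      · by_cases hE : E ≤ dmax d
        · exact Or.inr (h.top hE)
        · exact Or.inl hE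
      · intro j
        by_cases hj : d j < E
        · have := (key j hB).1 (h.mem j hj)
          tauto
        · exact Or.inl (Or.inl hj)
    · rintro ⟨⟨⟨h1, h2⟩, hB⟩, ⟨h3, h4⟩, h5⟩
      refine ⟨h1, ?_, ?_, h2, hB, ?_⟩
      · intro j hj
        rcases h3 j with h | h
        · exact absurd hj h
        · exact h
      · intro hE
        rcases h4 with h | h
        · exact absurd hE h
        · exact h
      · intro j hj
        rw [key j hB]
        rcases h5 j with (h | h) | h
        · exact absurd hj h
        · exact Or.inl h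
        · exact Or.inr h
  rw [e]
  refine ((hp _).inter (d2_constr_li f B)).inter (Constr.inter (Constr.inter ?_ ?_) ?_)
  · exact constr_iInter fun j => (hp _).union (Constr.zeroSet _)
  · exact (hp _).union (constr_iUnion fun j => (hp _).inter (constr_ne _))
  · exact constr_iInter fun j => (hp _).union (d2_constr_li f _).compl

end WH
end MotMono
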