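import Pool.Agent.Lib.MP_4e5fcd_ag.WH.D1
import Pool.Agent.Lib.MP_4e5fcd_ag.WH.D2

/-!
# WH-D3: strata

Enumerate the finite set `Finset.range (dmax d + 2) ×ˢ Finset.univ` (`Finset.equivFin`) and let
`St τ` be the set of the `c` with `Adm d f c τ.1 τ.2` and not `Adm d f c τ'.1 τ'.2` for the `τ'`
before `τ`; `St τ = ∅` for the other `τ`.
-/

open MvPolynomial

namespace MotMono
namespace WH

variable {N r : ℕ}

theorem exists_strata (d : Fin r → ℕ) (f : Fin r → MvPolynomial (Fin N) ℂ) :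
    ∃ St : ℕ × Finset (Fin r) → Set (Fin N → ℂ), (∀ τ, Constr (St τ)) ∧
      (∀ τ τ', τ ≠ τ' → Disjoint (St τ) (St τ')) ∧
      (∀ c, ∃ τ ∈ Finset.range (dmax d + 2) ×ˢ (Finset.univ : Finset (Finset (Fin r))),
        c ∈ St τ) ∧ ∀ τ, ∀ c ∈ St τ, Adm d f c τ.1 τ.2 := by
  classical
  set F : Finset (ℕ × Finset (Fin r)) :=
    Finset.range (dmax d + 2) ×ˢ (Finset.univ : Finset (Finset (Fin r))) with hF
  let num : F → ℕ := fun τ => (F.equivFin τ : ℕ)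
  let A : ℕ × Finset (Fin r) → Set (Fin N → ℂ) := fun τ => {c | Adm d f c τ.1 τ.2}
  have hA : ∀ τ, Constr (A τ) := fun τ => constr_adm d f τ.1 τ.2
  let pre : F → Finset F := fun τ => Finset.univ.filter fun τ' => num τ' < num τ
  let St : ℕ × Finset (Fin r) → Set (Fin N → ℂ) := fun τ =>
    if h : τ ∈ F then A τ \ ⋃ τ' ∈ pre ⟨τ, h⟩, A τ'.1 else ∅
  have hSt : ∀ τ (h : τ ∈ F), St τ = A τ \ ⋃ τ' ∈ pre ⟨τ, h⟩, A τ'.1 := fun τ h => dif_pos h
  have hSt' : ∀ τ, τ ∉ F → St τ = ∅ := fun τ h => dif_neg h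
  refine ⟨St, fun τ => ?_, fun τ τ' hne => ?_, fun c => ?_, fun τ c hc => ?_⟩
  · by_cases h : τ ∈ F
    · rw [hSt τ h]
      exact (hA τ).diff (constr_biUnion _ fun τ' _ => hA τ'.1)
    · rw [hSt' τ h]
      exact constr_empty
  · rw [Set.disjoint_left]
    intro c h1 h2
    by_cases h : τ ∈ F
    · by_cases h' : τ' ∈ F
      · rw [hSt τ h] at h1
        rw [hSt τ' h'] at h2
        rcases lt_trichotomy (num ⟨τ, h⟩) (num ⟨τ', h'⟩) with h3 | h3 | h3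
        · exact h2.2 (Set.mem_biUnion (Finset.mem_filter.2 ⟨Finset.mem_univ _, h3⟩) h1.1)
        · have h4 : (⟨τ, h⟩ : F) = ⟨τ', h'⟩ := F.equivFin.injective (Fin.ext h3)
          exact hne (Subtype.mk.inj h4)
        · exact h1.2 (Set.mem_biUnion (Finset.mem_filter.2 ⟨Finset.mem_univ _, h3⟩) h2.1)
      · rw [hSt' τ' h'] at h2
        exact h2
    · rw [hSt' τ h] at h1
      exact h1
  · obtain ⟨E, B, hEB⟩ := exists_adm d f c
    have h0 : (E, B) ∈ F := by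
      rw [hF, Finset.mem_product, Finset.mem_range]
      exact ⟨Nat.lt_succ_of_le hEB.le, Finset.mem_univ _⟩
    have h1 : ∃ m, ∃ τ : F, num τ = m ∧ c ∈ A τ.1 := ⟨_, ⟨(E, B), h0⟩, rfl, hEB⟩
    obtain ⟨τ, hτ, hc⟩ := Nat.find_spec h1
    refine ⟨τ.1, τ.2, ?_⟩
    rw [hSt τ.1 τ.2]
    refine ⟨hc, fun h2 => ?_⟩
    rw [Set.mem_iUnion₂] at h2
    obtain ⟨τ', h3, h4⟩ := h2
    have h5 : num τ' < num τ := (Finset.mem_filter.1 h3).2
    rw [hτ] at h5
    exact Nat.find_min h1 h5 ⟨τ', rfl, h4⟩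
  · by_cases h : τ ∈ F
    · rw [hSt τ h] at hc
      exact hc.1
    · rw [hSt' τ h] at hc
      exact absurd hc (Set.notMem_empty c)

end WH
end MotMono
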