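import Pool.Agent.Lib.MP_4e5fcd_ag.CN.P1
import Pool.Agent.Lib.MP_4e5fcd_ag.CN.P2
import Pool.Agent.Lib.MP_4e5fcd_ag.CN.P3
import Pool.Agent.Lib.MP_4e5fcd_ag.CN.E1
import Pool.Agent.Lib.MP_4e5fcd_ag.WH.Base

/-!
# WH-A1: the measures `mu`

`constr_AS`: `CN.exists_alongPoly`, `constr_zeroLocus` (CN-P1). `mu_eq`: it is enough to compare
`AS f (n + 1) K` with `AS f n K` for `K ≤ n + 1`: the coefficients `l < K ≤ n + 1` of `f j (γ)` do
not depend on the top level `n + 1` of `γ` (`CN.along_trunc`, CN-E1), so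
`cls (AS f (n + 1) K) = cls (AS f n K) * LL ^ N`; induction from `n = K` (for `n = K - 1`
compare with `n = K`).
`zmot_coeff`: `ordLocus I k = AS f k k \ AS f k (k + 1)` for `I = span (range f)`, `cls_diff`,
`mu_eq` with `n = k`.
-/

open MvPolynomial

namespace MotMono
namespace WH

variable {N r : ℕ}

theorem constr_AS (f : Fin r → MvPolynomial (Fin N) ℂ) (n K : ℕ) : Constr (AS f n K) := by
  classical
  choose P hP using fun (j : Fin r) (l : ℕ) => CN.exists_alongPoly (n := n + 1) (f j) l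
  have h1 := CN.constr_zeroLocus {Q : MvPolynomial (Fin N × Fin (n + 1)) ℂ |
    (∃ i, Q = X (i, 0)) ∨ ∃ j, ∃ l < K, Q = P j l}
  have e : {x : Fin N × Fin (n + 1) → ℂ | ∀ g ∈ {Q : MvPolynomial (Fin N × Fin (n + 1)) ℂ |
      (∃ i, Q = X (i, 0)) ∨ ∃ j, ∃ l < K, Q = P j l}, eval x g = 0} = AS f n K := by
    ext γ
    simp only [Set.mem_ofPred_eq, AS]
    constructor
    · intro h
      refine ⟨fun i => ?_, fun j l hl => ?_⟩
      · have := h _ (Or.inl ⟨i, rfl⟩)
        rwa [eval_X] at this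
      · have := h _ (Or.inr ⟨j, l, hl, rfl⟩)
        rwa [hP] at this
    · rintro ⟨ha, hb⟩ g (⟨i, rfl⟩ | ⟨j, l, hl, rfl⟩)
      · rw [eval_X]
        exact ha i
      · rw [hP]
        exact hb j l hl
  rwa [e] at h1

private def a1_equiv (N n : ℕ) : Fin N × Fin (n + 2) ≃ (Fin N × Fin (n + 1)) ⊕ Fin N where
  toFun q := if h : (q.2 : ℕ) < n + 1 then Sum.inl (q.1, ⟨q.2, h⟩) else Sum.inr q.1
  invFun := Sum.elim (fun q => (q.1, q.2.castSucc)) (fun i => (i, Fin.last (n + 1)))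
  left_inv q := by
    obtain ⟨i, l⟩ := q
    by_cases h : (l : ℕ) < n + 1
    · simp only [dif_pos h, Sum.elim_inl]
      rfl
    · simp only [dif_neg h, Sum.elim_inr, Prod.mk.injEq, true_and]
      ext
      simp only [Fin.val_last]
      omega
  right_inv q := by
    rcases q with ⟨i, l⟩ | i
    · simp only [Sum.elim_inl, Fin.val_castSucc, dif_pos l.2]
    · simp

private theorem a1_equiv_lt {N n : ℕ} (i : Fin N) (l : Fin (n + 2)) (h : (l : ℕ) < n + 1) :
    a1_equiv N n (i, l) = Sum.inl (i, ⟨l, h⟩) := by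
  unfold a1_equiv
  simp only [Equiv.coe_fn_mk, dif_pos h]

private theorem a1_step (f : Fin r → MvPolynomial (Fin N) ℂ) (n K : ℕ) (h : K ≤ n + 1) :
    cls (AS f (n + 1) K) = cls (AS f n K) * LL ^ N := by
  have h1 := RegIso.reindex (a1_equiv N n) (AS f (n + 1) K)
  have h2 : {y : (Fin N × Fin (n + 1)) ⊕ Fin N → ℂ |
      (fun q => y (a1_equiv N n q)) ∈ AS f (n + 1) K} =
      prodSet (AS f n K) (Set.univ : Set (Fin N → ℂ)) := by
    ext y
    have hc : ∀ i, ∀ l, l < n + 1 → (arc (fun q => y (a1_equiv N n q)) i).coeff l =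
        (arc (fun q : Fin N × Fin (n + 1) => y (Sum.inl q)) i).coeff l := by
      intro i l hl
      rw [a1_arc_coeff, a1_arc_coeff, dif_pos (by omega : l < n + 1 + 1), dif_pos hl,
        a1_equiv_lt i ⟨l, by omega⟩ hl]
    have hz : ∀ i : Fin N, a1_equiv N n (i, 0) = Sum.inl (i, 0) := by
      intro i
      rw [a1_equiv_lt i 0 (by simp)]
      rfl
    simp only [Set.mem_ofPred_eq, AS, prodSet, Set.mem_univ, and_true]
    refine and_congr ?_ ?_
    · refine forall_congr' fun i => ?_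
      rw [hz i]
    · refine forall_congr' fun j => forall_congr' fun l => forall_congr' fun hl => ?_
      rw [CN.along_trunc (f j) (fun q => y (a1_equiv N n q))
        (fun q : Fin N × Fin (n + 1) => y (Sum.inl q)) l fun i l' hl' => hc i l' (by omega)]
  rw [h2] at h1
  rw [cls_iso (constr_AS f (n + 1) K) ((constr_AS f n K).prodSet constr_univ) h1,
    cls_prodSet (constr_AS f n K) constr_univ, cls_univ, Fintype.card_fin]

private theorem a1_LL_pow (k : ℕ) :
    algebraMap K0 MC (LL ^ k) = ((Lu ^ (k : ℤ) : MCˣ) : MC) := by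
  have h : algebraMap K0 MC LL = ((Lu : MCˣ) : MC) := by
    unfold Lu
    rw [IsUnit.unit_spec]
  rw [map_pow, h, zpow_natCast, Units.val_pow_eq_pow_val]

private theorem a1_val (f : Fin r → MvPolynomial (Fin N) ℂ) (n K : ℕ) (h : K ≤ n + 1) :
    algebraMap K0 MC (cls (AS f (n + 1) K)) *
      ((Lu ^ (-(N * ((n + 1 : ℕ) + 1) : ℤ)) : MCˣ) : MC) =
    algebraMap K0 MC (cls (AS f n K)) * ((Lu ^ (-(N * (n + 1) : ℤ)) : MCˣ) : MC) := by
  rw [a1_step f n K h, map_mul, a1_LL_pow, mul_assoc, ← Units.val_mul, ← zpow_add]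
  congr 4
  push_cast
  ring

theorem mu_eq (f : Fin r → MvPolynomial (Fin N) ℂ) (n K : ℕ) (h : K ≤ n + 1) :
    algebraMap K0 MC (cls (AS f n K)) * ((Lu ^ (-(N * (n + 1) : ℤ)) : MCˣ) : MC) = mu f K := by
  have hup : ∀ m, algebraMap K0 MC (cls (AS f (K + m) K)) *
      ((Lu ^ (-(N * ((K + m : ℕ) + 1) : ℤ)) : MCˣ) : MC) = mu f K := by
    intro m
    induction m with
    | zero => rfl
    | succ m ih =>
      rw [← ih]
      exact a1_val f (K + m) K (by omega)
  rcases Nat.lt_or_ge n K with h1 | h1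
  · obtain rfl : K = n + 1 := by omega
    rw [← a1_val f n (n + 1) le_rfl]
    exact hup 0
  · obtain ⟨m, rfl⟩ := Nat.exists_eq_add_of_le h1
    exact hup m

theorem zmot_coeff (f : Fin r → MvPolynomial (Fin N) ℂ) (k : ℕ) :
    PowerSeries.coeff k (Zmot (Ideal.span (Set.range f))) = mu f k - mu f (k + 1) := by
  have hsub : AS f k (k + 1) ⊆ AS f k k := fun γ hγ =>
    ⟨hγ.1, fun j l hl => hγ.2 j l (by omega)⟩
  have hmem : ∀ (m : ℕ) (γ : Fin N × Fin (k + 1) → ℂ),
      (∀ g ∈ Ideal.span (Set.range f), ∀ l < m, (along g γ).coeff l = 0) ↔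
        ∀ j, ∀ l < m, (along (f j) γ).coeff l = 0 := by
    intro m γ
    have h := CN.ordGe_span (Set.range f) m γ
    unfold CN.OrdGe at h
    rw [h]
    constructor
    · intro h1 j
      exact h1 (f j) ⟨j, rfl⟩
    · rintro h1 _ ⟨j, rfl⟩
      exact h1 j
  have hset : ordLocus (Ideal.span (Set.range f)) k = AS f k k \ AS f k (k + 1) := by
    ext γ
    rw [Set.mem_sdiff]
    unfold ordLocus AS
    simp only [Set.mem_ofPred_eq]
    constructor
    · rintro ⟨h0, h1, g, hg, h2⟩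
      refine ⟨⟨h0, (hmem k γ).1 h1⟩, fun h3 => h2 ?_⟩
      exact (hmem (k + 1) γ).2 h3.2 g hg k (Nat.lt_succ_self k)
    · rintro ⟨⟨h0, h1⟩, h2⟩
      refine ⟨h0, (hmem k γ).2 h1, ?_⟩
      by_contra hc
      push Not at hc
      apply h2
      refine ⟨h0, (hmem (k + 1) γ).1 fun g hg l hl => ?_⟩
      rcases Nat.lt_succ_iff_lt_or_eq.1 hl with h3 | h3
      · exact (hmem k γ).2 h1 g hg l h3
      · rw [h3]; exact hc g hg
  unfold Zmot
  rw [PowerSeries.coeff_mk, hset, cls_diff (constr_AS f k k) (constr_AS f k (k + 1)) hsub, map_sub,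
    sub_mul, mu_eq f k (k + 1) le_rfl]
  rfl

end WH
end MotMono
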