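import Pool.Agent.Lib.MP_4e5fcd_ag.WH.B1

/-!
# WH-B2: the order along the jets of a sector

(⇒) If `E ≤ dmax d`, let `f j (lead) ≠ 0`, `d j = E` (`top`). Then `M ∣ h E` (`not_dvd_lead`,
`lead_mem`), `l₀ = h E / M`, and the coefficient `l₀` of `f j (γ)` is `f j (lead) ≠ 0`
(`eq_coeff`), so `K ≤ l₀`. (⇐) Base point: `Low`, `0 < h w_i`. Let `l < K`. If `E ≤ d j` then
`E ≤ dmax d` and `l M < K M ≤ h E ≤ h d_j`: `low_coeff`. If `d j < E`: `Gen` gives `g`,
`g (lead) ≠ 0`, `g * f j = ∑ a_b f_b` over `b ∈ B`, `d b ≤ d j`. For `b ∈ B`: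
`X^(K M) ∣ X^(h d_b) * aeval yy (f b) = expand M (along (f b) γ)`. So `X^(K M)` divides
`X^(h d_j) * aeval yy g * aeval yy (f j)`, and as `aeval yy g` has constant coefficient
`g (lead) ≠ 0` it divides `X^(h d_j) * aeval yy (f j) = expand M (along (f j) γ)`.
-/

open MvPolynomial

namespace MotMono
namespace WH

variable {N r : ℕ}

theorem mem_AS_iff {w : Fin N → ℕ} {d : Fin r → ℕ} {f : Fin r → MvPolynomial (Fin N) ℂ}
    (hW : Wt w d f) {M h n K : ℕ} (hM : 0 < M) (hh : 1 ≤ h)
    (hn : ∀ i, h * w i < (n + 1) * M) (γ : Fin N × Fin (n + 1) → ℂ)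
    (hL : Low w M h γ) {E : ℕ} {B : Finset (Fin r)} (hA : Adm d f (lead w M h γ) E B)
    (hG : Gen d f (lead w M h γ) E B) :
    γ ∈ AS f n K ↔ (E ≤ dmax d → K * M ≤ h * E) ∧
      ∀ b ∈ B, ∀ l < K, (along (f b) γ).coeff l = 0 := by
  constructor
  · rintro ⟨-, hall⟩
    refine ⟨fun hE => ?_, fun b _ l hl => hall b l hl⟩
    obtain ⟨j, hdj, hne⟩ := hA.top hE
    by_contra hlt
    push Not at hlt
    have hdvd : M ∣ h * d j := by
      by_contra hnd
      exact hne (not_dvd_lead (hW.hom j) hM _ (lead_mem w M h γ) hnd)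
    obtain ⟨l₀, hl₀⟩ := hdvd
    have hl1 : l₀ * M = h * d j := by rw [hl₀, Nat.mul_comm]
    have hl2 : l₀ < K := by
      have h1 : l₀ * M < K * M := by rw [hl1, hdj]; exact hlt
      exact Nat.lt_of_mul_lt_mul_right h1
    have h2 := eq_coeff (hW.hom j) hM hn γ hL l₀ hl1
    rw [hall j l₀ hl2] at h2
    exact hne h2.symm
  · rintro ⟨hK, hB⟩
    refine ⟨fun i => ?_, fun j l hl => ?_⟩
    · refine hL i 0 ?_
      rw [Fin.val_zero, Nat.zero_mul]
      exact Nat.mul_pos hh (hW.w_pos i)
    · rcases le_or_gt E (d j) with hEj | hjE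
      · have hdm : d j ≤ dmax d := Finset.single_le_sum (f := d) (fun _ _ => Nat.zero_le _)
          (Finset.mem_univ j)
        have h1 := hK (hEj.trans hdm)
        refine low_coeff (hW.hom j) hM γ hL l ?_
        calc l * M < K * M := Nat.mul_lt_mul_of_pos_right hl hM
          _ ≤ h * E := h1
          _ ≤ h * d j := Nat.mul_le_mul_left _ hEj
      · obtain ⟨g, hg0, hgm⟩ := hG j hjE
        have key : ∀ p ∈ Ideal.span {g | ∃ b ∈ B, d b ≤ d j ∧ g = f b},
            (Polynomial.X : Polynomial ℂ) ^ (K * M) ∣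
              Polynomial.X ^ (h * d j) * aeval (yy w M h γ) p := by
          intro p hp
          refine Submodule.span_induction ?_ ?_ ?_ ?_ hp
          · rintro _ ⟨b, hb, hdb, rfl⟩
            have h1 : (Polynomial.X : Polynomial ℂ) ^ K ∣ along (f b) γ := by
              rw [Polynomial.X_pow_dvd_iff]
              exact hB b hb
            obtain ⟨Q, hQ⟩ := h1
            have h2 : (Polynomial.X : Polynomial ℂ) ^ (K * M) ∣
                Polynomial.expand ℂ M (along (f b) γ) := by
              refine ⟨Polynomial.expand ℂ M Q, ?_⟩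
              rw [hQ, map_mul, map_pow, Polynomial.expand_X, ← pow_mul, Nat.mul_comm K M]
            rw [expand_along (hW.hom b) hM γ hL] at h2
            have h3 : h * d j = h * (d j - d b) + h * d b := by
              rw [← Nat.mul_add, Nat.sub_add_cancel hdb]
            rw [h3, pow_add, mul_assoc]
            exact Dvd.dvd.mul_left h2 _
          · rw [map_zero, mul_zero]
            exact dvd_zero _
          · intro x y _ _ hx hy
            rw [map_add, mul_add]
            exact dvd_add hx hy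
          · intro a x _ hx
            rw [smul_eq_mul, map_mul, mul_left_comm]
            exact Dvd.dvd.mul_left hx _
        have h1 := key _ hgm
        rw [map_mul, mul_left_comm, ← expand_along (hW.hom j) hM γ hL] at h1
        have h2 : ¬ (Polynomial.X : Polynomial ℂ) ∣ aeval (yy w M h γ) g := by
          rw [Polynomial.X_dvd_iff, coeff_zero_aeval]
          have h3 : (fun i => (yy w M h γ i).coeff 0) = lead w M h γ := by
            funext i
            exact yy_coeff_zero w hM hn γ i
          rw [h3]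
          exact hg0
        have h4 := Polynomial.prime_X.pow_dvd_of_dvd_mul_left _ h2 h1
        rw [Polynomial.X_pow_dvd_iff] at h4
        have h5 := h4 (l * M) (Nat.mul_lt_mul_of_pos_right hl hM)
        rwa [Polynomial.coeff_expand_mul hM] at h5

end WH
end MotMono
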