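import Pool.Agent.Lib.MP_4e5fcd_ag.K1
import Pool.Agent.Lib.MP_4e5fcd_ag.WH.B2
import Pool.Agent.Lib.MP_4e5fcd_ag.WH.B3
import Pool.Agent.Lib.MP_4e5fcd_ag.WH.A1

/-!
# WH-B4: decomposition of the set of jets

`Ball ⊆ AS`: `low_coeff` with `M, h` replaced by `dm, K` (`l < K`, `l dm < K d_j` for `f j ≠ 0`), and
the level `0` vanishes by `Low`, `0 < K w_i`. Let `γ ∈ AS`, `γ ∉ Ball`; `h` = the minimum of
`l (M / w_i)` over the `(i, l)` with `γ (i, l) ≠ 0`. Then `Low w M h γ`, `lead w M h γ ≠ 0`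
(`l M = h w_i`), `1 ≤ h` (base point `0`), and `h dm < K M` because `l dm < K w_i` for some `(i, l)`
with `γ (i, l) ≠ 0`. `lead` lies in exactly one `St τ`; `mem_AS_iff` with `gen_of_smooth`. Conversely
the sets `Sec … (St τ ∩ {≠ 0}) h K n` with `Rng` are contained in `AS` (`mem_AS_iff`), they are
pairwise disjoint (`h` is the minimum above) and disjoint from `Ball` (`γ (i, h w_i / M) ≠ 0` and
`(h w_i / M) dm < K w_i` by `h dm < K M`). `cls_union`, `cls_biUnion`; constructibility of the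
pieces: `Constr` of `Low`, `lead`, coefficients (`CN.exists_alongPoly`).
-/

open MvPolynomial

namespace MotMono
namespace WH

variable {N r : ℕ}

private theorem B4_constr_Low (w : Fin N → ℕ) (M h n : ℕ) :
    Constr {γ : Fin N × Fin (n + 1) → ℂ | Low w M h γ} := by
  have e : {γ : Fin N × Fin (n + 1) → ℂ | Low w M h γ} =
      ⋂ q : Fin N × Fin (n + 1), {γ | (q.2 : ℕ) * M < h * w q.1 → γ q = 0} := by
    ext γ
    rw [Set.mem_iInter]
    exact ⟨fun hγ q => hγ q.1 q.2, fun hγ i l => hγ (i, l)⟩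
  rw [e]
  refine constr_iInter fun q => ?_
  by_cases hq : (q.2 : ℕ) * M < h * w q.1
  · have e2 : {γ : Fin N × Fin (n + 1) → ℂ | (q.2 : ℕ) * M < h * w q.1 → γ q = 0} =
        {γ | eval γ (X q : MvPolynomial (Fin N × Fin (n + 1)) ℂ) = 0} := by
      ext γ
      rw [Set.mem_ofPred_eq, Set.mem_ofPred_eq, eval_X]
      exact ⟨fun h1 => h1 hq, fun h1 _ => h1⟩
    rw [e2]
    exact Constr.zeroSet _
  · have e2 : {γ : Fin N × Fin (n + 1) → ℂ | (q.2 : ℕ) * M < h * w q.1 → γ q = 0} =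
        Set.univ := by
      ext γ
      rw [Set.mem_ofPred_eq]
      exact ⟨fun _ => trivial, fun _ h1 => absurd h1 hq⟩
    rw [e2]
    exact constr_univ

theorem constr_Ball (w : Fin N → ℕ) (dm K n : ℕ) : Constr (Ball w dm K n) :=
  B4_constr_Low w dm K n

theorem constr_Sec (w : Fin N → ℕ) (M : ℕ) (f : Fin r → MvPolynomial (Fin N) ℂ)
    (B : Finset (Fin r)) {S : Set (Fin N → ℂ)} (hS : Constr S) (h K n : ℕ) :
    Constr (Sec w M f B S h K n) := by
  classical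
  choose P hP using fun (g : MvPolynomial (Fin N) ℂ) (l : ℕ) =>
    CN.exists_alongPoly (n := n + 1) g l
  have h1 := B4_constr_Low w M h n
  have h2 : Constr {γ : Fin N × Fin (n + 1) → ℂ | lead w M h γ ∈ S} := by
    have h3 := hS.preimage (σ := Fin N × Fin (n + 1)) (fun i =>
      if hq : M ∣ h * w i ∧ h * w i / M < n + 1 then X (i, ⟨h * w i / M, hq.2⟩) else 0)
    have e : {γ : Fin N × Fin (n + 1) → ℂ | lead w M h γ ∈ S} = {γ : Fin N × Fin (n + 1) → ℂ |
        (fun i => eval γ (if hq : M ∣ h * w i ∧ h * w i / M < n + 1 then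
          X (i, ⟨h * w i / M, hq.2⟩) else 0 : MvPolynomial (Fin N × Fin (n + 1)) ℂ)) ∈ S} := by
      ext γ
      rw [Set.mem_ofPred_eq, Set.mem_ofPred_eq]
      have : lead w M h γ = fun i => eval γ (if hq : M ∣ h * w i ∧ h * w i / M < n + 1 then
          X (i, ⟨h * w i / M, hq.2⟩) else 0 : MvPolynomial (Fin N × Fin (n + 1)) ℂ) := by
        funext i
        unfold lead
        split_ifs with hq
        · rw [eval_X]
        · rw [map_zero]
      rw [this]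
    rw [e]
    exact h3
  have h4 := CN.constr_zeroLocus {Q | ∃ b ∈ B, ∃ l < K, Q = P (f b) l}
  have e : Sec w M f B S h K n = {γ | Low w M h γ} ∩ {γ | lead w M h γ ∈ S} ∩
      {γ | ∀ Q ∈ {Q | ∃ b ∈ B, ∃ l < K, Q = P (f b) l}, eval γ Q = 0} := by
    ext γ
    constructor
    · rintro ⟨a1, a2, a3⟩
      refine ⟨⟨a1, a2⟩, ?_⟩
      rintro Q ⟨b, hb, l, hl, rfl⟩
      rw [hP]
      exact a3 b hb l hl
    · rintro ⟨⟨a1, a2⟩, a3⟩
      refine ⟨a1, a2, fun b hb l hl => ?_⟩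
      rw [← hP]
      exact a3 _ ⟨b, hb, l, hl, rfl⟩
  rw [e]
  exact (h1.inter h2).inter h4

/-- the order of a jet in a sector -/
private theorem B4_le {w : Fin N → ℕ} (hw : ∀ i, 0 < w i) {M n h h' : ℕ} (hM : 0 < M)
    {γ : Fin N × Fin (n + 1) → ℂ} (h1 : Low w M h γ) (h2 : lead w M h' γ ≠ 0) : h ≤ h' := by
  obtain ⟨i, hi⟩ := Function.ne_iff.1 h2
  unfold lead at hi
  split_ifs at hi with hq
  · have h3 : ¬ (h' * w i / M) * M < h * w i := fun h3 => hi (h1 i ⟨h' * w i / M, hq.2⟩ h3)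
    rw [Nat.div_mul_cancel hq.1, not_lt] at h3
    exact Nat.le_of_mul_le_mul_right h3 (hw i)
  · exact absurd rfl hi

private theorem B4_ball {w : Fin N → ℕ} {M n h dm K : ℕ} (hw : ∀ i, 0 < w i) (hM : 0 < M)
    {γ : Fin N × Fin (n + 1) → ℂ} (h1 : Low w dm K γ) (h2 : lead w M h γ ≠ 0) :
    K * M ≤ h * dm := by
  obtain ⟨i, hi⟩ := Function.ne_iff.1 h2
  unfold lead at hi
  split_ifs at hi with hq
  · have h3 : ¬ (h * w i / M) * dm < K * w i := fun h3 => hi (h1 i ⟨h * w i / M, hq.2⟩ h3)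
    rw [not_lt] at h3
    have h4 : K * w i * M ≤ (h * w i / M) * dm * M := Nat.mul_le_mul_right _ h3
    have h5 : (h * w i / M) * dm * M = h * w i * dm := by
      calc (h * w i / M) * dm * M = (h * w i / M) * M * dm := by ring
        _ = h * w i * dm := by rw [Nat.div_mul_cancel hq.1]
    rw [h5] at h4
    have h6 : (K * M) * w i ≤ (h * dm) * w i := by
      calc (K * M) * w i = K * w i * M := by ring
        _ ≤ h * w i * dm := h4
        _ = (h * dm) * w i := by ring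
    exact Nat.le_of_mul_le_mul_right h6 (hw i)
  · exact absurd rfl hi

/-- the minimal order -/
private theorem B4_exists {w : Fin N → ℕ} (hw : ∀ i, 0 < w i) {M n dm K : ℕ} (hM : 0 < M)
    (hwM : ∀ i, w i ∣ M) {γ : Fin N × Fin (n + 1) → ℂ} (h0 : ∀ i, γ (i, 0) = 0)
    (h1 : ¬ Low w dm K γ) :
    ∃ h, 1 ≤ h ∧ h * dm < K * M ∧ Low w M h γ ∧ lead w M h γ ≠ 0 := by
  classical
  unfold Low at h1
  push Not at h1
  obtain ⟨i₀, l₀, h2, h3⟩ := h1
  have hex : ∃ h, ∃ i, ∃ l : Fin (n + 1), γ (i, l) ≠ 0 ∧ h * w i = (l : ℕ) * M := by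
    obtain ⟨k, hk⟩ := hwM i₀
    exact ⟨l₀ * k, i₀, l₀, h3, by rw [hk]; ring⟩
  obtain ⟨i, l, hγ, hl⟩ := Nat.find_spec hex
  have hmin : ∀ i' (l' : Fin (n + 1)), γ (i', l') ≠ 0 → Nat.find hex * w i' ≤ (l' : ℕ) * M := by
    intro i' l' h4
    obtain ⟨k, hk⟩ := hwM i'
    have h5 : Nat.find hex ≤ (l' : ℕ) * k := Nat.find_min' hex ⟨i', l', h4, by rw [hk]; ring⟩
    calc Nat.find hex * w i' ≤ (l' : ℕ) * k * w i' := Nat.mul_le_mul_right _ h5
      _ = (l' : ℕ) * M := by rw [hk]; ring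
  refine ⟨Nat.find hex, ?_, ?_, ?_, ?_⟩
  · rcases Nat.eq_zero_or_pos (Nat.find hex) with h4 | h4
    · rw [h4, zero_mul] at hl
      have h5 : (l : ℕ) = 0 := by
        rcases Nat.eq_zero_or_pos (l : ℕ) with h6 | h6
        · exact h6
        · exact absurd hl (Nat.mul_pos h6 hM).ne
      have h6 : l = 0 := Fin.ext h5
      rw [h6] at hγ
      exact absurd (h0 i) hγ
    · exact h4
  · have h4 := hmin i₀ l₀ h3
    have h5 : Nat.find hex * dm * w i₀ < K * M * w i₀ := by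
      calc Nat.find hex * dm * w i₀ = Nat.find hex * w i₀ * dm := by ring
        _ ≤ (l₀ : ℕ) * M * dm := Nat.mul_le_mul_right _ h4
        _ = (l₀ : ℕ) * dm * M := by ring
        _ < K * w i₀ * M := Nat.mul_lt_mul_of_pos_right h2 hM
        _ = K * M * w i₀ := by ring
    exact Nat.lt_of_mul_lt_mul_right h5
  · intro i' l' h4
    by_contra h5
    exact absurd (hmin i' l' h5) (not_le.2 h4)
  · intro h4
    have h5 := congrFun h4 i
    have h6 : Nat.find hex * w i / M = (l : ℕ) := by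
      rw [hl, Nat.mul_div_cancel _ hM]
    unfold lead at h5
    rw [dif_pos ⟨hl ▸ dvd_mul_left _ _, by rw [h6]; exact l.2⟩] at h5
    apply hγ
    have h7 : l = ⟨Nat.find hex * w i / M, by rw [h6]; exact l.2⟩ := Fin.ext h6.symm
    rw [h7]
    exact h5

open Classical in
theorem cls_AS {w : Fin N → ℕ} {d : Fin r → ℕ} {f : Fin r → MvPolynomial (Fin N) ℂ}
    (hW : Wt w d f) {M n K dm : ℕ} (hM : 0 < M) (hwM : ∀ i, w i ∣ M) (hK : 1 ≤ K)
    (hn : ∀ i, K * (w i + 1) ≤ n) (hdm0 : 0 < dm) (hdm : ∀ j, f j ≠ 0 → dm ≤ d j)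
    (hs : ∀ c, c ≠ 0 → ∀ e, (∀ j, d j ≤ e → eval c (f j) = 0) → SmoothAt (trn d f e) c)
    (St : ℕ × Finset (Fin r) → Set (Fin N → ℂ)) (hSt : ∀ τ, Constr (St τ))
    (hdis : ∀ τ τ', τ ≠ τ' → Disjoint (St τ) (St τ'))
    (hcov : ∀ c, ∃ τ ∈ Finset.range (dmax d + 2) ×ˢ (Finset.univ : Finset (Finset (Fin r))),
      c ∈ St τ) (hadm : ∀ τ, ∀ c ∈ St τ, Adm d f c τ.1 τ.2) :
    cls (AS f n K) = cls (Ball w dm K n) +
      ∑ τ ∈ Finset.range (dmax d + 2) ×ˢ (Finset.univ : Finset (Finset (Fin r))),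
        ∑ h ∈ (Finset.range (K * M)).filter (fun h => Rng d M dm τ.1 h K),
          cls (Sec w M f τ.2 {c | c ∈ St τ ∧ c ≠ 0} h K n) := by
  have hKM : ∀ {h : ℕ}, h * dm < K * M → h < K * M := fun {h} h1 =>
    lt_of_le_of_lt (Nat.le_mul_of_pos_right _ hdm0) h1
  have hn' : ∀ {h : ℕ}, h < K * M → ∀ i, h * w i < (n + 1) * M := by
    intro h h1 i
    have h2 := hn i
    have h3 : K * w i ≤ n := le_trans (Nat.mul_le_mul_left _ (Nat.le_succ _)) h2
    calc h * w i < K * M * w i := Nat.mul_lt_mul_of_pos_right h1 (hW.w_pos i)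
      _ = K * w i * M := by ring
      _ ≤ n * M := Nat.mul_le_mul_right _ h3
      _ ≤ (n + 1) * M := Nat.mul_le_mul_right _ (Nat.le_succ _)
  obtain ⟨I, hI⟩ : ∃ I : Finset (Σ _ : ℕ × Finset (Fin r), ℕ), I =
      (Finset.range (dmax d + 2) ×ˢ (Finset.univ : Finset (Finset (Fin r)))).sigma fun τ =>
        (Finset.range (K * M)).filter (fun h => Rng d M dm τ.1 h K) := ⟨_, rfl⟩
  have hmemI : ∀ p : (Σ _ : ℕ × Finset (Fin r), ℕ), p ∈ I ↔
      p.1 ∈ Finset.range (dmax d + 2) ×ˢ (Finset.univ : Finset (Finset (Fin r))) ∧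
        p.2 < K * M ∧ Rng d M dm p.1.1 p.2 K := by
    intro p
    rw [hI, Finset.mem_sigma, Finset.mem_filter, Finset.mem_range]
  obtain ⟨F, hF⟩ : ∃ F : (Σ _ : ℕ × Finset (Fin r), ℕ) → Set (Fin N × Fin (n + 1) → ℂ),
      F = fun p => Sec w M f p.1.2 {c | c ∈ St p.1 ∧ c ≠ 0} p.2 K n := ⟨_, rfl⟩
  have hFc : ∀ p, Constr (F p) := by
    intro p
    rw [hF]
    refine constr_Sec w M f p.1.2 ?_ p.2 K n
    have h1 := (hSt p.1).inter (constr_singleton (0 : Fin N → ℂ)).compl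
    exact h1
  have hmem : ∀ (p : (Σ _ : ℕ × Finset (Fin r), ℕ)) (γ : Fin N × Fin (n + 1) → ℂ), γ ∈ F p ↔
      Low w M p.2 γ ∧ (lead w M p.2 γ ∈ St p.1 ∧ lead w M p.2 γ ≠ 0) ∧
        ∀ b ∈ p.1.2, ∀ l < K, (along (f b) γ).coeff l = 0 := by
    intro p γ
    rw [hF]
    rfl
  have hFdis : ∀ p p', p ≠ p' → Disjoint (F p) (F p') := by
    intro p p' hpp
    rw [Set.disjoint_left]
    intro γ h1 h2
    rw [hmem] at h1 h2
    have h3 : p.2 = p'.2 := le_antisymm (B4_le hW.w_pos hM h1.1 h2.2.1.2)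
      (B4_le hW.w_pos hM h2.1 h1.2.1.2)
    have h4 : p.1 ≠ p'.1 := by
      intro h4
      apply hpp
      obtain ⟨a, b⟩ := p
      obtain ⟨a', b'⟩ := p'
      simp only at h3 h4
      rw [h3, h4]
    rw [← h3] at h2
    exact Set.disjoint_left.1 (hdis _ _ h4) h1.2.1.1 h2.2.1.1
  have hAS : AS f n K = Ball w dm K n ∪ ⋃ p ∈ I, F p := by
    ext γ
    rw [Set.mem_union, Set.mem_iUnion₂]
    constructor
    · intro hγ
      by_cases hB : Low w dm K γ
      · exact Or.inl hB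
      · right
        obtain ⟨h, h1, h2, h3, h4⟩ := B4_exists hW.w_pos hM hwM hγ.1 hB
        obtain ⟨τ, hτ, hτ'⟩ := hcov (lead w M h γ)
        have hlt := hKM h2
        have hA := hadm τ _ hτ'
        have hG : Gen d f (lead w M h γ) τ.1 τ.2 := gen_of_smooth hA (hs _ h4)
        have h5 := (mem_AS_iff hW hM h1 (hn' hlt) γ h3 hA hG).1 hγ
        refine ⟨⟨τ, h⟩, (hmemI _).2 ⟨hτ, hlt, h1, h2, h5.1⟩, (hmem _ _).2
          ⟨h3, ⟨hτ', h4⟩, h5.2⟩⟩
    · rintro (hγ | ⟨p, hp, hγ⟩)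
      · refine ⟨fun i => hγ i 0 ?_, fun j l hl => ?_⟩
        · change 0 * dm < K * w i
          rw [zero_mul]
          exact Nat.mul_pos hK (hW.w_pos i)
        · by_cases hj : f j = 0
          · rw [hj]
            have : along (0 : MvPolynomial (Fin N) ℂ) γ = 0 := map_zero _
            rw [this, Polynomial.coeff_zero]
          · refine low_coeff (hW.hom j) hdm0 γ hγ l ?_
            calc l * dm < K * dm := Nat.mul_lt_mul_of_pos_right hl hdm0
              _ ≤ K * d j := Nat.mul_le_mul_left _ (hdm j hj)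
      · rw [hmemI] at hp
        rw [hmem] at hγ
        have hA := hadm p.1 _ hγ.2.1.1
        have hG : Gen d f (lead w M p.2 γ) p.1.1 p.1.2 := gen_of_smooth hA (hs _ hγ.2.1.2)
        exact (mem_AS_iff hW hM hp.2.2.1 (hn' hp.2.1) γ hγ.1 hA hG).2 ⟨hp.2.2.2.2, hγ.2.2⟩
  have hd : Disjoint (Ball w dm K n) (⋃ p ∈ I, F p) := by
    rw [Set.disjoint_left]
    intro γ h1 h2
    rw [Set.mem_iUnion₂] at h2
    obtain ⟨p, hp, h3⟩ := h2
    rw [hmemI] at hp
    rw [hmem] at h3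
    exact absurd (B4_ball hW.w_pos hM h1 h3.2.1.2) (not_le.2 hp.2.2.2.1)
  rw [hAS, cls_union (constr_Ball w dm K n) (constr_biUnion I fun p _ => hFc p) hd,
    cls_biUnion I (fun p _ => hFc p) (fun p _ p' _ hpp => hFdis p p' hpp), hI, Finset.sum_sigma,
    hF]

end WH
end MotMono
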