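import Pool.Agent.Lib.MP_4e5fcd_ag.K1
import Pool.Agent.Lib.MP_4e5fcd_ag.Mon.R2a
import Pool.Agent.Lib.MP_4e5fcd_ag.CN.P1
import Pool.Agent.Lib.MP_4e5fcd_ag.LF.X0
import Pool.Agent.Lib.MP_4e5fcd_ag.LF.X4
import Pool.Agent.Lib.MP_4e5fcd_ag.WH.B1

/-!
# WH-V1: Euler characteristics of contact sets

`CAF` is constructible (`CN.exists_alongPoly`). It is stable under the torus with weights
`v (i, l) = m w_i - e l`: coefficient `l'` of `f j (τ·γ)` is `τ^(m d_j - e l')` times the one of
`f j (γ)` (sum over monomials, `f j` weighted homogeneous); the only non-zero condition is at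
`d j = e`, `l' = m`, weight `0`. `Mon.chi_fixed` (`isEulerChar_of_F` in LF-X4: an
`IsEulerCharF` is an `IsEulerChar`). On the fixed points
`γ (i, l) = 0` unless `e l = m w_i` (`l ≤ m`, so `w_i ≤ e`; `l ≥ 1` as `m, w_i > 0`). Put
`c_i = γ (i, m w_i / e)` (`e ∣ m w_i`, `w_i ≤ e`), `0` otherwise. `f j (γ)` = `f j (c) t^(m d_j / e)`
(`eq_coeff`, `low_coeff` with `M = e`, `h = m`: the fixed jet is `Low w e m`, and `expand_along`
shows that the other coefficients vanish: `yy` is constant). So the conditions are `f j (c) = 0`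
(`d j < e`), `f j (c) = y j` (`d j = e`; there is such a `j`, so `e > 0`), nothing for `d j > e`. A
weighted homogeneous polynomial of degree `≤ e` does not contain variables of weight `> e`: the
fibre is the product of the fixed points with `ℂ ^ {i, w_i > e, e ∣ m w_i}`. `χ LL = 1`.
-/

open MvPolynomial

namespace MotMono
namespace WH

variable {N r : ℕ}

private theorem V1_imp {σ : Type} (p : Prop) {E : Set (σ → ℂ)} (h : Constr E) :
    Constr {x | p → x ∈ E} := by
  by_cases hp : p
  · have h1 : {x : σ → ℂ | p → x ∈ E} = E := by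
      ext x
      simp [hp]
    rw [h1]
    exact h
  · have h1 : {x : σ → ℂ | p → x ∈ E} = Set.univ := by
      ext x
      simp [hp]
    rw [h1]
    exact constr_univ

private theorem V1_eqC {σ : Type} (P : MvPolynomial σ ℂ) (a : ℂ) :
    Constr {x : σ → ℂ | eval x P = a} := by
  have h := constr_eq P (MvPolynomial.C a)
  simpa only [eval_C] using h

theorem constr_CAF (d : Fin r → ℕ) (f : Fin r → MvPolynomial (Fin N) ℂ) (e : ℕ) (y : Fin r → ℂ)
    (m : ℕ) : Constr (CAF d f e y m) := by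
  classical
  have hP : ∀ (j : Fin r) (l : ℕ), ∃ P : MvPolynomial (Fin N × Fin (m + 1)) ℂ,
      ∀ γ : Fin N × Fin (m + 1) → ℂ, eval γ P = (along (f j) γ).coeff l :=
    fun j l => CN.exists_alongPoly (f j) l
  choose P hP using hP
  have h1 : CAF d f e y m =
      (⋂ i : Fin N, {γ : Fin N × Fin (m + 1) → ℂ | eval γ (X (i, 0)) = 0}) ∩
      ⋂ j : Fin r, ((⋂ l : Fin m, {γ : Fin N × Fin (m + 1) → ℂ | eval γ (P j l) = 0}) ∩
        {γ : Fin N × Fin (m + 1) → ℂ | eval γ (P j m) = if d j = e then y j else 0}) := by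
    ext γ
    simp only [CAF, Set.mem_ofPred_eq, Set.mem_inter_iff, Set.mem_iInter, hP, eval_X]
    constructor
    · rintro ⟨h1, h2⟩
      exact ⟨h1, fun j => ⟨fun l => (h2 j).1 l l.2, (h2 j).2⟩⟩
    · rintro ⟨h1, h2⟩
      exact ⟨h1, fun j => ⟨fun l hl => (h2 j).1 ⟨l, hl⟩, (h2 j).2⟩⟩
  rw [h1]
  refine Constr.inter (constr_iInter fun i => V1_eqC _ _) (constr_iInter fun j => ?_)
  exact Constr.inter (constr_iInter fun l => V1_eqC _ _) (V1_eqC _ _)

/-- the conditions on the polynomials -/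
private def V1_E (d : Fin r → ℕ) (f : Fin r → MvPolynomial (Fin N) ℂ) (e : ℕ)
    (y : Fin r → ℂ) : Set (Fin N → ℂ) :=
  {x | (∀ j, d j < e → eval x (f j) = 0) ∧ ∀ j, d j = e → eval x (f j) = y j}

private theorem V1_constrE (d : Fin r → ℕ) (f : Fin r → MvPolynomial (Fin N) ℂ) (e : ℕ)
    (y : Fin r → ℂ) : Constr (V1_E d f e y) := by
  have h1 : V1_E d f e y =
      (⋂ j : Fin r, {x : Fin N → ℂ | d j < e → x ∈ {x | eval x (f j) = 0}}) ∩
      ⋂ j : Fin r, {x : Fin N → ℂ | d j = e → x ∈ {x | eval x (f j) = y j}} := by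
    ext x
    simp only [V1_E, Set.mem_ofPred_eq, Set.mem_inter_iff, Set.mem_iInter]
  rw [h1]
  exact Constr.inter (constr_iInter fun j => V1_imp _ (V1_eqC _ _))
    (constr_iInter fun j => V1_imp _ (V1_eqC _ _))

theorem constr_fibre (w : Fin N → ℕ) (d : Fin r → ℕ) (f : Fin r → MvPolynomial (Fin N) ℂ) (e : ℕ)
    (y : Fin r → ℂ) (m : ℕ) : Constr (fibre w d f e y m) := by
  have h1 : fibre w d f e y m = V1_E d f e y ∩
      ⋂ i : Fin N, {x : Fin N → ℂ | ¬ e ∣ m * w i → x ∈ {x | eval x (X i) = 0}} := by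
    ext x
    simp only [fibre, V1_E, Set.mem_ofPred_eq, Set.mem_inter_iff, Set.mem_iInter, eval_X,
      and_assoc]
  rw [h1]
  exact Constr.inter (V1_constrE d f e y) (constr_iInter fun i => V1_imp _ (V1_eqC _ _))

private theorem V1_weight {w : Fin N → ℕ} {s : Fin N →₀ ℕ} :
    Finsupp.weight w s = ∑ i, w i * s i := by
  rw [Finsupp.weight_apply, Finsupp.sum_fintype]
  · exact Finset.sum_congr rfl fun i _ => by rw [smul_eq_mul, mul_comm]
  · intro i
    rw [zero_smul]

/-- weighted homogeneous polynomials and scaling -/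
private theorem V1_scale {w : Fin N → ℕ} {g : MvPolynomial (Fin N) ℂ} {e : ℕ}
    (hg : IsWeightedHomogeneous w g e) (t : Polynomial ℂ) (v : Fin N → Polynomial ℂ) :
    aeval (fun i => t ^ w i * v i) g = t ^ e * aeval v g := by
  rw [aeval_def, aeval_def, eval₂_eq', eval₂_eq', Finset.mul_sum]
  refine Finset.sum_congr rfl fun s hs => ?_
  have h1 : Finsupp.weight w s = e := hg (mem_support_iff.1 hs)
  have h2 : ∏ i, (t ^ w i * v i) ^ s i = t ^ e * ∏ i, v i ^ s i := by
    rw [← h1, V1_weight, ← Finset.prod_pow_eq_pow_sum, ← Finset.prod_mul_distrib]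
    exact Finset.prod_congr rfl fun i _ => by rw [mul_pow, ← pow_mul]
  rw [h2]
  ring

/-- weighted homogeneous polynomials do not contain variables of larger weight -/
private theorem V1_congr {w : Fin N → ℕ} {g : MvPolynomial (Fin N) ℂ} {e : ℕ}
    (hg : IsWeightedHomogeneous w g e) {x x' : Fin N → ℂ} (h : ∀ i, w i ≤ e → x i = x' i) :
    eval x g = eval x' g := by
  rw [eval_eq', eval_eq']
  refine Finset.sum_congr rfl fun s hs => ?_
  have h1 : Finsupp.weight w s = e := hg (mem_support_iff.1 hs)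
  congr 1
  refine Finset.prod_congr rfl fun i _ => ?_
  by_cases hs0 : s i = 0
  · rw [hs0, pow_zero, pow_zero]
  · rw [h i]
    rw [← h1, V1_weight]
    refine le_trans ?_ (Finset.single_le_sum (f := fun i => w i * s i)
      (fun _ _ => Nat.zero_le _) (Finset.mem_univ i))
    exact Nat.le_mul_of_pos_right _ (Nat.pos_of_ne_zero hs0)

/-- the torus action on the coefficients -/
private theorem V1_torus {w : Fin N → ℕ} {g : MvPolynomial (Fin N) ℂ} {dd : ℕ}
    (hg : IsWeightedHomogeneous w g dd) (e m : ℕ) (γ : Fin N × Fin (m + 1) → ℂ) (τ : ℂ)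
    (hτ : τ ≠ 0) (l : ℕ) :
    (along g (fun q : Fin N × Fin (m + 1) =>
      τ ^ ((m : ℤ) * w q.1 - e * (q.2 : ℕ)) * γ q)).coeff l =
      (τ ^ m) ^ dd * ((along g γ).coeff l * ((τ ^ e)⁻¹) ^ l) := by
  have h1 : arc (fun q : Fin N × Fin (m + 1) =>
      τ ^ ((m : ℤ) * w q.1 - e * (q.2 : ℕ)) * γ q) =
      fun i => Polynomial.C (τ ^ m) ^ w i *
        Polynomial.aeval (Polynomial.C (τ ^ e)⁻¹ * Polynomial.X : Polynomial ℂ) (arc γ i) := by
    funext i
    ext k
    rw [← Polynomial.C_pow, Polynomial.coeff_C_mul, ← Polynomial.comp_eq_aeval,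
      Polynomial.comp_C_mul_X_coeff, a1_arc_coeff, a1_arc_coeff]
    split_ifs with h
    · have h2 : τ ^ ((m : ℤ) * w i - e * (k : ℕ)) = (τ ^ m) ^ w i * ((τ ^ e)⁻¹) ^ k := by
        rw [zpow_sub₀ hτ, ← pow_mul, inv_pow, ← pow_mul, ← div_eq_mul_inv, ← zpow_natCast,
          ← zpow_natCast]
        push_cast
        rfl
      show τ ^ ((m : ℤ) * w i - e * (k : ℕ)) * γ (i, ⟨k, h⟩) = _
      rw [h2]
      ring
    · rw [zero_mul, mul_zero]
  unfold along
  rw [h1, V1_scale hg (Polynomial.C (τ ^ m)), ← comp_aeval_apply, ← Polynomial.C_pow,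
    Polynomial.coeff_C_mul, ← Polynomial.comp_eq_aeval, Polynomial.comp_C_mul_X_coeff]

open Classical in
/-- extension by zero from the coordinates which survive -/
private noncomputable def V1_ext (w : Fin N → ℕ) (e m : ℕ)
    (c : {i : Fin N // e ∣ m * w i ∧ w i ≤ e} → ℂ) (i : Fin N) : ℂ :=
  if h : e ∣ m * w i ∧ w i ≤ e then c ⟨i, h⟩ else 0

theorem chi_CAF {χ : K0 →+* ℤ} (hχ : IsEulerCharF χ) {w : Fin N → ℕ} {d : Fin r → ℕ}
    {f : Fin r → MvPolynomial (Fin N) ℂ} (hW : Wt w d f) (e : ℕ) (y : Fin r → ℂ) (m : ℕ)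
    (hm : 0 < m) (hy : ∃ j, d j = e ∧ y j ≠ 0) :
    χ (cls (CAF d f e y m)) = χ (cls (fibre w d f e y m)) := by
  classical
  have he : 0 < e := by
    obtain ⟨j, hj, -⟩ := hy
    rw [← hj]
    exact hW.d_pos j
  set X' : Set ({i : Fin N // e ∣ m * w i ∧ w i ≤ e} → ℂ) :=
    {c | V1_ext w e m c ∈ V1_E d f e y} with hX'
  have hX'c : Constr X' := by
    have h1 := (V1_constrE d f e y).preimage
      (fun i => if h : e ∣ m * w i ∧ w i ≤ e then
        (X (⟨i, h⟩ : {i : Fin N // e ∣ m * w i ∧ w i ≤ e}) :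
          MvPolynomial {i : Fin N // e ∣ m * w i ∧ w i ≤ e} ℂ) else 0)
    have h2 : ∀ c : {i : Fin N // e ∣ m * w i ∧ w i ≤ e} → ℂ,
        (fun i => eval c (if h : e ∣ m * w i ∧ w i ≤ e then
          (X (⟨i, h⟩ : {i : Fin N // e ∣ m * w i ∧ w i ≤ e}) :
            MvPolynomial {i : Fin N // e ∣ m * w i ∧ w i ≤ e} ℂ) else 0)) = V1_ext w e m c := by
      intro c
      funext i
      unfold V1_ext
      split_ifs with h <;> simp
    simp only [h2] at h1
    exact h1
  -- the fibre
  have e1 : χ (cls (fibre w d f e y m)) = χ (cls X') := by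
    set W₁ : Submodule ℂ (Fin N → ℂ) :=
      { carrier := {x | ∀ i, ¬ e ∣ m * w i → x i = 0}
        zero_mem' := fun i _ => rfl
        add_mem' := fun {a b} ha hb i hi => by
          rw [Pi.add_apply, ha i hi, hb i hi, add_zero]
        smul_mem' := fun c a ha i hi => by
          rw [Pi.smul_apply, ha i hi, smul_zero] } with hW₁
    have h1 : fibre w d f e y m = {x : Fin N → ℂ | x - 0 ∈ W₁ ∧
        LinearMap.funLeft ℂ ℂ (Subtype.val : {i : Fin N // e ∣ m * w i ∧ w i ≤ e} → Fin N)
          (x - 0) ∈ X'} := by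
      ext x
      have hcong : (∀ i, ¬ e ∣ m * w i → x i = 0) → ∀ j, d j ≤ e →
          eval (V1_ext w e m (fun i => x i)) (f j) = eval x (f j) := by
        intro hx j hj
        refine V1_congr (hW.hom j) fun i hi => ?_
        unfold V1_ext
        split_ifs with h
        · rfl
        · rw [hx i (fun h3 => h ⟨h3, hi.trans hj⟩)]
      simp only [sub_zero, Set.mem_ofPred_eq]
      constructor
      · rintro ⟨h2, h3, h4⟩
        refine ⟨h4, fun j hj => ?_, fun j hj => ?_⟩
        · exact (hcong h4 j hj.le).trans (h2 j hj)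
        · exact (hcong h4 j hj.le).trans (h3 j hj)
      · rintro ⟨h4, h2, h3⟩
        exact ⟨fun j hj => (hcong h4 j hj.le).symm.trans (h2 j hj),
          fun j hj => (hcong h4 j hj.le).symm.trans (h3 j hj), h4⟩
    rw [h1]
    refine LF.chi_linFib hχ.line W₁ 0 _ ?_ hX'c
    intro z
    refine ⟨V1_ext w e m z, ?_, ?_⟩
    · intro i hi
      unfold V1_ext
      rw [dif_neg (fun h => hi h.1)]
    · ext i
      rw [LinearMap.funLeft_apply]
      unfold V1_ext
      rw [dif_pos i.2]
  -- the fixed points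
  have hlt : ∀ i : {i : Fin N // e ∣ m * w i ∧ w i ≤ e}, m * w i / e < m + 1 := by
    intro i
    have h1 : m * w i ≤ m * e := Nat.mul_le_mul_left _ i.2.2
    have h2 : m * w i / e ≤ m := by
      calc m * w i / e ≤ m * e / e := Nat.div_le_div_right h1
        _ = m := Nat.mul_div_cancel _ he
    omega
  have hinv : ∀ x ∈ CAF d f e y m, ∀ τ : ℂ, τ ≠ 0 →
      (fun q : Fin N × Fin (m + 1) =>
        τ ^ ((m : ℤ) * w q.1 - e * (q.2 : ℕ)) * x q) ∈ CAF d f e y m := by
    rintro γ ⟨h1, h2⟩ τ hτ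
    refine ⟨fun i => ?_, fun j => ⟨fun l hl => ?_, ?_⟩⟩
    · show _ * γ (i, 0) = 0
      rw [h1 i, mul_zero]
    · rw [V1_torus (hW.hom j) e m γ τ hτ l, (h2 j).1 l hl, zero_mul, mul_zero]
    · rw [V1_torus (hW.hom j) e m γ τ hτ m, (h2 j).2]
      split_ifs with hj
      · rw [hj, ← pow_mul, inv_pow, ← pow_mul, mul_comm e m]
        have h3 : τ ^ (m * e) ≠ 0 := pow_ne_zero _ hτ
        field_simp
      · rw [zero_mul, mul_zero]
  rw [e1, Mon.chi_fixed χ (LF.isEulerChar_of_F hχ) (CAF d f e y m) (constr_CAF d f e y m)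
    (fun q => (m : ℤ) * w q.1 - e * (q.2 : ℕ)) hinv]
  set W₂ : Submodule ℂ (Fin N × Fin (m + 1) → ℂ) :=
    { carrier := {x | ∀ q, (m : ℤ) * w q.1 - e * (q.2 : ℕ) ≠ 0 → x q = 0}
      zero_mem' := fun i _ => rfl
      add_mem' := fun {a b} ha hb i hi => by
        rw [Pi.add_apply, ha i hi, hb i hi, add_zero]
      smul_mem' := fun c a ha i hi => by
        rw [Pi.smul_apply, ha i hi, smul_zero] } with hW₂
  have hcoef : ∀ γ ∈ W₂, ∀ j l, (along (f j) γ).coeff l =
      if l * e = m * d j then eval (V1_ext w e m (fun i => γ (i, ⟨m * w i / e, hlt i⟩))) (f j)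
      else 0 := by
    intro γ hγ j l
    have hlow : Low w e m γ := by
      intro i k hk
      refine hγ (i, k) ?_
      show (m : ℤ) * w i - e * (k : ℕ) ≠ 0
      have : ((k : ℕ) : ℤ) * e < m * w i := by exact_mod_cast hk
      have h3 : (e : ℤ) * (k : ℕ) = ((k : ℕ) : ℤ) * e := mul_comm _ _
      omega
    have hyy : yy w e m γ = fun i => Polynomial.C
        (V1_ext w e m (fun i => γ (i, ⟨m * w i / e, hlt i⟩)) i) := by
      funext i
      unfold yy V1_ext
      split_ifs with h
      · rw [Finset.sum_eq_single (⟨m * w i / e, hlt ⟨i, h⟩⟩ : Fin (m + 1))]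
        · have h3 : m * w i / e * e = m * w i := Nat.div_mul_cancel h.1
          show (if m * w i ≤ m * w i / e * e then Polynomial.C (γ (i, ⟨m * w i / e, hlt ⟨i, h⟩⟩)) *
            Polynomial.X ^ (m * w i / e * e - m * w i) else 0) = _
          rw [h3, if_pos le_rfl, Nat.sub_self, pow_zero, mul_one]
        · intro k _ hk
          have h4 : γ (i, k) = 0 := by
            refine hγ (i, k) ?_
            show (m : ℤ) * w i - e * (k : ℕ) ≠ 0
            intro h5
            apply hk
            apply Fin.ext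
            show (k : ℕ) = m * w i / e
            have h6 : m * w i = e * (k : ℕ) := by
              have : (m : ℤ) * w i = e * (k : ℕ) := by omega
              exact_mod_cast this
            rw [h6, Nat.mul_div_cancel_left _ he]
          rw [h4]
          simp
        · intro h4
          exact absurd (Finset.mem_univ _) h4
      · rw [map_zero]
        refine Finset.sum_eq_zero fun k _ => ?_
        have h4 : γ (i, k) = 0 := by
          refine hγ (i, k) ?_
          show (m : ℤ) * w i - e * (k : ℕ) ≠ 0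
          intro h5
          have h6 : m * w i = e * (k : ℕ) := by
            have : (m : ℤ) * w i = e * (k : ℕ) := by omega
            exact_mod_cast this
          apply h
          refine ⟨⟨k, h6⟩, ?_⟩
          have h7 : (k : ℕ) ≤ m := Nat.lt_succ_iff.1 k.2
          have h8 : m * w i ≤ m * e := by
            rw [h6, mul_comm m e]
            exact Nat.mul_le_mul_left _ h7
          exact Nat.le_of_mul_le_mul_left h8 hm
        rw [h4]
        simp
    have h5 := expand_along (hW.hom j) he γ hlow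
    have h6 : aeval (yy w e m γ) (f j) = Polynomial.C
        (eval (V1_ext w e m (fun i => γ (i, ⟨m * w i / e, hlt i⟩))) (f j)) := by
      rw [hyy]
      have h7 := comp_aeval_apply (R := ℂ) (B := Polynomial ℂ)
        (f := V1_ext w e m (fun i => γ (i, ⟨m * w i / e, hlt i⟩)))
        (Algebra.ofId ℂ (Polynomial ℂ)) (f j)
      have h7' : aeval (V1_ext w e m (fun i => γ (i, ⟨m * w i / e, hlt i⟩))) (f j) =
          eval (V1_ext w e m (fun i => γ (i, ⟨m * w i / e, hlt i⟩))) (f j) := rfl
      rw [h7'] at h7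
      exact h7.symm
    rw [h6] at h5
    have h8 := congrArg (fun p => Polynomial.coeff p (l * e)) h5
    rw [Polynomial.coeff_expand_mul he] at h8
    rw [h8, mul_comm (Polynomial.X ^ _) _, Polynomial.coeff_C_mul, Polynomial.coeff_X_pow]
    split_ifs <;> simp
  have h1 : {x : Fin N × Fin (m + 1) → ℂ | x ∈ CAF d f e y m ∧
      ∀ q, (m : ℤ) * w q.1 - e * (q.2 : ℕ) ≠ 0 → x q = 0} =
      {x : Fin N × Fin (m + 1) → ℂ | x - 0 ∈ W₂ ∧
        LinearMap.funLeft ℂ ℂ (fun i : {i : Fin N // e ∣ m * w i ∧ w i ≤ e} =>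
          ((i : Fin N), (⟨m * w i / e, hlt i⟩ : Fin (m + 1)))) (x - 0) ∈ X'} := by
    ext γ
    simp only [sub_zero, Set.mem_ofPred_eq]
    constructor
    · rintro ⟨⟨h2, h3⟩, h4⟩
      have h4' : γ ∈ W₂ := h4
      refine ⟨h4', fun j hj => ?_, fun j hj => ?_⟩
      · show eval (V1_ext w e m (fun i => γ (i, ⟨m * w i / e, hlt i⟩))) (f j) = 0
        by_cases hdv : e ∣ m * d j
        · obtain ⟨l, hl⟩ := hdv
          have hl2 : l * e = m * d j := by rw [mul_comm, hl]
          have hlm : l < m := by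
            by_contra hcon
            push Not at hcon
            have h5 : m * e ≤ l * e := Nat.mul_le_mul_right _ hcon
            have h6 : m * d j < m * e := Nat.mul_lt_mul_of_pos_left hj hm
            omega
          have h7 := (h3 j).1 l hlm
          rw [hcoef γ h4' j l, if_pos hl2] at h7
          exact h7
        · refine not_dvd_lead (hW.hom j) he _ ?_ hdv
          intro i hi
          unfold V1_ext
          rw [dif_neg (fun h => hi h.1)]
      · show eval (V1_ext w e m (fun i => γ (i, ⟨m * w i / e, hlt i⟩))) (f j) = y j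
        have h7 := (h3 j).2
        rw [hcoef γ h4' j m, if_pos (by rw [hj]), if_pos hj] at h7
        exact h7
    · rintro ⟨h4, h2, h3⟩
      have h2' : ∀ j, d j < e →
        eval (V1_ext w e m (fun i => γ (i, ⟨m * w i / e, hlt i⟩))) (f j) = 0 := h2
      have h3' : ∀ j, d j = e →
        eval (V1_ext w e m (fun i => γ (i, ⟨m * w i / e, hlt i⟩))) (f j) = y j := h3
      refine ⟨⟨fun i => ?_, fun j => ⟨fun l hl => ?_, ?_⟩⟩, h4⟩
      · refine h4 (i, 0) ?_
        show (m : ℤ) * w i - e * ((0 : Fin (m + 1)) : ℕ) ≠ 0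
        have h5 : 0 < m * w i := Nat.mul_pos hm (hW.w_pos i)
        have h6 : (0 : ℤ) < m * w i := by exact_mod_cast h5
        simp only [Fin.val_zero, Nat.cast_zero, mul_zero, sub_zero]
        exact h6.ne'
      · rw [hcoef γ h4 j l]
        split_ifs with h5
        · refine h2' j ?_
          by_contra hcon
          push Not at hcon
          have h6 : m * e ≤ m * d j := Nat.mul_le_mul_left _ hcon
          have h7 : l * e < m * e := Nat.mul_lt_mul_of_pos_right hl he
          omega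
        · rfl
      · rw [hcoef γ h4 j m]
        by_cases hj : d j = e
        · rw [if_pos (by rw [hj]), if_pos hj]
          exact h3' j hj
        · rw [if_neg, if_neg hj]
          intro h5
          exact hj (Nat.eq_of_mul_eq_mul_left hm h5).symm
  rw [h1]
  refine LF.chi_linFib hχ.line W₂ 0 _ ?_ hX'c
  intro z
  refine ⟨fun q => if h : (e ∣ m * w q.1 ∧ w q.1 ≤ e) ∧ (q.2 : ℕ) = m * w q.1 / e then
    z ⟨q.1, h.1⟩ else 0, ?_, ?_⟩
  · intro q hq
    refine dif_neg ?_
    rintro ⟨h3, h4⟩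
    apply hq
    rw [h4]
    have h5 : e * (m * w q.1 / e) = m * w q.1 := Nat.mul_div_cancel' h3.1
    have h6 : (e : ℤ) * ((m * w q.1 / e : ℕ) : ℤ) = m * w q.1 := by exact_mod_cast h5
    rw [h6, sub_self]
  · ext i
    rw [LinearMap.funLeft_apply]
    exact dif_pos ⟨i.2, rfl⟩

end WH
end MotMono
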