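import Pool.Agent.Lib.MP_4e5fcd_ag.WH.V5b
import Pool.Agent.Lib.MP_4e5fcd_ag.Kum.E11

/-!
# WH-V5c: the value `1` is visible if the origin is the only zero

(1) There are `e, y, j₀` with `d j₀ = e`, `y j₀ = 1` and `∑_A χ (QA d f A (u_A) e y j₀) ≠ 0` (sum over
the non-empty `A`, `u_A` from `exists_bezout`). Suppose not. Order the indices `j` by `(d j, j)`. For
`j₀` let `X_(A, j₀)` be the set of the points `x` of the slice of `A` with `f j (x) = 0` for all `j`
before `j₀` and `f j₀ (x) ≠ 0`. Every point of the slice is `≠ 0`, so it lies in exactly one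
`X_(A, j₀)` (`hV`): `∑_(j₀) χ (X_(A, j₀)) = [|A| = 1]` (`chi_slice_TA`), and the sum over `A` is `N`.
For fixed `j₀`, `e = d j₀`: `fubini` over `v ∈ ℂ^r` for the sets
`{(x, v), x ∈ X_(A, j₀), f j (x) = v j f j₀ (x) (d j = e), v j = 0 (d j ≠ e)}` (isomorphic to
`X_(A, j₀)`): the fibre over `v` is `QA d f A (u_A) e v j₀` if `v j₀ = 1` and `v j = 0` for the `j`
before `j₀` and for `d j ≠ e` (check that the conditions agree), and empty otherwise. So
`∑_A χ (X_(A, j₀)) = 0` for all `j₀`: contradiction to `N > 0`. (Compare `C6_sumQ`, `exists_fib` in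
CN-C6.)
(2) `Eig χ w d f 1` with this `e, y`: the fibre `fibre w d f e y m` is the disjoint union over the
non-empty `A` (`y j₀ ≠ 0`) of its intersections with `TA A`; a point of `TA A` satisfies the third
condition iff `e ∣ m gcd` (`Finset.gcd_mul_left`, `Finset.dvd_gcd`). If the intersection with `TA A`
is not empty then `gcd ∣ e` (`f j₀ (x) = 1 ≠ 0` is weighted homogeneous of degree `e`, some monomial
with support in `A` has weight `e`), and then `χ = (e / gcd) χ (QA)` (`chi_fibre_TA`); if `gcd ∤ e`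
both are empty. So `Λ_m = ∑_{A, gcd_A ∣ e} [e / gcd_A ∣ m] (e / gcd_A) χ (QA)`:
`Kum.exists_zeta_prod` with `α = 1`.
-/

open MvPolynomial

namespace MotMono
namespace WH

variable {N r : ℕ}

/-- a weighted homogeneous polynomial which does not vanish at `x` has a monomial supported where `x`
does not vanish -/
private theorem v5c_mono {w : Fin N → ℕ} {g : MvPolynomial (Fin N) ℂ} {e : ℕ}
    (h : IsWeightedHomogeneous w g e) {x : Fin N → ℂ} (hx : eval x g ≠ 0) :
    ∃ m : Fin N →₀ ℕ, Finsupp.weight w m = e ∧ ∀ i, m i ≠ 0 → x i ≠ 0 := by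
  rw [MvPolynomial.eval_eq] at hx
  obtain ⟨m, hm, h1⟩ := Finset.exists_ne_zero_of_sum_ne_zero hx
  refine ⟨m, h (mem_support_iff.1 hm), fun i hi hxi => ?_⟩
  apply h1
  rw [Finset.prod_eq_zero (Finsupp.mem_support_iff.2 hi) (by rw [hxi, zero_pow hi]), mul_zero]

private theorem v5c_dvd {w : Fin N → ℕ} {A : Finset (Fin N)} {m : Fin N →₀ ℕ}
    (h : ∀ i, m i ≠ 0 → i ∈ A) : A.gcd w ∣ Finsupp.weight w m := by
  rw [Finsupp.weight_apply, Finsupp.sum]
  refine Finset.dvd_sum fun i hi => ?_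
  rw [smul_eq_mul]
  exact Dvd.dvd.mul_left (Finset.gcd_dvd (h i (Finsupp.mem_support_iff.1 hi))) _

/-- the part of `S` where `f j₀` is the first polynomial which does not vanish -/
private def V5cQ (f : Fin r → MvPolynomial (Fin N) ℂ) (o : Fin r → ℕ) (S : Set (Fin N → ℂ))
    (j₀ : Fin r) : Set (Fin N → ℂ) :=
  {x | x ∈ S ∧ eval x (f j₀) ≠ 0 ∧ ∀ j, o j < o j₀ → eval x (f j) = 0}

private theorem v5c_constrQ (f : Fin r → MvPolynomial (Fin N) ℂ) (o : Fin r → ℕ)
    {S : Set (Fin N → ℂ)} (hS : Constr S) (j₀ : Fin r) : Constr (V5cQ f o S j₀) := by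
  classical
  have h1 : V5cQ f o S j₀ = S ∩ ({x | eval x (f j₀) ≠ 0} ∩
      ⋂ j ∈ Finset.univ.filter (fun j => o j < o j₀), {x | eval x (f j) = 0}) := by
    ext x
    simp only [V5cQ, Set.mem_ofPred_eq, Set.mem_inter_iff, Set.mem_iInter, Finset.mem_filter,
      Finset.mem_univ, true_and]
  rw [h1]
  exact hS.inter ((constr_ne (f j₀)).inter
    (constr_biInter_finset _ fun j _ => Constr.zeroSet (f j)))

/-- the graph of the quotients -/
private def V5cX (d : Fin r → ℕ) (f : Fin r → MvPolynomial (Fin N) ℂ) (o : Fin r → ℕ)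
    (S : Set (Fin N → ℂ)) (j₀ : Fin r) : Set (Fin N ⊕ Fin r → ℂ) :=
  {z | (fun i => z (Sum.inl i)) ∈ V5cQ f o S j₀ ∧ ∀ j : Fin r,
    (d j = d j₀ → z (Sum.inr j) * eval (fun i => z (Sum.inl i)) (f j₀) =
      eval (fun i => z (Sum.inl i)) (f j)) ∧ (d j ≠ d j₀ → z (Sum.inr j) = 0)}

private theorem v5c_rename {τ : Type} (g : MvPolynomial (Fin N) ℂ) (z : Fin N ⊕ τ → ℂ) :
    eval z (rename Sum.inl g) = eval (fun j => z (Sum.inl j)) g := by
  rw [eval_rename]
  rfl

private theorem v5c_constrX (d : Fin r → ℕ) (f : Fin r → MvPolynomial (Fin N) ℂ) (o : Fin r → ℕ)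
    {S : Set (Fin N → ℂ)} (hS : Constr S) (j₀ : Fin r) : Constr (V5cX d f o S j₀) := by
  classical
  have h1 : V5cX d f o S j₀ = {z : Fin N ⊕ Fin r → ℂ | (fun i => z (Sum.inl i)) ∈ V5cQ f o S j₀} ∩
      ⋂ j : Fin r, {z : Fin N ⊕ Fin r → ℂ |
        (d j = d j₀ → z (Sum.inr j) * eval (fun i => z (Sum.inl i)) (f j₀) =
          eval (fun i => z (Sum.inl i)) (f j)) ∧ (d j ≠ d j₀ → z (Sum.inr j) = 0)} := by
    ext z
    simp only [V5cX, Set.mem_ofPred_eq, Set.mem_inter_iff, Set.mem_iInter]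
  rw [h1]
  refine ((v5c_constrQ f o hS j₀).comp Sum.inl).inter (constr_iInter fun j => ?_)
  by_cases hj : d j = d j₀
  · have h2 := constr_eq ((X (Sum.inr j) : MvPolynomial (Fin N ⊕ Fin r) ℂ) * rename Sum.inl (f j₀))
      (rename Sum.inl (f j))
    convert h2 using 1
    ext z
    simp only [Set.mem_ofPred_eq, map_mul, eval_X, v5c_rename]
    constructor
    · intro h
      exact h.1 hj
    · intro h
      exact ⟨fun _ => h, fun h' => absurd hj h'⟩
  · have h2 := Constr.zeroSet (X (Sum.inr j) : MvPolynomial (Fin N ⊕ Fin r) ℂ)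
    convert h2 using 1
    ext z
    simp only [Set.mem_ofPred_eq, eval_X]
    constructor
    · intro h
      exact h.2 hj
    · intro h
      exact ⟨fun h' => absurd h' hj, fun _ => h⟩

private theorem v5c_clsX (d : Fin r → ℕ) (f : Fin r → MvPolynomial (Fin N) ℂ) (o : Fin r → ℕ)
    {S : Set (Fin N → ℂ)} (hS : Constr S) (j₀ : Fin r) :
    cls (V5cX d f o S j₀) = cls (V5cQ f o S j₀) := by
  classical
  refine cls_iso (v5c_constrX d f o hS j₀) (v5c_constrQ f o hS j₀) ?_
  refine ⟨fun z j => z (Sum.inl j), fun x => Sum.elim x (fun j : Fin r =>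
    if d j = d j₀ then eval x (f j) * (eval x (f j₀))⁻¹ else 0),
    fun j => regFun_coord _ _, fun j => ?_, fun z hz => hz.1, fun x hx => ?_, fun z hz => ?_,
    fun x _ => rfl⟩
  · rcases j with j | j
    · exact regFun_coord _ _
    · by_cases hj : d j = d j₀
      · refine ((regFun_poly _ (f j)).mul
          ((regFun_poly _ (f j₀)).inv fun x hx => hx.2.1)).congr fun x _ => ?_
        simp only [Sum.elim_inr]
        rw [if_pos hj]
      · refine (regFun_const _ 0).congr fun x _ => ?_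
        simp only [Sum.elim_inr]
        rw [if_neg hj]
  · refine ⟨hx, fun j => ⟨fun hj => ?_, fun hj => ?_⟩⟩
    · simp only [Sum.elim_inr, Sum.elim_inl]
      rw [if_pos hj, mul_assoc, inv_mul_cancel₀ hx.2.1, mul_one]
    · simp only [Sum.elim_inr]
      rw [if_neg hj]
  · funext s
    rcases s with j | j
    · rfl
    · simp only [Sum.elim_inr]
      by_cases hj : d j = d j₀
      · rw [if_pos hj, ← (hz.2 j).1 hj, mul_assoc, mul_inv_cancel₀ hz.1.2.1, mul_one]
      · rw [if_neg hj, (hz.2 j).2 hj]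

open Classical in
/-- the coefficient -/
private noncomputable def v5cf (A : Finset (Fin N)) : ℤ := if A.Nonempty then 1 else 0

private theorem v5c_sumQ {χ : K0 →+* ℤ} (hχ : IsEulerCharF χ) (d : Fin r → ℕ)
    (f : Fin r → MvPolynomial (Fin N) ℂ) (uA : Finset (Fin N) → Fin N → ℤ) (o : Fin r → ℕ)
    (o2 : ∀ j k, d j < d k → o j < o k) (o3 : ∀ j k, o j < o k → d j ≤ d k) (j₀ : Fin r)
    (hno : ∀ y : Fin r → ℂ, y j₀ = 1 →
      ∑ A : Finset (Fin N), v5cf A * χ (cls (QA d f A (uA A) (d j₀) y j₀)) = 0) :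
    ∑ A : Finset (Fin N), v5cf A * χ (cls (V5cQ f o {x | x ∈ TA A ∧ mon A (uA A) x = 1} j₀)) = 0 := by
  classical
  have key := hχ.fubini (ι := Finset (Fin N)) (τ := Fin r) (fun _ => Fin N)
    (fun A => V5cX d f o {x | x ∈ TA A ∧ mon A (uA A) x = 1} j₀)
    (fun A => v5c_constrX d f o (constr_slice A (uA A)) j₀) (fun A => v5cf A) ?_
  · rw [← key]
    exact Finset.sum_congr rfl fun A _ => by rw [v5c_clsX d f o (constr_slice A (uA A)) j₀]
  · intro v
    by_cases hv : v j₀ = 1 ∧ ∀ j : Fin r, (d j ≠ d j₀ → v j = 0) ∧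
        (d j = d j₀ → o j < o j₀ → v j = 0)
    · obtain ⟨hv1, hv2⟩ := hv
      rw [← hno v hv1]
      refine Finset.sum_congr rfl fun A _ => ?_
      congr 3
      ext x
      constructor
      · rintro ⟨⟨⟨h1, h2⟩, h3, h4⟩, h5⟩
        refine ⟨h1, h2, fun j hj => h4 j (o2 j j₀ hj), fun j hj => ?_, h3⟩
        have h6 := (h5 j).1 hj
        simp only [Sum.elim_inr, Sum.elim_inl] at h6
        exact h6.symm
      · rintro ⟨h1, h2, h3, h4, h5⟩
        refine ⟨⟨⟨h1, h2⟩, h5, fun j hoj => ?_⟩, fun j => ⟨fun hj => ?_, fun hj => (hv2 j).1 hj⟩⟩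
        · rcases lt_or_eq_of_le (o3 j j₀ hoj) with hj | hj
          · exact h3 j hj
          · have h6 := h4 j hj
            rw [(hv2 j).2 hj hoj, zero_mul] at h6
            exact h6
        · have h6 := h4 j hj
          simp only [Sum.elim_inr, Sum.elim_inl]
          exact h6.symm
    · refine Finset.sum_eq_zero fun A _ => ?_
      have hemp : {x : Fin N → ℂ | Sum.elim x v ∈ V5cX d f o {x | x ∈ TA A ∧ mon A (uA A) x = 1} j₀} = ∅ := by
        rw [Set.eq_empty_iff_forall_notMem]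
        rintro x ⟨⟨h1, h3, h4⟩, h5⟩
        apply hv
        simp only [Sum.elim_inl, Sum.elim_inr] at h3 h4 h5
        refine ⟨?_, fun j => ⟨fun hj => (h5 j).2 hj, fun hj hoj => ?_⟩⟩
        · have h6 := (h5 j₀).1 rfl
          exact mul_right_cancel₀ h3 (by rw [h6, one_mul])
        · have h6 := (h5 j).1 hj
          rw [h4 j hoj] at h6
          exact (mul_eq_zero.1 h6).resolve_right h3
      rw [hemp, cls_empty, map_zero, mul_zero]

private theorem v5c_exists {χ : K0 →+* ℤ} (hχ : IsEulerCharF χ) {w : Fin N → ℕ} {d : Fin r → ℕ}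
    {f : Fin r → MvPolynomial (Fin N) ℂ} (hW : Wt w d f) (hN : 0 < N)
    (hV : ∀ x : Fin N → ℂ, (∀ j, eval x (f j) = 0) → x = 0) (uA : Finset (Fin N) → Fin N → ℤ)
    (huA : ∀ A, ∑ i ∈ A, uA A i * (w i : ℤ) = ((A.gcd w : ℕ) : ℤ)) :
    ∃ (j₀ : Fin r) (y : Fin r → ℂ), y j₀ = 1 ∧
      ∑ A : Finset (Fin N), v5cf A * χ (cls (QA d f A (uA A) (d j₀) y j₀)) ≠ 0 := by
  classical
  by_contra hcon
  push Not at hcon
  set o : Fin r → ℕ := fun j => d j * r + j with ho
  have oj : ∀ j, o j = d j * r + j := fun j => rfl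
  have o2 : ∀ j k, d j < d k → o j < o k := by
    intro j k h
    have h2 : (d j + 1) * r ≤ d k * r := Nat.mul_le_mul_right _ h
    rw [add_mul, one_mul] at h2
    have h3 := j.2
    rw [oj, oj]
    omega
  have o3 : ∀ j k, o j < o k → d j ≤ d k := by
    intro j k h
    by_contra h'
    have := o2 k j (not_le.1 h')
    omega
  have o1 : ∀ j k, o j = o k → j = k := by
    intro j k h
    have hd : d j = d k := by
      rcases lt_trichotomy (d j) (d k) with h1 | h1 | h1
      · have := o2 j k h1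
        omega
      · exact h1
      · have := o2 k j h1
        omega
    rw [oj, oj, hd] at h
    exact Fin.ext (by omega)
  have hQ : ∀ j₀, ∑ A : Finset (Fin N), v5cf A *
      χ (cls (V5cQ f o {x | x ∈ TA A ∧ mon A (uA A) x = 1} j₀)) = 0 := fun j₀ =>
    v5c_sumQ hχ d f uA o o2 o3 j₀ (fun y hy => hcon j₀ y hy)
  have hP : ∀ A : Finset (Fin N), A.Nonempty → (if A.card = 1 then (1 : ℤ) else 0) =
      ∑ j₀ : Fin r, χ (cls (V5cQ f o {x | x ∈ TA A ∧ mon A (uA A) x = 1} j₀)) := by
    intro A hA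
    rw [← chi_slice_TA hχ hW.w_pos hA (huA A), ← map_sum,
      ← cls_biUnion Finset.univ (fun j₀ _ => v5c_constrQ f o (constr_slice A (uA A)) j₀)]
    · congr 2
      ext x
      simp only [Set.mem_iUnion, exists_prop, Finset.mem_univ, true_and]
      constructor
      · intro hx
        have hx0 : x ≠ 0 := by
          intro h
          obtain ⟨i, hi⟩ := hA
          exact (hx.1 i).2 hi (by rw [h]; rfl)
        have hne : (Finset.univ.filter fun j => eval x (f j) ≠ 0).Nonempty := by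
          by_contra h
          rw [Finset.not_nonempty_iff_eq_empty] at h
          apply hx0
          refine hV x fun j => ?_
          by_contra h1
          have h2 : j ∈ Finset.univ.filter fun j => eval x (f j) ≠ 0 :=
            Finset.mem_filter.2 ⟨Finset.mem_univ _, h1⟩
          rw [h] at h2
          exact Finset.notMem_empty _ h2
        obtain ⟨j₀, hj₀, hmin⟩ := Finset.exists_min_image _ o hne
        rw [Finset.mem_filter] at hj₀
        refine ⟨j₀, hx, hj₀.2, fun j hoj => ?_⟩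
        by_contra h1
        have := hmin j (Finset.mem_filter.2 ⟨Finset.mem_univ _, h1⟩)
        omega
      · rintro ⟨j₀, hx⟩
        exact hx.1
    · intro j _ k _ hjk
      rw [Set.disjoint_left]
      rintro x ⟨_, h1, h2⟩ ⟨_, h3, h4⟩
      rcases lt_trichotomy (o j) (o k) with h | h | h
      · exact h1 (h4 j h)
      · exact hjk (o1 j k h)
      · exact h3 (h2 k h)
  have hsum : ∑ A : Finset (Fin N), v5cf A * (if A.card = 1 then (1 : ℤ) else 0) = 0 := by
    have h1 : ∀ A : Finset (Fin N), v5cf A * (if A.card = 1 then (1 : ℤ) else 0) =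
        ∑ j₀ : Fin r, v5cf A * χ (cls (V5cQ f o {x | x ∈ TA A ∧ mon A (uA A) x = 1} j₀)) := by
      intro A
      rw [← Finset.mul_sum]
      by_cases hA : A.Nonempty
      · rw [hP A hA]
      · unfold v5cf
        rw [if_neg hA, zero_mul, zero_mul]
    rw [Finset.sum_congr rfl fun A _ => h1 A, Finset.sum_comm]
    exact Finset.sum_eq_zero fun j₀ _ => hQ j₀
  have hpos : 0 < ∑ A : Finset (Fin N), v5cf A * (if A.card = 1 then (1 : ℤ) else 0) := by
    refine Finset.sum_pos' (fun A _ => ?_) ⟨{⟨0, hN⟩}, Finset.mem_univ _, ?_⟩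
    · unfold v5cf
      split_ifs <;> simp
    · unfold v5cf
      rw [if_pos (Finset.singleton_nonempty _), if_pos (Finset.card_singleton _)]
      norm_num
  omega

theorem eig_one {χ : K0 →+* ℤ} (hχ : IsEulerCharF χ) {w : Fin N → ℕ} {d : Fin r → ℕ}
    {f : Fin r → MvPolynomial (Fin N) ℂ} (hW : Wt w d f) (hN : 0 < N)
    (hV : ∀ x : Fin N → ℂ, (∀ j, eval x (f j) = 0) → x = 0) : Eig χ w d f 1 := by
  classical
  choose uA huA using exists_bezout w
  obtain ⟨j₀, y, hy, hS⟩ := v5c_exists hχ hW hN hV uA huA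
  have he : 0 < d j₀ := hW.d_pos j₀
  set FA : Finset (Fin N) → Set (Fin N → ℂ) := fun A => {x | x ∈ TA A ∧
    (∀ j, d j < d j₀ → eval x (f j) = 0) ∧ ∀ j, d j = d j₀ → eval x (f j) = y j} with hFA
  have hFAc : ∀ A, Constr (FA A) := by
    intro A
    have h1 : FA A = TA A ∩
        ((⋂ j ∈ Finset.univ.filter (fun j => d j < d j₀), {x | eval x (f j) = 0}) ∩
        (⋂ j ∈ Finset.univ.filter (fun j => d j = d j₀), {x | eval x (f j) = eval x (C (y j))})) := by
      ext x
      simp only [hFA, Set.mem_ofPred_eq, Set.mem_inter_iff, Set.mem_iInter, Finset.mem_filter,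
        Finset.mem_univ, true_and, eval_C]
    rw [h1]
    exact (constr_TA A).inter ((constr_biInter_finset _ fun j _ => Constr.zeroSet (f j)).inter
      (constr_biInter_finset _ fun j _ => constr_eq _ _))
  have h1 : ∀ A, A.Nonempty → ((A.gcd w : ℕ) : ℤ) * χ (cls (FA A)) =
      (d j₀ : ℤ) * χ (cls (QA d f A (uA A) (d j₀) y j₀)) := fun A hA =>
    chi_fibre_TA hχ hW hA (huA A) (d j₀) y j₀ rfl hy
  have hg : ∀ A : Finset (Fin N), A.Nonempty → 0 < A.gcd w := by
    rintro A ⟨i, hi⟩
    exact Nat.pos_of_dvd_of_pos (Finset.gcd_dvd hi) (hW.w_pos i)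
  have hdv : ∀ A : Finset (Fin N), (FA A).Nonempty → A.gcd w ∣ d j₀ := by
    rintro A ⟨x, hx⟩
    have h2 : eval x (f j₀) ≠ 0 := by
      rw [hx.2.2 j₀ rfl, hy]
      exact one_ne_zero
    obtain ⟨m, hm1, hm2⟩ := v5c_mono (hW.hom j₀) h2
    rw [← hm1]
    exact v5c_dvd fun i hi => (hx.1 i).1 (hm2 i hi)
  have hF0 : ∀ A : Finset (Fin N), ¬ A.gcd w ∣ d j₀ → χ (cls (FA A)) = 0 := by
    intro A hA
    have h2 : FA A = ∅ := by
      by_contra h3
      exact hA (hdv A (Set.nonempty_iff_ne_empty.2 h3))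
    rw [h2, cls_empty, map_zero]
  have hQ0 : ∀ A : Finset (Fin N), A.Nonempty → ¬ A.gcd w ∣ d j₀ →
      χ (cls (QA d f A (uA A) (d j₀) y j₀)) = 0 := by
    intro A hA hA'
    have h2 := h1 A hA
    rw [hF0 A hA', mul_zero] at h2
    refine (mul_eq_zero.1 h2.symm).resolve_left ?_
    exact_mod_cast he.ne'
  set s : Finset (Finset (Fin N)) := Finset.univ.filter fun A => A.Nonempty ∧ A.gcd w ∣ d j₀ with hs
  have hn : ∀ A ∈ s, 0 < d j₀ / A.gcd w := by
    intro A hA
    rw [hs, Finset.mem_filter] at hA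
    exact Nat.div_pos (Nat.le_of_dvd he hA.2.2) (hg A hA.2.1)
  have hFQ : ∀ A ∈ s, χ (cls (FA A)) = χ (cls (QA d f A (uA A) (d j₀) y j₀)) * ((d j₀ / A.gcd w : ℕ) : ℤ) := by
    intro A hA
    rw [hs, Finset.mem_filter] at hA
    have h2 := h1 A hA.2.1
    have h3 : (d j₀ : ℤ) = ((A.gcd w : ℕ) : ℤ) * ((d j₀ / A.gcd w : ℕ) : ℤ) := by
      exact_mod_cast (Nat.mul_div_cancel' hA.2.2).symm
    rw [h3, mul_assoc] at h2
    have h4 : ((A.gcd w : ℕ) : ℤ) ≠ 0 := by exact_mod_cast (hg A hA.2.1).ne'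
    rw [mul_left_cancel₀ h4 h2]
    ring
  refine ⟨d j₀, y, ⟨j₀, rfl, by rw [hy]; exact one_ne_zero⟩, ?_⟩
  refine Kum.exists_zeta_prod s (fun A => d j₀ / A.gcd w)
    (fun A => χ (cls (QA d f A (uA A) (d j₀) y j₀))) hn _ ?_ 1 ?_
  · intro m hm
    have h2 : fibre w d f (d j₀) y m = ⋃ A ∈ s.filter (fun A => d j₀ ∣ m * A.gcd w), FA A := by
      ext x
      simp only [Set.mem_iUnion, exists_prop]
      constructor
      · rintro ⟨h3, h4, h5⟩
        have h6 : eval x (f j₀) ≠ 0 := by
          rw [h4 j₀ rfl, hy]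
          exact one_ne_zero
        obtain ⟨k, hk1, hk2⟩ := v5c_mono (hW.hom j₀) h6
        have hxA : x ∈ TA (Finset.univ.filter fun i => x i ≠ 0) := by
          intro i
          simp
        have hne : (Finset.univ.filter fun i => x i ≠ 0).Nonempty := by
          by_contra h7
          rw [Finset.not_nonempty_iff_eq_empty] at h7
          have h8 : k = 0 := by
            ext i
            by_contra h9
            have h10 : i ∈ Finset.univ.filter fun i => x i ≠ 0 :=
              Finset.mem_filter.2 ⟨Finset.mem_univ _, hk2 i h9⟩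
            rw [h7] at h10
            exact Finset.notMem_empty _ h10
          rw [h8, map_zero] at hk1
          omega
        refine ⟨Finset.univ.filter fun i => x i ≠ 0, ?_, hxA, h3, h4⟩
        rw [Finset.mem_filter, hs, Finset.mem_filter]
        refine ⟨⟨Finset.mem_univ _, hne, hdv _ ⟨x, hxA, h3, h4⟩⟩, ?_⟩
        have h7 : (Finset.univ.filter fun i => x i ≠ 0).gcd (fun i => m * w i) =
            normalize m * (Finset.univ.filter fun i => x i ≠ 0).gcd w := Finset.gcd_mul_left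
        have h8 : (normalize m : ℕ) = m := normalize_eq _
        rw [h8] at h7
        rw [← h7]
        refine Finset.dvd_gcd fun i hi => ?_
        by_contra h9
        exact (Finset.mem_filter.1 hi).2 (h5 i h9)
      · rintro ⟨A, hA, hxA, h3, h4⟩
        rw [Finset.mem_filter] at hA
        refine ⟨h3, h4, fun i hi => ?_⟩
        by_contra h5
        apply hi
        exact hA.2.trans (Nat.mul_dvd_mul_left m (Finset.gcd_dvd ((hxA i).1 h5)))
    show χ (cls (fibre w d f (d j₀) y m)) = _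
    rw [h2, cls_biUnion _ (fun A _ => hFAc A), map_sum, Finset.sum_filter]
    · refine Finset.sum_congr rfl fun A hA => ?_
      have h3 : (d j₀ ∣ m * A.gcd w) ↔ d j₀ / A.gcd w ∣ m := by
        rw [hs, Finset.mem_filter] at hA
        have h4 := (Nat.mul_div_cancel' hA.2.2).symm
        constructor
        · intro h5
          rw [h4, mul_comm m] at h5
          exact Nat.dvd_of_mul_dvd_mul_left (hg A hA.2.1) h5
        · intro h5
          rw [h4, mul_comm m]
          exact Nat.mul_dvd_mul_left _ h5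
      by_cases h4 : d j₀ ∣ m * A.gcd w
      · rw [if_pos h4, if_pos (h3.1 h4)]
        exact hFQ A hA
      · rw [if_neg h4, if_neg fun h5 => h4 (h3.2 h5)]
    · intro A _ B _ hAB
      rw [Set.disjoint_left]
      rintro x ⟨h3, -⟩ ⟨h4, -⟩
      apply hAB
      ext i
      rw [← h3 i, ← h4 i]
  · have h2 : s.filter (fun A => (1 : ℂ) ^ (d j₀ / A.gcd w) = 1) = s := by
      refine Finset.filter_true_of_mem fun A _ => one_pow _
    rw [h2]
    have h3 : ∑ A : Finset (Fin N), v5cf A * χ (cls (QA d f A (uA A) (d j₀) y j₀)) =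
        ∑ A ∈ s, χ (cls (QA d f A (uA A) (d j₀) y j₀)) := by
      rw [hs, Finset.sum_filter]
      refine Finset.sum_congr rfl fun A _ => ?_
      by_cases hA : A.Nonempty
      · by_cases hA' : A.gcd w ∣ d j₀
        · rw [if_pos ⟨hA, hA'⟩]
          unfold v5cf
          rw [if_pos hA, one_mul]
        · rw [if_neg fun h => hA' h.2, hQ0 A hA hA', mul_zero]
      · rw [if_neg fun h => hA h.1]
        unfold v5cf
        rw [if_neg hA, zero_mul]
    rw [← h3]
    exact hS

end WH
end MotMono
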