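import Pool.Agent.Lib.MP_4e5fcd_ag.WH.Base

/-!
# WH-C1: complementary coordinates

Extend the independent family `grad (f b) c`, `b ∈ B`, by vectors of the standard basis to a basis
of `ℂ^N` (for instance `exists_linearIndependent_extension`); the set `I` of the indices of the
standard basis vectors which are not used has `|B|` elements; choose `φ` with `φ : B → I` bijective.
The rows of the Jacobian matrix of `uu f B φ` at `c` are these vectors, up to the order, so the
determinant is not zero (`eval` of `jacDet` is the determinant of the evaluated matrix: `e2_det` in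
CN-E2; `Matrix.linearIndependent_rows_iff_isUnit`). If `B` is empty, `N = 0` is possible: then `φ`
exists only if `r = 0` or `0 < N`; hence the assumption `0 < N`.
-/

open MvPolynomial

namespace MotMono
namespace WH

variable {N r : ℕ}

open Classical in
/-- the rows `v b` at the places `φ b`, standard basis vectors at the other places -/
private noncomputable def c1M (v : Fin r → Fin N → ℂ) (B : Finset (Fin r)) (φ : Fin r → Fin N) :
    Matrix (Fin N) (Fin N) ℂ :=
  Matrix.of fun i => if h : ∃ b ∈ B, φ b = i then v h.choose else Pi.single i 1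

private theorem c1M_of_mem (v : Fin r → Fin N → ℂ) {B : Finset (Fin r)} {φ : Fin r → Fin N}
    (hφ : Set.InjOn φ B) {b : Fin r} (hb : b ∈ B) : c1M v B φ (φ b) = v b := by
  classical
  have h : ∃ b' ∈ B, φ b' = φ b := ⟨b, hb, rfl⟩
  have h1 : h.choose = b := hφ h.choose_spec.1 hb h.choose_spec.2
  show (if h : ∃ b' ∈ B, φ b' = φ b then v h.choose else Pi.single (φ b) 1) = v b
  rw [dif_pos h, h1]

private theorem c1M_of_not (v : Fin r → Fin N → ℂ) {B : Finset (Fin r)} {φ : Fin r → Fin N}
    {i : Fin N} (hi : ¬ ∃ b ∈ B, φ b = i) : c1M v B φ i = Pi.single i 1 := by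
  classical
  show (if h : ∃ b' ∈ B, φ b' = i then v h.choose else Pi.single i 1) = Pi.single i 1
  rw [dif_neg hi]

private theorem c1_main (hN : 0 < N) (v : Fin r → Fin N → ℂ) (B : Finset (Fin r))
    (h : LinearIndepOn ℂ v (B : Set (Fin r))) :
    ∃ φ : Fin r → Fin N, Set.InjOn φ B ∧ (c1M v B φ).det ≠ 0 := by
  classical
  induction B using Finset.induction_on with
  | empty =>
    refine ⟨fun _ => ⟨0, hN⟩, by simp, ?_⟩
    have h1 : c1M v ∅ (fun _ => ⟨0, hN⟩) = (1 : Matrix (Fin N) (Fin N) ℂ) := by
      ext i j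
      rw [c1M_of_not v (by simp), Matrix.one_apply, Pi.single_apply]
      simp [eq_comm]
    rw [h1, Matrix.det_one]
    exact one_ne_zero
  | insert b₀ B hb₀ ih =>
    rw [Finset.coe_insert, linearIndepOn_insert (by simpa using hb₀)] at h
    obtain ⟨φ, hφ, hdet⟩ := ih h.1
    set M := c1M v B φ with hM
    have hu : IsUnit M.det := isUnit_iff_ne_zero.2 hdet
    -- the coefficients of `v b₀`
    let lam : Fin N → ℂ := Matrix.vecMul (v b₀) M⁻¹
    have hlam : ∑ k, lam k • M k = v b₀ := by
      have h1 : Matrix.vecMul lam M = v b₀ := by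
        rw [Matrix.vecMul_vecMul, Matrix.nonsing_inv_mul M hu, Matrix.vecMul_one]
      rw [← h1]
      ext j
      simp [Matrix.vecMul, dotProduct, Finset.sum_apply]
    obtain ⟨i₀, hi₀, hl⟩ : ∃ i₀, (¬ ∃ b ∈ B, φ b = i₀) ∧ lam i₀ ≠ 0 := by
      by_contra hcon
      push Not at hcon
      apply h.2
      rw [← hlam]
      refine Submodule.sum_mem _ fun k _ => ?_
      by_cases hk : ∃ b ∈ B, φ b = k
      · obtain ⟨b, hb, rfl⟩ := hk
        refine Submodule.smul_mem _ _ (Submodule.subset_span ⟨b, hb, ?_⟩)
        rw [hM, c1M_of_mem v hφ hb]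
      · have h0 : lam k = 0 := by
          refine hcon k ?_
          intro b hb hbk
          exact hk ⟨b, hb, hbk⟩
        rw [h0, zero_smul]
        exact Submodule.zero_mem _
    have hne : ∀ b ∈ B, b ≠ b₀ := by
      rintro b hb rfl
      exact hb₀ hb
    let φ' : Fin r → Fin N := Function.update φ b₀ i₀
    have e0 : φ' b₀ = i₀ := Function.update_self _ _ _
    have e1 : ∀ b ∈ B, φ' b = φ b := fun b hb => Function.update_of_ne (hne b hb) _ _
    have hφ' : Set.InjOn φ' (insert b₀ B : Finset (Fin r)) := by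
      intro a ha b hb hab
      rw [Finset.coe_insert, Set.mem_insert_iff, Finset.mem_coe] at ha hb
      rcases ha with rfl | ha <;> rcases hb with rfl | hb
      · rfl
      · rw [e0, e1 b hb] at hab
        exact absurd ⟨b, hb, hab.symm⟩ hi₀
      · rw [e0, e1 a ha] at hab
        exact absurd ⟨a, ha, hab⟩ hi₀
      · rw [e1 a ha, e1 b hb] at hab
        exact hφ ha hb hab
    refine ⟨φ', hφ', ?_⟩
    have hMat : c1M v (insert b₀ B) φ' = M.updateRow i₀ (v b₀) := by
      ext i j
      by_cases hi : i = i₀
      · rw [hi, Matrix.updateRow_self]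
        have := c1M_of_mem v hφ' (Finset.mem_insert_self b₀ B)
        rw [e0] at this
        rw [this]
      · rw [Matrix.updateRow_ne hi]
        by_cases hk : ∃ b ∈ B, φ b = i
        · obtain ⟨b, hb, rfl⟩ := hk
          have h1 := c1M_of_mem v hφ' (Finset.mem_insert_of_mem hb : b ∈ insert b₀ B)
          rw [e1 b hb] at h1
          rw [h1, hM, c1M_of_mem v hφ hb]
        · rw [hM, c1M_of_not v hk, c1M_of_not v]
          rintro ⟨b, hb, hbi⟩
          rcases Finset.mem_insert.1 hb with rfl | hb
          · rw [e0] at hbi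
            exact hi hbi.symm
          · rw [e1 b hb] at hbi
            exact hk ⟨b, hb, hbi⟩
    rw [hMat, ← hlam, Matrix.det_updateRow_sum, smul_eq_mul]
    exact mul_ne_zero hl hdet

theorem exists_minor (hN : 0 < N) {f : Fin r → MvPolynomial (Fin N) ℂ} {c : Fin N → ℂ}
    {B : Finset (Fin r)} (h : LinearIndependent ℂ (fun b : B => grad (f b) c)) :
    ∃ φ : Fin r → Fin N, Set.InjOn φ B ∧ eval c (jacDet (uu f B φ)) ≠ 0 := by
  classical
  obtain ⟨φ, hφ, hdet⟩ := c1_main hN (fun b => grad (f b) c) B h
  refine ⟨φ, hφ, ?_⟩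
  have h1 : eval c (jacDet (uu f B φ)) = (c1M (fun b => grad (f b) c) B φ).det := by
    rw [jacDet, RingHom.map_det]
    congr 1
    ext i j
    show eval c (pderiv j (uu f B φ i)) = c1M (fun b => grad (f b) c) B φ i j
    by_cases hi : ∃ b ∈ B, φ b = i
    · obtain ⟨b, hb, rfl⟩ := hi
      rw [c1M_of_mem _ hφ hb]
      have h2 : ∃ b' ∈ B, φ b' = φ b := ⟨b, hb, rfl⟩
      have h3 : h2.choose = b := hφ h2.choose_spec.1 hb h2.choose_spec.2
      have h4 : uu f B φ (φ b) = f b := by
        unfold uu
        rw [dif_pos h2, h3]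
      rw [h4]
      rfl
    · rw [c1M_of_not _ hi]
      have h4 : uu f B φ i = X i := by
        unfold uu
        rw [dif_neg hi]
      rw [h4, pderiv_X, Pi.single_apply, Pi.single_apply]
      by_cases hij : i = j
      · simp [hij]
      · rw [if_neg hij, if_neg (fun h => hij h.symm), map_zero]
  rw [h1]
  exact hdet

end WH
end MotMono
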