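import Pool.Agent.Lib.MP_4e5fcd_ag.CN.V2
import Pool.Agent.Lib.MP_4e5fcd_ag.CN.V4
import Pool.Agent.Lib.MP_4e5fcd_ag.WH.Base

/-!
# WH-V3: scaling

As `CN.near_scale` (CN-V4), with `x_i ↦ s^(w_i) x_i`: the automorphism multiplies `f j` by
`s^(d_j)`; `0 < s ≤ 1`, `w_i ≥ 1`, so `|s^(w_i) p_i| ≤ s |p_i|`.
-/

open MvPolynomial

namespace MotMono
namespace WH

variable {N r : ℕ}

private theorem whV3_scale (a : ℂ) {w : Fin N → ℕ} {f : MvPolynomial (Fin N) ℂ} {d : ℕ}
    (hf : IsWeightedHomogeneous w f d) :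
    aeval (fun i => (C (a ^ w i) * X i : MvPolynomial (Fin N) ℂ)) f = C (a ^ d) * f := by
  have h1 : ∀ v : Fin N → MvPolynomial (Fin N) ℂ, aeval v f =
      ∑ m ∈ f.support, C (coeff m f) * ∏ i, v i ^ m i := by
    intro v
    rw [aeval_def, eval₂_eq']
    rfl
  have h2 : f = ∑ m ∈ f.support, C (coeff m f) * ∏ i, (X i : MvPolynomial (Fin N) ℂ) ^ m i := by
    rw [← h1 X, aeval_X_left_apply]
  rw [h1]
  conv_rhs => rw [h2]
  rw [Finset.mul_sum]
  refine Finset.sum_congr rfl fun m hm => ?_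
  have hd : ∑ i, m i * w i = d := by
    have h1 : Finsupp.weight w m = d := hf (mem_support_iff.1 hm)
    rw [← h1, Finsupp.weight_apply]
    exact (Finsupp.sum_fintype m (fun i c => c • w i) (fun i => zero_smul ℕ (w i))).symm
  have h3 : ∏ i, (C (a ^ w i) * X i : MvPolynomial (Fin N) ℂ) ^ m i =
      C (a ^ d) * ∏ i, (X i : MvPolynomial (Fin N) ℂ) ^ m i := by
    simp only [mul_pow]
    rw [Finset.prod_mul_distrib]
    congr 1
    have h4 : ∀ i, (C (a ^ w i) : MvPolynomial (Fin N) ℂ) ^ m i = C a ^ (m i * w i) := by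
      intro i
      rw [C_pow, ← pow_mul, mul_comm]
    rw [Finset.prod_congr rfl fun i _ => h4 i, Finset.prod_pow_eq_pow_sum, hd, C_pow]
  rw [h3]
  ring

theorem near_scale_w {χ : K0 →+* ℤ} (hχ : IsEulerCharF χ) {w : Fin N → ℕ} {d : Fin r → ℕ}
    {f : Fin r → MvPolynomial (Fin N) ℂ} (hW : Wt w d f) (c : Fin N → ℂ) (lam : ℂ)
    (hn : CN.Near χ (Ideal.span (Set.range f)) c lam) :
    CN.Near χ (Ideal.span (Set.range f)) 0 lam := by
  intro ε hε
  obtain ⟨p', hp', hvis⟩ := hn 1 one_pos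
  have hc0 : 0 ≤ ‖c‖ := norm_nonneg c
  set s : ℝ := min 1 (ε / (2 * (‖c‖ + 2))) with hs
  have hs0 : 0 < s := lt_min one_pos (by positivity)
  have hs1 : s ≤ 1 := min_le_left _ _
  have hs2 : s ≤ ε / (2 * (‖c‖ + 2)) := min_le_right _ _
  have hsC : (s : ℂ) ≠ 0 := by exact_mod_cast hs0.ne'
  have hch : CN.Chart (Ideal.span (Set.range f)) (Ideal.span (Set.range f))
      (fun i => (C ((s : ℂ)⁻¹ ^ w i) * X i : MvPolynomial (Fin N) ℂ)) id 1 := by
    refine ⟨Function.injective_id, ?_, ?_⟩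
    · intro g hg
      rw [one_mul]
      have hle : Ideal.span (Set.range f) ≤ (Ideal.span (Set.range f)).comap
          (aeval (fun i => (C ((s : ℂ)⁻¹ ^ w i) * X i : MvPolynomial (Fin N) ℂ))).toRingHom := by
        rw [Ideal.span_le]
        rintro _ ⟨j, rfl⟩
        show aeval (fun i => (C ((s : ℂ)⁻¹ ^ w i) * X i : MvPolynomial (Fin N) ℂ)) (f j) ∈
          Ideal.span (Set.range f)
        rw [whV3_scale _ (hW.hom j)]
        exact Ideal.mul_mem_left _ _ (Ideal.subset_span ⟨j, rfl⟩)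
      exact hle hg
    · intro g hg
      rw [one_mul]
      have hle : Ideal.span (Set.range f) ≤ Ideal.span {f' | ∃ g ∈ Ideal.span (Set.range f),
          f' = aeval (fun i =>
            (C ((s : ℂ)⁻¹ ^ w (id i)) * X (id i) : MvPolynomial (Fin N) ℂ)) g} := by
        rw [Ideal.span_le]
        rintro _ ⟨j, rfl⟩
        apply Ideal.subset_span
        refine ⟨C ((s : ℂ) ^ d j) * f j,
          Ideal.mul_mem_left _ _ (Ideal.subset_span ⟨j, rfl⟩), ?_⟩
        show f j = aeval (fun i => (C ((s : ℂ)⁻¹ ^ w i) * X i : MvPolynomial (Fin N) ℂ))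
          (C ((s : ℂ) ^ d j) * f j)
        rw [map_mul, whV3_scale _ (hW.hom j), aeval_C, ← mul_assoc]
        have : (algebraMap ℂ (MvPolynomial (Fin N) ℂ)) ((s : ℂ) ^ d j) *
            C ((s : ℂ)⁻¹ ^ d j) = 1 := by
          rw [MvPolynomial.algebraMap_eq, ← C_mul, inv_pow, mul_inv_cancel₀ (pow_ne_zero _ hsC),
            C_1]
        rw [this, one_mul]
      exact hle hg
  have hjac : eval (fun i => (s : ℂ) ^ w i * p' i)
      (jacDet fun i => (C ((s : ℂ)⁻¹ ^ w i) * X i : MvPolynomial (Fin N) ℂ)) ≠ 0 := by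
    have : jacDet (fun i => (C ((s : ℂ)⁻¹ ^ w i) * X i : MvPolynomial (Fin N) ℂ)) =
        ∏ i, C ((s : ℂ)⁻¹ ^ w i) := by
      unfold jacDet
      have : (Matrix.of fun i j =>
          pderiv j (C ((s : ℂ)⁻¹ ^ w i) * X i : MvPolynomial (Fin N) ℂ)) =
          Matrix.diagonal (fun i => (C ((s : ℂ)⁻¹ ^ w i) : MvPolynomial (Fin N) ℂ)) := by
        ext1 i j
        rw [Matrix.of_apply, pderiv_C_mul, pderiv_X, Matrix.diagonal_apply, Pi.single_apply]
        split_ifs with h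
        · simp
        · simp
      rw [this, Matrix.det_diagonal]
    rw [this, map_prod]
    refine Finset.prod_ne_zero_iff.2 fun i _ => ?_
    rw [eval_C]
    exact pow_ne_zero _ (inv_ne_zero hsC)
  have hv := CN.vis_chart hχ hch (fun i => (s : ℂ) ^ w i * p' i) (by simp) hjac lam (by
    have : (fun i => eval (fun i => (s : ℂ) ^ w i * p' i)
        (C ((s : ℂ)⁻¹ ^ w (id i)) * X (id i) : MvPolynomial (Fin N) ℂ)) = p' := by
      funext i
      rw [map_mul, eval_C, eval_X, id, ← mul_assoc, ← mul_pow, inv_mul_cancel₀ hsC, one_pow,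
        one_mul]
    rw [this]
    exact hvis)
  refine ⟨_, ?_, hv⟩
  have h1 : ‖p'‖ < ‖c‖ + 1 := by
    have : p' = (p' - c) + c := by abel
    calc ‖p'‖ = ‖(p' - c) + c‖ := by rw [← this]
      _ ≤ ‖p' - c‖ + ‖c‖ := norm_add_le _ _
      _ < ‖c‖ + 1 := by linarith
  have h3 : s * (‖c‖ + 1) < ε := by
    calc s * (‖c‖ + 1) < s * (2 * (‖c‖ + 2)) := by
          apply mul_lt_mul_of_pos_left _ hs0
          linarith
      _ ≤ ε / (2 * (‖c‖ + 2)) * (2 * (‖c‖ + 2)) := by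
          apply mul_le_mul_of_nonneg_right hs2
          positivity
      _ = ε := by
          field_simp
  rw [sub_zero, pi_norm_lt_iff hε]
  intro i
  have hw1 : 1 ≤ w i := hW.w_pos i
  rw [norm_mul, norm_pow, Complex.norm_real, Real.norm_of_nonneg hs0.le]
  calc s ^ w i * ‖p' i‖ ≤ s * ‖p'‖ := by
        apply mul_le_mul _ (norm_le_pi_norm p' i) (norm_nonneg _) hs0.le
        calc s ^ w i ≤ s ^ 1 := pow_le_pow_of_le_one hs0.le hs1 hw1
          _ = s := pow_one s
    _ ≤ s * (‖c‖ + 1) := by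
        apply mul_le_mul_of_nonneg_left h1.le hs0.le
    _ < ε := h3

end WH
end MotMono
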