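import Pool.Agent.Lib.MP_4e5fcd_ag.CN.L5
import Pool.Agent.Lib.MP_4e5fcd_ag.CN.G1
import Pool.Agent.Lib.MP_4e5fcd_ag.WH.C1
import Pool.Agent.Lib.MP_4e5fcd_ag.WH.V3

/-!
# WH-V4: smooth points are good

`good_of_smooth`: `SmoothAt` at `c`: `g : Fin m → …`, `h`. All `g k ∈ I` vanish at `c`. `m > 0`:
otherwise `h * q = 0` for all `q ∈ I`. Complete the `g k` by coordinates `X_i - C (c_i)` (or `X_i`) to
a system `u : Fin N → …` with `jacDet ≠ 0` at `c`: `exists_minor` (WH-C1) with `f = g`,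
`B = Finset.univ` gives `φ`, injective, `u = uu g univ φ`, `u (φ k) = g k`; `e = φ` in `LocPull`
(`eval c (g k) = 0`). This is `LocPull I c (span {X_0, …, X_(m-1)})` (`aeval` of `X_k` is `g k`; the
ideal generated by the `aeval` of the elements of the span is `span (range g)`).
`CN.good_lin` for `P = {X k}` (`IsProdLin (X k)`) and `CN.good_of_locPull`.
`N > 0` because there are independent vectors (`m > 0`).
`near_one_of_zero`: `trn d f (dmax d) = span (range f)` (`d j ≤ dmax d`; `WH.D1` has `le_dmax`, prove it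
again privately: `Finset.single_le_sum`), `.2` of `Good`, `near_scale_w`.
-/

open MvPolynomial

namespace MotMono
namespace WH

variable {N r : ℕ}

private theorem v4_prodLin {k : ℕ} (i : Fin k) : IsProdLin (X i : MvPolynomial (Fin k) ℂ) := by
  refine ⟨1, 1, fun _ => Pi.single i 1, by simp, ?_⟩
  rw [one_mul, Fin.prod_univ_one]
  beta_reduce
  rw [Finset.sum_eq_single i]
  · rw [Pi.single_eq_same, map_one, one_mul]
  · intro j _ hj
    rw [Pi.single_eq_of_ne hj, map_zero, zero_mul]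
  · intro h
    exact absurd (Finset.mem_univ i) h

private theorem v4_uu {m : ℕ} (g : Fin m → MvPolynomial (Fin N) ℂ) {φ : Fin m → Fin N}
    (hφ : Function.Injective φ) (k : Fin m) : uu g Finset.univ φ (φ k) = g k := by
  unfold uu
  have h : ∃ b ∈ (Finset.univ : Finset (Fin m)), φ b = φ k := ⟨k, Finset.mem_univ k, rfl⟩
  rw [dif_pos h]
  exact congrArg g (hφ h.choose_spec.2)

theorem good_of_smooth {χ : K0 →+* ℤ} (hχ : IsEulerCharF χ)
    {I : Ideal (MvPolynomial (Fin N) ℂ)} (hI : I ≠ ⊥) {c : Fin N → ℂ}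
    (hv : ∀ g ∈ I, eval c g = 0) (hs : SmoothAt I c) : CN.Good χ I c := by
  obtain ⟨m, g, h, hg, hli, hh, hspan⟩ := hs
  have hm : 0 < m := by
    rcases Nat.eq_zero_or_pos m with hm | hm
    · exfalso
      subst hm
      apply hI
      refine (Submodule.eq_bot_iff I).2 fun q hq => ?_
      have h1 := hspan q hq
      have h2 : Set.range g = ∅ := Set.range_eq_empty g
      rw [h2, Ideal.span_empty, Ideal.mem_bot] at h1
      refine (mul_eq_zero.1 h1).resolve_left ?_
      intro h3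
      exact hh (by rw [h3, map_zero])
    · exact hm
  have hN : 0 < N := by
    rcases Nat.eq_zero_or_pos N with hN | hN
    · exfalso
      subst hN
      exact hli.ne_zero ⟨0, hm⟩ (Subsingleton.elim _ _)
    · exact hN
  have hli' : LinearIndependent ℂ (fun b : (Finset.univ : Finset (Fin m)) => grad (g b) c) :=
    hli.comp (fun b : (Finset.univ : Finset (Fin m)) => (b : Fin m)) Subtype.val_injective
  obtain ⟨φ, hφ, hdet⟩ := exists_minor hN hli'
  have hφ' : Function.Injective φ := by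
    intro a b hab
    exact hφ (Finset.mem_coe.2 (Finset.mem_univ a)) (Finset.mem_coe.2 (Finset.mem_univ b)) hab
  have hu : (fun i => uu g Finset.univ φ (φ i)) = g := funext fun k => v4_uu g hφ' k
  have hloc : LocPull I c (Ideal.span (Set.range (X : Fin m → MvPolynomial (Fin m) ℂ))) := by
    refine ⟨uu g Finset.univ φ, φ, h, hφ', hh, hdet, fun i => ?_, fun g' hg' => ?_, fun f hf => ?_⟩
    · rw [v4_uu g hφ' i]
      exact hv _ (hg i)
    · rw [hu]
      refine I.mul_mem_left _ ?_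
      have h1 : Ideal.span (Set.range (X : Fin m → MvPolynomial (Fin m) ℂ)) ≤
          I.comap (aeval g : MvPolynomial (Fin m) ℂ →ₐ[ℂ] MvPolynomial (Fin N) ℂ).toRingHom := by
        rw [Ideal.span_le]
        rintro _ ⟨k, rfl⟩
        show aeval g (X k) ∈ I
        rw [aeval_X]
        exact hg k
      exact h1 hg'
    · rw [hu]
      refine (Ideal.span_le.2 ?_ : Ideal.span (Set.range g) ≤ _) (hspan f hf)
      rintro _ ⟨k, rfl⟩
      refine Ideal.subset_span ⟨X k, Ideal.subset_span ⟨k, rfl⟩, ?_⟩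
      rw [aeval_X]
  refine CN.good_of_locPull hχ I c _ hloc (CN.good_lin hχ _ ?_ ?_ ?_)
  · rintro _ ⟨k, rfl⟩
    exact v4_prodLin k
  · exact ⟨X ⟨0, hm⟩, ⟨⟨0, hm⟩, rfl⟩, X_ne_zero _⟩
  · rintro _ ⟨k, rfl⟩
    simp

theorem trn_dmax (d : Fin r → ℕ) (f : Fin r → MvPolynomial (Fin N) ℂ) :
    trn d f (dmax d) = Ideal.span (Set.range f) := by
  unfold trn
  congr 1
  ext g
  constructor
  · rintro ⟨j, _, rfl⟩
    exact ⟨j, rfl⟩
  · rintro ⟨j, rfl⟩
    exact ⟨j, Finset.single_le_sum (f := d) (fun i _ => Nat.zero_le _) (Finset.mem_univ j), rfl⟩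

theorem near_one_of_zero {χ : K0 →+* ℤ} (hχ : IsEulerCharF χ) {w : Fin N → ℕ} {d : Fin r → ℕ}
    {f : Fin r → MvPolynomial (Fin N) ℂ} (hW : Wt w d f) (hne : ∃ j, f j ≠ 0) {c : Fin N → ℂ}
    (hv : ∀ j, eval c (f j) = 0) (hs : SmoothAt (trn d f (dmax d)) c) :
    CN.Near χ (Ideal.span (Set.range f)) 0 1 := by
  rw [trn_dmax] at hs
  have hI : Ideal.span (Set.range f) ≠ ⊥ := by
    obtain ⟨j, hj⟩ := hne
    intro h
    apply hj
    have h1 : f j ∈ Ideal.span (Set.range f) := Ideal.subset_span ⟨j, rfl⟩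
    rw [h, Ideal.mem_bot] at h1
    exact h1
  have hv' : ∀ g ∈ Ideal.span (Set.range f), eval c g = 0 := by
    have h1 : Ideal.span (Set.range f) ≤ RingHom.ker (eval c) := by
      rw [Ideal.span_le]
      rintro _ ⟨j, rfl⟩
      exact hv j
    exact fun g hg => h1 hg
  exact near_scale_w hχ hW c 1 (good_of_smooth hχ hI hv' hs).2

end WH
end MotMono
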