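import Pool.Agent.Lib.MP_4e5fcd_ag.K1
import Pool.Agent.Lib.MP_4e5fcd_ag.WH.Base

/-!
# WH-B5: the ball

The free coordinates are the `(i, l)`, `l ≤ n`, with `K w_i ≤ l dm`, i.e. `⌈K w_i / dm⌉ ≤ l`;
`cls_iso` with `ℂ ^ (free coordinates)`, `cls_univ` (or `cls_submodule`).
-/

open MvPolynomial

namespace MotMono
namespace WH

variable {N r : ℕ}

theorem cls_Ball (w : Fin N → ℕ) {dm : ℕ} (hdm : 0 < dm) (K n : ℕ) :
    cls (Ball w dm K n) = LL ^ (∑ i, (n + 1 - (K * w i + dm - 1) / dm)) := by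
  classical
  let I : Set (Fin N × Fin (n + 1)) := {q | K * w q.1 ≤ (q.2 : ℕ) * dm}
  let J : Set (Fin N × Fin (n + 1)) := {q | (q.2 : ℕ) * dm < K * w q.1}
  let W : Submodule ℂ (Fin N × Fin (n + 1) → ℂ) :=
    ⨅ q ∈ J, LinearMap.ker (LinearMap.proj q : (Fin N × Fin (n + 1) → ℂ) →ₗ[ℂ] ℂ)
  have hW : (W : Set (Fin N × Fin (n + 1) → ℂ)) = Ball w dm K n := by
    ext γ
    have h1 : γ ∈ (W : Set (Fin N × Fin (n + 1) → ℂ)) ↔ ∀ q ∈ J, γ q = 0 := by
      simp [W]
    rw [h1]
    exact ⟨fun h i l hl => h (i, l) hl, fun h q hq => h q.1 q.2 hq⟩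
  have hd : Disjoint I J := by
    rw [Set.disjoint_left]
    intro q h1 h2
    exact absurd (show K * w q.1 ≤ (q.2 : ℕ) * dm from h1) (not_le.2 h2)
  have hu : (Set.univ : Set (Fin N × Fin (n + 1))) ⊆ I ∪ J := by
    intro q _
    rcases le_or_gt (K * w q.1) ((q.2 : ℕ) * dm) with h | h
    · exact Or.inl h
    · exact Or.inr h
  have hcard : Fintype.card I = ∑ i, (n + 1 - (K * w i + dm - 1) / dm) := by
    have h1 : Fintype.card I = ∑ q : Fin N × Fin (n + 1), if K * w q.1 ≤ (q.2 : ℕ) * dm then 1 else 0 := by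
      rw [Fintype.card_subtype, Finset.card_filter]
      rfl
    rw [h1, Fintype.sum_prod_type]
    refine Finset.sum_congr rfl fun i _ => ?_
    have h2 : ∀ l : ℕ, K * w i ≤ l * dm ↔ (K * w i + dm - 1) / dm ≤ l := by
      intro l
      rw [← Nat.lt_succ_iff (m := (K * w i + dm - 1) / dm), Nat.div_lt_iff_lt_mul hdm, Nat.succ_mul]
      omega
    have h3 : (∑ l : Fin (n + 1), if K * w i ≤ (l : ℕ) * dm then 1 else 0) =
        ((Finset.range (n + 1)).filter fun l => (K * w i + dm - 1) / dm ≤ l).card := by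
      rw [Finset.card_filter, Finset.sum_range]
      refine Finset.sum_congr rfl fun l _ => ?_
      simp only [h2]
    have h4 : (Finset.range (n + 1)).filter (fun l => (K * w i + dm - 1) / dm ≤ l) =
        Finset.Ico ((K * w i + dm - 1) / dm) (n + 1) := by
      ext l
      simp only [Finset.mem_filter, Finset.mem_range, Finset.mem_Ico]
      exact and_comm
    rw [h3, h4, Nat.card_Ico]
  rw [← hW, cls_submodule]
  congr 1
  rw [← hcard, (LinearMap.iInfKerProjEquiv ℂ (fun _ => ℂ) hd hu).finrank_eq]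
  exact Module.finrank_fintype_fun_eq_card ℂ

end WH
end MotMono
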