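import Pool.Agent.Lib.MP_4e5fcd_ag.WH.A1
import Pool.Agent.Lib.MP_4e5fcd_ag.WH.B4
import Pool.Agent.Lib.MP_4e5fcd_ag.WH.B5
import Pool.Agent.Lib.MP_4e5fcd_ag.WH.C3

/-!
# WH-E1: the formula for `mu`

`n = K * (∑ i, w i + 1)`; `mu_eq`, `cls_AS`, `cls_Ball`; in `Sec … {c ∈ St τ, c ≠ 0} h` the leading
coefficients are in `FixH w M h`, so the set is `Sec … {c ∈ St τ, c ≠ 0, c ∈ FixH} h`;
`cls_Sec` (`h < K M`, so `h w_i + K M ≤ n M`); `hSv`, `hSi` from `Adm`. Exponents: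
`∑_i (n - h w_i / M) - ∑_b (…) - N (n + 1) = - expn` (natural subtractions are exact:
`h w_i / M ≤ n`, `∑_b (K - 1 - …) ≤ |B| K ≤ N K`; `|B| ≤ N` if `St τ` has a point), and
`∑_i (n + 1 - ⌈K w_i / dm⌉) - N (n + 1) = - ∑_i ⌈K w_i / dm⌉`. If the piece of `St τ` is empty both
sides are zero.
-/

open MvPolynomial

namespace MotMono
namespace WH

variable {N r : ℕ}

theorem e1_LL_pow (k : ℕ) (a : ℤ) :
    algebraMap K0 MC (LL ^ k) * ((Lu ^ a : MCˣ) : MC) = ((Lu ^ ((k : ℤ) + a) : MCˣ) : MC) := by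
  have h1 : algebraMap K0 MC LL = ((Lu : MCˣ) : MC) := by
    unfold Lu
    rw [IsUnit.unit_spec]
  rw [map_pow, h1, ← Units.val_pow_eq_pow_val, ← Units.val_mul, ← zpow_natCast, ← zpow_add]

theorem e1_constr_FixH (w : Fin N → ℕ) (M h : ℕ) : Constr (FixH w M h) := by
  classical
  have e : FixH w M h = ⋂ i : Fin N, {c : Fin N → ℂ | eval c
      (if M ∣ h * w i then (0 : MvPolynomial (Fin N) ℂ) else X i) = 0} := by
    ext c
    simp only [FixH, Set.mem_ofPred_eq, Set.mem_iInter]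
    refine forall_congr' fun i => ?_
    by_cases hi : M ∣ h * w i
    · simp [hi]
    · simp [hi]
  rw [e]
  exact constr_iInter fun i => Constr.zeroSet _

theorem e1_constr_ne : Constr {c : Fin N → ℂ | c ≠ 0} := by
  have h1 := (constr_singleton (0 : Fin N → ℂ)).compl
  exact h1

theorem e1_lead_mem (w : Fin N → ℕ) (M h : ℕ) {n : ℕ} (γ : Fin N × Fin (n + 1) → ℂ) :
    lead w M h γ ∈ FixH w M h := by
  intro i hi
  unfold lead
  rw [dif_neg]
  intro hq
  exact hi hq.1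

/-- one sector -/
theorem e1_sector {w : Fin N → ℕ} {d : Fin r → ℕ} {f : Fin r → MvPolynomial (Fin N) ℂ}
    (hW : Wt w d f) {M K h n : ℕ} (hM : 0 < M) (hn : ∀ i, K * (w i + 1) ≤ n) (hh : h < K * M)
    {E : ℕ} {B : Finset (Fin r)} {S : Set (Fin N → ℂ)} (hS : Constr S)
    (hadm : ∀ c ∈ S, Adm d f c E B) :
    algebraMap K0 MC (cls (Sec w M f B {c | c ∈ S ∧ c ≠ 0} h K n)) *
        ((Lu ^ (-(N * (n + 1) : ℤ)) : MCˣ) : MC) =
      algebraMap K0 MC (cls {c | (c ∈ S ∧ c ≠ 0) ∧ c ∈ FixH w M h}) *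
        ((Lu ^ (-(expn w d M B h K)) : MCˣ) : MC) := by
  classical
  have h0 : Sec w M f B {c | c ∈ S ∧ c ≠ 0} h K n =
      Sec w M f B {c | (c ∈ S ∧ c ≠ 0) ∧ c ∈ FixH w M h} h K n := by
    ext γ
    have := e1_lead_mem w M h γ
    simp only [Sec, Set.mem_ofPred_eq]
    tauto
  have hS' : Constr {c | (c ∈ S ∧ c ≠ 0) ∧ c ∈ FixH w M h} :=
    (hS.inter e1_constr_ne).inter (e1_constr_FixH w M h)
  have hn' : ∀ i, h * w i + K * M ≤ n * M := by
    intro i
    calc h * w i + K * M ≤ K * M * w i + K * M :=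
          Nat.add_le_add_right (Nat.mul_le_mul_right _ hh.le) _
      _ = K * (w i + 1) * M := by ring
      _ ≤ n * M := Nat.mul_le_mul_right _ (hn i)
  rw [h0, cls_Sec hW hM hn' hS' (fun c hc => hc.2)
    (fun c hc b hb => (hadm c hc.1.1).van b ((hadm c hc.1.1).lt b hb))
    (fun c hc => (hadm c hc.1.1).ind)]
  by_cases hne : ({c | (c ∈ S ∧ c ≠ 0) ∧ c ∈ FixH w M h} : Set (Fin N → ℂ)).Nonempty
  · obtain ⟨c, hc⟩ := hne
    rw [map_mul, mul_assoc, e1_LL_pow]
    congr 3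
    have hcard : B.card ≤ N := by
      have h1 := (hadm c hc.1.1).ind.fintype_card_le_finrank
      simpa using h1
    have h2 : ∑ b ∈ B, (K - 1 - h * d b / M) ≤ N * K := by
      calc ∑ b ∈ B, (K - 1 - h * d b / M) ≤ ∑ b ∈ B, K := Finset.sum_le_sum fun b _ =>
            (Nat.sub_le _ _).trans (Nat.sub_le _ _)
        _ = B.card * K := by rw [Finset.sum_const, smul_eq_mul]
        _ ≤ N * K := Nat.mul_le_mul_right _ hcard
    have h3 : ∀ i, h * w i / M + K ≤ n := by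
      intro i
      have h4 : (h * w i + K * M) / M ≤ n := by
        apply Nat.div_le_of_le_mul
        rw [mul_comm M n]
        exact hn' i
      rwa [Nat.add_mul_div_right _ _ hM] at h4
    have h5 : ∑ i, (n - h * w i / M) + ∑ i, h * w i / M = N * n := by
      rw [← Finset.sum_add_distrib]
      have : ∀ i ∈ (Finset.univ : Finset (Fin N)), (n - h * w i / M) + h * w i / M = n :=
        fun i _ => by
          have := h3 i
          omega
      rw [Finset.sum_congr rfl this]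
      simp
    have h6 : N * K ≤ ∑ i, (n - h * w i / M) := by
      have : ∑ _i : Fin N, K ≤ ∑ i, (n - h * w i / M) := Finset.sum_le_sum fun i _ => by
        have := h3 i
        omega
      simpa using this
    unfold expn
    have h7 : (∑ i, ((h * w i / M : ℕ) : ℤ)) = ((∑ i, h * w i / M : ℕ) : ℤ) := by
      rw [Nat.cast_sum]
    have h8 : (∑ b ∈ B, ((K - 1 - h * d b / M : ℕ) : ℤ)) =
        ((∑ b ∈ B, (K - 1 - h * d b / M) : ℕ) : ℤ) := by
      rw [Nat.cast_sum]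
    rw [h7, h8, Nat.cast_sub (h2.trans h6)]
    have h9 : ((∑ i, (n - h * w i / M) : ℕ) : ℤ) + ((∑ i, h * w i / M : ℕ) : ℤ) =
        (N : ℤ) * n := by
      exact_mod_cast h5
    linarith
  · have h1 : ({c | (c ∈ S ∧ c ≠ 0) ∧ c ∈ FixH w M h} : Set (Fin N → ℂ)) = ∅ :=
      Set.not_nonempty_iff_eq_empty.1 hne
    rw [h1, cls_empty]
    simp

open Classical in
theorem mu_formula {w : Fin N → ℕ} {d : Fin r → ℕ} {f : Fin r → MvPolynomial (Fin N) ℂ}
    (hW : Wt w d f) {M K dm : ℕ} (hM : 0 < M) (hwM : ∀ i, w i ∣ M) (hK : 1 ≤ K)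
    (hdm0 : 0 < dm) (hdm : ∀ j, f j ≠ 0 → dm ≤ d j)
    (hs : ∀ c, c ≠ 0 → ∀ e, (∀ j, d j ≤ e → eval c (f j) = 0) → SmoothAt (trn d f e) c)
    (St : ℕ × Finset (Fin r) → Set (Fin N → ℂ)) (hSt : ∀ τ, Constr (St τ))
    (hdis : ∀ τ τ', τ ≠ τ' → Disjoint (St τ) (St τ'))
    (hcov : ∀ c, ∃ τ ∈ Finset.range (dmax d + 2) ×ˢ (Finset.univ : Finset (Finset (Fin r))),
      c ∈ St τ) (hadm : ∀ τ, ∀ c ∈ St τ, Adm d f c τ.1 τ.2) :
    mu f K = ((Lu ^ (-(∑ i, (((K * w i + dm - 1) / dm : ℕ) : ℤ))) : MCˣ) : MC) +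
      ∑ τ ∈ Finset.range (dmax d + 2) ×ˢ (Finset.univ : Finset (Finset (Fin r))),
        ∑ h ∈ (Finset.range (K * M)).filter (fun h => Rng d M dm τ.1 h K),
          algebraMap K0 MC (cls {c | (c ∈ St τ ∧ c ≠ 0) ∧ c ∈ FixH w M h}) *
            ((Lu ^ (-(expn w d M τ.2 h K)) : MCˣ) : MC) := by
  have hn : ∀ i, K * (w i + 1) ≤ K * (∑ i, w i + 1) := by
    intro i
    refine Nat.mul_le_mul_left _ (Nat.add_le_add_right ?_ _)
    exact Finset.single_le_sum (f := w) (fun _ _ => Nat.zero_le _) (Finset.mem_univ i)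
  have hKn : K ≤ K * (∑ i, w i + 1) + 1 := by
    have : K * 1 ≤ K * (∑ i, w i + 1) := Nat.mul_le_mul_left _ (by omega)
    omega
  generalize hnn : K * (∑ i, w i + 1) = n at hn hKn
  rw [← mu_eq f n K hKn, cls_AS hW hM hwM hK hn hdm0 hdm hs St hSt hdis hcov hadm, cls_Ball w hdm0,
    map_add, add_mul, e1_LL_pow]
  congr 1
  · congr 2
    have h1 : ∀ i, (K * w i + dm - 1) / dm ≤ n + 1 := by
      intro i
      have h2 : (K * w i + dm - 1) / dm ≤ (K * w i + dm) / dm := Nat.div_le_div_right (by omega)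
      rw [Nat.add_div_right _ hdm0] at h2
      have h3 : K * w i / dm ≤ K * w i := Nat.div_le_self _ _
      have h4 : K * w i ≤ K * (w i + 1) := Nat.mul_le_mul_left _ (by omega)
      have h5 := hn i
      omega
    have h2 : ((∑ i, (n + 1 - (K * w i + dm - 1) / dm) : ℕ) : ℤ) =
        (N : ℤ) * (n + 1) - ∑ i, (((K * w i + dm - 1) / dm : ℕ) : ℤ) := by
      rw [Nat.cast_sum]
      have h3 : ∀ i ∈ (Finset.univ : Finset (Fin N)),
          ((n + 1 - (K * w i + dm - 1) / dm : ℕ) : ℤ) =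
            ((n : ℤ) + 1) - (((K * w i + dm - 1) / dm : ℕ) : ℤ) := by
        intro i _
        rw [Nat.cast_sub (h1 i)]
        push_cast
        ring
      rw [Finset.sum_congr rfl h3, Finset.sum_sub_distrib]
      simp
    rw [h2]
    ring
  · rw [map_sum, Finset.sum_mul]
    refine Finset.sum_congr rfl fun τ _ => ?_
    rw [map_sum, Finset.sum_mul]
    refine Finset.sum_congr rfl fun h hh => ?_
    exact e1_sector hW hM hn (Finset.mem_range.1 (Finset.mem_filter.1 hh).1) (hSt τ) (hadm τ)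

end WH
end MotMono
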