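import Pool.Agent.Lib.MP_4e5fcd_ag.CN.P4
import Pool.Agent.Lib.MP_4e5fcd_ag.WH.A1

/-!
# WH-A2: from `mu` to `Zmot`

`∑ mu_K T^K = C (mu 0) + X * ∑ mu_(K+1) T^K` and `Zmot = ∑ mu_K T^K - ∑ mu_(K+1) T^K` (`zmot_coeff`);
`CN.C_mem_polar`, `CN.X_pow_mem_polar`.
-/

open MvPolynomial

namespace MotMono
namespace WH

variable {N r : ℕ}

theorem zmot_polar (f : Fin r → MvPolynomial (Fin N) ℂ) (s₀ : ℚ)
    (h : PowerSeries.mk (fun K => mu f (K + 1)) ∈ polarRing s₀) :
    Zmot (Ideal.span (Set.range f)) ∈ polarRing s₀ := by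
  have e : Zmot (Ideal.span (Set.range f)) = PowerSeries.C (mu f 0) +
      (PowerSeries.X : PowerSeries MC) ^ 1 * PowerSeries.mk (fun K => mu f (K + 1)) -
      PowerSeries.mk (fun K => mu f (K + 1)) := by
    ext k
    rw [zmot_coeff, map_sub, map_add, pow_one, PowerSeries.coeff_mk]
    cases k with
    | zero =>
      rw [PowerSeries.coeff_zero_X_mul, PowerSeries.coeff_C, if_pos rfl, add_zero]
    | succ k =>
      rw [PowerSeries.coeff_succ_X_mul, PowerSeries.coeff_mk, PowerSeries.coeff_C,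
        if_neg (Nat.succ_ne_zero k), zero_add]
  rw [e]
  exact Subring.sub_mem _ (Subring.add_mem _ (CN.C_mem_polar s₀ _)
    (Subring.mul_mem _ (CN.X_pow_mem_polar s₀ 1) h)) h

end WH
end MotMono
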