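import Pool.Agent.Lib.MP_4e5fcd_ag.WH.Base

/-!
# WH-D1: admissible bases exist

Let `E` be the least `e ≤ dmax d` such that some `f j` with `d j = e` does not vanish at `c`
(`E = dmax d + 1` if there is none; `d j ≤ dmax d` for all `j`). By induction on `e ≤ E` there is a set
`B_e ⊆ {j, d j < e}` with independent gradients such that `grad (f j) c` is in the span of
`{grad (f b) c, b ∈ B_e, d b ≤ d j}` for all `j` with `d j < e`: extend `B_e` by elements of degree
`e` to a maximal independent family of `{j, d j ≤ e}` containing `B_e`.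
-/

open MvPolynomial

namespace MotMono
namespace WH

variable {N r : ℕ}

theorem le_dmax (d : Fin r → ℕ) (j : Fin r) : d j ≤ dmax d :=
  Finset.single_le_sum (f := d) (fun _ _ => Nat.zero_le _) (Finset.mem_univ j)

private theorem d1_basis (d : Fin r → ℕ) (f : Fin r → MvPolynomial (Fin N) ℂ) (c : Fin N → ℂ)
    (e : ℕ) : ∃ B : Set (Fin r), (∀ b ∈ B, d b < e) ∧
      LinearIndepOn ℂ (fun j => grad (f j) c) B ∧
      ∀ j, d j < e → grad (f j) c ∈ Submodule.span ℂ {v | ∃ b ∈ B, d b ≤ d j ∧ v = grad (f b) c} := by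
  induction e with
  | zero =>
    refine ⟨∅, fun b hb => absurd hb (Set.notMem_empty b), linearIndepOn_empty _ _, fun j hj => ?_⟩
    exact absurd hj (Nat.not_lt_zero _)
  | succ e ih =>
    obtain ⟨B, hB, hi, hs⟩ := ih
    obtain ⟨B', hB't, hBB', hsp, hi'⟩ := exists_linearIndepOn_extension (t := {j | d j < e + 1}) hi
      (fun b hb => (hB b hb).trans (Nat.lt_succ_self e))
    refine ⟨B', fun b hb => hB't hb, hi', fun j hj => ?_⟩
    rcases Nat.lt_or_ge (d j) e with h1 | h1
    · refine Submodule.span_mono ?_ (hs j h1)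
      rintro v ⟨b, hb, h2, h3⟩
      exact ⟨b, hBB' hb, h2, h3⟩
    · have h2 := hsp ⟨j, hj, rfl⟩
      refine Submodule.span_mono ?_ h2
      rintro v ⟨b, hb, rfl⟩
      exact ⟨b, hb, (Nat.le_of_lt_succ (hB't hb)).trans h1, rfl⟩

theorem exists_adm (d : Fin r → ℕ) (f : Fin r → MvPolynomial (Fin N) ℂ) (c : Fin N → ℂ) :
    ∃ E B, Adm d f c E B := by
  classical
  have hE : ∃ E, E ≤ dmax d + 1 ∧ (∀ j, d j < E → eval c (f j) = 0) ∧
      (E ≤ dmax d → ∃ j, d j = E ∧ eval c (f j) ≠ 0) := by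
    by_cases h : ∃ e, ∃ j, d j = e ∧ eval c (f j) ≠ 0
    · refine ⟨Nat.find h, ?_, fun j hj => ?_, fun _ => Nat.find_spec h⟩
      · obtain ⟨j, hj, -⟩ := Nat.find_spec h
        rw [← hj]
        exact (le_dmax d j).trans (Nat.le_succ _)
      · by_contra h1
        exact Nat.find_min h hj ⟨j, rfl, h1⟩
    · push Not at h
      exact ⟨dmax d + 1, le_rfl, fun j _ => h (d j) j rfl, fun h1 => absurd h1 (by omega)⟩
  obtain ⟨E, h1, h2, h3⟩ := hE
  obtain ⟨B, hB, hi, hs⟩ := d1_basis d f c E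
  refine ⟨E, B.toFinset, h1, h2, h3, fun b hb => hB b (Set.mem_toFinset.1 hb), ?_, fun j hj => ?_⟩
  · exact LinearIndependent.comp hi (fun b : {x // x ∈ B.toFinset} => ⟨b.1, Set.mem_toFinset.1 b.2⟩)
      fun a b hab => Subtype.ext (Subtype.mk.inj hab)
  · refine Submodule.span_mono ?_ (hs j hj)
    rintro v ⟨b, hb, h4, h5⟩
    exact ⟨b, Set.mem_toFinset.2 hb, h4, h5⟩

end WH
end MotMono
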