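import Pool.Agent.Lib.MP_4e5fcd_ag.WH.B3

/-!
# WH-D4: ranks, jumps

`rk_adm`: for `e < E` the span of the gradients of the `f j`, `d j ≤ e`, has the basis
`grad (f b) c`, `b ∈ B`, `d b ≤ e` (`ind`, `mem`; `finrank_span_eq_card`).
`pn_adm`: `∑_{i < e} i (rk i - rk (i-1)) = ∑_{b ∈ B, d b < e} d b` for `e ≤ E` (`rk i - rk (i-1)` is
the number of `b ∈ B` with `d b = i`, for `i ≥ 1`; `rk 0 = 0` as `d b ≥ 1`).
`jump_mem`: `d b < E`, all `f j` with `d j < d b` vanish; `rk_adm`. `jump_top`: `top`.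
`dm_cases`: if `E ≠ dm` then `dm < E` (`E < dm`: then `E ≤ dmax d`, `f j (c) ≠ 0` for some `j` with
`d j = E`, so `f j ≠ 0`, contradiction to `hdm`). If no `b ∈ B` has `d b = dm`: for `j` with
`d j = dm`, `f j ≠ 0`, every `b ∈ B` with `d b ≤ dm` has `d b < dm`, so `f b = 0` and
`grad (f b) c = 0`, impossible in an independent family; so `Gen` gives `h * f j ∈ span ∅ = ⊥`,
`f j = 0`. `kap_eq`: from `pn_adm`, `rk_adm` (`rk (e-1)` is the number of `b ∈ B` with `d b < e`).
-/

open MvPolynomial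

namespace MotMono
namespace WH

variable {N r : ℕ}

variable {w : Fin N → ℕ} {d : Fin r → ℕ} {f : Fin r → MvPolynomial (Fin N) ℂ} {c : Fin N → ℂ}
  {E : ℕ} {B : Finset (Fin r)}

theorem rk_adm (hA : Adm d f c E B) (e : ℕ) (he : e < E) :
    rk d f c e = (B.filter fun b => d b ≤ e).card := by
  classical
  have hind : LinearIndependent ℂ (fun b : (B.filter fun b => d b ≤ e) => grad (f b) c) := by
    have h1 : ∀ b : (B.filter fun b => d b ≤ e), (b : Fin r) ∈ B :=
      fun b => (Finset.mem_filter.mp b.2).1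
    exact hA.ind.comp (fun b : (B.filter fun b => d b ≤ e) => (⟨b, h1 b⟩ : B)) (by
      intro x y hxy
      have h2 := congrArg Subtype.val hxy
      exact Subtype.ext h2)
  have hspan : Submodule.span ℂ {v | ∃ j, d j ≤ e ∧ v = grad (f j) c}
      = Submodule.span ℂ (Set.range fun b : (B.filter fun b => d b ≤ e) => grad (f b) c) := by
    apply le_antisymm
    · rw [Submodule.span_le]
      rintro v ⟨j, hj, rfl⟩
      refine Submodule.span_mono ?_ (hA.mem j (lt_of_le_of_lt hj he))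
      rintro v ⟨b, hb, hbj, rfl⟩
      exact ⟨⟨b, Finset.mem_filter.mpr ⟨hb, hbj.trans hj⟩⟩, rfl⟩
    · refine Submodule.span_mono ?_
      rintro v ⟨b, rfl⟩
      exact ⟨b, (Finset.mem_filter.mp b.2).2, rfl⟩
  rw [rk, hspan, finrank_span_eq_card hind, Fintype.card_coe]

private theorem D4_split (g : Fin r → ℤ) (e : ℕ) :
    ∑ b ∈ B with d b < e + 1, g b = ∑ b ∈ B with d b < e, g b + ∑ b ∈ B with d b = e, g b := by
  classical
  rw [← Finset.sum_union]
  · refine Finset.sum_congr ?_ fun _ _ => rfl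
    ext b
    simp only [Finset.mem_filter, Finset.mem_union]
    constructor
    · rintro ⟨h1, h2⟩
      rcases Nat.lt_succ_iff_lt_or_eq.mp h2 with h3 | h3
      · exact Or.inl ⟨h1, h3⟩
      · exact Or.inr ⟨h1, h3⟩
    · rintro (⟨h1, h2⟩ | ⟨h1, h2⟩)
      · exact ⟨h1, by omega⟩
      · exact ⟨h1, by omega⟩
  · rw [Finset.disjoint_left]
    intro b hb hb'
    have h1 := (Finset.mem_filter.mp hb).2
    have h2 := (Finset.mem_filter.mp hb').2
    omega

private theorem D4_rk (hA : Adm d f c E B) (e : ℕ) (he : e < E) :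
    (rk d f c e : ℤ) = ∑ b ∈ B with d b < e + 1, (1 : ℤ) := by
  rw [rk_adm hA e he, Finset.sum_const, nsmul_eq_mul, mul_one]
  congr 2
  ext b
  simp only [Finset.mem_filter, Nat.lt_succ_iff]

theorem pn_adm (hd : ∀ j, 0 < d j) (hA : Adm d f c E B) (e : ℕ) (he : e ≤ E) :
    pn w d f c e = ∑ i, (w i : ℤ) - ∑ b ∈ B with d b < e, (d b : ℤ) := by
  classical
  have _ := hd
  have key : ∑ i ∈ Finset.range e, (i : ℤ) * ((rk d f c i : ℤ) - rk d f c (i - 1))
      = ∑ b ∈ B with d b < e, (d b : ℤ) := by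
    induction e with
    | zero => simp
    | succ e ih =>
      rw [Finset.sum_range_succ, ih (by omega), D4_split (fun b => (d b : ℤ)) e]
      congr 1
      rcases Nat.eq_zero_or_pos e with rfl | hpos
      · have : ∑ b ∈ B with d b = 0, (d b : ℤ) = 0 := by
          refine Finset.sum_eq_zero fun b hb => ?_
          have := (Finset.mem_filter.mp hb).2
          rw [this]
          rfl
        rw [this]
        simp
      · have h1 := D4_rk hA e (by omega)
        have h2 := D4_rk hA (e - 1) (by omega)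
        rw [Nat.sub_add_cancel hpos] at h2
        rw [h1, h2, D4_split (fun _ => (1 : ℤ)) e, add_sub_cancel_left, Finset.mul_sum]
        refine Finset.sum_congr rfl fun b hb => ?_
        rw [mul_one, (Finset.mem_filter.mp hb).2]
  rw [pn, key]

theorem kap_eq (hd : ∀ j, 0 < d j) (hA : Adm d f c E B) (e : ℕ) (he : e ≤ E) (he0 : 0 < e) :
    kap w d B e = pn w d f c e + e * (rk d f c (e - 1) : ℤ) := by
  have h2 := D4_rk hA (e - 1) (by omega)
  rw [Nat.sub_add_cancel he0] at h2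
  rw [kap, pn_adm hd hA e he, h2, Finset.sum_sub_distrib, Finset.mul_sum]
  simp only [mul_one]
  ring

theorem jump_mem (hd : ∀ j, 0 < d j) (hA : Adm d f c E B) {b : Fin r} (hb : b ∈ B) :
    Jump d f c (d b) := by
  have hlt := hA.lt b hb
  refine ⟨fun j hj => hA.van j (hj.trans hlt), Or.inr ?_⟩
  have hpos := hd b
  rw [rk_adm hA (d b - 1) (by omega), rk_adm hA (d b) hlt]
  refine Finset.card_lt_card ?_
  refine Finset.ssubset_iff_of_subset ?_ |>.mpr ⟨b, ?_, ?_⟩
  · intro x hx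
    have h1 := Finset.mem_filter.mp hx
    exact Finset.mem_filter.mpr ⟨h1.1, by omega⟩
  · exact Finset.mem_filter.mpr ⟨hb, le_rfl⟩
  · intro hx
    have h1 := (Finset.mem_filter.mp hx).2
    omega

theorem jump_top (hA : Adm d f c E B) (hE : E ≤ dmax d) : Jump d f c E :=
  ⟨hA.van, Or.inl (hA.top hE)⟩

private theorem D4_ne (hA : Adm d f c E B) {b : Fin r} (hb : b ∈ B) : f b ≠ 0 := by
  intro h0
  have h1 := hA.ind.ne_zero ⟨b, hb⟩
  apply h1
  funext i
  simp only [grad, h0, map_zero, Pi.zero_apply]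

theorem dm_cases (hA : Adm d f c E B) (hG : Gen d f c E B) {dm : ℕ}
    (hdm : ∀ j, f j ≠ 0 → dm ≤ d j) (hdm' : ∃ j, f j ≠ 0 ∧ d j = dm) :
    dm ≤ E ∧ (E = dm ∨ ∃ b ∈ B, d b = dm) ∧ ∀ b ∈ B, dm ≤ d b := by
  classical
  obtain ⟨j₀, hj₀, hj₀d⟩ := hdm'
  have hge : ∀ b ∈ B, dm ≤ d b := fun b hb => hdm b (D4_ne hA hb)
  have hle : dm ≤ E := by
    by_contra hcon
    push Not at hcon
    have h1 : d j₀ ≤ dmax d := Finset.single_le_sum (f := d) (fun _ _ => Nat.zero_le _) (Finset.mem_univ j₀)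
    obtain ⟨j, hj, hj'⟩ := hA.top (by omega)
    have h2 : f j ≠ 0 := by
      intro h0
      apply hj'
      rw [h0, map_zero]
    have := hdm j h2
    omega
  refine ⟨hle, ?_, hge⟩
  rcases hle.eq_or_lt with h | hlt
  · exact Or.inl h.symm
  right
  by_contra hcon
  push Not at hcon
  obtain ⟨h, hh, hmem⟩ := hG j₀ (by omega)
  have hempty : {g | ∃ b ∈ B, d b ≤ d j₀ ∧ g = f b} = (∅ : Set (MvPolynomial (Fin N) ℂ)) := by
    rw [Set.eq_empty_iff_forall_notMem]
    rintro g ⟨b, hb, hbd, -⟩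
    have h1 := hge b hb
    exact hcon b hb (by omega)
  rw [hempty, Ideal.span_empty, Submodule.mem_bot] at hmem
  rcases mul_eq_zero.mp hmem with h0 | h0
  · apply hh
    rw [h0, map_zero]
  · exact hj₀ h0

end WH
end MotMono
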