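import Pool.Agent.Lib.MP_4e5fcd_ag.WH.Defs

/-!
# WH-F1: a finiteness lemma

Let `I = span (range g)`. The minimal primes over `I` are finitely many (`Ideal.finite_minimalPrimes_of_isNoetherianRing`
or similar), and every common zero `x` contains one of them: `I ≤ P ≤ m_x`, `m_x` the maximal ideal
of `x` (`Ideal.exists_minimalPrimes_le`). Claim: `P = m_x` (so the map `x ↦ P` is injective and the set is
finite). `m_x ≤ I + m_x ^ 2`: `m_x` is generated by the `X i - C (x i)`, and as the gradients span, there
are scalars `a k` with `grad (X i - C (x i) - ∑ a k g k) x = 0`; a polynomial which vanishes at `x`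
with zero gradient is in `m_x ^ 2` (Taylor expansion: substitute `X i + C (x i)`). Nakayama in the
localisation `Localization.AtPrime m_x` (`Submodule.le_of_le_smul_of_le_jacobson_bot`, the maximal ideal
is finitely generated): the image of `m_x` is in the image of `I`, hence in the image of `P`; for
`q ∈ m_x` there is `s ∉ m_x` with `s q ∈ P`; `s ∉ P`, so `q ∈ P`.
(Any other proof is fine; for instance `J = P` prime, `q ∈ m_x`: Krull intersection.)
-/

open MvPolynomial

namespace MotMono
namespace WH

variable {N r : ℕ}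

/-- Taylor expansion to order one -/
private theorem f1_taylor (x : Fin N → ℂ) (p : MvPolynomial (Fin N) ℂ) :
    p - C (eval x p) - ∑ i, C (eval x (pderiv i p)) * (X i - C (x i)) ∈
      (RingHom.ker (eval x)) ^ 2 := by
  have hX : ∀ i, (X i - C (x i) : MvPolynomial (Fin N) ℂ) ∈ RingHom.ker (eval x) := by
    intro i
    rw [RingHom.mem_ker]
    simp
  induction p using MvPolynomial.induction_on with
  | C a => simp
  | add p q hp hq =>
    have h := Ideal.add_mem _ hp hq
    convert h using 1
    simp only [map_add, add_mul, Finset.sum_add_distrib]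
    ring
  | mul_X p i hp =>
    have h1 : (∑ j, C (eval x (pderiv j p)) * (X j - C (x j))) * (X i - C (x i)) ∈
        (RingHom.ker (eval x)) ^ 2 := by
      rw [pow_two]
      refine Ideal.mul_mem_mul ?_ (hX i)
      exact Ideal.sum_mem _ fun j _ => Ideal.mul_mem_left _ _ (hX j)
    have h2 := Ideal.mul_mem_right (X i : MvPolynomial (Fin N) ℂ) _ hp
    have h := Ideal.add_mem _ h1 h2
    convert h using 1
    have e : ∑ j, C (eval x (pderiv j (p * X i))) * (X j - C (x j)) =
        C (x i) * ∑ j, C (eval x (pderiv j p)) * (X j - C (x j)) +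
          C (eval x p) * (X i - C (x i)) := by
      have e1 : ∀ j, C (eval x (pderiv j (p * X i))) * (X j - C (x j)) =
          C (x i) * (C (eval x (pderiv j p)) * (X j - C (x j))) +
            (if j = i then C (eval x p) * (X j - C (x j)) else 0) := by
        intro j
        rw [Derivation.leibniz, pderiv_X]
        by_cases hji : j = i
        · subst hji
          simp
          ring
        · have : (Pi.single j (1 : MvPolynomial (Fin N) ℂ) : Fin N → MvPolynomial (Fin N) ℂ) i = 0 :=
            Pi.single_eq_of_ne (Ne.symm hji) _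
          rw [this, if_neg hji]
          simp
          ring
      rw [Finset.sum_congr rfl fun j _ => e1 j, Finset.sum_add_distrib, ← Finset.mul_sum,
        Finset.sum_ite_eq' Finset.univ i]
      simp
    rw [e]
    simp only [map_mul, eval_X]
    ring

private theorem f1_mem_sq {x : Fin N → ℂ} {p : MvPolynomial (Fin N) ℂ} (h0 : eval x p = 0)
    (h1 : grad p x = 0) : p ∈ (RingHom.ker (eval x)) ^ 2 := by
  have h := f1_taylor x p
  have e : ∑ i, C (eval x (pderiv i p)) * (X i - C (x i)) = 0 := by
    refine Finset.sum_eq_zero fun i _ => ?_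
    have : eval x (pderiv i p) = 0 := congrFun h1 i
    rw [this]
    simp
  rw [e, h0] at h
  simpa using h

private theorem f1_prime {m : ℕ} (g : Fin m → MvPolynomial (Fin N) ℂ) {x : Fin N → ℂ}
    (hx : ∀ k, eval x (g k) = 0)
    (hs : Submodule.span ℂ (Set.range fun k => grad (g k) x) = ⊤)
    {P : Ideal (MvPolynomial (Fin N) ℂ)} (hP : P.IsPrime) (hgP : ∀ k, g k ∈ P)
    (hPx : P ≤ RingHom.ker (eval x)) : P = RingHom.ker (eval x) := by
  refine le_antisymm hPx ?_
  have key : RingHom.ker (eval x) ≤ P ⊔ (RingHom.ker (eval x)) ^ 2 := by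
    intro q hq
    have hq0 : eval x q = 0 := hq
    have hm : grad q x ∈ Submodule.span ℂ (Set.range fun k => grad (g k) x) := by
      rw [hs]
      exact Submodule.mem_top
    rw [Submodule.mem_span_range_iff_exists_fun] at hm
    obtain ⟨a, ha⟩ := hm
    have h1 : q - ∑ k, C (a k) * g k ∈ (RingHom.ker (eval x)) ^ 2 := by
      apply f1_mem_sq
      · rw [map_sub, hq0, map_sum, zero_sub, neg_eq_zero]
        refine Finset.sum_eq_zero fun k _ => ?_
        rw [map_mul, hx k, mul_zero]
      · funext i
        have h2 : eval x (pderiv i q) = ∑ k, a k * eval x (pderiv i (g k)) := by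
          have := congrFun ha i
          rw [Finset.sum_apply] at this
          simpa [grad] using this.symm
        show eval x (pderiv i (q - ∑ k, C (a k) * g k)) = 0
        rw [map_sub, map_sub, map_sum, map_sum, h2, sub_eq_zero]
        refine Finset.sum_congr rfl fun k _ => ?_
        rw [pderiv_C_mul, map_mul, eval_C]
    have h2 : q = (∑ k, C (a k) * g k) + (q - ∑ k, C (a k) * g k) := by ring
    rw [h2]
    refine Submodule.add_mem_sup ?_ h1
    exact Ideal.sum_mem _ fun k _ => Ideal.mul_mem_left _ _ (hgP k)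
  obtain ⟨s, hs1, hs2⟩ := Submodule.exists_sub_one_mem_and_smul_eq_zero_of_fg_of_le_smul
    (RingHom.ker (eval x))
    (Submodule.map (Submodule.mkQ P) (RingHom.ker (eval x)))
    (Submodule.FG.map _ (IsNoetherian.noetherian _)) (by
      rw [← Submodule.map_smul'']
      rintro _ ⟨q, hq, rfl⟩
      obtain ⟨p, hp, t, ht, rfl⟩ := Submodule.mem_sup.1 (key hq)
      refine ⟨t, ?_, ?_⟩
      · rw [pow_two] at ht
        exact ht
      · rw [map_add]
        have : (Submodule.mkQ P) p = 0 := by
          rw [Submodule.mkQ_apply, Submodule.Quotient.mk_eq_zero]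
          exact hp
        rw [this, zero_add])
  intro q hq
  have h3 := hs2 (Submodule.mkQ P q) ⟨q, hq, rfl⟩
  rw [← map_smul, Submodule.mkQ_apply, Submodule.Quotient.mk_eq_zero, smul_eq_mul] at h3
  rcases hP.mem_or_mem h3 with h | h
  · exfalso
    have h4 : eval x s = 0 := hPx h
    have h5 : eval x (s - 1) = 0 := hs1
    rw [map_sub, h4, map_one] at h5
    norm_num at h5
  · exact h

theorem finite_of_rank {m : ℕ} (g : Fin m → MvPolynomial (Fin N) ℂ)
    (h : ∀ x, (∀ k, eval x (g k) = 0) →
      Submodule.span ℂ (Set.range fun k => grad (g k) x) = ⊤) :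
    {x | ∀ k, eval x (g k) = 0}.Finite := by
  have hfin := Ideal.finite_minimalPrimes_of_isNoetherianRing (MvPolynomial (Fin N) ℂ)
    (Ideal.span (Set.range g))
  have hinj : Function.Injective
      (fun x : Fin N → ℂ => RingHom.ker (eval x : MvPolynomial (Fin N) ℂ →+* ℂ)) := by
    intro x y hxy
    funext i
    have h1 : (X i - C (x i) : MvPolynomial (Fin N) ℂ) ∈
        RingHom.ker (eval x : MvPolynomial (Fin N) ℂ →+* ℂ) := by
      rw [RingHom.mem_ker]
      simp
    have h2 : (X i - C (x i) : MvPolynomial (Fin N) ℂ) ∈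
        RingHom.ker (eval y : MvPolynomial (Fin N) ℂ →+* ℂ) := by
      have hxy' : RingHom.ker (eval x : MvPolynomial (Fin N) ℂ →+* ℂ) =
        RingHom.ker (eval y : MvPolynomial (Fin N) ℂ →+* ℂ) := hxy
      rwa [hxy'] at h1
    rw [RingHom.mem_ker] at h2
    simp only [map_sub, eval_X, eval_C] at h2
    exact (sub_eq_zero.1 h2).symm
  refine (hfin.preimage hinj.injOn).subset ?_
  intro x hx
  have hle : Ideal.span (Set.range g) ≤ RingHom.ker (eval x : MvPolynomial (Fin N) ℂ →+* ℂ) := by
    rw [Ideal.span_le]
    rintro _ ⟨k, rfl⟩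
    exact hx k
  have : (RingHom.ker (eval x : MvPolynomial (Fin N) ℂ →+* ℂ)).IsPrime := RingHom.ker_isPrime _
  obtain ⟨P, hP, hPx⟩ := Ideal.exists_minimalPrimes_le hle
  have hP' : P.IsPrime := hP.1.1
  have := f1_prime g hx (h x hx) hP' (fun k => hP.1.2 (Ideal.subset_span ⟨k, rfl⟩)) hPx
  rw [Set.mem_preimage, ← this]
  exact hP

end WH
end MotMono
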