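import Pool.Agent.Lib.MP_4e5fcd_ag.WH.Defs

/-!
# Weighted homogeneous ideals: finite fibres, curves
-/

open MvPolynomial

namespace MotMono
namespace WH

variable {N r : ℕ}

/-- the fibre `{f j = 0 (d j < e), f j = y j (d j = e)}` -/
def fib0 (d : Fin r → ℕ) (f : Fin r → MvPolynomial (Fin N) ℂ) (e : ℕ) (y : Fin r → ℂ) :
    Set (Fin N → ℂ) :=
  {x | (∀ j, d j < e → eval x (f j) = 0) ∧ ∀ j, d j = e → eval x (f j) = y j}

open Classical in
/-- Some fibre `{f j = 0 (d j < e), f j = y j (d j = e)}`, where `y j ≠ 0` for some `j` with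
`d j = e`, is finite and contains a point `x` such that the greatest common divisor of the weights
of the non-zero coordinates of `x` divides `p`. -/
def FinVis (w : Fin N → ℕ) (d : Fin r → ℕ) (f : Fin r → MvPolynomial (Fin N) ℂ) (e : ℕ)
    (p : ℤ) : Prop :=
  ∃ (y : Fin r → ℂ) (x : Fin N → ℂ), (∃ j, d j = e ∧ y j ≠ 0) ∧ (fib0 d f e y).Finite ∧
    x ∈ fib0 d f e y ∧ (((Finset.univ.filter fun i => x i ≠ 0).gcd w : ℕ) : ℤ) ∣ p

/-- `{f j = 0 (d j < e)}` is at most a curve: the gradients of the `f j` of degree `< e` have rank at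
least `N - 1` at each of its points `x ≠ 0`. -/
def CurveAt (d : Fin r → ℕ) (f : Fin r → MvPolynomial (Fin N) ℂ) (e : ℕ) : Prop :=
  ∀ x : Fin N → ℂ, x ≠ 0 → (∀ j, d j < e → eval x (f j) = 0) → N ≤ rk d f x (e - 1) + 1

end WH
end MotMono
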