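import Pool.Agent.Lib.MP_4e5fcd_ag.K1
import Pool.Agent.Lib.MP_4e5fcd_ag.Kum.E11
import Pool.Agent.Lib.MP_4e5fcd_ag.WH.Base
import Pool.Agent.Lib.MP_4e5fcd_ag.WH.FDefs

/-!
# WH-F2: finite fibres

`chi_finite`: the Euler characteristic of a finite set is the number of its points (a proof is in
`/team-store/CN_Sp.lean`). Let `F = fib0 d f e y`, finite. For `z ∈ F` let `b z` be the greatest common
divisor of the `w i` with `z i ≠ 0`. As `f j (z) = y j ≠ 0` for some `j` with `d j = e`, `b z ∣ e` (a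
monomial of `f j` which is not zero at `z` has weight `e`), and `e > 0`. `fibre w d f e y m` is the set
of the `z ∈ F` with `e ∣ m * b z`, i.e. `e / b z ∣ m` (`Finset.gcd_mul_left`, `Finset.dvd_gcd`). The
group of the `e`-th roots of unity acts on `F` by `z i ↦ ζ ^ (w i) * z i`, `b` is constant on orbits,
and the stabiliser of `z` is the group of the `b z`-th roots of unity: the orbit of `z` has `e / b z`
points. So the number of the `z ∈ F` with `b z = n` is `(e / n) * k n`, `k n ≥ 0` (the number of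
orbits), `k (b x) ≥ 1`. Hence `Λ_m = ∑_{n ∣ e} [e / n ∣ m] (e / n) k n`: `Kum.exists_zeta_prod` with
`α = exp (-2πi p / e)`: `α ^ (e / b x) = exp (-2πi p / b x) = 1`, so the sum of the `k n` with
`α ^ (e / n) = 1` is positive.
-/

open MvPolynomial

namespace MotMono
namespace WH

variable {N r : ℕ}

private theorem f2_constr {σ : Type} [Finite σ] {S : Set (σ → ℂ)} (hS : S.Finite) : Constr S := by
  induction S, hS using Set.Finite.induction_on with
  | empty => exact constr_empty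
  | @insert b S hb hS ih2 =>
    rw [Set.insert_eq]
    exact (constr_singleton b).union ih2

private theorem f2_chi {σ : Type} [Finite σ] (χ : K0 →+* ℤ) {S : Set (σ → ℂ)} (hS : S.Finite) :
    χ (cls S) = S.ncard := by
  classical
  induction S, hS using Set.Finite.induction_on with
  | empty => rw [cls_empty, map_zero, Set.ncard_empty, Nat.cast_zero]
  | @insert a S ha hS ih =>
    have hc : Constr S := f2_constr hS
    rw [Set.insert_eq, cls_union (constr_singleton a) hc (Set.disjoint_singleton_left.2 ha),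
      cls_singleton, map_add, map_one, ih, ← Set.insert_eq, Set.ncard_insert_of_notMem ha hS]
    push_cast
    ring

private theorem f2_perm {S : Type} [Finite S] (σ : Equiv.Perm S) (k : ℕ)
    (h : ∀ (j : ℕ) (z : S), (σ ^ j) z = z ↔ k ∣ j) : k ∣ Nat.card S := by
  classical
  have := Fintype.ofFinite S
  rw [Nat.card_congr (MulAction.selfEquivSigmaOrbits (Subgroup.zpowers σ) S), Nat.card_sigma]
  refine Finset.dvd_sum fun ω _ => ?_
  have h1 := MulAction.minimalPeriod_eq_card (a := σ) (b := ω.out)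
  rw [Nat.card_eq_fintype_card, ← h1]
  refine (Nat.dvd_antisymm ?_ ?_ : k = _).dvd
  · rw [← h]
    have h2 := Function.iterate_minimalPeriod (f := (σ • · : S → S)) (x := ω.out)
    rw [← Equiv.Perm.iterate_eq_pow]
    exact h2
  · refine Function.IsPeriodicPt.minimalPeriod_dvd ?_
    have h2 := (h k ω.out).2 dvd_rfl
    rw [← Equiv.Perm.iterate_eq_pow] at h2
    exact h2

open Classical in
private noncomputable def f2_b (w : Fin N → ℕ) (z : Fin N → ℂ) : ℕ :=
  (Finset.univ.filter fun i => z i ≠ 0).gcd w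

private theorem f2_dvd (w : Fin N → ℕ) (z : Fin N → ℂ) (e m : ℕ) :
    e ∣ m * f2_b w z ↔ ∀ i, z i ≠ 0 → e ∣ m * w i := by
  classical
  have h1 : (Finset.univ.filter fun i => z i ≠ 0).gcd (fun i => m * w i) = m * f2_b w z := by
    rw [Finset.gcd_mul_left]
    simp only [normalize_eq, f2_b]
  rw [← h1, Finset.dvd_gcd_iff]
  simp only [Finset.mem_filter, Finset.mem_univ, true_and]

private theorem f2_scale {w : Fin N → ℕ} {g : MvPolynomial (Fin N) ℂ} {δ : ℕ}
    (hg : IsWeightedHomogeneous w g δ) (ζ : ℂ) (z : Fin N → ℂ) :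
    eval (fun i => ζ ^ (w i) * z i) g = ζ ^ δ * eval z g := by
  rw [eval_eq', eval_eq', Finset.mul_sum]
  refine Finset.sum_congr rfl fun m hm => ?_
  have hd : ∑ i, m i * w i = δ := by
    have h2 := hg (mem_support_iff.1 hm)
    rw [← h2, Finsupp.weight_apply, Finsupp.sum_fintype _ _ (by simp)]
    simp
  have h3 : ∏ i, (ζ ^ (w i) * z i) ^ m i = ζ ^ δ * ∏ i, z i ^ m i := by
    simp only [mul_pow]
    rw [Finset.prod_mul_distrib]
    congr 1
    rw [← hd, ← Finset.prod_pow_eq_pow_sum]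
    refine Finset.prod_congr rfl fun i _ => ?_
    rw [← pow_mul]
    congr 1
    ring
  rw [h3]
  ring

private theorem f2_b_dvd {w : Fin N → ℕ} {g : MvPolynomial (Fin N) ℂ} {δ : ℕ}
    (hg : IsWeightedHomogeneous w g δ) (z : Fin N → ℂ) (hz : eval z g ≠ 0) : f2_b w z ∣ δ := by
  classical
  rw [eval_eq'] at hz
  obtain ⟨m, hm, hm0⟩ := Finset.exists_ne_zero_of_sum_ne_zero hz
  have hd : ∑ i, m i * w i = δ := by
    have h2 := hg (mem_support_iff.1 hm)
    rw [← h2, Finsupp.weight_apply, Finsupp.sum_fintype _ _ (by simp)]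
    simp
  rw [← hd]
  refine Finset.dvd_sum fun i _ => ?_
  by_cases h5 : m i = 0
  · rw [h5, zero_mul]
    exact dvd_zero _
  · have h6 : z i ≠ 0 := by
      intro h7
      refine hm0 ?_
      rw [Finset.prod_eq_zero (Finset.mem_univ i) (by rw [h7, zero_pow h5]), mul_zero]
    exact (Finset.gcd_dvd (Finset.mem_filter.2 ⟨Finset.mem_univ i, h6⟩)).mul_left _

private theorem f2_supp {w : Fin N → ℕ} {ζ : ℂ} (hζ : ζ ≠ 0) (z : Fin N → ℂ) :
    f2_b w (fun i => ζ ^ (w i) * z i) = f2_b w z := by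
  unfold f2_b
  congr 1
  ext i
  simp [hζ]

/-- the points of the fibre with given `b` -/
private def f2_F (w : Fin N → ℕ) (d : Fin r → ℕ) (f : Fin r → MvPolynomial (Fin N) ℂ) (e : ℕ)
    (y : Fin r → ℂ) (n : ℕ) : Set (Fin N → ℂ) := {z | z ∈ fib0 d f e y ∧ f2_b w z = n}

private theorem f2_mem {w : Fin N → ℕ} {d : Fin r → ℕ} {f : Fin r → MvPolynomial (Fin N) ℂ}
    (hW : Wt w d f) {e : ℕ} {y : Fin r → ℂ} {n : ℕ} {ζ : ℂ} (hζ0 : ζ ≠ 0) (hζ : ζ ^ e = 1)
    {z : Fin N → ℂ} (hz : z ∈ f2_F w d f e y n) :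
    (fun i => ζ ^ (w i) * z i) ∈ f2_F w d f e y n := by
  obtain ⟨⟨h1, h2⟩, h3⟩ := hz
  refine ⟨⟨fun j hj => ?_, fun j hj => ?_⟩, ?_⟩
  · rw [f2_scale (hW.hom j), h1 j hj, mul_zero]
  · rw [f2_scale (hW.hom j), h2 j hj, hj, hζ, one_mul]
  · rw [f2_supp hζ0, h3]

private theorem f2_card {w : Fin N → ℕ} {d : Fin r → ℕ} {f : Fin r → MvPolynomial (Fin N) ℂ}
    (hW : Wt w d f) {e : ℕ} (he : 0 < e) {y : Fin r → ℂ} (hfin : (fib0 d f e y).Finite) {n : ℕ}
    (hn : n ∣ e) : e / n ∣ (f2_F w d f e y n).ncard := by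
  have hFfin : (f2_F w d f e y n).Finite := hfin.subset fun z hz => hz.1
  have : Finite (f2_F w d f e y n) := hFfin
  have hn0 : n ≠ 0 := by
    rintro rfl
    exact he.ne' (Nat.eq_zero_of_zero_dvd hn)
  set ζ : ℂ := Complex.exp (2 * Real.pi * Complex.I / e) with hζd
  have hprim : IsPrimitiveRoot ζ e := Complex.isPrimitiveRoot_exp e he.ne'
  have hζ0 : ζ ≠ 0 := hprim.ne_zero he.ne'
  have hζ1 : ζ ^ e = 1 := hprim.pow_eq_one
  let σ : Equiv.Perm (f2_F w d f e y n) :=
    { toFun := fun z => ⟨fun i => ζ ^ (w i) * z.1 i, f2_mem hW hζ0 hζ1 z.2⟩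
      invFun := fun z => ⟨fun i => (ζ⁻¹) ^ (w i) * z.1 i,
        f2_mem hW (inv_ne_zero hζ0) (by rw [inv_pow, hζ1, inv_one]) z.2⟩
      left_inv := by
        intro z
        refine Subtype.ext (funext fun i => ?_)
        show (ζ⁻¹) ^ (w i) * (ζ ^ (w i) * z.1 i) = z.1 i
        rw [← mul_assoc, ← mul_pow, inv_mul_cancel₀ hζ0, one_pow, one_mul]
      right_inv := by
        intro z
        refine Subtype.ext (funext fun i => ?_)
        show ζ ^ (w i) * ((ζ⁻¹) ^ (w i) * z.1 i) = z.1 i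
        rw [← mul_assoc, ← mul_pow, mul_inv_cancel₀ hζ0, one_pow, one_mul] }
  have hσ : ∀ (j : ℕ) (z : f2_F w d f e y n) (i : Fin N),
      ((σ ^ j) z).1 i = ζ ^ (j * w i) * z.1 i := by
    intro j
    induction j with
    | zero =>
      intro z i
      rw [pow_zero, zero_mul, pow_zero, one_mul]
      rfl
    | succ j ih =>
      intro z i
      rw [pow_succ', Equiv.Perm.mul_apply]
      show ζ ^ (w i) * ((σ ^ j) z).1 i = _
      rw [ih z i, ← mul_assoc, ← pow_add]
      congr 2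
      ring
  have h1 := f2_perm σ (e / n) (by
    intro j z
    rw [Nat.div_dvd_iff_dvd_mul hn (Nat.pos_of_ne_zero hn0)]
    have h2 : e ∣ n * j ↔ e ∣ j * f2_b w z.1 := by rw [z.2.2, mul_comm]
    rw [h2, f2_dvd]
    constructor
    · intro h3 i hi
      have h4 := hσ j z i
      rw [h3] at h4
      have h5 : ζ ^ (j * w i) = 1 := by
        have h6 : (ζ ^ (j * w i) - 1) * z.1 i = 0 := by rw [sub_mul, ← h4, one_mul, sub_self]
        rcases mul_eq_zero.1 h6 with h7 | h7
        · exact sub_eq_zero.1 h7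
        · exact absurd h7 hi
      exact (hprim.pow_eq_one_iff_dvd _).1 h5
    · intro h3
      refine Subtype.ext (funext fun i => ?_)
      rw [hσ]
      by_cases hi : z.1 i = 0
      · rw [hi, mul_zero]
      · rw [(hprim.pow_eq_one_iff_dvd _).2 (h3 i hi), one_mul])
  rwa [Nat.card_coe_set_eq] at h1

theorem eig_of_finVis (χ : K0 →+* ℤ) {w : Fin N → ℕ} {d : Fin r → ℕ}
    {f : Fin r → MvPolynomial (Fin N) ℂ} (hW : Wt w d f) {e : ℕ} {p : ℤ}
    (h : FinVis w d f e p) :
    Eig χ w d f (Complex.exp (-(2 * Real.pi * Complex.I * p / e))) := by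
  classical
  obtain ⟨y, x, ⟨j, hj, hyj⟩, hfin, hx, hp⟩ := h
  have he : 0 < e := by rw [← hj]; exact hW.d_pos j
  have hbx : ((f2_b w x : ℕ) : ℤ) ∣ p := by
    unfold f2_b
    convert hp
  have hbd : ∀ z ∈ fib0 d f e y, f2_b w z ∣ e := by
    intro z hz
    rw [← hj]
    refine f2_b_dvd (hW.hom j) z ?_
    rw [hz.2 j hj]
    exact hyj
  refine ⟨e, y, ⟨j, hj, hyj⟩, ?_⟩
  refine Kum.exists_zeta_prod e.divisors (fun n => e / n)
    (fun n => (((f2_F w d f e y n).ncard / (e / n) : ℕ) : ℤ)) (fun n hn => ?_) _ (fun m hm => ?_) _ ?_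
  · exact Nat.div_pos (Nat.divisor_le hn) (Nat.pos_of_mem_divisors hn)
  · have hset : fibre w d f e y m = ⋃ n ∈ e.divisors.filter (fun n => e / n ∣ m), f2_F w d f e y n := by
      ext z
      simp only [Set.mem_iUnion, Finset.mem_filter, Nat.mem_divisors, exists_prop]
      constructor
      · rintro ⟨h1, h2, h3⟩
        have hz : z ∈ fib0 d f e y := ⟨h1, h2⟩
        refine ⟨f2_b w z, ⟨⟨hbd z hz, he.ne'⟩, ?_⟩, hz, rfl⟩
        have h4 : e ∣ m * f2_b w z := by
          rw [f2_dvd]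
          intro i hi
          by_contra h5
          exact hi (h3 i h5)
        rw [Nat.div_dvd_iff_dvd_mul (hbd z hz) (Nat.pos_of_dvd_of_pos (hbd z hz) he), mul_comm]
        exact h4
      · rintro ⟨n, ⟨⟨hn, -⟩, hnm⟩, hz, hbz⟩
        refine ⟨hz.1, hz.2, fun i hi => ?_⟩
        by_contra h5
        rw [Nat.div_dvd_iff_dvd_mul hn (Nat.pos_of_dvd_of_pos hn he), mul_comm, ← hbz, f2_dvd] at hnm
        exact hi (hnm i h5)
    have hcls : χ (cls (fibre w d f e y m)) =
        ((∑ n ∈ e.divisors.filter (fun n => e / n ∣ m), (f2_F w d f e y n).ncard : ℕ) : ℤ) := by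
      have hFf : ∀ n, (f2_F w d f e y n).Finite := fun n => hfin.subset fun z hz => hz.1
      rw [hset, cls_biUnion _ (fun n _ => f2_constr (hFf n)), map_sum, Nat.cast_sum]
      · exact Finset.sum_congr rfl fun n _ => f2_chi χ (hFf n)
      · intro n _ n' _ hne
        rw [Set.disjoint_left]
        intro z hz hz'
        exact hne (hz.2.symm.trans hz'.2)
    rw [hcls]
    push_cast
    rw [Finset.sum_filter]
    refine Finset.sum_congr rfl fun n hn => ?_
    have hn' : n ∣ e := Nat.dvd_of_mem_divisors hn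
    by_cases h1 : e / n ∣ m
    · rw [if_pos h1, if_pos h1]
      have h2 := Nat.div_mul_cancel (f2_card hW he hfin hn')
      exact_mod_cast h2.symm
    · rw [if_neg h1, if_neg h1]
  · have hn : f2_b w x ∣ e := hbd x hx
    have hn0 : 0 < f2_b w x := Nat.pos_of_dvd_of_pos hn he
    have hα : Complex.exp (-(2 * Real.pi * Complex.I * p / e)) ^ (e / f2_b w x) = 1 := by
      rw [← Complex.exp_nat_mul, Complex.exp_eq_one_iff]
      obtain ⟨q, hq⟩ := hbx
      refine ⟨-q, ?_⟩
      have h1 : (e : ℂ) ≠ 0 := Nat.cast_ne_zero.2 he.ne'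
      have h2 : (f2_b w x : ℂ) ≠ 0 := Nat.cast_ne_zero.2 hn0.ne'
      have h3 : ((e / f2_b w x : ℕ) : ℂ) = (e : ℂ) / (f2_b w x : ℂ) := Nat.cast_div hn h2
      rw [h3, hq]
      push_cast
      field_simp
    refine ne_of_gt ?_
    refine lt_of_lt_of_le ?_ (Finset.single_le_sum (f := fun n =>
      (((f2_F w d f e y n).ncard / (e / n) : ℕ) : ℤ)) (fun n _ => Int.natCast_nonneg _)
      (Finset.mem_filter.2 ⟨Nat.mem_divisors.2 ⟨hn, he.ne'⟩, hα⟩))
    have h4 : 0 < (f2_F w d f e y (f2_b w x)).ncard :=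
      (Set.ncard_pos (hfin.subset fun z hz => hz.1)).2 ⟨x, hx, rfl⟩
    have h5 := f2_card hW he hfin hn
    exact_mod_cast Nat.div_pos (Nat.le_of_dvd h4 h5) (Nat.div_pos (Nat.le_of_dvd he hn) hn0)

end WH
end MotMono
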