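import Pool.Agent.Lib.MP_4e5fcd_ag.WH.D1
import Pool.Agent.Lib.MP_4e5fcd_ag.WH.D4
import Pool.Agent.Lib.MP_4e5fcd_ag.WH.F1
import Pool.Agent.Lib.MP_4e5fcd_ag.WH.FDefs

/-!
# WH-F3: curves

Euler: for `g` weighted homogeneous of degree `δ`: `∑ i, w i * x i * (pderiv i g)(x) = δ * g (x)`, so
`∑ i, (w i * x i) * grad g x i = δ * g (x)`. For `x ≠ 0` the vector `(w i * x i)` is not zero; if all
`f j`, `d j < e`, vanish at `x` their gradients are orthogonal to it, so `rk d f x (e - 1) ≤ N - 1`
(`e ≥ 1` for a jump: `rk (0 - 1) = rk 0`, `d j > 0`).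
(1) `f j (c) ≠ 0` for some `j` with `d j = e`: otherwise `rk (e - 1) < rk e` and the gradients of all
`f j`, `d j ≤ e`, are orthogonal to `(w i * c i)`, so `N - 1 ≤ rk (e - 1) < rk e ≤ N - 1`.
Put `y j = f j (c)`, `x = c`.
(2) `fib0 d f e y` is finite: `finite_of_rank` for the `f j` (`d j < e`), `f j - y j` (`d j = e`), `0`
(`d j > e`): at a point `z`, `z ≠ 0`, the gradients of the `f j` with `d j < e` have rank `≥ N - 1` and
are orthogonal to `(w i * z i)`, the gradient of an `f j` with `d j = e`, `y j ≠ 0` is not, so together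
they span `ℂ ^ N`.
(3) `b ∣ pn w d f c e`, `b` = the greatest common divisor of the `w i` with `c i ≠ 0`. A weighted
homogeneous polynomial of degree `δ` which does not vanish at `c` has `b ∣ δ` (and `pderiv i (f j)` is
weighted homogeneous of degree `d j - w i`: if it does not vanish at `c` then `w i ≤ d j` and
`b ∣ d j - w i`; or argue with monomials). `b ∣ e`. Let `E, B` be admissible at `c` (`exists_adm`):
`E = e` (`van`, `top`), `rk (e - 1) = |B|` = `N - 1` (`rk_adm`), `pn = ∑ w i - ∑_{b ∈ B} d b` (`pn_adm`).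
The `N` gradients of the `f b`, `b ∈ B`, and of `f j`, `d j = e`, `f j (c) ≠ 0`, are linearly independent
(orthogonality), so their determinant is not zero (choose a bijection of `Fin N` with `B ∪ {j}`), and
for some permutation all entries `(pderiv (σ b) (f b)) (c)` are not zero: `d b ≡ w (σ b)` modulo `b`.
Summing up, `∑_{b ∈ B} d b + e ≡ ∑ w i`.
-/

open MvPolynomial

namespace MotMono
namespace WH

variable {N r : ℕ}

theorem euler_weighted {w : Fin N → ℕ} {g : MvPolynomial (Fin N) ℂ} {e : ℕ}
    (hg : IsWeightedHomogeneous w g e) (x : Fin N → ℂ) :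
    ∑ i, ((w i : ℂ) * x i) * grad g x i = e * eval x g := by
  have h1 := congrArg (eval x) hg.sum_weight_X_mul_pderiv
  rw [map_sum, map_nsmul] at h1
  rw [nsmul_eq_mul] at h1
  rw [← h1]
  refine Finset.sum_congr rfl fun i _ => ?_
  rw [map_nsmul, map_mul, eval_X, nsmul_eq_mul, grad, mul_assoc]

/-- the functional `∑ w i x i v i` -/
private noncomputable def f3_phi (w : Fin N → ℕ) (x : Fin N → ℂ) : (Fin N → ℂ) →ₗ[ℂ] ℂ :=
  ∑ i, ((w i : ℂ) * x i) • LinearMap.proj i

private theorem f3_phi_apply (w : Fin N → ℕ) (x v : Fin N → ℂ) :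
    f3_phi w x v = ∑ i, ((w i : ℂ) * x i) * v i := by
  unfold f3_phi
  simp

private theorem f3_phi_grad {w : Fin N → ℕ} {g : MvPolynomial (Fin N) ℂ} {e : ℕ}
    (hg : IsWeightedHomogeneous w g e) (x : Fin N → ℂ) :
    f3_phi w x (grad g x) = e * eval x g := by
  rw [f3_phi_apply, euler_weighted hg]

private theorem f3_ker_lt {w : Fin N → ℕ} (hw : ∀ i, 0 < w i) {x : Fin N → ℂ} (hx : x ≠ 0) :
    Module.finrank ℂ (LinearMap.ker (f3_phi w x)) + 1 = N := by
  have h1 : f3_phi w x ≠ 0 := by
    intro h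
    refine hx (funext fun i => ?_)
    have h2 : f3_phi w x (Pi.single i 1) = 0 := by rw [h]; rfl
    rw [f3_phi_apply, Finset.sum_eq_single i] at h2
    · rw [Pi.single_eq_same, mul_one] at h2
      rcases mul_eq_zero.1 h2 with h3 | h3
      · exact absurd (Nat.cast_eq_zero.1 h3) (hw i).ne'
      · exact h3
    · intro k _ hk
      rw [Pi.single_eq_of_ne hk, mul_zero]
    · intro h3
      exact absurd (Finset.mem_univ i) h3
  have h2 := LinearMap.finrank_range_add_finrank_ker (f3_phi w x)
  have h3 : LinearMap.range (f3_phi w x) = ⊤ := LinearMap.range_eq_top.2 (LinearMap.surjective h1)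
  rw [h3, finrank_top, Module.finrank_self, Module.finrank_fin_fun] at h2
  omega

private theorem f3_rk_le {w : Fin N → ℕ} {d : Fin r → ℕ} {f : Fin r → MvPolynomial (Fin N) ℂ}
    (hW : Wt w d f) {x : Fin N → ℂ} (hx : x ≠ 0) (e : ℕ) (h : ∀ j, d j ≤ e → eval x (f j) = 0) :
    rk d f x e + 1 ≤ N := by
  have h1 : Submodule.span ℂ {v | ∃ j, d j ≤ e ∧ v = grad (f j) x} ≤ LinearMap.ker (f3_phi w x) := by
    rw [Submodule.span_le]
    rintro v ⟨j, hj, rfl⟩
    show f3_phi w x (grad (f j) x) = 0
    rw [f3_phi_grad (hW.hom j), h j hj, mul_zero]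
  have h2 := Submodule.finrank_mono h1
  have h3 := f3_ker_lt hW.w_pos hx
  unfold rk
  omega

/-- a monomial of `g` which does not vanish at `c` after differentiation -/
private theorem f3_dvd {w : Fin N → ℕ} {g : MvPolynomial (Fin N) ℂ} {δ : ℕ}
    (hg : IsWeightedHomogeneous w g δ) {c : Fin N → ℂ} {b : ℕ} (hb : ∀ i, c i ≠ 0 → b ∣ w i)
    {i : Fin N} (h : grad g c i ≠ 0) : (b : ℤ) ∣ (w i : ℤ) - δ := by
  classical
  have h1 : grad g c i = ∑ m ∈ g.support, coeff m g * (m i : ℂ) *
      ∏ k, c k ^ ((m - Finsupp.single i 1 : Fin N →₀ ℕ) k) := by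
    unfold grad
    conv_lhs => rw [← g.support_sum_monomial_coeff]
    rw [map_sum, map_sum]
    refine Finset.sum_congr rfl fun m _ => ?_
    rw [pderiv_monomial, eval_monomial, Finsupp.prod_fintype _ _ (fun k => pow_zero _)]
  rw [h1] at h
  obtain ⟨m, hm, hm0⟩ := Finset.exists_ne_zero_of_sum_ne_zero h
  have hmi : m i ≠ 0 := by
    intro h2
    refine hm0 ?_
    rw [h2, Nat.cast_zero, mul_zero, zero_mul]
  have hd : ∑ k, m k * w k = δ := by
    have h2 := hg (mem_support_iff.1 hm)
    rw [← h2, Finsupp.weight_apply, Finsupp.sum_fintype _ _ (by simp)]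
    simp
  have h3 : b ∣ ∑ k, (m - Finsupp.single i 1 : Fin N →₀ ℕ) k * w k := by
    refine Finset.dvd_sum fun k _ => ?_
    by_cases h4 : (m - Finsupp.single i 1 : Fin N →₀ ℕ) k = 0
    · rw [h4, zero_mul]
      exact dvd_zero _
    · refine (hb k fun h5 => hm0 ?_).mul_left _
      rw [Finset.prod_eq_zero (Finset.mem_univ k) (by rw [h5, zero_pow h4]), mul_zero]
  have h4 : ∀ k, m k = (m - Finsupp.single i 1 : Fin N →₀ ℕ) k + (if k = i then 1 else 0) := by
    intro k
    rw [Finsupp.tsub_apply, Finsupp.single_apply]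
    by_cases h5 : k = i
    · subst h5
      rw [if_pos rfl]
      omega
    · rw [if_neg (fun h6 => h5 h6.symm)]
      simp [h5]
  have h5 : δ = (∑ k, (m - Finsupp.single i 1 : Fin N →₀ ℕ) k * w k) + w i := by
    rw [← hd]
    have h6 : ∀ k, m k * w k = (m - Finsupp.single i 1 : Fin N →₀ ℕ) k * w k +
        (if k = i then w k else 0) := by
      intro k
      rw [h4 k, add_mul]
      by_cases h5 : k = i
      · rw [if_pos h5, if_pos h5, one_mul]
      · rw [if_neg h5, if_neg h5, zero_mul]
    rw [Finset.sum_congr rfl fun k _ => h6 k, Finset.sum_add_distrib, Finset.sum_ite_eq']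
    rw [if_pos (Finset.mem_univ i)]
  obtain ⟨q, hq⟩ := h3
  refine ⟨-q, ?_⟩
  rw [h5, hq]
  push_cast
  ring

theorem finVis_of_curve {w : Fin N → ℕ} {d : Fin r → ℕ} {f : Fin r → MvPolynomial (Fin N) ℂ}
    (hW : Wt w d f) {c : Fin N → ℂ} (hc : c ≠ 0) {e : ℕ} (hJ : Jump d f c e)
    (hr : CurveAt d f e) : FinVis w d f e (pn w d f c e) := by
  classical
  obtain ⟨hvan, hjump⟩ := hJ
  have he : 0 < e := by
    rcases Nat.eq_zero_or_pos e with h0 | h0
    · subst h0
      rcases hjump with ⟨j, hj, -⟩ | h1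
      · exact absurd hj (hW.d_pos j).ne'
      · exact absurd h1 (lt_irrefl _)
    · exact h0
  have hcr := hr c hc hvan
  -- (1)
  have hj0 : ∃ j, d j = e ∧ eval c (f j) ≠ 0 := by
    rcases hjump with h1 | h1
    · exact h1
    · by_contra h2
      push Not at h2
      have h3 := f3_rk_le hW hc e (fun j hj => by
        rcases Nat.lt_or_ge (d j) e with h4 | h4
        · exact hvan j h4
        · exact h2 j (le_antisymm hj h4))
      omega
  obtain ⟨j₀, hj₀, hne⟩ := hj0
  refine ⟨fun j => eval c (f j), c, ⟨j₀, hj₀, hne⟩, ?_, ⟨hvan, fun j _ => rfl⟩, ?_⟩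
  · -- (2)
    let g : Fin r → MvPolynomial (Fin N) ℂ := fun j =>
      if d j < e then f j else if d j = e then f j - C (eval c (f j)) else 0
    have hg1 : ∀ j, d j < e → g j = f j := fun j hj => if_pos hj
    have hg2 : ∀ j, d j = e → g j = f j - C (eval c (f j)) := fun j hj => by
      show (if d j < e then f j else if d j = e then f j - C (eval c (f j)) else 0) = _
      rw [if_neg (by omega), if_pos hj]
    have hg3 : ∀ j, e < d j → g j = 0 := fun j hj => by
      show (if d j < e then f j else if d j = e then f j - C (eval c (f j)) else 0) = _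
      rw [if_neg (by omega), if_neg (by omega)]
    have hset : fib0 d f e (fun j => eval c (f j)) = {x | ∀ k, eval x (g k) = 0} := by
      ext x
      constructor
      · rintro ⟨h1, h2⟩ k
        rcases lt_trichotomy (d k) e with h3 | h3 | h3
        · rw [hg1 k h3, h1 k h3]
        · rw [hg2 k h3, map_sub, eval_C, h2 k h3, sub_self]
        · rw [hg3 k h3, map_zero]
      · intro h1
        refine ⟨fun j hj => ?_, fun j hj => ?_⟩
        · have h2 := h1 j
          rwa [hg1 j hj] at h2
        · have h2 := h1 j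
          rw [hg2 j hj, map_sub, eval_C] at h2
          exact sub_eq_zero.1 h2
    rw [hset]
    refine finite_of_rank g fun x hx => ?_
    have hx' : x ∈ fib0 d f e (fun j => eval c (f j)) := by rw [hset]; exact hx
    have hxj : eval x (f j₀) ≠ 0 := by
      rw [hx'.2 j₀ hj₀]
      exact hne
    have hphi : f3_phi w x (grad (f j₀) x) ≠ 0 := by
      rw [f3_phi_grad (hW.hom j₀)]
      exact mul_ne_zero (Nat.cast_ne_zero.2 (hW.d_pos j₀).ne') hxj
    have hx0 : x ≠ 0 := by
      rintro rfl
      refine hphi ?_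
      rw [f3_phi_apply]
      refine Finset.sum_eq_zero fun i _ => ?_
      rw [Pi.zero_apply, mul_zero, zero_mul]
    have hV1 := hr x hx0 hx'.1
    unfold rk at hV1
    set V := Submodule.span ℂ {v | ∃ j, d j ≤ e - 1 ∧ v = grad (f j) x} with hV
    set W := Submodule.span ℂ (Set.range fun k => grad (g k) x) with hWd
    have hVW : V ≤ W := by
      rw [hV, Submodule.span_le]
      rintro v ⟨j, hj, rfl⟩
      refine Submodule.subset_span ⟨j, ?_⟩
      show grad (g j) x = grad (f j) x
      rw [hg1 j (by omega)]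
    have hVk : V ≤ LinearMap.ker (f3_phi w x) := by
      rw [hV, Submodule.span_le]
      rintro v ⟨j, hj, rfl⟩
      show f3_phi w x (grad (f j) x) = 0
      rw [f3_phi_grad (hW.hom j), hx'.1 j (by omega), mul_zero]
    have hu : grad (f j₀) x ∈ W := by
      refine Submodule.subset_span ⟨j₀, ?_⟩
      show grad (g j₀) x = grad (f j₀) x
      rw [hg2 j₀ hj₀]
      funext i
      unfold grad
      rw [map_sub, pderiv_C, sub_zero]
    have hlt : V < W := lt_of_le_of_ne hVW fun h1 => by
      rw [← h1] at hu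
      exact hphi (hVk hu)
    have h1 := Submodule.finrank_lt_finrank_of_lt hlt
    refine Submodule.eq_top_of_finrank_eq (le_antisymm (Submodule.finrank_le _) ?_)
    rw [Module.finrank_fin_fun]
    omega
  · -- (3)
    obtain ⟨E, B, hA⟩ := exists_adm d f c
    have hEe : E = e := by
      have h1 : E ≤ e := by
        by_contra h2
        exact hne (hA.van j₀ (by omega))
      obtain ⟨j, hj, hj1⟩ := hA.top (h1.trans (by rw [← hj₀]; exact le_dmax d j₀))
      rcases Nat.lt_or_ge E e with h2 | h2
      · exact absurd (hvan j (by omega)) hj1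
      · exact le_antisymm h1 h2
    subst hEe
    have hBf : (B.filter fun b => d b < E) = B := Finset.filter_true_of_mem hA.lt
    have hBf' : (B.filter fun b => d b ≤ E - 1) = B :=
      Finset.filter_true_of_mem fun b hb => by have := hA.lt b hb; omega
    have hrk : rk d f c (E - 1) = B.card := by rw [rk_adm hA (E - 1) (by omega), hBf']
    rw [pn_adm hW.d_pos hA E le_rfl, hBf]
    set b := (Finset.univ.filter fun i => c i ≠ 0).gcd w with hbdef
    have hb : ∀ i, c i ≠ 0 → b ∣ w i := fun i hi =>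
      Finset.gcd_dvd (Finset.mem_filter.2 ⟨Finset.mem_univ i, hi⟩)
    let v : Option B → Fin N → ℂ := fun o => o.elim (grad (f j₀) c) fun b => grad (f b) c
    have hli : LinearIndependent ℂ v := by
      rw [linearIndependent_option]
      refine ⟨hA.ind, fun h1 => ?_⟩
      have h2 : Submodule.span ℂ (Set.range (v ∘ (some : B → Option B))) ≤
          LinearMap.ker (f3_phi w c) := by
        rw [Submodule.span_le]
        rintro _ ⟨b', rfl⟩
        show f3_phi w c (grad (f b') c) = 0
        rw [f3_phi_grad (hW.hom b'), hA.van b' (hA.lt b' b'.2), mul_zero]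
      have h3 : f3_phi w c (grad (f j₀) c) = 0 := h2 h1
      rw [f3_phi_grad (hW.hom j₀)] at h3
      exact mul_ne_zero (Nat.cast_ne_zero.2 (hW.d_pos j₀).ne') hne h3
    have hcard : Fintype.card (Option B) = N := by
      have h1 := hli.fintype_card_le_finrank
      rw [Module.finrank_fin_fun] at h1
      rw [Fintype.card_option, Fintype.card_coe] at h1 ⊢
      omega
    let ε : Option B ≃ Fin N := Fintype.equivFinOfCardEq hcard
    let A : Matrix (Fin N) (Fin N) ℂ := Matrix.of fun i => v (ε.symm i)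
    have hA' : IsUnit A := by
      rw [← Matrix.linearIndependent_rows_iff_isUnit]
      exact hli.comp ε.symm ε.symm.injective
    have hdet : A.det ≠ 0 := ((Matrix.isUnit_iff_isUnit_det A).1 hA').ne_zero
    rw [Matrix.det_apply] at hdet
    obtain ⟨σ, -, hσ⟩ := Finset.exists_ne_zero_of_sum_ne_zero hdet
    have hσ' : ∀ i, A (σ i) i ≠ 0 := by
      intro i h1
      refine hσ ?_
      have h2 : ∏ i, A (σ i) i = 0 := Finset.prod_eq_zero (Finset.mem_univ i) h1
      rw [h2, smul_zero]
    let τ : Option B ≃ Fin N := ε.trans σ.symm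
    have hτ : ∀ o, v o (τ o) ≠ 0 := by
      intro o
      have h1 := hσ' (τ o)
      have h2 : σ (τ o) = ε o := σ.apply_symm_apply _
      rw [h2] at h1
      have h3 : A (ε o) (τ o) = v o (τ o) := by
        show v (ε.symm (ε o)) (τ o) = v o (τ o)
        rw [ε.symm_apply_apply]
      rwa [h3] at h1
    have hsum : ∑ i, (w i : ℤ) = (w (τ none) : ℤ) + ∑ b' : B, (w (τ (some b')) : ℤ) := by
      rw [← Equiv.sum_comp τ, Fintype.sum_option]
    have hsumB : ∑ b' ∈ B, (d b' : ℤ) = ∑ b' : B, (d b' : ℤ) := (Finset.sum_coe_sort B _).symm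
    have hbE : (b : ℤ) ∣ (E : ℤ) := by
      have h1 : ∃ i, c i ≠ 0 ∧ grad (f j₀) c i ≠ 0 := by
        by_contra h2
        push Not at h2
        have h3 := f3_phi_grad (hW.hom j₀) c
        rw [f3_phi_apply, Finset.sum_eq_zero] at h3
        · exact mul_ne_zero (Nat.cast_ne_zero.2 (hW.d_pos j₀).ne') hne h3.symm
        · intro i _
          by_cases h4 : c i = 0
          · rw [h4, mul_zero, zero_mul]
          · rw [h2 i h4, mul_zero]
      obtain ⟨i, hi, hgi⟩ := h1
      have h2 := f3_dvd (hW.hom j₀) hb hgi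
      rw [hj₀] at h2
      have h3 : (b : ℤ) ∣ (w i : ℤ) := Int.natCast_dvd_natCast.2 (hb i hi)
      exact (dvd_sub_right h3).1 h2
    have h1 : (b : ℤ) ∣ (w (τ none) : ℤ) := by
      have h2 := f3_dvd (hW.hom j₀) hb (hτ none)
      rw [hj₀] at h2
      exact (dvd_sub_left hbE).1 h2
    have h2 : (b : ℤ) ∣ ∑ b' : B, ((w (τ (some b')) : ℤ) - d b') :=
      Finset.dvd_sum fun b' _ => f3_dvd (hW.hom b') hb (hτ (some b'))
    rw [hsum, hsumB, add_sub_assoc, ← Finset.sum_sub_distrib]
    exact dvd_add h1 h2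

end WH
end MotMono
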