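import Pool.Agent.Lib.MP_4e5fcd_ag.CN.P4

/-!
# WH-G1: a generating function (finite pieces)

Let `q = Lu^(-1)`. Multiply by `1 - q^(α+βe) T^e`: the coefficient of `T^K` becomes
`[g ≤ K < g'] q^(βK+κ) + ∑_{m ≥ 1} [(m-1)e' + g' + e ≤ K < m e' + g'] q^(αm+βK+κ)` (shift `m` by one in
the second sum; `m e + g ≤ (m-1) e' + g' + e ≤ m e' + g'`). The first part is a polynomial. The
second part times `1 - q^(α+βe') T^(e')` is the polynomial
`∑_{g'+e ≤ K < e'+g'} q^(α+βK+κ) T^K`. `CN.mem_polar_of_mul` twice (the arguments are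
`a = α + β e`, `b = e`).
-/

open MvPolynomial

namespace MotMono
namespace WH

variable {N r : ℕ}

private theorem g1_poly (s₀ : ℚ) (Y : PowerSeries MC) (n : ℕ)
    (h : ∀ K, n ≤ K → PowerSeries.coeff K Y = 0) : Y ∈ polarRing s₀ := by
  refine Subring.subset_closure (Or.inl ⟨PowerSeries.trunc n Y, ?_⟩)
  ext K
  rw [Polynomial.coeff_coe, PowerSeries.coeff_trunc]
  by_cases hK : K < n
  · rw [if_pos hK]
  · rw [if_neg hK, h K (not_lt.1 hK)]

private theorem g1_coeff (Z : PowerSeries MC) (a : MC) (b K : ℕ) :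
    PowerSeries.coeff K (Z * (1 - PowerSeries.C a * PowerSeries.X ^ b)) =
      PowerSeries.coeff K Z - if b ≤ K then a * PowerSeries.coeff (K - b) Z else 0 := by
  have e : Z * (1 - PowerSeries.C a * PowerSeries.X ^ b) =
      Z - PowerSeries.C a * (Z * PowerSeries.X ^ b) := by ring
  rw [e, map_sub, PowerSeries.coeff_C_mul, PowerSeries.coeff_mul_X_pow']
  congr 1
  split_ifs with h
  · rfl
  · rw [mul_zero]

private theorem g1_shift (c : ℕ → ℕ → MC) (hc : ∀ m K, K < m → c m K = 0) (a : MC) (b : ℕ)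
    (hb : 0 < b) (K : ℕ) :
    PowerSeries.coeff K (PowerSeries.mk (fun K => ∑ m ∈ Finset.range (K + 1), c m K) *
      (1 - PowerSeries.C a * PowerSeries.X ^ b)) =
      c 0 K + ∑ m ∈ Finset.range K, (c (m + 1) K - if b ≤ K then a * c m (K - b) else 0) := by
  rw [g1_coeff, PowerSeries.coeff_mk, PowerSeries.coeff_mk, Finset.sum_range_succ',
    Finset.sum_sub_distrib]
  have e : (if b ≤ K then a * ∑ m ∈ Finset.range (K - b + 1), c m (K - b) else 0) =
      ∑ m ∈ Finset.range K, if b ≤ K then a * c m (K - b) else 0 := by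
    by_cases h : b ≤ K
    · simp only [if_pos h]
      rw [← Finset.mul_sum]
      congr 1
      refine Finset.sum_subset (Finset.range_subset_range.2 (by omega)) (fun m _ hm => ?_)
      rw [Finset.mem_range] at hm
      exact hc m (K - b) (by omega)
    · simp only [if_neg h, Finset.sum_const_zero]
  rw [e]
  ring

/-- the second part -/
private theorem g1_second (s₀ : ℚ) (e e' g' : ℕ) (he : 0 < e) (he' : 0 < e')
    (α β κ : ℤ) (h2 : -((α + β * e' : ℤ) : ℚ) / e' ≠ s₀) :
    PowerSeries.mk (fun K => ∑ m ∈ Finset.range (K + 1),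
      if m * e' + g' + e ≤ K ∧ K < (m + 1) * e' + g' then
        ((Lu ^ (-(α * (m + 1) + β * K + κ)) : MCˣ) : MC) else 0) ∈ polarRing s₀ := by
  refine CN.mem_polar_of_mul s₀ (α + β * e') e' he' h2 _ ?_
  refine g1_poly s₀ _ (e' + g') (fun K hK => ?_)
  rw [g1_shift (fun m K => if m * e' + g' + e ≤ K ∧ K < (m + 1) * e' + g' then
        ((Lu ^ (-(α * (m + 1) + β * K + κ)) : MCˣ) : MC) else 0) (fun m K hmK => ?_) _ e' he' K]
  · rw [Finset.sum_eq_zero, add_zero, if_neg (fun h => by omega)]
    intro m _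
    have hx : ((m + 1) * e' + g' + e ≤ K ∧ K < (m + 1 + 1) * e' + g') ↔
        (e' ≤ K ∧ m * e' + g' + e ≤ K - e' ∧ K - e' < (m + 1) * e' + g') := by
      have h3 : (m + 1) * e' = m * e' + e' := by ring
      have h4 : (m + 1 + 1) * e' = m * e' + e' + e' := by ring
      rw [h3, h4]
      omega
    by_cases hK : e' ≤ K
    · rw [if_pos hK]
      by_cases h3 : m * e' + g' + e ≤ K - e' ∧ K - e' < (m + 1) * e' + g'
      · rw [if_pos (hx.2 ⟨hK, h3⟩), if_pos h3, ← Units.val_mul, ← zpow_add, sub_eq_zero]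
        have e3 : -(α * (((m + 1 : ℕ) : ℤ) + 1) + β * (K : ℤ) + κ) =
            -(α + β * (e' : ℤ)) + -(α * ((m : ℤ) + 1) + β * ((K - e' : ℕ) : ℤ) + κ) := by
          rw [Nat.cast_sub hK]
          push_cast
          ring
        rw [e3]
      · rw [if_neg (fun h => h3 (hx.1 h).2), if_neg h3, mul_zero, sub_zero]
    · rw [if_neg hK, if_neg (fun h => hK (hx.1 h).1), sub_zero]
  · show (if m * e' + g' + e ≤ K ∧ K < (m + 1) * e' + g' then _ else _) = _
    rw [if_neg]
    intro h
    have : m ≤ m * e' := Nat.le_mul_of_pos_right m he'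
    omega

theorem gf_piece (s₀ : ℚ) (e g e' g' : ℕ) (he : 0 < e) (hee : e ≤ e') (hg : g ≤ g')
    (α β κ : ℤ) (h1 : -((α + β * e : ℤ) : ℚ) / e ≠ s₀) (h2 : -((α + β * e' : ℤ) : ℚ) / e' ≠ s₀) :
    PowerSeries.mk (fun K => ∑ m ∈ Finset.range (K + 1),
      if m * e + g ≤ K ∧ K < m * e' + g' then
        ((Lu ^ (-(α * m + β * K + κ)) : MCˣ) : MC) else 0) ∈ polarRing s₀ := by
  have he' : 0 < e' := lt_of_lt_of_le he hee
  refine CN.mem_polar_of_mul s₀ (α + β * e) e he h1 _ ?_
  have e1 : PowerSeries.mk (fun K => ∑ m ∈ Finset.range (K + 1),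
      if m * e + g ≤ K ∧ K < m * e' + g' then
        ((Lu ^ (-(α * m + β * K + κ)) : MCˣ) : MC) else 0) *
        (1 - PowerSeries.C ((Lu ^ (-(α + β * e)) : MCˣ) : MC) * PowerSeries.X ^ e) =
      PowerSeries.mk (fun K => if g ≤ K ∧ K < g' then
        ((Lu ^ (-(β * K + κ)) : MCˣ) : MC) else 0) +
      PowerSeries.mk (fun K => ∑ m ∈ Finset.range (K + 1),
        if m * e' + g' + e ≤ K ∧ K < (m + 1) * e' + g' then
          ((Lu ^ (-(α * (m + 1) + β * K + κ)) : MCˣ) : MC) else 0) := by
    ext K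
    rw [g1_shift (fun m K => if m * e + g ≤ K ∧ K < m * e' + g' then
      ((Lu ^ (-(α * m + β * K + κ)) : MCˣ) : MC) else 0) (fun m K hmK => ?_) _ e he K,
      map_add, PowerSeries.coeff_mk, PowerSeries.coeff_mk]
    · congr 1
      · have e2 : -(α * ((0 : ℕ) : ℤ) + β * (K : ℤ) + κ) = -(β * K + κ) := by
          push_cast
          ring
        simp only [zero_mul, zero_add]
        rw [e2]
      · rw [Finset.sum_range_succ, if_neg (fun h => ?_), add_zero]
        · refine Finset.sum_congr rfl (fun m _ => ?_)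
          have k1 : (m + 1) * e = m * e + e := by ring
          have k2 : (m + 1) * e' = m * e' + e' := by ring
          have k3 : m * e ≤ m * e' := Nat.mul_le_mul_left m hee
          have e3 : e ≤ K → -(α * ((m + 1 : ℕ) : ℤ) + β * (K : ℤ) + κ) =
              -(α + β * (e : ℤ)) + -(α * (m : ℤ) + β * ((K - e : ℕ) : ℤ) + κ) := by
            intro hK
            rw [Nat.cast_sub hK]
            push_cast
            ring
          have e4 : -(α * ((m + 1 : ℕ) : ℤ) + β * (K : ℤ) + κ) =
              -(α * ((m : ℤ) + 1) + β * (K : ℤ) + κ) := by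
            push_cast
            ring
          by_cases c1 : (m + 1) * e + g ≤ K ∧ K < (m + 1) * e' + g'
          · have hK : e ≤ K := by omega
            by_cases c2 : m * e' + g' + e ≤ K
            · have q2 : ¬(m * e + g ≤ K - e ∧ K - e < m * e' + g') := by omega
              have q3 : m * e' + g' + e ≤ K ∧ K < (m + 1) * e' + g' := ⟨c2, c1.2⟩
              rw [if_pos c1, if_pos hK, if_neg q2, if_pos q3, mul_zero, sub_zero, e4]
            · have q2 : m * e + g ≤ K - e ∧ K - e < m * e' + g' := by omega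
              have q3 : ¬(m * e' + g' + e ≤ K ∧ K < (m + 1) * e' + g') := by omega
              rw [if_pos c1, if_pos hK, if_pos q2, if_neg q3, ← Units.val_mul, ← zpow_add,
                sub_eq_zero, e3 hK]
          · have q3 : ¬(m * e' + g' + e ≤ K ∧ K < (m + 1) * e' + g') := by omega
            by_cases hK : e ≤ K
            · have q2 : ¬(m * e + g ≤ K - e ∧ K - e < m * e' + g') := by omega
              rw [if_neg c1, if_pos hK, if_neg q2, if_neg q3, mul_zero, sub_zero]
            · rw [if_neg c1, if_neg hK, if_neg q3, sub_zero]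
        · have : K ≤ K * e' := Nat.le_mul_of_pos_right K he'
          omega
    · show (if m * e + g ≤ K ∧ K < m * e' + g' then _ else _) = _
      rw [if_neg]
      intro h
      have : m ≤ m * e := Nat.le_mul_of_pos_right m he
      omega
  rw [e1]
  refine Subring.add_mem _ (g1_poly s₀ _ g' (fun K hK => ?_)) (g1_second s₀ e e' g' he he' α β κ h2)
  rw [PowerSeries.coeff_mk, if_neg (fun h => by omega)]

end WH
end MotMono
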