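import Pool.Agent.Lib.MP_4e5fcd_ag.CN.P4

/-!
# WH-G2: a generating function (infinite pieces)

Let `q = Lu^(-1)`. Times `1 - q^(α+βe) T^e`: the coefficient of `T^K` becomes
`[g ≤ K] q^(βK+κ)`, times `1 - q^β T` a polynomial. `CN.mem_polar_of_mul` twice (`a = β`, `b = 1`).
-/

open MvPolynomial

namespace MotMono
namespace WH

variable {N r : ℕ}

private theorem g2_poly (s₀ : ℚ) (Y : PowerSeries MC) (n : ℕ)
    (h : ∀ K, n ≤ K → PowerSeries.coeff K Y = 0) : Y ∈ polarRing s₀ := by
  refine Subring.subset_closure (Or.inl ⟨PowerSeries.trunc n Y, ?_⟩)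
  ext K
  rw [Polynomial.coeff_coe, PowerSeries.coeff_trunc]
  by_cases hK : K < n
  · rw [if_pos hK]
  · rw [if_neg hK, h K (not_lt.1 hK)]

private theorem g2_coeff (Z : PowerSeries MC) (a : MC) (b K : ℕ) :
    PowerSeries.coeff K (Z * (1 - PowerSeries.C a * PowerSeries.X ^ b)) =
      PowerSeries.coeff K Z - if b ≤ K then a * PowerSeries.coeff (K - b) Z else 0 := by
  have e : Z * (1 - PowerSeries.C a * PowerSeries.X ^ b) =
      Z - PowerSeries.C a * (Z * PowerSeries.X ^ b) := by ring
  rw [e, map_sub, PowerSeries.coeff_C_mul, PowerSeries.coeff_mul_X_pow']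
  congr 1
  split_ifs with h
  · rfl
  · rw [mul_zero]

private theorem g2_shift (c : ℕ → ℕ → MC) (hc : ∀ m K, K < m → c m K = 0) (a : MC) (b : ℕ)
    (hb : 0 < b) (K : ℕ) :
    PowerSeries.coeff K (PowerSeries.mk (fun K => ∑ m ∈ Finset.range (K + 1), c m K) *
      (1 - PowerSeries.C a * PowerSeries.X ^ b)) =
      c 0 K + ∑ m ∈ Finset.range K, (c (m + 1) K - if b ≤ K then a * c m (K - b) else 0) := by
  rw [g2_coeff, PowerSeries.coeff_mk, PowerSeries.coeff_mk, Finset.sum_range_succ',
    Finset.sum_sub_distrib]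
  have e : (if b ≤ K then a * ∑ m ∈ Finset.range (K - b + 1), c m (K - b) else 0) =
      ∑ m ∈ Finset.range K, if b ≤ K then a * c m (K - b) else 0 := by
    by_cases h : b ≤ K
    · simp only [if_pos h]
      rw [← Finset.mul_sum]
      congr 1
      refine Finset.sum_subset (Finset.range_subset_range.2 (by omega)) (fun m _ hm => ?_)
      rw [Finset.mem_range] at hm
      exact hc m (K - b) (by omega)
    · simp only [if_neg h, Finset.sum_const_zero]
  rw [e]
  ring

theorem gf_tail (s₀ : ℚ) (e g : ℕ) (he : 0 < e) (α β κ : ℤ)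
    (h1 : -((α + β * e : ℤ) : ℚ) / e ≠ s₀) (h2 : -(β : ℚ) ≠ s₀) :
    PowerSeries.mk (fun K => ∑ m ∈ Finset.range (K + 1),
      if m * e + g ≤ K then
        ((Lu ^ (-(α * m + β * K + κ)) : MCˣ) : MC) else 0) ∈ polarRing s₀ := by
  refine CN.mem_polar_of_mul s₀ (α + β * e) e he h1 _ ?_
  have e1 : PowerSeries.mk (fun K => ∑ m ∈ Finset.range (K + 1),
      if m * e + g ≤ K then ((Lu ^ (-(α * m + β * K + κ)) : MCˣ) : MC) else 0) *
        (1 - PowerSeries.C ((Lu ^ (-(α + β * e)) : MCˣ) : MC) * PowerSeries.X ^ e) =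
      PowerSeries.mk (fun K => if g ≤ K then ((Lu ^ (-(β * K + κ)) : MCˣ) : MC) else 0) := by
    ext K
    rw [g2_shift (fun m K => if m * e + g ≤ K then
      ((Lu ^ (-(α * m + β * K + κ)) : MCˣ) : MC) else 0) (fun m K hmK => ?_) _ e he K,
      PowerSeries.coeff_mk]
    · rw [Finset.sum_eq_zero, add_zero]
      · have e2 : -(α * ((0 : ℕ) : ℤ) + β * (K : ℤ) + κ) = -(β * K + κ) := by
          push_cast
          ring
        simp only [zero_mul, zero_add]
        rw [e2]
      · intro m _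
        have hx : ((m + 1) * e + g ≤ K) ↔ (e ≤ K ∧ m * e + g ≤ K - e) := by
          have : (m + 1) * e = m * e + e := by ring
          rw [this]
          omega
        by_cases hK : e ≤ K
        · rw [if_pos hK]
          by_cases h3 : m * e + g ≤ K - e
          · rw [if_pos (hx.2 ⟨hK, h3⟩), if_pos h3, ← Units.val_mul, ← zpow_add, sub_eq_zero]
            have e3 : -(α * ((m + 1 : ℕ) : ℤ) + β * (K : ℤ) + κ) =
                -(α + β * (e : ℤ)) + -(α * (m : ℤ) + β * ((K - e : ℕ) : ℤ) + κ) := by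
              rw [Nat.cast_sub hK]
              push_cast
              ring
            rw [e3]
          · rw [if_neg (fun h => h3 (hx.1 h).2), if_neg h3, mul_zero, sub_zero]
        · rw [if_neg hK, if_neg (fun h => hK (hx.1 h).1), sub_zero]
    · show (if m * e + g ≤ K then _ else _) = _
      rw [if_neg]
      intro h
      have : m ≤ m * e := Nat.le_mul_of_pos_right m he
      omega
  rw [e1]
  refine CN.mem_polar_of_mul s₀ β 1 one_pos (by rw [Nat.cast_one, div_one]; exact h2) _ ?_
  refine g2_poly s₀ _ (g + 1) (fun K hK => ?_)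
  rw [g2_coeff, if_pos (by omega), PowerSeries.coeff_mk, PowerSeries.coeff_mk,
    if_pos (by omega), if_pos (by omega), ← Units.val_mul, ← zpow_add, sub_eq_zero]
  have e3 : -(β * (K : ℤ) + κ) = -β + -(β * ((K - 1 : ℕ) : ℤ) + κ) := by
    rw [Nat.cast_sub (by omega : 1 ≤ K)]
    push_cast
    ring
  rw [e3]

end WH
end MotMono
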