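import Pool.Agent.Lib.MP_4e5fcd_ag.WH.Base
import Pool.Agent.Lib.MP_4e5fcd_ag.WH.G1
import Pool.Agent.Lib.MP_4e5fcd_ag.WH.G2

/-!
# WH-G3: the generating function of a stratum

Put `g(e) = h₀ e / M` (monotone), `Δ = {dm} ∪ d(B) ∪ U`. For `e ∈ Δ` let `R(e)` be the series with
the condition `m e + g(e) ≤ K` instead of `m dm + g(dm) ≤ K`. Induction from the top of `Δ`:
if `e ∈ U` then `R(e) = 0`. Otherwise let `e'` be the successor of `e` in `Δ`: `R(e) - R(e')` is the
series over `m e + g(e) ≤ K < m e' + g(e')` (for `e' ∈ Δ`, `e' ≤` the element of `U`, so the upper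
condition `K < m U + g(U)` is implied), and there `(K - (m d_b + g(d_b)))` is the exact difference
for `d b ≤ e` and `0` for `d b ≥ e'`: `gf_piece` with `α = W - ∑_{d b ≤ e} d b`,
`β = #{b ∈ B, d b ≤ e}`, `κ = c₀ - ∑_{d b ≤ e} g(d_b)`;
`α + β e = W + ∑_{d b ≤ e} (e - d b) = W + ∑_{d b < e} (e - d b)` and
`α + β e' = W + ∑_{d b ≤ e} (e' - d b) = W + ∑_{d b < e'} (e' - d b)`.
If `e` is the largest element of `Δ` and `U = none`: `gf_tail`, `β = |B|`.
-/

open MvPolynomial

namespace MotMono
namespace WH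

variable {N r : ℕ}

private theorem G3_mono (M h₀ : ℕ) {e e' : ℕ} (h : e ≤ e') (m : ℕ) :
    m * e + h₀ * e / M ≤ m * e' + h₀ * e' / M :=
  Nat.add_le_add (Nat.mul_le_mul_left _ h) (Nat.div_le_div_right (Nat.mul_le_mul_left _ h))

private theorem G3_exp (M h₀ : ℕ) (W c₀ : ℤ) (d : Fin r → ℕ) (B : Finset (Fin r)) (e m K : ℕ)
    (hK : m * e + h₀ * e / M ≤ K) (hB : ∀ b ∈ B, d b ≤ e ∨ K ≤ m * d b + h₀ * d b / M) :
    W * m + c₀ + ∑ b ∈ B, ((K - (m * d b + h₀ * d b / M) : ℕ) : ℤ) =
      (W - ∑ b ∈ B with d b ≤ e, (d b : ℤ)) * m +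
        ((B.filter (fun b => d b ≤ e)).card : ℤ) * K +
        (c₀ - ∑ b ∈ B with d b ≤ e, ((h₀ * d b / M : ℕ) : ℤ)) := by
  have h1 : ∑ b ∈ B, ((K - (m * d b + h₀ * d b / M) : ℕ) : ℤ) =
      ∑ b ∈ B with d b ≤ e, ((K : ℤ) - m * d b - ((h₀ * d b / M : ℕ) : ℤ)) := by
    rw [Finset.sum_filter]
    refine Finset.sum_congr rfl fun b hb => ?_
    split_ifs with h
    · have h2 := (G3_mono M h₀ h m).trans hK
      rw [Nat.cast_sub h2, Nat.cast_add, Nat.cast_mul]
      ring
    · rw [Nat.sub_eq_zero_of_le ((hB b hb).resolve_left h)]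
      rfl
  rw [h1, Finset.sum_sub_distrib, Finset.sum_sub_distrib, Finset.sum_const, ← Finset.mul_sum,
    nsmul_eq_mul]
  ring

/-- the series with the lower condition at `e` -/
private noncomputable def G3_R (M h₀ : ℕ) (W c₀ : ℤ) (d : Fin r → ℕ) (B : Finset (Fin r))
    (U : Option ℕ) (e : ℕ) : PowerSeries MC :=
  PowerSeries.mk (fun K => ∑ m ∈ Finset.range (K + 1),
    if m * e + h₀ * e / M ≤ K ∧ (∀ u ∈ U, K < m * u + h₀ * u / M) then
      ((Lu ^ (-(W * m + c₀ + ∑ b ∈ B, ((K - (m * d b + h₀ * d b / M) : ℕ) : ℤ))) : MCˣ) : MC)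
    else 0)

private theorem G3_sum (d : Fin r → ℕ) (B : Finset (Fin r)) (W : ℤ) (e e' : ℕ)
    (ha : ∀ b ∈ B, d b < e' → d b ≤ e) (hb : ∀ b ∈ B, d b ≤ e → d b ≤ e') :
    (W - ∑ b ∈ B with d b ≤ e, (d b : ℤ)) + ((B.filter (fun b => d b ≤ e)).card : ℤ) * (e' : ℤ) =
      W + ∑ b ∈ B with d b < e', ((e' : ℤ) - d b) := by
  have h1 : ∑ b ∈ B with d b < e', ((e' : ℤ) - d b) = ∑ b ∈ B with d b ≤ e, ((e' : ℤ) - d b) := by
    rw [Finset.sum_filter, Finset.sum_filter]
    refine Finset.sum_congr rfl fun b hbB => ?_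
    by_cases h3 : d b < e'
    · rw [if_pos h3, if_pos (ha b hbB h3)]
    · rw [if_neg h3]
      split_ifs with h4
      · have h5 := hb b hbB h4
        have h6 : d b = e' := by omega
        rw [h6, sub_self]
      · rfl
  rw [h1, Finset.sum_sub_distrib, Finset.sum_const, nsmul_eq_mul]
  ring

theorem gf_sector (s₀ : ℚ) {M : ℕ} (hM : 0 < M) (h₀ : ℕ) (W c₀ : ℤ) (d : Fin r → ℕ)
    (B : Finset (Fin r)) (dm : ℕ) (hdm : 0 < dm) (U : Option ℕ) (hB : ∀ b ∈ B, dm ≤ d b)
    (hU : ∀ e ∈ U, dm ≤ e ∧ ∀ b ∈ B, d b < e)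
    (h1 : ∀ e : ℕ, (e = dm ∨ (∃ b ∈ B, d b = e) ∨ e ∈ U) →
      -((W + ∑ b ∈ B with d b < e, ((e : ℤ) - d b) : ℤ) : ℚ) / e ≠ s₀)
    (h2 : U = none → -((B.card : ℤ) : ℚ) ≠ s₀) :
    PowerSeries.mk (fun K => ∑ m ∈ Finset.range (K + 1),
      if m * dm + h₀ * dm / M ≤ K ∧ (∀ e ∈ U, K < m * e + h₀ * e / M) then
        ((Lu ^ (-(W * m + c₀ + ∑ b ∈ B, ((K - (m * d b + h₀ * d b / M) : ℕ) : ℤ))) : MCˣ) : MC)
      else 0) ∈ polarRing s₀ := by
  classical
  set Δ : Finset ℕ := insert dm (B.image d ∪ U.toFinset) with hΔ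
  have hmem : ∀ e, e ∈ Δ ↔ (e = dm ∨ (∃ b ∈ B, d b = e) ∨ e ∈ U) := by
    intro e
    rw [hΔ, Finset.mem_insert, Finset.mem_union, Finset.mem_image, Option.mem_toFinset]
  have hpos : ∀ e ∈ Δ, 0 < e := by
    intro e he
    rcases (hmem e).1 he with h | ⟨b, hb, h⟩ | h
    · rw [h]; exact hdm
    · rw [← h]; exact lt_of_lt_of_le hdm (hB b hb)
    · exact lt_of_lt_of_le hdm (hU e h).1
  have hle : ∀ u ∈ U, ∀ e ∈ Δ, e ≤ u := by
    intro u hu e he
    rcases (hmem e).1 he with h | ⟨b, hb, h⟩ | h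
    · rw [h]; exact (hU u hu).1
    · rw [← h]; exact ((hU u hu).2 b hb).le
    · exact le_of_eq (Option.mem_unique h hu)
  have hdB : ∀ b ∈ B, d b ∈ Δ := fun b hb => (hmem _).2 (Or.inr (Or.inl ⟨b, hb, rfl⟩))
  have key : ∀ n : ℕ, ∀ e ∈ Δ, (Δ.filter (fun x => e < x)).card = n →
      G3_R M h₀ W c₀ d B U e ∈ polarRing s₀ := by
    intro n
    induction n using Nat.strong_induction_on with
    | _ n ih =>
      intro e he hn
      by_cases hne : (Δ.filter (fun x => e < x)).Nonempty
      · -- the successor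
        obtain ⟨e', he', hmin⟩ : ∃ e' ∈ Δ.filter (fun x => e < x),
            ∀ x ∈ Δ.filter (fun x => e < x), e' ≤ x :=
          ⟨_, Finset.min'_mem _ hne, fun x hx => Finset.min'_le _ x hx⟩
        have he'Δ : e' ∈ Δ := (Finset.mem_filter.1 he').1
        have hlt : e < e' := (Finset.mem_filter.1 he').2
        have hIH : G3_R M h₀ W c₀ d B U e' ∈ polarRing s₀ := by
          refine ih _ ?_ e' he'Δ rfl
          rw [← hn]
          apply Finset.card_lt_card
          rw [Finset.ssubset_iff_of_subset]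
          · exact ⟨e', he', by simp⟩
          · intro x hx
            rw [Finset.mem_filter] at hx ⊢
            exact ⟨hx.1, hlt.trans hx.2⟩
        have hsucc : ∀ b ∈ B, d b ≤ e ↔ d b < e' := by
          intro b hb
          constructor
          · intro h; omega
          · intro h
            by_contra h3
            have := hmin (d b) (Finset.mem_filter.2 ⟨hdB b hb, by omega⟩)
            omega
        have hpiece := gf_piece s₀ e (h₀ * e / M) e' (h₀ * e' / M) (hpos e he) hlt.le
          (Nat.div_le_div_right (Nat.mul_le_mul_left _ hlt.le))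
          (W - ∑ b ∈ B with d b ≤ e, (d b : ℤ)) ((B.filter (fun b => d b ≤ e)).card : ℤ)
          (c₀ - ∑ b ∈ B with d b ≤ e, ((h₀ * d b / M : ℕ) : ℤ))
          (by
            rw [G3_sum d B W e e (fun b _ h => h.le) (fun b _ h => h)]
            exact h1 e ((hmem e).1 he))
          (by
            rw [G3_sum d B W e e' (fun b hb h => (hsucc b hb).2 h) (fun b hb h => h.trans hlt.le)]
            exact h1 e' ((hmem e').1 he'Δ))
        have hadd : G3_R M h₀ W c₀ d B U e = G3_R M h₀ W c₀ d B U e' +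
            PowerSeries.mk (fun K => ∑ m ∈ Finset.range (K + 1),
              if m * e + h₀ * e / M ≤ K ∧ K < m * e' + h₀ * e' / M then
                ((Lu ^ (-((W - ∑ b ∈ B with d b ≤ e, (d b : ℤ)) * m +
                  ((B.filter (fun b => d b ≤ e)).card : ℤ) * K +
                  (c₀ - ∑ b ∈ B with d b ≤ e, ((h₀ * d b / M : ℕ) : ℤ)))) : MCˣ) : MC)
              else 0) := by
          ext K
          unfold G3_R
          rw [map_add, PowerSeries.coeff_mk, PowerSeries.coeff_mk, PowerSeries.coeff_mk,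
            ← Finset.sum_add_distrib]
          refine Finset.sum_congr rfl fun m _ => ?_
          have hm1 := G3_mono M h₀ hlt.le m
          by_cases hA' : m * e' + h₀ * e' / M ≤ K
          · have hA : m * e + h₀ * e / M ≤ K := hm1.trans hA'
            have h3 : ¬ (m * e + h₀ * e / M ≤ K ∧ K < m * e' + h₀ * e' / M) := by omega
            rw [if_neg h3, add_zero]
            by_cases hUc : ∀ u ∈ U, K < m * u + h₀ * u / M
            · rw [if_pos ⟨hA, hUc⟩, if_pos ⟨hA', hUc⟩]
            · rw [if_neg (fun h => hUc h.2), if_neg (fun h => hUc h.2)]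
          · have hlt' : K < m * e' + h₀ * e' / M := not_le.1 hA'
            rw [if_neg (fun h : m * e' + h₀ * e' / M ≤ K ∧ _ => hA' h.1), zero_add]
            have hUc : ∀ u ∈ U, K < m * u + h₀ * u / M := fun u hu =>
              lt_of_lt_of_le hlt' (G3_mono M h₀ (hle u hu e' he'Δ) m)
            by_cases hA : m * e + h₀ * e / M ≤ K
            · rw [if_pos ⟨hA, hUc⟩, if_pos ⟨hA, hlt'⟩, G3_exp M h₀ W c₀ d B e m K hA]
              intro b hb
              by_cases h4 : d b ≤ e
              · exact Or.inl h4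
              · right
                have h5 : e' ≤ d b := by
                  by_contra h6
                  exact h4 ((hsucc b hb).2 (not_le.1 h6))
                exact hlt'.le.trans (G3_mono M h₀ h5 m)
            · rw [if_neg (fun h => hA h.1), if_neg (fun h => hA h.1)]
        rw [hadd]
        exact Subring.add_mem _ hIH hpiece
      · rw [Finset.not_nonempty_iff_eq_empty] at hne
        have hmax : ∀ x ∈ Δ, x ≤ e := by
          intro x hx
          by_contra h3
          have h4 : x ∈ Δ.filter (fun x => e < x) := Finset.mem_filter.2 ⟨hx, by omega⟩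
          rw [hne] at h4
          exact Finset.notMem_empty _ h4
        rcases U with _ | u
        · have hBe : ∀ b ∈ B, d b ≤ e := fun b hb => hmax _ (hdB b hb)
          have hfil : B.filter (fun b => d b ≤ e) = B := Finset.filter_true_of_mem hBe
          have htail := gf_tail s₀ e (h₀ * e / M) (hpos e he)
            (W - ∑ b ∈ B with d b ≤ e, (d b : ℤ)) ((B.filter (fun b => d b ≤ e)).card : ℤ)
            (c₀ - ∑ b ∈ B with d b ≤ e, ((h₀ * d b / M : ℕ) : ℤ))
            (by
              rw [G3_sum d B W e e (fun b _ h => h.le) (fun b _ h => h)]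
              exact h1 e ((hmem e).1 he))
            (by
              rw [hfil]
              exact h2 rfl)
          refine (congrArg (· ∈ polarRing s₀) ?_).mp htail
          ext K
          unfold G3_R
          rw [PowerSeries.coeff_mk, PowerSeries.coeff_mk]
          refine Finset.sum_congr rfl fun m _ => ?_
          by_cases hA : m * e + h₀ * e / M ≤ K
          · rw [if_pos hA, if_pos ⟨hA, by simp⟩,
              G3_exp M h₀ W c₀ d B e m K hA (fun b hb => Or.inl (hBe b hb))]
          · rw [if_neg hA, if_neg (fun h => hA h.1)]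
        · have hue : u = e := by
            have hu : u ∈ Δ := (hmem u).2 (Or.inr (Or.inr rfl))
            exact le_antisymm (hmax u hu) (hle u rfl e he)
          subst hue
          have h0 : G3_R M h₀ W c₀ d B (some u) u = 0 := by
            ext K
            unfold G3_R
            rw [PowerSeries.coeff_mk, map_zero]
            refine Finset.sum_eq_zero fun m _ => ?_
            rw [if_neg]
            rintro ⟨h3, h4⟩
            have := h4 u rfl
            omega
          rw [h0]
          exact Subring.zero_mem _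
  exact key _ dm ((hmem dm).2 (Or.inl rfl)) rfl

end WH
end MotMono
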