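import Pool.Agent.Lib.MP_4e5fcd_ag.CN.P4
import Pool.Agent.Lib.MP_4e5fcd_ag.WH.Base

/-!
# WH-G4: the generating function of the ball

Times `1 - q^(|w|) T^dm` it is a polynomial of degree `< dm`:
`⌈(K + dm + 1) w_i / dm⌉ = ⌈(K + 1) w_i / dm⌉ + w_i`. `CN.mem_polar_of_mul`.
-/

open MvPolynomial

namespace MotMono
namespace WH

variable {N r : ℕ}

private theorem g4_poly (s₀ : ℚ) (Y : PowerSeries MC) (n : ℕ)
    (h : ∀ K, n ≤ K → PowerSeries.coeff K Y = 0) : Y ∈ polarRing s₀ := by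
  refine Subring.subset_closure (Or.inl ⟨PowerSeries.trunc n Y, ?_⟩)
  ext K
  rw [Polynomial.coeff_coe, PowerSeries.coeff_trunc]
  by_cases hK : K < n
  · rw [if_pos hK]
  · rw [if_neg hK, h K (not_lt.1 hK)]

private theorem g4_coeff (Z : PowerSeries MC) (a : MC) (b K : ℕ) :
    PowerSeries.coeff K (Z * (1 - PowerSeries.C a * PowerSeries.X ^ b)) =
      PowerSeries.coeff K Z - if b ≤ K then a * PowerSeries.coeff (K - b) Z else 0 := by
  have e : Z * (1 - PowerSeries.C a * PowerSeries.X ^ b) =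
      Z - PowerSeries.C a * (Z * PowerSeries.X ^ b) := by ring
  rw [e, map_sub, PowerSeries.coeff_C_mul, PowerSeries.coeff_mul_X_pow']
  congr 1
  split_ifs with h
  · rfl
  · rw [mul_zero]

private theorem g4_ceil (K w dm : ℕ) (hdm : 0 < dm) (hK : dm ≤ K) :
    ((K + 1) * w + dm - 1) / dm = w + ((K - dm + 1) * w + dm - 1) / dm := by
  obtain ⟨k, rfl⟩ := Nat.exists_eq_add_of_le hK
  have e : (dm + k + 1) * w + dm - 1 = ((dm + k - dm + 1) * w + dm - 1) + dm * w := by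
    have e1 : dm + k - dm = k := by omega
    rw [e1]
    have e2 : (dm + k + 1) * w = dm * w + (k + 1) * w := by ring
    rw [e2]
    omega
  rw [e, Nat.add_mul_div_left _ _ hdm]
  omega

theorem gf_ball (s₀ : ℚ) (w : Fin N → ℕ) (dm : ℕ) (hdm : 0 < dm)
    (h : -((∑ i, (w i : ℤ) : ℤ) : ℚ) / dm ≠ s₀) :
    PowerSeries.mk (fun K =>
      ((Lu ^ (-(∑ i, ((((K + 1) * w i + dm - 1) / dm : ℕ) : ℤ))) : MCˣ) : MC)) ∈
        polarRing s₀ := by
  refine CN.mem_polar_of_mul s₀ (∑ i, (w i : ℤ)) dm hdm h _ ?_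
  refine g4_poly s₀ _ dm (fun K hK => ?_)
  rw [g4_coeff, if_pos hK, PowerSeries.coeff_mk, PowerSeries.coeff_mk, ← Units.val_mul,
    ← zpow_add]
  have e : -(∑ i, ((((K + 1) * w i + dm - 1) / dm : ℕ) : ℤ)) =
      -(∑ i, (w i : ℤ)) + -(∑ i, ((((K - dm + 1) * w i + dm - 1) / dm : ℕ) : ℤ)) := by
    rw [← neg_add, ← Finset.sum_add_distrib]
    congr 1
    refine Finset.sum_congr rfl (fun i _ => ?_)
    rw [g4_ceil K (w i) dm hdm hK]
    push_cast
    rfl
  rw [e, sub_self]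

end WH
end MotMono
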