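import Pool.Agent.Lib.MP_4e5fcd_ag.WH.A2
import Pool.Agent.Lib.MP_4e5fcd_ag.WH.D3
import Pool.Agent.Lib.MP_4e5fcd_ag.WH.D4
import Pool.Agent.Lib.MP_4e5fcd_ag.WH.E1
import Pool.Agent.Lib.MP_4e5fcd_ag.WH.G3
import Pool.Agent.Lib.MP_4e5fcd_ag.WH.G4

/-!
# WH-G5: the poles

`M = ∏ i, w i`. If `N = 0` all `f j` are zero (`f j` is a constant, of positive degree): excluded
by `hne`. `dm` = the least `d j` with `f j ≠ 0`. Strata from `exists_strata`; `mu_formula` at
`K + 1`. Ball: `gf_ball`; the point `c = (1, …, 1) ≠ 0` has an admissible `(E, B)`, and `dm` is a jump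
at `c` (`dm_cases`, `jump_mem`, `jump_top`) with `kap w d B dm = |w|`, so `s₀ ≠ -|w|/dm`.
For `τ = (E, B)`: if `{c ∈ St τ, c ≠ 0}` is empty, the terms vanish. Otherwise choose `c` in it:
`Adm`, `Gen` (`gen_of_smooth`). Write `h = M m + h₀`, `1 ≤ h₀ ≤ M`:
`h e / M = m e + h₀ e / M`; `h dm < (K+1) M ↔ m dm + h₀ dm / M ≤ K`;
`(K+1) M ≤ h E ↔ K < m E + h₀ E / M`; `FixH w M h = FixH w M h₀`; `expn w d M B h (K+1) =
(∑ w_i) m + (N + ∑ h₀ w_i / M) + ∑_b (K - (m d_b + h₀ d_b / M))`; `m ≤ K`. So the series is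
`∑_{h₀} C (class) * (series of gf_sector)` with `W = ∑ w_i`, `U = some E` if `E ≤ dmax d`, `none`
otherwise. `h1`: `e` is a jump at `c` (`jump_mem`, `jump_top`, `dm_cases`), and
`W + ∑ … = kap w d B e = pn + e rk (e-1)` (`kap_eq`, `0 < e ≤ E`). `h2`: `s₀` is not an integer.
For `dm_cases` with `E = dm`: then `B` is empty by `lt` and `∀ b ∈ B, dm ≤ d b`, everything fits
(the series is zero or use it as it is: `U = some dm`).
-/

open MvPolynomial

namespace MotMono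
namespace WH

variable {N r : ℕ}

private theorem g5_const {w : Fin 0 → ℕ} {g : MvPolynomial (Fin 0) ℂ} {e : ℕ} (he : 0 < e)
    (hg : IsWeightedHomogeneous w g e) : g = 0 := by
  ext m
  rw [coeff_zero]
  by_contra h
  have h1 := hg h
  have h2 : m = 0 := Subsingleton.elim _ _
  rw [h2, map_zero] at h1
  omega

private theorem g5_fix (w : Fin N → ℕ) (M m h₀ : ℕ) : FixH w M (M * m + h₀) = FixH w M h₀ := by
  have h : ∀ i, M ∣ (M * m + h₀) * w i ↔ M ∣ h₀ * w i := by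
    intro i
    rw [add_mul, mul_assoc]
    exact Nat.dvd_add_right (Dvd.intro _ rfl)
  unfold FixH
  simp only [h]

private theorem g5_div {M : ℕ} (hM : 0 < M) (m h₀ e : ℕ) :
    (M * m + h₀) * e / M = m * e + h₀ * e / M := by
  rw [add_mul, mul_assoc, Nat.mul_add_div hM]

private theorem g5_expn (w : Fin N → ℕ) (d : Fin r → ℕ) {M : ℕ} (hM : 0 < M) (B : Finset (Fin r))
    (m h₀ K : ℕ) :
    expn w d M B (M * m + h₀) (K + 1) =
      (∑ i, (w i : ℤ)) * m + (N + ∑ i, ((h₀ * w i / M : ℕ) : ℤ)) +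
        ∑ b ∈ B, ((K - (m * d b + h₀ * d b / M) : ℕ) : ℤ) := by
  unfold expn
  have h1 : ∀ i, (((M * m + h₀) * w i / M : ℕ) : ℤ) = w i * m + ((h₀ * w i / M : ℕ) : ℤ) := by
    intro i
    rw [g5_div hM]
    push_cast
    ring
  have h2 : ∀ b, ((K + 1 - 1 - (M * m + h₀) * d b / M : ℕ) : ℤ) =
      ((K - (m * d b + h₀ * d b / M) : ℕ) : ℤ) := by
    intro b
    rw [g5_div hM, Nat.add_sub_cancel]
  simp only [h1, h2]
  rw [Finset.sum_add_distrib, Finset.sum_mul]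
  ring

private theorem g5_sum {A : Type*} [AddCommMonoid A] {M dm K E D : ℕ} (hM : 0 < M) (hdm : 0 < dm)
    (U : Option ℕ) (hU : ∀ e ∈ U, e = E ∧ E ≤ D) (hU' : E ≤ D → E ∈ U) (g : ℕ → A)
    (P : ℕ → Prop) [DecidablePred P]
    (hP : ∀ h, P h ↔ (1 ≤ h ∧ h * dm < (K + 1) * M ∧ (E ≤ D → (K + 1) * M ≤ h * E))) :
    (∑ h ∈ (Finset.range ((K + 1) * M)).filter P, g h) =
      ∑ h₀ ∈ Finset.Icc 1 M, ∑ m ∈ Finset.range (K + 1),
        if m * dm + h₀ * dm / M ≤ K ∧ (∀ e ∈ U, K < m * e + h₀ * e / M) then g (M * m + h₀)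
        else 0 := by
  have key : ∀ m h₀ : ℕ, 1 ≤ h₀ → h₀ ≤ M →
      ((1 ≤ M * m + h₀ ∧ (M * m + h₀) * dm < (K + 1) * M ∧
        (E ≤ D → (K + 1) * M ≤ (M * m + h₀) * E)) ↔
        (m * dm + h₀ * dm / M ≤ K ∧ (∀ e ∈ U, K < m * e + h₀ * e / M))) := by
    intro m h₀ h1 h2
    rw [← Nat.div_lt_iff_lt_mul hM, ← Nat.le_div_iff_mul_le hM, g5_div hM, g5_div hM]
    constructor
    · rintro ⟨-, h3, h4⟩
      refine ⟨by omega, fun e he => ?_⟩
      obtain ⟨rfl, h5⟩ := hU e he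
      have := h4 h5
      omega
    · rintro ⟨h3, h4⟩
      refine ⟨by omega, by omega, fun h5 => ?_⟩
      have := h4 E (hU' h5)
      omega
  rw [← Finset.sum_product', ← Finset.sum_filter]
  symm
  apply Finset.sum_bij (fun (p : ℕ × ℕ) _ => M * p.2 + p.1)
  · rintro ⟨h₀, m⟩ hp
    simp only [Finset.mem_filter, Finset.mem_product, Finset.mem_Icc, Finset.mem_range] at hp ⊢
    obtain ⟨⟨⟨h1, h2⟩, h3⟩, h4⟩ := hp
    have h5 := (key m h₀ h1 h2).2 h4
    refine ⟨?_, (hP _).2 h5⟩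
    calc M * m + h₀ ≤ (M * m + h₀) * dm := Nat.le_mul_of_pos_right _ hdm
      _ < _ := h5.2.1
  · rintro ⟨h₀, m⟩ hp ⟨h₀', m'⟩ hp' heq
    simp only [Finset.mem_filter, Finset.mem_product, Finset.mem_Icc, Finset.mem_range] at hp hp'
    obtain ⟨⟨⟨h1, h2⟩, -⟩, -⟩ := hp
    obtain ⟨⟨⟨h1', h2'⟩, -⟩, -⟩ := hp'
    have heq' : M * m + h₀ = M * m' + h₀' := heq
    have hm : m = m' := by
      rcases Nat.lt_trichotomy m m' with h | h | h
      · exfalso
        have := Nat.mul_le_mul_left M (show m + 1 ≤ m' from h)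
        rw [mul_add, mul_one] at this
        omega
      · exact h
      · exfalso
        have := Nat.mul_le_mul_left M (show m' + 1 ≤ m from h)
        rw [mul_add, mul_one] at this
        omega
    subst hm
    have : h₀ = h₀' := by omega
    rw [this]
  · intro h hh
    simp only [Finset.mem_filter, Finset.mem_range] at hh
    obtain ⟨h1, hh2⟩ := hh
    obtain ⟨h2, h3, h4⟩ := (hP _).1 hh2
    have e1 : M * ((h - 1) / M) + ((h - 1) % M + 1) = h := by
      have := Nat.div_add_mod (h - 1) M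
      omega
    have e2 : (h - 1) % M < M := Nat.mod_lt _ hM
    have e3 := (key ((h - 1) / M) ((h - 1) % M + 1) (by omega) (by omega)).1
      (by rw [e1]; exact ⟨h2, h3, h4⟩)
    refine ⟨((h - 1) % M + 1, (h - 1) / M), ?_, e1⟩
    simp only [Finset.mem_filter, Finset.mem_product, Finset.mem_Icc, Finset.mem_range]
    refine ⟨⟨⟨by omega, by omega⟩, ?_⟩, e3⟩
    rw [Nat.div_lt_iff_lt_mul hM]
    omega
  · rintro ⟨h₀, m⟩ hp
    rfl

private theorem g5_facts {w : Fin N → ℕ} {d : Fin r → ℕ} {f : Fin r → MvPolynomial (Fin N) ℂ}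
    (hW : Wt w d f)
    (hs : ∀ c, c ≠ 0 → ∀ e, (∀ j, d j ≤ e → eval c (f j) = 0) → SmoothAt (trn d f e) c)
    (s₀ : ℚ) (h1 : ∀ c, c ≠ 0 → ∀ e, Jump d f c e →
      -(((pn w d f c e + e * (rk d f c (e - 1) : ℤ) : ℤ)) : ℚ) / e ≠ s₀)
    {dm : ℕ} (hdm : ∀ j, f j ≠ 0 → dm ≤ d j) (hdm' : ∃ j, f j ≠ 0 ∧ d j = dm)
    {c : Fin N → ℂ} (hc : c ≠ 0) {E : ℕ} {B : Finset (Fin r)} (hA : Adm d f c E B) :
    dm ≤ E ∧ (∀ b ∈ B, dm ≤ d b) ∧ (∀ e : ℕ, (e = dm ∨ (∃ b ∈ B, d b = e) ∨ (e = E ∧ E ≤ dmax d)) →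
      -((kap w d B e : ℤ) : ℚ) / e ≠ s₀) := by
  obtain ⟨j₀, hj₀, hj₁⟩ := hdm'
  have hdm0 : 0 < dm := hj₁ ▸ hW.d_pos j₀
  have hG : Gen d f c E B := gen_of_smooth hA (hs c hc)
  obtain ⟨a1, a2, a3⟩ := dm_cases hA hG hdm ⟨j₀, hj₀, hj₁⟩
  refine ⟨a1, a3, ?_⟩
  have hdmd : dm ≤ dmax d := hj₁ ▸ le_dmax d j₀
  have hmain : ∀ e : ℕ, 0 < e → e ≤ E → Jump d f c e → -((kap w d B e : ℤ) : ℚ) / e ≠ s₀ := by
    intro e he0 he hj
    rw [kap_eq hW.d_pos hA e he he0]
    exact h1 c hc e hj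
  have htop : E ≤ dmax d → -((kap w d B E : ℤ) : ℚ) / E ≠ s₀ := fun h =>
    hmain E (by omega) le_rfl (jump_top hA h)
  have hmem : ∀ b ∈ B, -((kap w d B (d b) : ℤ) : ℚ) / (d b : ℕ) ≠ s₀ := fun b hb =>
    hmain (d b) (hW.d_pos b) (hA.lt b hb).le (jump_mem hW.d_pos hA hb)
  rintro e (rfl | ⟨b, hb, rfl⟩ | ⟨rfl, h⟩)
  · rcases a2 with h | ⟨b, hb, h⟩
    · have h4 := htop (h ▸ hdmd)
      rw [h] at h4
      exact h4
    · have h4 := hmem b hb
      rw [h] at h4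
      exact h4
  · exact hmem b hb
  · exact htop h

theorem polar_of_not_jump {w : Fin N → ℕ} {d : Fin r → ℕ} {f : Fin r → MvPolynomial (Fin N) ℂ}
    (hW : Wt w d f) (hne : ∃ j, f j ≠ 0)
    (hs : ∀ c, c ≠ 0 → ∀ e, (∀ j, d j ≤ e → eval c (f j) = 0) → SmoothAt (trn d f e) c)
    (s₀ : ℚ) (h1 : ∀ c, c ≠ 0 → ∀ e, Jump d f c e →
      -(((pn w d f c e + e * (rk d f c (e - 1) : ℤ) : ℤ)) : ℚ) / e ≠ s₀)
    (h2 : ∀ z : ℤ, (z : ℚ) ≠ s₀) :
    Zmot (Ideal.span (Set.range f)) ∈ polarRing s₀ := by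
  classical
  apply zmot_polar
  -- the least degree
  obtain ⟨j₀, hj₀, hj₁⟩ : ∃ j₀, f j₀ ≠ 0 ∧ ∀ j, f j ≠ 0 → d j₀ ≤ d j := by
    obtain ⟨j₁, hj₁⟩ := hne
    have hne' : (Finset.univ.filter fun j => f j ≠ 0).Nonempty :=
      ⟨j₁, by simp [hj₁]⟩
    obtain ⟨j₀, h3, h4⟩ := Finset.exists_min_image _ d hne'
    refine ⟨j₀, by simpa using h3, fun j hj => h4 j (by simp [hj])⟩
  have hdm0 : 0 < d j₀ := hW.d_pos j₀
  obtain ⟨dm, hdme⟩ : ∃ dm, dm = d j₀ := ⟨_, rfl⟩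
  rw [← hdme] at hdm0 hj₁
  have hdm' : ∃ j, f j ≠ 0 ∧ d j = dm := ⟨j₀, hj₀, hdme.symm⟩
  have hN : 0 < N := by
    rcases Nat.eq_zero_or_pos N with h | h
    · subst h
      exact absurd (g5_const (hW.d_pos j₀) (hW.hom j₀)) hj₀
    · exact h
  obtain ⟨M, hMe⟩ : ∃ M, M = ∏ i, w i := ⟨_, rfl⟩
  have hM : 0 < M := by
    rw [hMe]
    exact Finset.prod_pos fun i _ => hW.w_pos i
  have hwM : ∀ i, w i ∣ M := fun i => by
    rw [hMe]
    exact Finset.dvd_prod_of_mem _ (Finset.mem_univ i)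
  obtain ⟨St, hSt, hdis, hcov, hadm⟩ := exists_strata d f
  have hmu : PowerSeries.mk (fun K => mu f (K + 1)) =
      PowerSeries.mk (fun K =>
        ((Lu ^ (-(∑ i, ((((K + 1) * w i + dm - 1) / dm : ℕ) : ℤ))) : MCˣ) : MC)) +
      ∑ τ ∈ Finset.range (dmax d + 2) ×ˢ (Finset.univ : Finset (Finset (Fin r))),
        PowerSeries.mk (fun K =>
          ∑ h ∈ (Finset.range ((K + 1) * M)).filter (fun h => Rng d M dm τ.1 h (K + 1)),
            algebraMap K0 MC (cls {c | (c ∈ St τ ∧ c ≠ 0) ∧ c ∈ FixH w M h}) *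
              ((Lu ^ (-(expn w d M τ.2 h (K + 1))) : MCˣ) : MC)) := by
    ext K
    rw [PowerSeries.coeff_mk, map_add, PowerSeries.coeff_mk, map_sum]
    simp only [PowerSeries.coeff_mk]
    rw [mu_formula hW hM hwM (by omega) hdm0 hj₁ hs St hSt hdis hcov hadm]
  rw [hmu]
  apply Subring.add_mem
  · -- the ball
    apply gf_ball s₀ w dm hdm0
    have hc1 : (fun _ : Fin N => (1 : ℂ)) ≠ 0 := by
      intro h
      have := congrFun h ⟨0, hN⟩
      simp at this
    obtain ⟨τ, -, hτ⟩ := hcov (fun _ => 1)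
    obtain ⟨-, a2, a3⟩ := g5_facts hW hs s₀ h1 hj₁ hdm' hc1 (hadm τ _ hτ)
    have h4 := a3 dm (Or.inl rfl)
    have h5 : kap w d τ.2 dm = ∑ i, (w i : ℤ) := by
      unfold kap
      rw [Finset.filter_false_of_mem, Finset.sum_empty, add_zero]
      intro b hb
      have := a2 b hb
      omega
    rw [h5] at h4
    exact h4
  · apply Subring.sum_mem
    rintro ⟨E, B⟩ -
    by_cases hemp : ∃ c, c ∈ St (E, B) ∧ c ≠ 0
    · obtain ⟨c, hcS, hc0⟩ := hemp
      have hA : Adm d f c E B := hadm (E, B) c hcS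
      obtain ⟨a1, a2, a3⟩ := g5_facts hW hs s₀ h1 hj₁ hdm' hc0 hA
      obtain ⟨U, hU⟩ : ∃ U : Option ℕ, U = if E ≤ dmax d then some E else none := ⟨_, rfl⟩
      have hU1 : ∀ e ∈ U, e = E ∧ E ≤ dmax d := by
        intro e he
        rw [hU] at he
        split_ifs at he with h
        · exact ⟨(Option.some.inj he).symm, h⟩
        · simp at he
      have hU2 : E ≤ dmax d → E ∈ U := by
        intro h
        rw [hU, if_pos h]
        rfl
      have hser : PowerSeries.mk (fun K =>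
          ∑ h ∈ (Finset.range ((K + 1) * M)).filter (fun h => Rng d M dm E h (K + 1)),
            algebraMap K0 MC (cls {c | (c ∈ St (E, B) ∧ c ≠ 0) ∧ c ∈ FixH w M h}) *
              ((Lu ^ (-(expn w d M B h (K + 1))) : MCˣ) : MC)) =
          ∑ h₀ ∈ Finset.Icc 1 M,
            PowerSeries.C (algebraMap K0 MC
              (cls {c | (c ∈ St (E, B) ∧ c ≠ 0) ∧ c ∈ FixH w M h₀})) *
            PowerSeries.mk (fun K => ∑ m ∈ Finset.range (K + 1),
              if m * dm + h₀ * dm / M ≤ K ∧ (∀ e ∈ U, K < m * e + h₀ * e / M) then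
                ((Lu ^ (-((∑ i, (w i : ℤ)) * m + (N + ∑ i, ((h₀ * w i / M : ℕ) : ℤ)) +
                  ∑ b ∈ B, ((K - (m * d b + h₀ * d b / M) : ℕ) : ℤ))) : MCˣ) : MC)
              else 0) := by
        ext K
        rw [PowerSeries.coeff_mk, map_sum]
        simp only [PowerSeries.coeff_C_mul, PowerSeries.coeff_mk]
        refine (g5_sum (K := K) hM hdm0 U hU1 hU2 _ (fun h => Rng d M dm E h (K + 1))
          (fun h => Iff.rfl)).trans ?_
        apply Finset.sum_congr rfl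
        intro h₀ _
        rw [Finset.mul_sum]
        apply Finset.sum_congr rfl
        intro m _
        split_ifs with hcond
        · rw [g5_fix, g5_expn w d hM]
        · rw [mul_zero]
      have hgoal : PowerSeries.mk (fun K =>
          ∑ h ∈ (Finset.range ((K + 1) * M)).filter (fun h => Rng d M dm E h (K + 1)),
            algebraMap K0 MC (cls {c | (c ∈ St (E, B) ∧ c ≠ 0) ∧ c ∈ FixH w M h}) *
              ((Lu ^ (-(expn w d M B h (K + 1))) : MCˣ) : MC)) ∈ polarRing s₀ := by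
        rw [hser]
        apply Subring.sum_mem
        intro h₀ _
        apply Subring.mul_mem _ (CN.C_mem_polar s₀ _)
        apply gf_sector s₀ hM h₀ _ _ d B dm hdm0 U a2
        · intro e he
          obtain ⟨rfl, h3⟩ := hU1 e he
          exact ⟨a1, hA.lt⟩
        · intro e he
          have h4 := a3 e (by
            rcases he with h | h | h
            · exact Or.inl h
            · exact Or.inr (Or.inl h)
            · exact Or.inr (Or.inr (hU1 e h)))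
          exact h4
        · intro _ h4
          apply h2 (-(B.card : ℤ))
          rw [← h4]
          push_cast
          rfl
      exact hgoal
    · have hz : ∀ h : ℕ, cls {c | (c ∈ St (E, B) ∧ c ≠ 0) ∧ c ∈ FixH w M h} = 0 := by
        intro h
        have : {c | (c ∈ St (E, B) ∧ c ≠ 0) ∧ c ∈ FixH w M h} = (∅ : Set (Fin N → ℂ)) := by
          ext c
          constructor
          · rintro ⟨h3, -⟩
            exact hemp ⟨c, h3⟩
          · intro h3
            exact h3.elim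
        rw [this, cls_empty]
      have hz' : PowerSeries.mk (fun K =>
          ∑ h ∈ (Finset.range ((K + 1) * M)).filter (fun h => Rng d M dm E h (K + 1)),
            algebraMap K0 MC (cls {c | (c ∈ St (E, B) ∧ c ≠ 0) ∧ c ∈ FixH w M h}) *
              ((Lu ^ (-(expn w d M B h (K + 1))) : MCˣ) : MC)) = 0 := by
        ext K
        rw [PowerSeries.coeff_mk, map_zero]
        apply Finset.sum_eq_zero
        intro h _
        rw [hz h, map_zero, zero_mul]
      have hgoal : PowerSeries.mk (fun K =>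
          ∑ h ∈ (Finset.range ((K + 1) * M)).filter (fun h => Rng d M dm E h (K + 1)),
            algebraMap K0 MC (cls {c | (c ∈ St (E, B) ∧ c ≠ 0) ∧ c ∈ FixH w M h}) *
              ((Lu ^ (-(expn w d M B h (K + 1))) : MCˣ) : MC)) ∈ polarRing s₀ := by
        rw [hz']
        exact Subring.zero_mem _
      exact hgoal


end WH
end MotMono
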