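import Pool.Agent.Lib.MP_4e5fcd_ag.CN.G2
import Pool.Agent.Lib.MP_4e5fcd_ag.WH.G5
import Pool.Agent.Lib.MP_4e5fcd_ag.WH.V4

/-!
# WH-G6: families

Copy the proof of `CN.cone_reg` (CN-G2; `g2_cover` etc. are private: copy them): let `expo s₀` be not
near `0`; by `near_scale_w` it is not near any `c`. For a common zero `c ≠ 0`: `good_of_smooth`
(`hs` with `e = dmax d`, `trn_dmax`; all elements of the ideal vanish at `c`), instead of `hloc`. The
only difference: `Zmot (span F) ∈ polarRing s₀` is `polar_of_not_jump`: `h1`: if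
`s₀ = -(pn + e rk)/e` then `expo s₀ = exp (-2πi pn/e)` (`rk` is an integer; `e > 0` for a jump, `hW`)
which is near by `hp`; `h2`: if `s₀` is an integer then `expo s₀ = 1`, near by `h1`.
-/

open MvPolynomial

namespace MotMono
namespace WH

variable {N r : ℕ}

/-- finitely many of the `h_c` cover the zeros `≠ 0` -/
private theorem g6_cover {N : ℕ} (F : Set (MvPolynomial (Fin N) ℂ))
    (hc : (Fin N → ℂ) → MvPolynomial (Fin N) ℂ)
    (hh : ∀ c : Fin N → ℂ, c ≠ 0 → (∀ f ∈ F, eval c f = 0) → eval c (hc c) ≠ 0) :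
    ∃ S : Finset (MvPolynomial (Fin N) ℂ),
      (∀ h ∈ S, ∃ c : Fin N → ℂ, c ≠ 0 ∧ (∀ f ∈ F, eval c f = 0) ∧ h = hc c) ∧
      ∀ x : Fin N → ℂ, x ≠ 0 → (∀ f ∈ F, eval x f = 0) → ∃ h ∈ S, eval x h ≠ 0 := by
  classical
  set H : Set (MvPolynomial (Fin N) ℂ) :=
    {h | ∃ c : Fin N → ℂ, c ≠ 0 ∧ (∀ f ∈ F, eval c f = 0) ∧ h = hc c} with hH
  obtain ⟨P', hP', hspan⟩ := (Submodule.fg_span_iff_fg_span_finset_subset H).1
    (IsNoetherian.noetherian (Submodule.span (MvPolynomial (Fin N) ℂ) H))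
  refine ⟨P', fun h hh' => hP' hh', fun x hx hxF => ?_⟩
  by_contra hcon
  push Not at hcon
  have h2 : Ideal.span (P' : Set (MvPolynomial (Fin N) ℂ)) ≤ RingHom.ker (eval x) := by
    rw [Ideal.span_le]
    exact fun g hg => hcon g hg
  have h3 : hc x ∈ Ideal.span (P' : Set (MvPolynomial (Fin N) ℂ)) := by
    have h4 : hc x ∈ Ideal.span H := Ideal.subset_span ⟨x, hx, hxF, rfl⟩
    have h5 : Ideal.span H = Ideal.span (P' : Set (MvPolynomial (Fin N) ℂ)) := hspan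
    rwa [h5] at h4
  exact hh x hx hxF (h2 h3)

private theorem g6_constr_zeros {N : ℕ} {σ : Type} (F : Set (MvPolynomial (Fin N) ℂ)) :
    Constr {z : σ ⊕ Fin N → ℂ | ∀ f ∈ F, eval (fun i => z (Sum.inr i)) f = 0} :=
  (CN.constr_zeroLocus F).comp Sum.inr

private theorem g6_constr_zero {N : ℕ} {σ : Type} :
    Constr {z : σ ⊕ Fin N → ℂ | ∀ i, z (Sum.inr i) = 0} := by
  have h := (constr_singleton (0 : Fin N → ℂ)).comp (Sum.inr : Fin N → σ ⊕ Fin N)
  have e : {x : σ ⊕ Fin N → ℂ | (fun j => x (Sum.inr j)) ∈ ({0} : Set (Fin N → ℂ))} =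
      {z : σ ⊕ Fin N → ℂ | ∀ i, z (Sum.inr i) = 0} := by
    ext z
    rw [Set.mem_ofPred_eq, Set.mem_singleton_iff, Set.mem_ofPred_eq, funext_iff]
    rfl
  rwa [e] at h

/-- `exp (2 π i z) = 1` for integers `z` -/
private theorem g6_expo_int (z : ℤ) : CN.expo (z : ℚ) = 1 := by
  rw [CN.expo, Complex.exp_eq_one_iff]
  exact ⟨z, by push_cast; ring⟩

/-- the integral part `rk` does not matter -/
private theorem g6_expo_jump (p : ℤ) {e : ℕ} (he : 0 < e) (k : ℤ) :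
    CN.expo (-((p + e * k : ℤ) : ℚ) / e) =
      Complex.exp (-(2 * Real.pi * Complex.I * p / e)) := by
  have he' : (e : ℂ) ≠ 0 := by exact_mod_cast he.ne'
  rw [CN.expo]
  have h : (2 * Real.pi * Complex.I * ((-((p + e * k : ℤ) : ℚ) / e : ℚ) : ℂ)) =
      -(2 * Real.pi * Complex.I * p / e) + ((-k : ℤ) : ℂ) * (2 * Real.pi * Complex.I) := by
    push_cast
    field_simp
    ring
  rw [h, Complex.exp_add, Complex.exp_int_mul_two_pi_mul_I, mul_one]

/-- jumps are positive -/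
private theorem g6_jump_pos {w : Fin N → ℕ} {d : Fin r → ℕ} {f : Fin r → MvPolynomial (Fin N) ℂ}
    (hW : Wt w d f) {c : Fin N → ℂ} {e : ℕ} (hj : Jump d f c e) : 0 < e := by
  rcases Nat.eq_zero_or_pos e with rfl | h
  · exfalso
    rcases hj.2 with ⟨j, hj0, -⟩ | h
    · exact absurd (hW.d_pos j) (by omega)
    · exact lt_irrefl _ h
  · exact h

theorem reg_wh {χ : K0 →+* ℤ} (hχ : IsEulerCharF χ) {w : Fin N → ℕ} {d : Fin r → ℕ}
    {f : Fin r → MvPolynomial (Fin N) ℂ} (hW : Wt w d f) (hne : ∃ j, f j ≠ 0)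
    (hs : ∀ c, c ≠ 0 → ∀ e, (∀ j, d j ≤ e → eval c (f j) = 0) → SmoothAt (trn d f e) c)
    (hp : ∀ c, c ≠ 0 → ∀ e, Jump d f c e → CN.Near χ (Ideal.span (Set.range f)) 0
      (Complex.exp (-(2 * Real.pi * Complex.I * pn w d f c e / e))))
    (h1 : CN.Near χ (Ideal.span (Set.range f)) 0 1) :
    CN.Reg χ (Ideal.span (Set.range f)) 0 1 := by
  classical
  intro s₀ hs0 σ _ Γ hΓ _
  have hbot : Ideal.span (Set.range f) ≠ ⊥ := by
    obtain ⟨j, hj⟩ := hne
    intro h0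
    refine hj ?_
    have hm : f j ∈ Ideal.span (Set.range f) := Ideal.subset_span ⟨j, rfl⟩
    rw [h0] at hm
    exact (Submodule.mem_bot _).1 hm
  have hs' : ∀ c, ¬ CN.Near χ (Ideal.span (Set.range f)) c (CN.expo s₀) := fun c hn =>
    hs0 (near_scale_w hχ hW c _ hn)
  have hgood : ∀ c : Fin N → ℂ, c ≠ 0 → (∀ g ∈ Set.range f, eval c g = 0) →
      CN.Good χ (Ideal.span (Set.range f)) c := by
    intro c hc0 hcF
    refine good_of_smooth hχ hbot ?_ ?_
    · intro g hg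
      have : Ideal.span (Set.range f) ≤ RingHom.ker (eval c) := by
        rw [Ideal.span_le]
        exact fun g hg => hcF g hg
      exact this hg
    · have h := hs c hc0 (dmax d) fun j _ => hcF _ ⟨j, rfl⟩
      rwa [trn_dmax] at h
  have hex : ∀ c : Fin N → ℂ, ∃ h : MvPolynomial (Fin N) ℂ,
      c ≠ 0 → (∀ g ∈ Set.range f, eval c g = 0) →
        eval c h ≠ 0 ∧ CN.Reg χ (Ideal.span (Set.range f)) c h := by
    intro c
    by_cases h : c ≠ 0 ∧ ∀ g ∈ Set.range f, eval c g = 0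
    · obtain ⟨⟨g, hg, hr⟩, -⟩ := hgood c h.1 h.2
      exact ⟨g, fun _ _ => ⟨hg, hr⟩⟩
    · exact ⟨0, fun h1 h2 => absurd ⟨h1, h2⟩ h⟩
  choose hc hhc using hex
  obtain ⟨S, hS1, hS2⟩ := g6_cover (Set.range f) hc fun c h1 h2 => (hhc c h1 h2).1
  -- base points different from the origin
  have main : ∀ (τ : Type) [Finite τ] (Γ' : Set (τ ⊕ Fin N → ℂ)), Constr Γ' →
      (∀ z ∈ Γ', ∃ i, z (Sum.inr i) ≠ 0) →
        CN.Zf (Ideal.span (Set.range f)) Γ' ∈ polarRing s₀ := by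
    intro τ _ Γ' hΓ' hne
    have hA := g6_constr_zeros (σ := τ) (Set.range f)
    have e : Γ' = (Γ' ∩ {z | ∀ g ∈ Set.range f, eval (fun i => z (Sum.inr i)) g = 0}) ∪
        (Γ' \ {z | ∀ g ∈ Set.range f, eval (fun i => z (Sum.inr i)) g = 0}) :=
      (Set.inter_union_sdiff _ _).symm
    rw [e, CN.Zf_union _ (hΓ'.inter hA) (hΓ'.diff hA) (Set.disjoint_sdiff_inter.symm)]
    refine Subring.add_mem _ ?_ ?_
    · refine CN.cover_polar _ s₀ S ?_ _ (hΓ'.inter hA) ?_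
      · intro h hh Γ'' hΓ'' hne''
        obtain ⟨c, hc1, hc2, rfl⟩ := hS1 h hh
        exact (hhc c hc1 hc2).2 s₀ (hs' c) τ Γ'' hΓ'' hne''
      · rintro z ⟨hz1, hz2⟩
        refine hS2 _ ?_ hz2
        obtain ⟨i, hi⟩ := hne z hz1
        exact fun h0 => hi (congrFun h0 i)
    · rw [CN.Zf_off _ (hΓ'.diff hA)]
      · exact CN.C_mem_polar s₀ _
      · rintro z ⟨_, hz2⟩
        rw [Set.mem_ofPred_eq] at hz2
        push Not at hz2
        obtain ⟨g, hg, hg0⟩ := hz2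
        exact ⟨g, Ideal.subset_span hg, hg0⟩
  -- the zeta function at the origin
  have hZ : Zmot (Ideal.span (Set.range f)) ∈ polarRing s₀ := by
    refine polar_of_not_jump hW hne hs s₀ ?_ ?_
    · intro c hc0 e hj heq
      refine hs0 ?_
      rw [← heq, g6_expo_jump _ (g6_jump_pos hW hj)]
      exact hp c hc0 e hj
    · intro z hz
      refine hs0 ?_
      rw [← hz, g6_expo_int]
      exact h1
  have hA := g6_constr_zero (N := N) (σ := σ)
  have e : Γ = (Γ ∩ {z | ∀ i, z (Sum.inr i) = 0}) ∪ (Γ \ {z | ∀ i, z (Sum.inr i) = 0}) :=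
    (Set.inter_union_sdiff _ _).symm
  rw [e, CN.Zf_union _ (hΓ.inter hA) (hΓ.diff hA) (Set.disjoint_sdiff_inter.symm)]
  refine Subring.add_mem _ ?_ ?_
  · rw [CN.Zf_zero _ (hΓ.inter hA) fun z hz => hz.2]
    exact Subring.mul_mem _ (CN.C_mem_polar s₀ _) hZ
  · refine main σ _ (hΓ.diff hA) ?_
    rintro z ⟨_, hz⟩
    rw [Set.mem_ofPred_eq] at hz
    push Not at hz
    exact hz

end WH
end MotMono
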