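import Pool.Agent.Lib.MP_4e5fcd_ag.CN.V1
import Pool.Agent.Lib.MP_4e5fcd_ag.WH.F2
import Pool.Agent.Lib.MP_4e5fcd_ag.WH.F3
import Pool.Agent.Lib.MP_4e5fcd_ag.WH.G6
import Pool.Agent.Lib.MP_4e5fcd_ag.WH.V2
import Pool.Agent.Lib.MP_4e5fcd_ag.WH.V5c

/-!
# WH-M1: the theorem

`good_wh`: `h1`: if there is a common zero `c ≠ 0`: `near_one_of_zero` (`hs` with `e = dmax d`);
otherwise `eig_one` (`N > 0`: a non-zero `f j` of positive degree) and `vis_of_eig`. `hp`: `e ∣ pn`: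
the number is `1`; `CurveAt`: `finVis_of_curve`; `FinVis`: `eig_of_finVis`;
`Eig`: `vis_of_eig`. `reg_wh`. `wh_main`: `polar_of_not_jump`.
-/

open MvPolynomial

namespace MotMono
namespace WH

variable {N r : ℕ}

private theorem m1_pos {w : Fin N → ℕ} {d : Fin r → ℕ} {f : Fin r → MvPolynomial (Fin N) ℂ}
    (hW : Wt w d f) (hne : ∃ j, f j ≠ 0) : 0 < N := by
  rcases Nat.eq_zero_or_pos N with h | h
  · exfalso
    subst h
    obtain ⟨j, hj⟩ := hne
    obtain ⟨m, hm⟩ := MvPolynomial.ne_zero_iff.1 hj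
    have h1 := hW.hom j hm
    have h2 : m = 0 := Subsingleton.elim _ _
    rw [h2, map_zero] at h1
    exact (hW.d_pos j).ne h1
  · exact h

private theorem m1_exp (e : ℕ) (p : ℤ) (he : 0 < e) (h : (e : ℤ) ∣ p) :
    Complex.exp (-(2 * Real.pi * Complex.I * p / e)) = 1 := by
  obtain ⟨m, rfl⟩ := h
  have he' : (e : ℂ) ≠ 0 := by exact_mod_cast he.ne'
  have e1 : -(2 * Real.pi * Complex.I * (((e : ℤ) * m : ℤ) : ℂ) / (e : ℂ)) =
      ((-m : ℤ) : ℂ) * (2 * Real.pi * Complex.I) := by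
    push_cast
    field_simp
  rw [e1, Complex.exp_int_mul_two_pi_mul_I]

private theorem m1_jump_pos {d : Fin r → ℕ} {f : Fin r → MvPolynomial (Fin N) ℂ}
    (hd : ∀ j, 0 < d j) {c : Fin N → ℂ} {e : ℕ} (h : Jump d f c e) : 0 < e := by
  rcases Nat.eq_zero_or_pos e with h0 | h0
  · exfalso
    subst h0
    rcases h.2 with ⟨j, hj, _⟩ | h2
    · exact (hd j).ne' hj
    · exact lt_irrefl _ h2
  · exact h0

theorem near_of_eig {χ : K0 →+* ℤ} (hχ : IsEulerCharF χ) {w : Fin N → ℕ} {d : Fin r → ℕ}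
    {f : Fin r → MvPolynomial (Fin N) ℂ} (hW : Wt w d f) {lam : ℂ} (h : Eig χ w d f lam) :
    CN.Near χ (Ideal.span (Set.range f)) 0 lam :=
  fun ε hε => ⟨0, by simpa using hε, vis_of_eig hχ hW h⟩

theorem near_one {χ : K0 →+* ℤ} (hχ : IsEulerCharF χ) {w : Fin N → ℕ} {d : Fin r → ℕ}
    {f : Fin r → MvPolynomial (Fin N) ℂ} (hW : Wt w d f) (hne : ∃ j, f j ≠ 0)
    (hs : ∀ c, c ≠ 0 → ∀ e, (∀ j, d j ≤ e → eval c (f j) = 0) → SmoothAt (trn d f e) c) :
    CN.Near χ (Ideal.span (Set.range f)) 0 1 := by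
  by_cases hV : ∀ x : Fin N → ℂ, (∀ j, eval x (f j) = 0) → x = 0
  · exact near_of_eig hχ hW (eig_one hχ hW (m1_pos hW hne) hV)
  · push Not at hV
    obtain ⟨c, hc, hc0⟩ := hV
    exact near_one_of_zero hχ hW hne hc (hs c hc0 _ fun j _ => hc j)

theorem good_wh {χ : K0 →+* ℤ} (hχ : IsEulerCharF χ) (w : Fin N → ℕ) (d : Fin r → ℕ)
    (f : Fin r → MvPolynomial (Fin N) ℂ) (hw : ∀ i, 0 < w i) (hd : ∀ j, 0 < d j)
    (hf : ∀ j, IsWeightedHomogeneous w (f j) (d j)) (hne : ∃ j, f j ≠ 0)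
    (hs : ∀ c, c ≠ 0 → ∀ e, (∀ j, d j ≤ e → eval c (f j) = 0) → SmoothAt (trn d f e) c)
    (hp : ∀ c, c ≠ 0 → ∀ e, Jump d f c e → (e : ℤ) ∣ pn w d f c e ∨ CurveAt d f e ∨
      FinVis w d f e (pn w d f c e) ∨
      Eig χ w d f (Complex.exp (-(2 * Real.pi * Complex.I * pn w d f c e / e)))) :
    CN.Good χ (Ideal.span (Set.range f)) 0 := by
  have hW : Wt w d f := ⟨hw, hd, hf⟩
  have h1 := near_one hχ hW hne hs
  refine ⟨⟨1, by simp, reg_wh hχ hW hne hs ?_ h1⟩, h1⟩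
  intro c hc e hJ
  rcases hp c hc e hJ with h | h | h | h
  · rw [m1_exp e _ (m1_jump_pos hd hJ) h]
    exact h1
  · exact near_of_eig hχ hW (eig_of_finVis χ hW (finVis_of_curve hW hc hJ h))
  · exact near_of_eig hχ hW (eig_of_finVis χ hW h)
  · exact near_of_eig hχ hW h

private theorem m1_expo (e : ℕ) (p : ℤ) (k : ℕ) (he : 0 < e) :
    CN.expo (-((p + e * (k : ℤ) : ℤ) : ℚ) / e) =
      Complex.exp (-(2 * Real.pi * Complex.I * p / e)) := by
  have he' : (e : ℂ) ≠ 0 := by exact_mod_cast he.ne'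
  have e1 : 2 * Real.pi * Complex.I * (((-((p + e * (k : ℤ) : ℤ) : ℚ) / e : ℚ)) : ℂ) =
      -(2 * Real.pi * Complex.I * p / e) + ((-(k : ℤ) : ℤ) : ℂ) * (2 * Real.pi * Complex.I) := by
    push_cast
    field_simp
    ring
  rw [CN.expo, e1, Complex.exp_add, Complex.exp_int_mul_two_pi_mul_I, mul_one]

/-- the theorem for a given `s₀` -/
theorem wh_main {χ : K0 →+* ℤ} (hχ : IsEulerCharF χ) (w : Fin N → ℕ) (d : Fin r → ℕ)
    (f : Fin r → MvPolynomial (Fin N) ℂ) (hw : ∀ i, 0 < w i) (hd : ∀ j, 0 < d j)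
    (hf : ∀ j, IsWeightedHomogeneous w (f j) (d j)) (hne : ∃ j, f j ≠ 0)
    (hs : ∀ c, c ≠ 0 → ∀ e, (∀ j, d j ≤ e → eval c (f j) = 0) → SmoothAt (trn d f e) c) (s₀ : ℚ)
    (hp : ∀ c, c ≠ 0 → ∀ e, Jump d f c e →
      s₀ = -((pn w d f c e + e * (rk d f c (e - 1) : ℤ) : ℤ) : ℚ) / e →
      (e : ℤ) ∣ pn w d f c e ∨ CurveAt d f e ∨ FinVis w d f e (pn w d f c e) ∨
      Eig χ w d f (Complex.exp (2 * Real.pi * Complex.I * s₀)))
    (hpole : IsPole (Zmot (Ideal.span (Set.range f))) s₀) (ε : ℝ) (hε : 0 < ε) :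
    ∃ p : Fin N → ℂ, ‖p‖ < ε ∧ (∀ g ∈ Ideal.span (Set.range f), eval p g = 0) ∧
      ∃ y : ConePoint (Ideal.span (Set.range f)) p, y.Nonzero ∧
        ∃ Z, IsZeta (fun m => χ (cls (contactArcs (Ideal.span (Set.range f)) p y m))) Z ∧
          ZeroOrPole Z (Complex.exp (2 * Real.pi * Complex.I * s₀)) := by
  have hW : Wt w d f := ⟨hw, hd, hf⟩
  have hn : CN.Near χ (Ideal.span (Set.range f)) 0 (CN.expo s₀) := by
    by_contra hn
    apply hpole
    refine polar_of_not_jump hW hne hs s₀ (fun c hc e hJ heq => hn ?_) (fun z hz => hn ?_)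
    · have he := m1_jump_pos hd hJ
      have h2 := m1_expo e (pn w d f c e) (rk d f c (e - 1)) he
      rw [heq] at h2
      rcases hp c hc e hJ heq.symm with h | h | h | h
      · rw [h2, m1_exp e _ he h]
        exact near_one hχ hW hne hs
      · rw [h2]
        exact near_of_eig hχ hW (eig_of_finVis χ hW (finVis_of_curve hW hc hJ h))
      · rw [h2]
        exact near_of_eig hχ hW (eig_of_finVis χ hW h)
      · exact near_of_eig hχ hW h
    · have h2 : CN.expo s₀ = 1 := by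
        rw [CN.expo, ← hz]
        have e1 : 2 * Real.pi * Complex.I * (((z : ℚ)) : ℂ) =
            (z : ℂ) * (2 * Real.pi * Complex.I) := by
          push_cast
          ring
        rw [e1, Complex.exp_int_mul_two_pi_mul_I]
      rw [h2]
      exact near_one hχ hW hne hs
  obtain ⟨p, hp', hv⟩ := hn ε hε
  rw [sub_zero] at hp'
  obtain ⟨h1, y, hy, Z, hZ, hZP⟩ := CN.cone_of_vis hv
  exact ⟨p, hp', h1, y, hy, Z, hZ, hZP⟩

end WH
end MotMono
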