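import Pool.Agent.Lib.MP_4e5fcd_ag.K1
import Pool.Agent.Lib.MP_4e5fcd_ag.Mon.R2a
import Pool.Agent.Lib.MP_4e5fcd_ag.LF.X4
import Pool.Agent.Lib.MP_4e5fcd_ag.WH.Base

/-!
# WH-V5a: slices of the strata of the torus

`hu : ∑_{i ∈ A} u_i w_i = gcd`. If `A = {i}`: `u_i w_i = w_i`, `u_i = 1`, the slice is the point
with `x_i = 1`. If `A` has at least two elements there is an integral vector `v ≠ 0` supported on `A`
with `∑_{i ∈ A} v_i u_i = 0`; the slice is stable under `x_i ↦ τ^(v_i) x_i` and has no fixed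
points (`Mon.chi_fixed`, or `CN.chi_cstar`), so its Euler characteristic is `0`. `constr_slice`:
`mon A u x = 1` is equivalent to an equation between two monomials on `TA A`.
-/

open MvPolynomial

namespace MotMono
namespace WH

variable {N r : ℕ}

theorem constr_TA (A : Finset (Fin N)) : Constr (TA A) := by
  have h1 : TA A = ⋂ i : Fin N, {x : Fin N → ℂ | x i ≠ 0 ↔ i ∈ A} := by
    ext x
    simp only [TA, Set.mem_ofPred_eq, Set.mem_iInter]
  rw [h1]
  refine constr_iInter fun i => ?_
  by_cases hi : i ∈ A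
  · have h2 := constr_ne (X i : MvPolynomial (Fin N) ℂ)
    have h3 : {x : Fin N → ℂ | x i ≠ 0 ↔ i ∈ A} = {x | eval x (X i : MvPolynomial (Fin N) ℂ) ≠ 0} := by
      ext x
      simp only [Set.mem_ofPred_eq, eval_X, hi, iff_true]
    rw [h3]
    exact h2
  · have h2 := Constr.zeroSet (X i : MvPolynomial (Fin N) ℂ)
    have h3 : {x : Fin N → ℂ | x i ≠ 0 ↔ i ∈ A} = {x | eval x (X i : MvPolynomial (Fin N) ℂ) = 0} := by
      ext x
      simp only [Set.mem_ofPred_eq, eval_X, hi, iff_false, not_not]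
    rw [h3]
    exact h2

private theorem v5a_zpow {x : ℂ} (hx : x ≠ 0) (a : ℤ) : x ^ a * x ^ (-a).toNat = x ^ a.toNat := by
  rw [← zpow_natCast, ← zpow_natCast, ← zpow_add₀ hx]
  congr 1
  omega

private theorem v5a_mon {A : Finset (Fin N)} (u : Fin N → ℤ) {x : Fin N → ℂ} (hx : x ∈ TA A) :
    mon A u x * eval x (∏ i ∈ A, X i ^ (-u i).toNat : MvPolynomial (Fin N) ℂ) =
      eval x (∏ i ∈ A, X i ^ (u i).toNat : MvPolynomial (Fin N) ℂ) := by
  unfold mon
  simp only [map_prod, map_pow, eval_X]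
  rw [← Finset.prod_mul_distrib]
  exact Finset.prod_congr rfl fun i hi => v5a_zpow ((hx i).2 hi) (u i)

private theorem v5a_ne {A : Finset (Fin N)} (n : Fin N → ℕ) {x : Fin N → ℂ} (hx : x ∈ TA A) :
    eval x (∏ i ∈ A, X i ^ n i : MvPolynomial (Fin N) ℂ) ≠ 0 := by
  simp only [map_prod, map_pow, eval_X]
  exact Finset.prod_ne_zero_iff.2 fun i hi => pow_ne_zero _ ((hx i).2 hi)

theorem constr_slice (A : Finset (Fin N)) (u : Fin N → ℤ) :
    Constr {x | x ∈ TA A ∧ mon A u x = 1} := by
  have h1 : {x : Fin N → ℂ | x ∈ TA A ∧ mon A u x = 1} = TA A ∩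
      {x | eval x (∏ i ∈ A, X i ^ (u i).toNat : MvPolynomial (Fin N) ℂ) =
        eval x (∏ i ∈ A, X i ^ (-u i).toNat : MvPolynomial (Fin N) ℂ)} := by
    ext x
    simp only [Set.mem_ofPred_eq, Set.mem_inter_iff]
    refine and_congr_right fun hx => ?_
    have h2 := v5a_mon u hx
    have h3 := v5a_ne (fun i => (-u i).toNat) hx
    constructor
    · intro h
      rw [← h2, h, one_mul]
    · intro h
      rw [h] at h2
      exact mul_right_cancel₀ h3 (by rw [h2, one_mul])
  rw [h1]
  exact (constr_TA A).inter (constr_eq _ _)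

theorem constr_QA (d : Fin r → ℕ) (f : Fin r → MvPolynomial (Fin N) ℂ) (A : Finset (Fin N))
    (u : Fin N → ℤ) (e : ℕ) (y : Fin r → ℂ) (j₀ : Fin r) : Constr (QA d f A u e y j₀) := by
  classical
  have h1 : QA d f A u e y j₀ = {x | x ∈ TA A ∧ mon A u x = 1} ∩
      ((⋂ j ∈ Finset.univ.filter (fun j => d j < e), {x | eval x (f j) = 0}) ∩
      ((⋂ j ∈ Finset.univ.filter (fun j => d j = e), {x | eval x (f j) = eval x (C (y j) * f j₀)}) ∩
      {x | eval x (f j₀) ≠ 0})) := by
    ext x
    simp only [QA, Set.mem_ofPred_eq, Set.mem_inter_iff, Set.mem_iInter, Finset.mem_filter,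
      Finset.mem_univ, true_and, map_mul, eval_C]
    tauto
  rw [h1]
  exact (constr_slice A u).inter ((constr_biInter_finset _ fun j _ => Constr.zeroSet (f j)).inter
    ((constr_biInter_finset _ fun j _ => constr_eq _ _).inter (constr_ne (f j₀))))

theorem exists_bezout (w : Fin N → ℕ) (A : Finset (Fin N)) :
    ∃ u : Fin N → ℤ, ∑ i ∈ A, u i * (w i : ℤ) = ((A.gcd w : ℕ) : ℤ) := by
  classical
  induction A using Finset.induction_on with
  | empty => exact ⟨0, by simp⟩
  | insert a s ha ih =>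
    obtain ⟨u, hu⟩ := ih
    refine ⟨fun i => if i = a then Nat.gcdA (w a) (s.gcd w) else Nat.gcdB (w a) (s.gcd w) * u i, ?_⟩
    rw [Finset.sum_insert ha, Finset.gcd_insert]
    have h1 : ∑ x ∈ s, (if x = a then Nat.gcdA (w a) (s.gcd w) else
        Nat.gcdB (w a) (s.gcd w) * u x) * (w x : ℤ) = Nat.gcdB (w a) (s.gcd w) * ((s.gcd w : ℕ) : ℤ) := by
      rw [← hu, Finset.mul_sum]
      refine Finset.sum_congr rfl fun i hi => ?_
      have hia : i ≠ a := fun h => ha (h ▸ hi)
      rw [if_neg hia, mul_assoc]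
    rw [h1]
    beta_reduce
    rw [if_pos rfl]
    have h2 := Nat.gcd_eq_gcd_ab (w a) (s.gcd w)
    have h3 : (GCDMonoid.gcd (w a) (s.gcd w) : ℕ) = Nat.gcd (w a) (s.gcd w) := rfl
    rw [h3, h2]
    ring

theorem chi_slice_TA {χ : K0 →+* ℤ} (hχ : IsEulerCharF χ) {w : Fin N → ℕ} (hw : ∀ i, 0 < w i)
    {A : Finset (Fin N)} (hA : A.Nonempty) {u : Fin N → ℤ}
    (hu : ∑ i ∈ A, u i * (w i : ℤ) = ((A.gcd w : ℕ) : ℤ)) :
    χ (cls {x | x ∈ TA A ∧ mon A u x = 1}) = if A.card = 1 then 1 else 0 := by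
  classical
  by_cases hc : A.card = 1
  · rw [if_pos hc]
    obtain ⟨i, rfl⟩ := Finset.card_eq_one.1 hc
    rw [Finset.sum_singleton, Finset.gcd_singleton] at hu
    have hwi : (w i : ℤ) ≠ 0 := by exact_mod_cast (hw i).ne'
    have hnorm : (normalize (w i) : ℕ) = w i := normalize_eq _
    rw [hnorm] at hu
    have hui : u i = 1 := mul_right_cancel₀ hwi (by rw [hu, one_mul])
    have h1 : {x : Fin N → ℂ | x ∈ TA {i} ∧ mon {i} u x = 1} = {Pi.single i 1} := by
      ext x
      simp only [Set.mem_ofPred_eq, Set.mem_singleton_iff, mon, Finset.prod_singleton, hui, zpow_one, TA,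
        Finset.mem_singleton]
      constructor
      · rintro ⟨h2, h3⟩
        funext j
        by_cases hj : j = i
        · subst hj
          rw [h3, Pi.single_eq_same]
        · rw [Pi.single_eq_of_ne hj]
          by_contra h4
          exact hj ((h2 j).1 h4)
      · intro h2
        subst h2
        refine ⟨fun j => ?_, Pi.single_eq_same _ _⟩
        by_cases hj : j = i
        · subst hj
          rw [Pi.single_eq_same]
          simp
        · rw [Pi.single_eq_of_ne hj]
          simp [hj]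
    rw [h1, cls_singleton, map_one]
  · rw [if_neg hc]
    have h2 : 1 < A.card := by
      have := hA.card_pos
      omega
    obtain ⟨i, hi, k, hk, hik⟩ := Finset.one_lt_card.1 h2
    have hv : ∃ v : Fin N → ℤ, ∑ j ∈ A, v j * u j = 0 ∧ ∃ j ∈ A, v j ≠ 0 := by
      by_cases hui : u i = 0
      · refine ⟨Pi.single i 1, ?_, i, hi, by rw [Pi.single_eq_same]; exact one_ne_zero⟩
        rw [Finset.sum_eq_single i]
        · rw [hui, mul_zero]
        · intro j _ hj
          rw [Pi.single_eq_of_ne hj, zero_mul]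
        · intro h
          exact absurd hi h
      · refine ⟨fun j => (Pi.single i (u k) : Fin N → ℤ) j - (Pi.single k (u i) : Fin N → ℤ) j, ?_, k, hk, ?_⟩
        · simp only [sub_mul, Finset.sum_sub_distrib]
          rw [Finset.sum_eq_single i, Finset.sum_eq_single k]
          · rw [Pi.single_eq_same, Pi.single_eq_same]
            ring
          · intro j _ hj
            rw [Pi.single_eq_of_ne hj, zero_mul]
          · intro h
            exact absurd hk h
          · intro j _ hj
            rw [Pi.single_eq_of_ne hj, zero_mul]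
          · intro h
            exact absurd hi h
        · show (Pi.single i (u k) : Fin N → ℤ) k - (Pi.single k (u i) : Fin N → ℤ) k ≠ 0
          rw [Pi.single_eq_same, Pi.single_eq_of_ne (Ne.symm hik), zero_sub]
          exact neg_ne_zero.2 hui
    obtain ⟨v, hv1, j, hj, hvj⟩ := hv
    rw [Mon.chi_fixed χ (LF.isEulerChar_of_F hχ) _ (constr_slice A u) v ?_]
    · have h3 : {x : Fin N → ℂ | x ∈ {x : Fin N → ℂ | x ∈ TA A ∧ mon A u x = 1} ∧
          ∀ i, v i ≠ 0 → x i = 0} = ∅ := by
        rw [Set.eq_empty_iff_forall_notMem]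
        rintro x ⟨⟨h4, -⟩, h5⟩
        exact (h4 j).2 hj (h5 j hvj)
      rw [h3, cls_empty, map_zero]
    · rintro x ⟨h4, h5⟩ τ hτ
      refine ⟨fun i => ?_, ?_⟩
      · rw [← h4 i]
        show τ ^ v i * x i ≠ 0 ↔ x i ≠ 0
        constructor
        · intro h6 h7
          exact h6 (by rw [h7, mul_zero])
        · intro h6
          exact mul_ne_zero (zpow_ne_zero _ hτ) h6
      · unfold mon at h5 ⊢
        have h6 : ∀ i ∈ A, (τ ^ v i * x i) ^ u i = τ ^ (v i * u i) * x i ^ u i := by
          intro i _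
          rw [mul_zpow, ← zpow_mul]
        rw [Finset.prod_congr rfl h6, Finset.prod_mul_distrib, h5, mul_one]
        have h7 : ∀ s : Finset (Fin N), ∏ i ∈ s, τ ^ (v i * u i) = τ ^ (∑ i ∈ s, v i * u i) := by
          intro s
          induction s using Finset.induction_on with
          | empty => simp
          | insert a s ha ih => rw [Finset.prod_insert ha, Finset.sum_insert ha, zpow_add₀ hτ, ih]
        rw [h7, hv1, zpow_zero]

end WH
end MotMono
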